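import Pool.Agent.Lib.MP_98dfd6_al.Stmt

/-! Internal definitions. -/

namespace Pool.Agent.Lib.MP_98dfd6_al

open MulAction

/-- No non-trivial normal `p`-subgroup. -/
def NoP (p : ℕ) (G : Type) [Group G] : Prop :=
  ∀ N : Subgroup G, N.Normal → IsPGroup p N → N = ⊥

/-- The largest normal `p`-subgroup. -/
def Op (p : ℕ) (G : Type) [Group G] : Subgroup G :=
  sSup {N : Subgroup G | N.Normal ∧ IsPGroup p N}

/-- `F` is maximal among the normal nilpotent subgroups. -/
structure MaxNil {G : Type} [Group G] (F : Subgroup G) : Prop where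
  normal : F.Normal
  nil : Group.IsNilpotent F
  max : ∀ N : Subgroup G, N.Normal → Group.IsNilpotent N → F ≤ N → N = F

/-- Abelian `p'`-quotients of subgroups of small index are small. -/
def Lin (p : ℕ) (G : Type) [Group G] (m : ℕ) : Prop :=
  ∀ N L : Subgroup G, ⁅N, N⁆ ≤ L → (L.relIndex N).Coprime p → L.relIndex N ≤ m * N.index ^ 2

/-- Every orbit size occurs at most `m` times. -/
def Mult (H X : Type) [Group H] [MulAction H X] (m : ℕ) : Prop :=
  ∀ (s : ℕ) (T : Finset X), (∀ x ∈ T, (stabilizer H x).index = s) →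
    (∀ x ∈ T, ∀ y ∈ T, ∀ g : H, g • x = y → x = y) → T.card ≤ m

/-- The normal subgroups of index at most `C` separate the points. -/
def Resid (G : Type) [Group G] (C : ℕ) : Prop :=
  ∀ g : G, g ≠ 1 → ∃ N : Subgroup G, N.Normal ∧ N.index ≤ C ∧ g ∉ N

/-- Two disjoint invariant sets of comparable size. -/
def Bad (P X : Type) [Group P] [MulAction P X] (C : ℕ) : Prop :=
  ∃ (Y : Bool → Finset X) (y : ℕ), 0 < y ∧ Disjoint (Y true) (Y false) ∧
    (∀ b, ∀ g : P, ∀ x ∈ Y b, g • x ∈ Y b) ∧ ∀ b, y ≤ (Y b).card ∧ (Y b).card ≤ C * y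

/-- `s` subsets of `V`, right invariant under `U` and pairwise inequivalent under `V`. -/
def Fam {H : Type} [Group H] (U V : Subgroup H) (s : ℕ) : Prop :=
  ∃ D : Fin s → Set H, (∀ i, ∀ x ∈ D i, x ∈ V) ∧ (∀ i, ∀ x ∈ D i, ∀ u ∈ U, x * u ∈ D i) ∧
    ∀ i j, ∀ v ∈ V, (∀ x, x ∈ D i ↔ v * x ∈ D j) → i = j

/-- The permutation group induced by an action. -/
abbrev Im (G X : Type) [Group G] [MulAction G X] : Subgroup (Equiv.Perm X) :=
  (MulAction.toPermHom G X).range

/-- The map onto the induced permutation group. -/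
abbrev toIm (G X : Type) [Group G] [MulAction G X] : G →* Im G X :=
  (MulAction.toPermHom G X).rangeRestrict

theorem toIm_smul {G X : Type} [Group G] [MulAction G X] (g : G) (x : X) :
    toIm G X g • x = g • x := rfl

theorem toIm_surj (G X : Type) [Group G] [MulAction G X] : Function.Surjective (toIm G X) :=
  MonoidHom.rangeRestrict_surjective _

section Add

variable (H : Type) {X : Type} [Group H] [AddCommGroup X] [DistribMulAction H X]

instance imAct : DistribMulAction (Im H X) X where
  smul_zero σ := by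
    obtain ⟨g, rfl⟩ := toIm_surj H X σ
    rw [toIm_smul, smul_zero]
  smul_add σ x y := by
    obtain ⟨g, rfl⟩ := toIm_surj H X σ
    simp only [toIm_smul, smul_add]

variable (X) in
/-- Irreducible action. -/
def Irr : Prop :=
  Nontrivial X ∧ ∀ Y : AddSubgroup X, (∀ g : H, ∀ x ∈ Y, g • x ∈ Y) → Y = ⊥ ∨ Y = ⊤

/-- An idempotent whose conjugates are equal or orthogonal to it. -/
def Good (ε : X →+ X) : Prop :=
  ε ≠ 0 ∧ (∀ x, ε (ε x) = ε x) ∧ ∀ g : H, (∀ x, ε (g • x) = g • ε x) ∨ ∀ x, ε (g • ε x) = 0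

variable (X) in
/-- Primitive action. -/
def Prim : Prop := ∀ ε : X →+ X, Good H ε → ∀ x, ε x = x

/-- The stabiliser of an endomorphism. -/
def stb (ε : X →+ X) : Subgroup H where
  carrier := {g | ∀ x, ε (g • x) = g • ε x}
  mul_mem' := by
    intro a b ha hb x
    rw [mul_smul, ha, hb, mul_smul]
  one_mem' := by
    intro x
    rw [one_smul, one_smul]
  inv_mem' := by
    intro a ha x
    rw [eq_inv_smul_iff, ← ha, smul_inv_smul]

instance stbAct (ε : X →+ X) : DistribMulAction (stb H ε) ε.range where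
  smul g w := ⟨(g : H) • (w : X), by
    obtain ⟨x, hx⟩ := w.2
    exact ⟨(g : H) • x, by rw [g.2 x, hx]⟩⟩
  one_smul w := Subtype.ext (one_smul H (w : X))
  mul_smul a b w := Subtype.ext (mul_smul (a : H) (b : H) (w : X))
  smul_zero g := Subtype.ext (smul_zero (g : H))
  smul_add g v w := Subtype.ext (smul_add (g : H) (v : X) (w : X))

theorem stb_coe_smul (ε : X →+ X) (g : stb H ε) (w : ε.range) :
    ((g • w : ε.range) : X) = (g : H) • (w : X) := rfl

/-- The set of blocks in which `x` has a non-zero component. -/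
def sup (ε : X →+ X) (x : X) : Set (H ⧸ stb H ε) :=
  {q | ∃ g : H, (g : H ⧸ stb H ε) = q ∧ ε (g⁻¹ • x) ≠ 0}

end Add

section Ch

variable (k : Type) [Field k] {G : Type} [Group G]

/-- The linear characters of `F` that are trivial on `F ⊓ A`. -/
def chS (F A : Subgroup G) : Subgroup (F →* kˣ) where
  carrier := {x | ∀ f : F, (f : G) ∈ A → x f = 1}
  mul_mem' := by
    intro a b ha hb f hf
    rw [MonoidHom.mul_apply, ha f hf, hb f hf, one_mul]
  one_mem' := fun _ _ => rfl
  inv_mem' := by
    intro a ha f hf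
    rw [MonoidHom.inv_apply, ha f hf, inv_one]

/-- The same group, written additively. -/
def Ch (F A : Subgroup G) : Type := Additive (chS k F A)

instance (F A : Subgroup G) : AddCommGroup (Ch k F A) :=
  inferInstanceAs (AddCommGroup (Additive (chS k F A)))

variable {k}

/-- The character behind an element of `Ch`. -/
def Ch.val {F A : Subgroup G} (x : Ch k F A) : F →* kˣ := (Additive.toMul x : chS k F A).1

theorem Ch.prop {F A : Subgroup G} (x : Ch k F A) (f : F) (hf : (f : G) ∈ A) : x.val f = 1 :=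
  (Additive.toMul x : chS k F A).2 f hf

/-- An element of `Ch` from a character. -/
def Ch.mk {F A : Subgroup G} (x : F →* kˣ) (h : ∀ f : F, (f : G) ∈ A → x f = 1) : Ch k F A :=
  Additive.ofMul (⟨x, h⟩ : chS k F A)

theorem Ch.val_mk {F A : Subgroup G} (x : F →* kˣ) (h : ∀ f : F, (f : G) ∈ A → x f = 1) :
    (Ch.mk x h).val = x := rfl

theorem Ch.ext {F A : Subgroup G} {x y : Ch k F A} (h : ∀ f, x.val f = y.val f) : x = y :=
  Additive.toMul.injective (Subtype.ext (MonoidHom.ext h))

theorem Ch.val_add {F A : Subgroup G} (x y : Ch k F A) (f : F) :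
    (x + y).val f = x.val f * y.val f := rfl

theorem Ch.val_zero {F A : Subgroup G} (f : F) : (0 : Ch k F A).val f = 1 := rfl

/-- Conjugation of a character of a normal subgroup. -/
def cjc {F : Subgroup G} [F.Normal] (g : G) (x : F →* kˣ) : F →* kˣ :=
  x.comp (MulAut.conjNormal g⁻¹ : MulAut F).toMonoidHom

theorem cjc_apply {F : Subgroup G} [F.Normal] (g : G) (x : F →* kˣ) (f : F) :
    cjc g x f = x (MulAut.conjNormal g⁻¹ f) := rfl

instance chAct (F A : Subgroup G) [F.Normal] [hA : A.Normal] : DistribMulAction G (Ch k F A) where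
  smul g x := Ch.mk (cjc g x.val) fun f hf => x.prop _ (by
    change ((MulAut.conjNormal g⁻¹ f : F) : G) ∈ A
    rw [MulAut.conjNormal_apply]
    exact hA.conj_mem _ hf _)
  one_smul x := Ch.ext fun f => by
    change x.val (MulAut.conjNormal (1 : G)⁻¹ f) = x.val f
    rw [inv_one, map_one, MulAut.one_apply]
  mul_smul a b x := Ch.ext fun f => by
    change x.val (MulAut.conjNormal (a * b)⁻¹ f) =
      x.val (MulAut.conjNormal b⁻¹ (MulAut.conjNormal a⁻¹ f))
    rw [mul_inv_rev, map_mul, MulAut.mul_apply]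
  smul_zero g := Ch.ext fun _ => rfl
  smul_add g x y := Ch.ext fun _ => rfl

theorem Ch.val_smul {F A : Subgroup G} [F.Normal] [A.Normal] (g : G) (x : Ch k F A) :
    (g • x).val = cjc g x.val := rfl

end Ch

end Pool.Agent.Lib.MP_98dfd6_al
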