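import Pool.Agent.Lib.MP_98dfd6_al.Base

/-! Existence of a primitive block. -/

namespace Pool.Agent.Lib.MP_98dfd6_al

open MulAction

variable {H X : Type} [Group H] [AddCommGroup X] [DistribMulAction H X]

theorem fix_blk1 {ε : X →+ X} (hε : Good H ε) (w : ε.range) : ε (w : X) = w := by
  obtain ⟨x, hx⟩ := w.2
  rw [← hx, hε.2.1]

theorem Good.irr {ε : X →+ X} (hε : Good H ε) (hI : Irr H X) : Irr (stb H ε) ε.range := by
  constructor
  · obtain ⟨x, hx⟩ : ∃ x, ε x ≠ 0 := by
      by_contra h
      push Not at h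
      exact hε.1 (AddMonoidHom.ext h)
    exact ⟨⟨⟨ε x, x, rfl⟩, 0, fun h => hx (congrArg Subtype.val h)⟩⟩
  · intro W hW
    by_cases hb : W = ⊥
    · exact Or.inl hb
    right
    obtain ⟨w0, hw0, hne⟩ : ∃ w0 ∈ W, w0 ≠ 0 := by
      by_contra h
      push Not at h
      exact hb ((AddSubgroup.eq_bot_iff_forall W).2 h)
    let S : Set X := {y | ∃ g : H, ∃ w ∈ W, y = g • (w : X)}
    have hinv : ∀ g : H, ∀ x ∈ AddSubgroup.closure S, g • x ∈ AddSubgroup.closure S := by
      intro g x hx
      induction hx using AddSubgroup.closure_induction with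
      | mem y hy =>
        obtain ⟨h, w, hw, rfl⟩ := hy
        exact AddSubgroup.subset_closure ⟨g * h, w, hw, (mul_smul g h _).symm⟩
      | zero => rw [smul_zero]; exact zero_mem _
      | add a b _ _ ha hb => rw [smul_add]; exact add_mem ha hb
      | neg a _ ha => rw [smul_neg]; exact neg_mem ha
    have htop : AddSubgroup.closure S = ⊤ := by
      rcases hI.2 _ hinv with h | h
      · exfalso
        have h1 : (w0 : X) ∈ AddSubgroup.closure S :=
          AddSubgroup.subset_closure ⟨1, w0, hw0, (one_smul H _).symm⟩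
        rw [h, AddSubgroup.mem_bot] at h1
        exact hne (Subtype.ext h1)
      · exact h
    have hmem : ∀ x ∈ AddSubgroup.closure S, ε.rangeRestrict x ∈ W := by
      intro x hx
      induction hx using AddSubgroup.closure_induction with
      | mem y hy =>
        obtain ⟨g, w, hw, rfl⟩ := hy
        rcases hε.2.2 g with hg | hg
        · have h2 : ε.rangeRestrict (g • (w : X)) = (⟨g, hg⟩ : stb H ε) • w := by
            apply Subtype.ext
            change ε (g • (w : X)) = g • (w : X)
            rw [hg, fix_blk1 hε]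
          rw [h2]
          exact hW _ w hw
        · have h2 : ε.rangeRestrict (g • (w : X)) = 0 := by
            apply Subtype.ext
            change ε (g • (w : X)) = 0
            rw [← fix_blk1 hε w]
            exact hg _
          rw [h2]
          exact zero_mem _
      | zero => rw [map_zero]; exact zero_mem _
      | add a b _ _ ha hb => rw [map_add]; exact add_mem ha hb
      | neg a _ ha => rw [map_neg]; exact neg_mem ha
    rw [eq_top_iff]
    intro v _
    have h3 := hmem (v : X) (by rw [htop]; trivial)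
    have h4 : ε.rangeRestrict (v : X) = v := Subtype.ext (fix_blk1 hε v)
    rwa [h4] at h3

theorem good_comp_blk1 {ε : X →+ X} (hε : Good H ε) {η : ε.range →+ ε.range}
    (hη : Good (stb H ε) η) : Good H (ε.range.subtype.comp (η.comp ε.rangeRestrict)) := by
  have hrr : ∀ w : ε.range, ε.rangeRestrict (w : X) = w := fun w => Subtype.ext (fix_blk1 hε w)
  have happ : ∀ x, (ε.range.subtype.comp (η.comp ε.rangeRestrict)) x =
      ((η (ε.rangeRestrict x) : ε.range) : X) := fun _ => rfl
  refine ⟨?_, ?_, ?_⟩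
  · intro h
    apply hη.1
    refine AddMonoidHom.ext fun w => Subtype.ext ?_
    have h1 := DFunLike.congr_fun h (w : X)
    rw [happ, hrr] at h1
    exact h1
  · intro x
    rw [happ, happ, hrr, hη.2.1]
  · intro g
    rcases hε.2.2 g with hg | hg
    · have hc : ∀ x, ε.rangeRestrict (g • x) = (⟨g, hg⟩ : stb H ε) • ε.rangeRestrict x :=
        fun x => Subtype.ext (hg x)
      rcases hη.2.2 ⟨g, hg⟩ with h | h
      · left
        intro x
        rw [happ, happ, hc, h]
        rfl
      · right
        intro x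
        rw [happ, happ, hc, hrr, h]
        rfl
    · right
      intro x
      have h2 : ε.rangeRestrict (g • ((η (ε.rangeRestrict x) : ε.range) : X)) = 0 := by
        apply Subtype.ext
        change ε (g • ((η (ε.rangeRestrict x) : ε.range) : X)) = 0
        rw [← fix_blk1 hε (η (ε.rangeRestrict x))]
        exact hg _
      rw [happ, happ, h2, map_zero]
      rfl

theorem exists_block [Finite X] (hI : Irr H X) :
    ∃ ε : X →+ X, Good H ε ∧ Prim (stb H ε) ε.range := by
  have hid : Good H (AddMonoidHom.id X) := by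
    refine ⟨?_, fun _ => rfl, fun _ => Or.inl fun _ => rfl⟩
    intro h
    have := hI.1
    obtain ⟨x, hx⟩ := exists_ne (0 : X)
    exact hx (DFunLike.congr_fun h x)
  have hex : ∃ n, ∃ ε : X →+ X, Good H ε ∧ Nat.card ε.range = n := ⟨_, _, hid, rfl⟩
  classical
  obtain ⟨ε, hε, hn⟩ := Nat.find_spec hex
  refine ⟨ε, hε, ?_⟩
  intro η hη w
  have hθ := good_comp_blk1 hε hη
  have hle : Nat.card ε.range ≤
      Nat.card (ε.range.subtype.comp (η.comp ε.rangeRestrict)).range := by
    rw [hn]
    exact Nat.find_min' hex ⟨_, hθ, rfl⟩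
  have hsub : (ε.range.subtype.comp (η.comp ε.rangeRestrict)).range ≤ ε.range := by
    rintro _ ⟨x, rfl⟩
    exact (η (ε.rangeRestrict x)).2
  have heq := AddSubgroup.eq_of_le_of_card_ge hsub hle
  have hw : (w : X) ∈ (ε.range.subtype.comp (η.comp ε.rangeRestrict)).range := by
    rw [heq]
    exact w.2
  obtain ⟨x, hx⟩ := hw
  have h1 : η (ε.rangeRestrict x) = w := Subtype.ext hx
  rw [← h1, hη.2.1]

theorem exists_idem_pow {R : Type} [Monoid R] [Finite R] (a : R) :
    ∃ n, 0 < n ∧ a ^ n * a ^ n = a ^ n := by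
  obtain ⟨i, j, hij, h⟩ : ∃ i j : ℕ, i < j ∧ a ^ i = a ^ j := by
    obtain ⟨i, j, hne, h⟩ := Finite.exists_ne_map_eq_of_infinite (fun n : ℕ => a ^ n)
    rcases lt_or_gt_of_ne hne with h1 | h1
    · exact ⟨i, j, h1, h⟩
    · exact ⟨j, i, h1, h.symm⟩
  obtain ⟨d, rfl⟩ := Nat.exists_eq_add_of_lt hij
  have h1 : ∀ k : ℕ, a ^ (i + (d + 1) * k) = a ^ i := by
    intro k
    induction k with
    | zero => simp
    | succ k ih =>
      have e : i + (d + 1) * (k + 1) = (i + d + 1) + (d + 1) * k := by ring
      rw [e, pow_add, ← h, ← pow_add, ih]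
  refine ⟨(d + 1) * (i + 1), by positivity, ?_⟩
  have hge : i ≤ (d + 1) * (i + 1) := by nlinarith
  obtain ⟨c, hc⟩ := Nat.exists_eq_add_of_le hge
  calc a ^ ((d + 1) * (i + 1)) * a ^ ((d + 1) * (i + 1))
      = a ^ (i + (d + 1) * (i + 1)) * a ^ c := by
        rw [← pow_add, ← pow_add]
        congr 1
        omega
    _ = a ^ ((d + 1) * (i + 1)) := by rw [h1, ← pow_add, ← hc]

end Pool.Agent.Lib.MP_98dfd6_al
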