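import Pool.Agent.Lib.MP_98dfd6_al.Base

/-! Supports with respect to a system of blocks. -/

namespace Pool.Agent.Lib.MP_98dfd6_al

open MulAction

open Pointwise

variable {H X : Type} [Group H] [AddCommGroup X] [DistribMulAction H X] [Finite H] [Finite X]
  {ε : X →+ X}

omit [Finite H] [Finite X] in
theorem rel_Blk2 {g h : H} (e : (g : H ⧸ stb H ε) = h) (x : X) :
    ε (g⁻¹ • x) = (g⁻¹ * h) • ε (h⁻¹ • x) := by
  have b : ∀ y, ε ((g⁻¹ * h) • y) = (g⁻¹ * h) • ε y := QuotientGroup.eq.1 e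
  rw [← b, mul_smul, smul_inv_smul]

omit [Finite H] [Finite X] in
theorem proj_Blk2 {g h : H} (e : (g : H ⧸ stb H ε) = h) (x : X) :
    g • ε (g⁻¹ • x) = h • ε (h⁻¹ • x) := by
  rw [rel_Blk2 e, mul_smul, smul_inv_smul]

omit [Finite H] [Finite X] in
theorem orth_Blk2 (hε : Good H ε) {q q' : H ⧸ stb H ε} (e : q ≠ q') (z : X) :
    ε (q.out⁻¹ • q'.out • ε z) = 0 := by
  rw [← mul_smul]
  refine (hε.2.2 _).resolve_left (fun b => e ?_) z
  rw [← QuotientGroup.out_eq' q, ← QuotientGroup.out_eq' q']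
  exact QuotientGroup.eq.2 b

theorem mem_sup (g : H) (x : X) : (g : H ⧸ stb H ε) ∈ sup H ε x ↔ ε (g⁻¹ • x) ≠ 0 := by
  refine ⟨?_, fun h => ⟨g, rfl, h⟩⟩
  rintro ⟨h, e, hne⟩ h0
  rw [rel_Blk2 e, h0, smul_zero] at hne
  exact hne rfl

theorem sup_smul (g : H) (x : X) : sup H ε (g • x) = g • sup H ε x := by
  ext q
  induction q using QuotientGroup.induction_on with
  | H h =>
    rw [Set.mem_smul_set_iff_inv_smul_mem, MulAction.Quotient.smul_coe, mem_sup, mem_sup,
      smul_eq_mul, mul_inv_rev, inv_inv, mul_smul]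

theorem blk_sum [Fintype (H ⧸ stb H ε)] (hε : Good H ε) (hI : Irr H X) (x : X) :
    ∑ q : H ⧸ stb H ε, q.out • ε (q.out⁻¹ • x) = x := by
  let Y : AddSubgroup X :=
    { carrier := {x | ∑ q : H ⧸ stb H ε, q.out • ε (q.out⁻¹ • x) = x}
      add_mem' := by
        intro a b ha hb
        simp only [Set.mem_ofPred_eq] at ha hb ⊢
        simp only [smul_add, map_add, Finset.sum_add_distrib, ha, hb]
      zero_mem' := by
        simp only [Set.mem_ofPred_eq, smul_zero, map_zero, Finset.sum_const_zero]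
      neg_mem' := by
        intro a ha
        simp only [Set.mem_ofPred_eq] at ha ⊢
        simp only [smul_neg, map_neg, Finset.sum_neg_distrib, ha] }
  have mem : ∀ x, x ∈ Y ↔ ∑ q : H ⧸ stb H ε, q.out • ε (q.out⁻¹ • x) = x := fun _ => Iff.rfl
  have inv : ∀ g : H, ∀ x ∈ Y, g • x ∈ Y := by
    intro g x hx
    rw [mem] at hx ⊢
    rw [← Equiv.sum_comp (MulAction.toPerm g)]
    conv_rhs => rw [← hx, Finset.smul_sum]
    refine Finset.sum_congr rfl fun q _ => ?_
    have e : (((g • q : H ⧸ stb H ε).out : H) : H ⧸ stb H ε) = (g * q.out : H) := by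
      rw [QuotientGroup.out_eq', ← smul_eq_mul, ← MulAction.Quotient.smul_coe,
        QuotientGroup.out_eq']
    rw [MulAction.toPerm_apply, proj_Blk2 e, mul_inv_rev, mul_smul, mul_smul, inv_smul_smul]
  rcases hI.2 Y inv with h | h
  · refine absurd (AddMonoidHom.ext fun z => ?_) hε.1
    have a : ((1 : H) : H ⧸ stb H ε).out • ε z ∈ Y := by
      rw [mem, Finset.sum_eq_single ((1 : H) : H ⧸ stb H ε)]
      · rw [inv_smul_smul, hε.2.1]
      · intro q _ hq
        rw [orth_Blk2 hε hq, smul_zero]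
      · exact fun a => absurd (Finset.mem_univ _) a
    rw [h, AddSubgroup.mem_bot] at a
    exact (smul_eq_zero_iff_eq _).1 a
  · rw [← mem, h]
    exact AddSubgroup.mem_top x

theorem blk_ext (hε : Good H ε) (hI : Irr H X) {x : X} (h : ∀ g : H, ε (g • x) = 0) : x = 0 := by
  have := Fintype.ofFinite (H ⧸ stb H ε)
  rw [← blk_sum hε hI x]
  exact Finset.sum_eq_zero fun q _ => by rw [h, smul_zero]

theorem blk_equiv (hε : Good H ε) (hI : Irr H X) :
    ∃ e : X ≃ (H ⧸ stb H ε → ε.range), ∀ x q, (e x q : X) = ε (q.out⁻¹ • x) := by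
  have := Fintype.ofFinite (H ⧸ stb H ε)
  refine ⟨Equiv.ofBijective (fun x q => ⟨ε (q.out⁻¹ • x), _, rfl⟩) ⟨?_, ?_⟩, fun _ _ => rfl⟩
  · intro x y h
    rw [← blk_sum hε hI x, ← blk_sum hε hI y]
    refine Finset.sum_congr rfl fun q _ => ?_
    have a : ε (q.out⁻¹ • x) = ε (q.out⁻¹ • y) := congrArg Subtype.val (congrFun h q)
    rw [a]
  · intro w
    refine ⟨∑ q : H ⧸ stb H ε, q.out • (w q : X), funext fun q => Subtype.ext ?_⟩
    change ε (q.out⁻¹ • ∑ q : H ⧸ stb H ε, q.out • (w q : X)) = w q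
    rw [Finset.smul_sum, map_sum, Finset.sum_eq_single q]
    · obtain ⟨z, hz⟩ := (w q).2
      rw [inv_smul_smul, ← hz, hε.2.1]
    · intro q' _ hq
      obtain ⟨z, hz⟩ := (w q').2
      rw [← hz, orth_Blk2 hε hq.symm]
    · exact fun a => absurd (Finset.mem_univ _) a

theorem blk_card (hε : Good H ε) (hI : Irr H X) :
    Nat.card X = Nat.card ε.range ^ (stb H ε).index := by
  obtain ⟨e, -⟩ := blk_equiv hε hI
  rw [Nat.card_congr e, Nat.card_fun, Subgroup.index_eq_card]

theorem blk_card_sup (hε : Good H ε) (hI : Irr H X) (S : Set (H ⧸ stb H ε)) :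
    {x | sup H ε x = S}.ncard = (Nat.card ε.range - 1) ^ S.ncard := by
  classical
  have := Fintype.ofFinite (H ⧸ stb H ε)
  have := Fintype.ofFinite ε.range
  obtain ⟨e, he⟩ := blk_equiv hε hI
  have m : ∀ x q, q ∈ sup H ε x ↔ e x q ≠ 0 := by
    intro x q
    rw [Ne, Subtype.ext_iff, he, ← QuotientGroup.out_eq' q, mem_sup, QuotientGroup.out_eq' q]
    rfl
  let T : H ⧸ stb H ε → Finset ε.range := fun q => if q ∈ S then Finset.univ.erase 0 else {0}
  have a : {x | sup H ε x = S} = e.symm '' (Fintype.piFinset T : Set _) := by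
    ext x
    rw [Equiv.image_symm_eq_preimage, Set.mem_preimage, Finset.mem_coe, Fintype.mem_piFinset,
      Set.mem_ofPred_eq, Set.ext_iff]
    refine forall_congr' fun q => ?_
    rw [m]
    by_cases hq : q ∈ S <;> simp [T, hq]
  have b : S.ncard = (Finset.univ.filter fun q => q ∈ S).card := by
    rw [← Set.ncard_coe_finset]
    congr 1
    ext q
    simp
  rw [a, Set.ncard_image_of_injective _ e.symm.injective, Set.ncard_coe_finset,
    Fintype.card_piFinset, b, ← Finset.prod_const, Finset.prod_filter]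
  refine Finset.prod_congr rfl fun q _ => ?_
  by_cases hq : q ∈ S
  · simp only [T, hq, if_true]
    rw [Finset.card_erase_of_mem (Finset.mem_univ _), Finset.card_univ, Nat.card_eq_fintype_card]
  · simp only [T, hq, if_false, Finset.card_singleton]

theorem blk_sets (hε : Good H ε) (hI : Irr H X) (P : Subgroup H) :
    ∃ Y : Set (H ⧸ stb H ε) → Finset X, (∀ S, ∀ g ∈ P, ∀ x ∈ Y S, g • x ∈ Y S) ∧
      (∀ S, (Nat.card ε.range - 1) ^ S.ncard ≤ (Y S).card) ∧
      (∀ S, (Y S).card ≤ 2 ^ (stb H ε).index * (Nat.card ε.range - 1) ^ S.ncard) ∧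
      ∀ S S', (∀ g ∈ P, g • S ≠ S') → Disjoint (Y S) (Y S') := by
  classical
  have := Fintype.ofFinite (H ⧸ stb H ε)
  have := Fintype.ofFinite X
  refine ⟨fun S => Finset.univ.filter fun x => ∃ g ∈ P, sup H ε x = g • S, ?_, ?_, ?_, ?_⟩
  · intro S g hg x hx
    obtain ⟨g', hg', e⟩ := (Finset.mem_filter.1 hx).2
    exact Finset.mem_filter.2 ⟨Finset.mem_univ _, g * g', P.mul_mem hg hg', by
      rw [sup_smul, e, mul_smul]⟩
  · intro S
    rw [← blk_card_sup hε hI, ← Set.ncard_coe_finset]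
    refine Set.ncard_le_ncard (fun x hx => ?_) (Set.toFinite _)
    exact Finset.mem_coe.2 (Finset.mem_filter.2 ⟨Finset.mem_univ _, 1, P.one_mem, by
      rw [one_smul]; exact hx⟩)
  · intro S
    rw [Subgroup.index_eq_card, Nat.card_eq_fintype_card (α := H ⧸ stb H ε), ← Fintype.card_set,
      ← Finset.card_univ, mul_comm]
    refine Finset.card_le_mul_card_image_of_maps_to (f := sup H ε) (fun _ _ => Finset.mem_univ _)
      _ fun T _ => ?_
    rcases (Finset.filter (fun a => sup H ε a = T) (Finset.univ.filter fun x =>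
      ∃ g ∈ P, sup H ε x = g • S)).eq_empty_or_nonempty with h | ⟨x, hx⟩
    · rw [h, Finset.card_empty]
      exact Nat.zero_le _
    · obtain ⟨h1, h2⟩ := Finset.mem_filter.1 hx
      obtain ⟨g, -, e⟩ := (Finset.mem_filter.1 h1).2
      rw [← Set.ncard_smul_set g S, ← e, h2, ← blk_card_sup hε hI, ← Set.ncard_coe_finset]
      exact Set.ncard_le_ncard (fun y hy => (Finset.mem_filter.1 (Finset.mem_coe.1 hy)).2)
        (Set.toFinite _)
  · intro S S' h
    refine Finset.disjoint_left.2 fun x h1 h2 => ?_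
    obtain ⟨g, hg, e⟩ := (Finset.mem_filter.1 h1).2
    obtain ⟨g', hg', e'⟩ := (Finset.mem_filter.1 h2).2
    refine h (g'⁻¹ * g) (P.mul_mem (P.inv_mem hg') hg) ?_
    rw [mul_smul, ← e, e', inv_smul_smul]

end Pool.Agent.Lib.MP_98dfd6_al
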