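import Pool.Agent.Lib.MP_98dfd6_al.GrpA

/-! General group theory. -/

namespace Pool.Agent.Lib.MP_98dfd6_al

open MulAction
open scoped commutatorElement

variable {G G' : Type} [Group G] [Group G'] {p : ℕ}

theorem card_hom_le_pow [Finite G'] (S : Finset G) (hS : Subgroup.closure (S : Set G) = ⊤) :
    Finite (G →* G') ∧ Nat.card (G →* G') ≤ Nat.card G' ^ S.card := by
  have hinj : Function.Injective fun (φ : G →* G') (s : S) => φ s := fun φ ψ h =>
    MonoidHom.eq_of_eqOn_dense hS fun s hs => congrFun h ⟨s, hs⟩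
  refine ⟨Finite.of_injective _ hinj, (Nat.card_le_card_of_injective _ hinj).trans ?_⟩
  rw [Nat.card_fun, Nat.card_eq_finsetCard]

theorem exists_gen (G : Type) [Group G] [Finite G] :
    ∃ S : Finset G, Subgroup.closure (S : Set G) = ⊤ ∧ 2 ^ S.card ≤ Nat.card G := by
  classical
  obtain ⟨H, ⟨S, rfl, hS⟩, hmax⟩ := (wellFounded_gt (α := Subgroup G)).has_min
    {H | ∃ S : Finset G, Subgroup.closure (S : Set G) = H ∧ 2 ^ S.card ≤ Nat.card H}
    ⟨_, ∅, rfl, by simp⟩
  have ht : Subgroup.closure (S : Set G) = ⊤ := by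
    by_contra hne
    obtain ⟨g, -, hg⟩ := SetLike.exists_of_lt (lt_top_iff_ne_top.mpr hne)
    have hle : Subgroup.closure (S : Set G) ≤ Subgroup.closure ((insert g S : Finset G) : Set G) :=
      Subgroup.closure_mono (by simp)
    have hne' : Subgroup.closure (S : Set G) ≠ Subgroup.closure ((insert g S : Finset G) : Set G) :=
      fun h => hg (h ▸ Subgroup.subset_closure (by simp))
    refine hmax _ ⟨insert g S, rfl, ?_⟩ (lt_of_le_of_ne hle hne')
    obtain ⟨c, hc⟩ := Subgroup.card_dvd_of_le hle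
    have h0 : c ≠ 0 := by
      rintro rfl
      exact Nat.card_pos.ne' hc
    have h1 : c ≠ 1 := by
      rintro rfl
      exact hne' (Subgroup.eq_of_le_of_card_ge hle (by omega))
    calc 2 ^ (insert g S).card ≤ 2 ^ (S.card + 1) :=
          Nat.pow_le_pow_right (by norm_num) (Finset.card_insert_le _ _)
      _ ≤ _ := by
        rw [hc, pow_succ]
        exact Nat.mul_le_mul hS (by omega)
  exact ⟨S, ht, by rwa [ht, Subgroup.card_top] at hS⟩

theorem index_centralizer_le [Finite G] (A : Subgroup G) [A.Normal] :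
    (Subgroup.centralizer (A : Set G)).index ≤ Nat.card A ^ Nat.log 2 (Nat.card A) := by
  obtain ⟨S, hS, hc⟩ := exists_gen A
  obtain ⟨_, h1⟩ := card_hom_le_pow (G' := A) S hS
  have hk : (MulAut.conjNormal : G →* MulAut A).ker = Subgroup.centralizer (A : Set G) := by
    ext g
    rw [MonoidHom.mem_ker, Subgroup.mem_centralizer_iff]
    constructor
    · intro h a ha
      have h2 := congrArg (fun σ : MulAut A => ((σ ⟨a, ha⟩ : A) : G)) h
      simp only [MulAut.conjNormal_apply, MulAut.one_apply] at h2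
      exact (mul_inv_eq_iff_eq_mul.mp h2).symm
    · intro h
      ext a
      rw [MulAut.conjNormal_apply, MulAut.one_apply, ← h a a.2, mul_inv_cancel_right]
  rw [← hk, Subgroup.index_ker]
  refine le_trans (Nat.card_le_card_of_injective
    (fun σ : (MulAut.conjNormal : G →* MulAut A).range => σ.1.toMonoidHom) fun σ τ h => ?_)
    (h1.trans (Nat.pow_le_pow_right Nat.card_pos (Nat.le_log_of_pow_le (by norm_num) hc)))
  exact Subtype.ext (MulEquiv.ext fun a => DFunLike.congr_fun h a)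

theorem Resid.subgroup [Finite G] {C : ℕ} (h : Resid G C) (F : Subgroup G) : Resid F C := by
  intro g hg
  obtain ⟨N, hN, hNC, hgN⟩ := h g fun h1 => hg (Subtype.ext h1)
  exact ⟨N.subgroupOf F, inferInstance,
    (Nat.le_of_dvd (Nat.pos_of_ne_zero Subgroup.FiniteIndex.index_ne_zero)
      (Subgroup.relIndex_dvd_index_of_normal N F)).trans hNC, hgN⟩

theorem Resid.card_le [Finite G] {C d : ℕ} (h : Resid G C) (S : Finset G)
    (hS : Subgroup.closure (S : Set G) = ⊤) (hd : S.card ≤ d) :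
    Nat.card G ≤ C.factorial ^ C.factorial ^ d := by
  obtain ⟨_, h1⟩ := card_hom_le_pow (G' := Equiv.Perm (Fin C)) S hS
  have hinj : Function.Injective fun (g : G) (ψ : G →* Equiv.Perm (Fin C)) => ψ g := by
    intro a b hab
    by_contra hne
    obtain ⟨N, hN, hNC, hgN⟩ := h (a⁻¹ * b) fun h1 => hne (inv_mul_eq_one.mp h1)
    have := Fintype.ofFinite (G ⧸ N)
    obtain ⟨ι⟩ : Nonempty (G ⧸ N ↪ Fin C) := Function.Embedding.nonempty_of_card_le (by
      rwa [Fintype.card_fin, ← Nat.card_eq_fintype_card])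
    have h2 := Equiv.Perm.viaEmbeddingHom_injective ι
      (congrFun hab ((Equiv.Perm.viaEmbeddingHom ι).comp (toPermHom G (G ⧸ N))))
    have h3 : ((a * 1 : G) : G ⧸ N) = ((b * 1 : G) : G ⧸ N) :=
      DFunLike.congr_fun h2 ((1 : G) : G ⧸ N)
    rw [mul_one, mul_one] at h3
    exact hgN (QuotientGroup.eq.mp h3)
  refine (Nat.card_le_card_of_injective _ hinj).trans ?_
  rw [Nat.card_perm, Nat.card_fin] at h1
  rw [Nat.card_fun, Nat.card_perm, Nat.card_fin]
  exact Nat.pow_le_pow_right C.factorial_pos (h1.trans (Nat.pow_le_pow_right C.factorial_pos hd))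

theorem exists_two (K : Type) [Group K] [Finite K] [Group.IsSolvable K] :
    ∃ L : Subgroup K, L.Normal ∧ Subgroup.centralizer (L : Set K) ≤ L ∧
      ⁅L, L⁆ ≤ Subgroup.centralizer (L : Set K) := by
  obtain ⟨L, ⟨hL, hL2⟩, hmax⟩ := (wellFounded_gt (α := Subgroup K)).has_min
    {L | L.Normal ∧ ⁅L, L⁆ ≤ Subgroup.centralizer (L : Set K)} ⟨⊥, inferInstance, by simp⟩
  refine ⟨L, hL, ?_, hL2⟩
  by_contra hne
  obtain ⟨L₁, ⟨hn, hle, hnle⟩, hmin⟩ := (wellFounded_lt (α := Subgroup K)).has_min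
    {N | N.Normal ∧ N ≤ Subgroup.centralizer (L : Set K) ∧ ¬N ≤ L} ⟨_, inferInstance, le_rfl, hne⟩
  have hlt : ⁅L₁, L₁⁆ < L₁ := Group.IsSolvable.commutator_lt_of_ne_bot fun h => hnle (h ▸ bot_le)
  have h1 : ⁅L₁, L₁⁆ ≤ L := by
    by_contra h
    exact hmin _ ⟨inferInstance, hlt.le.trans hle, h⟩ hlt
  have key : ∀ a b : K, Commute (QuotientGroup.mk' (L ⊓ Subgroup.centralizer (L : Set K)) a)
      (QuotientGroup.mk' (L ⊓ Subgroup.centralizer (L : Set K)) b) ↔
      ⁅a, b⁆ ∈ L ⊓ Subgroup.centralizer (L : Set K) := fun a b => by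
    rw [← commutatorElement_eq_one_iff_commute, ← map_commutatorElement]
    exact QuotientGroup.eq_one_iff _
  refine hmax (L ⊔ L₁) ⟨inferInstance, Subgroup.commutator_le.mpr fun a ha b hb => ?_⟩
    (lt_of_le_of_ne le_sup_left fun h => hnle (h ▸ le_sup_right))
  have h2 : ⁅a, b⁆ ∈ L ⊓ Subgroup.centralizer (L : Set K) := by
    obtain ⟨l, hl, x, hx, rfl⟩ := Subgroup.mem_sup_of_normal_left.1 ha
    obtain ⟨l', hl', x', hx', rfl⟩ := Subgroup.mem_sup_of_normal_left.1 hb
    rw [← key, map_mul, map_mul]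
    have c1 := Subgroup.commutator_mem_commutator hl hl'
    have c2 := Subgroup.commutator_mem_commutator hx hx'
    refine Commute.mul_left (Commute.mul_right ((key _ _).mpr ⟨Subgroup.commutator_le_left _ _ c1,
      hL2 c1⟩) ?_) (Commute.mul_right ?_ ((key _ _).mpr ⟨h1 c2, hle (hlt.le c2)⟩))
    · exact Commute.map (show Commute l x' from hle hx' l hl) _
    · exact Commute.map (Commute.symm (show Commute l' x from hle hx l' hl')) _
  intro y hy
  obtain ⟨l, hl, x, hx, rfl⟩ := Subgroup.mem_sup_of_normal_left.1 hy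
  exact Commute.mul_left (show Commute l _ from h2.2 l hl)
    (Commute.symm (show Commute _ x from hle hx _ h2.1))

end Pool.Agent.Lib.MP_98dfd6_al
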