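import Pool.Agent.Lib.MP_98dfd6_al.Blk2
import Pool.Agent.Lib.MP_98dfd6_al.Grp

/-! The base group of a system of blocks. -/

namespace Pool.Agent.Lib.MP_98dfd6_al

open MulAction

variable {H X : Type} [Group H] [AddCommGroup X] [DistribMulAction H X] [Finite H] [Finite X]
  {ε : X →+ X}

omit [Finite H] [Finite X] in
theorem mem_stb_Blk3 (hε : Good H ε) {w w' : ε.range} (hw : w ≠ 0) {g : H}
    (hg : g • (w : X) = w') : g ∈ stb H ε := by
  rcases hε.2.2 g with h | h
  · exact h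
  · exfalso
    obtain ⟨x, hx⟩ := w.2
    obtain ⟨y, hy⟩ := w'.2
    have h1 := h x
    rw [hx, hg, ← hy, hε.2.1, hy, ← hg, smul_eq_zero_iff_eq] at h1
    exact hw (Subtype.ext h1)

theorem blk_mult (hε : Good H ε) {m : ℕ} (h : Mult H X m) :
    Mult (stb H ε) ε.range (m + 1) := by
  classical
  intro s T h1 h2
  have key := h (s * (stb H ε).index) ((T.erase 0).map (Function.Embedding.subtype _)) (by
    intro x hx
    obtain ⟨w, hw, rfl⟩ := Finset.mem_map.1 hx
    obtain ⟨hw0, hwT⟩ := Finset.mem_erase.1 hw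
    rw [← h1 w hwT, ← Subgroup.index_map_subtype]
    congr 1
    ext g
    rw [mem_stabilizer_iff, Subgroup.mem_map]
    constructor
    · intro hg
      exact ⟨⟨g, mem_stb_Blk3 hε hw0 hg⟩, Subtype.ext hg, rfl⟩
    · rintro ⟨u, hu, rfl⟩
      exact congrArg Subtype.val (mem_stabilizer_iff.1 hu)) (by
    intro a ha b hb g hg
    obtain ⟨w, hw, rfl⟩ := Finset.mem_map.1 ha
    obtain ⟨w', hw', rfl⟩ := Finset.mem_map.1 hb
    obtain ⟨hw0, hwT⟩ := Finset.mem_erase.1 hw
    have := h2 w hwT w' (Finset.mem_erase.1 hw').2 ⟨g, mem_stb_Blk3 hε hw0 hg⟩ (Subtype.ext hg)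
    rw [this])
  rw [Finset.card_map] at key
  have := Finset.pred_card_le_card_erase (s := T) (a := 0)
  omega

theorem core_hom_Blk3 [FaithfulSMul H X] (hε : Good H ε) (hI : Irr H X) :
    ∃ φ : (stb H ε).normalCore →* (H ⧸ stb H ε → Im (stb H ε) ε.range),
      Function.Injective φ := by
  have hm : ∀ (b : (stb H ε).normalCore) (g : H), g⁻¹ * b * g ∈ stb H ε := by
    intro b g
    have := b.2 g⁻¹
    rwa [inv_inv] at this
  let φ : (stb H ε).normalCore →* (H ⧸ stb H ε → Im (stb H ε) ε.range) :=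
    MonoidHom.mk' (fun b q => toIm (stb H ε) ε.range ⟨q.out⁻¹ * b * q.out, hm b q.out⟩) (by
      intro a b
      funext q
      rw [Pi.mul_apply, ← map_mul]
      congr 1
      apply Subtype.ext
      simp only [Subgroup.coe_mul]
      group)
  refine ⟨φ, (injective_iff_map_eq_one φ).2 fun b hb => ?_⟩
  obtain ⟨e, he⟩ := blk_equiv hε hI
  apply Subtype.ext
  refine FaithfulSMul.eq_of_smul_eq_smul (α := X) fun x => ?_
  apply e.injective
  funext q
  apply Subtype.ext
  rw [he, he, OneMemClass.coe_one, one_smul]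
  have h1 : toIm (stb H ε) ε.range ⟨q.out⁻¹ * b * q.out, hm b q.out⟩ = 1 := congrFun hb q
  have h2 := toIm_smul (⟨q.out⁻¹ * b * q.out, hm b q.out⟩ : stb H ε)
    (⟨ε (q.out⁻¹ • x), _, rfl⟩ : ε.range)
  rw [h1, one_smul] at h2
  have h3 : ε (q.out⁻¹ • x) = (q.out⁻¹ * b * q.out) • ε (q.out⁻¹ • x) :=
    congrArg Subtype.val h2
  rw [h3, ← hm b q.out, smul_smul, smul_smul, mul_inv_cancel_right]

theorem blk_core_dvd [FaithfulSMul H X] (hε : Good H ε) (hI : Irr H X) :
    Nat.card (stb H ε).normalCore ∣ Nat.card (Im (stb H ε) ε.range) ^ (stb H ε).index := by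
  obtain ⟨φ, hφ⟩ := core_hom_Blk3 hε hI
  have := Subgroup.card_dvd_of_injective φ hφ
  rwa [Nat.card_fun] at this

theorem blk_core_comm [FaithfulSMul H X] (hε : Good H ε) (hI : Irr H X)
    (h : ∀ a b : Im (stb H ε) ε.range, a * b = b * a) :
    ∀ a ∈ (stb H ε).normalCore, ∀ b ∈ (stb H ε).normalCore, a * b = b * a := by
  obtain ⟨φ, hφ⟩ := core_hom_Blk3 hε hI
  intro a ha b hb
  have : (⟨a, ha⟩ * ⟨b, hb⟩ : (stb H ε).normalCore) = ⟨b, hb⟩ * ⟨a, ha⟩ := by
    apply hφ
    rw [map_mul, map_mul]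
    funext q
    exact h _ _
  exact congrArg Subtype.val this

end Pool.Agent.Lib.MP_98dfd6_al
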