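import Pool.Agent.Lib.MP_98dfd6_al.ChrA

/-! Linear characters. -/

namespace Pool.Agent.Lib.MP_98dfd6_al

open MulAction

variable {k G : Type} [Field k] [Group G]

theorem exists_quot_chr [Finite G] {p : ℕ} [Fact p.Prime] [IsAlgClosed k] [CharP k p]
    (F A : Subgroup G) (hA : ⁅F, F⁆ ≤ A) (hc : (A.relIndex F).Coprime p) :
    ∃ (Q : Type) (_ : CommGroup Q) (_ : Finite Q) (_ : HasEnoughRootsOfUnity k (Monoid.exponent Q))
      (π : F →* Q), Function.Surjective π ∧ π.ker = A.subgroupOf F := by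
  have hle : commutator F ≤ A.subgroupOf F := by
    refine Subgroup.map_le_iff_le_comap.mp ?_
    rw [Subgroup.map_subtype_commutator]
    exact hA
  have hn : (A.subgroupOf F).Normal := Subgroup.Normal.of_commutator_le F hle
  have hcomm := Subgroup.Normal.quotient_commutative_iff_commutator_le.mpr hle
  let inst : CommGroup (F ⧸ A.subgroupOf F) :=
    { (inferInstance : Group (F ⧸ A.subgroupOf F)) with mul_comm := hcomm.is_comm.comm }
  have hz : NeZero ((Monoid.exponent (F ⧸ A.subgroupOf F) : ℕ) : k) := by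
    refine ⟨fun h => ?_⟩
    have h1 : p ∣ Monoid.exponent (F ⧸ A.subgroupOf F) := (CharP.cast_eq_zero_iff k p _).mp h
    have h2 : p ∣ A.relIndex F := h1.trans Group.exponent_dvd_nat_card
    exact (Fact.out : p.Prime).one_lt.ne' (Nat.Coprime.eq_one_of_dvd hc.symm h2)
  exact ⟨F ⧸ A.subgroupOf F, inst, inferInstance, inferInstance, QuotientGroup.mk' _,
    QuotientGroup.mk'_surjective _, QuotientGroup.ker_mk' _⟩

theorem ch_card_eq [Finite G] {p : ℕ} [Fact p.Prime] [IsAlgClosed k] [CharP k p]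
    (F A : Subgroup G) (hA : ⁅F, F⁆ ≤ A) (hc : (A.relIndex F).Coprime p) :
    Nat.card (Ch k F A) = A.relIndex F := by
  refine le_antisymm (ch_card_le F A) ?_
  obtain ⟨Q, _, _, _, π, hπ, hk⟩ := exists_quot_chr (k := k) F A hA hc
  have h1 : A.relIndex F = Nat.card Q := by
    rw [Subgroup.relIndex, ← hk, Subgroup.index_ker, MonoidHom.range_eq_top.mpr hπ,
      Subgroup.card_top]
  have := ch_finite (k := k) F A
  rw [h1, ← CommGroup.card_monoidHom_of_hasEnoughRootsOfUnity Q k]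
  refine Nat.card_le_card_of_injective (fun φ : Q →* kˣ => (Ch.mk (φ.comp π) fun f hf => by
    have h2 : f ∈ π.ker := hk ▸ Subgroup.mem_subgroupOf.mpr hf
    rw [MonoidHom.comp_apply, MonoidHom.mem_ker.mp h2, map_one] : Ch k F A)) fun φ ψ h => ?_
  refine MonoidHom.ext fun q => ?_
  obtain ⟨f, rfl⟩ := hπ q
  exact congrArg (fun x : Ch k F A => x.val f) h

theorem ch_sep [Finite G] {p : ℕ} [Fact p.Prime] [IsAlgClosed k] [CharP k p]
    (F A : Subgroup G) (hA : ⁅F, F⁆ ≤ A) (hc : (A.relIndex F).Coprime p) {f : F}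
    (hf : (f : G) ∉ A) : ∃ x : Ch k F A, x.val f ≠ 1 := by
  obtain ⟨Q, _, _, _, π, hπ, hk⟩ := exists_quot_chr (k := k) F A hA hc
  have h1 : π f ≠ 1 := fun h => hf (Subgroup.mem_subgroupOf.mp (hk ▸ MonoidHom.mem_ker.mpr h))
  obtain ⟨φ, hφ⟩ := CommGroup.exists_apply_ne_one_of_hasEnoughRootsOfUnity Q k h1
  exact ⟨Ch.mk (φ.comp π) fun f hf => by
    have h2 : f ∈ π.ker := hk ▸ Subgroup.mem_subgroupOf.mpr hf
    rw [MonoidHom.comp_apply, MonoidHom.mem_ker.mp h2, map_one], hφ⟩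

theorem ch_extend {F : Subgroup G} [F.Normal] (x : F →* kˣ) (H₀ : Subgroup G) (hs : F ⊔ H₀ = ⊤)
    (hx : ∀ f : F, (f : G) ∈ H₀ → x f = 1) (U : Subgroup G) (hU : ∀ g, g ∈ U ↔ cjc g x = x) :
    ∃ lam : U →* kˣ, ∀ (f : F) (hf : (f : G) ∈ U), lam ⟨f, hf⟩ = x f := by
  have hdec : ∀ g : G, ∃ f : F, (f : G)⁻¹ * g ∈ H₀ := by
    intro g
    have hg : g ∈ ((F ⊔ H₀ : Subgroup G) : Set G) := by rw [hs]; trivial
    rw [Subgroup.normal_mul] at hg
    obtain ⟨a, ha, b, hb, rfl⟩ := hg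
    exact ⟨⟨a, ha⟩, by simpa using hb⟩
  choose c hc using hdec
  have hwd : ∀ (g : G) (f : F), (f : G)⁻¹ * g ∈ H₀ → x (c g) = x f := by
    intro g f hf
    have h1 : ((f⁻¹ * c g : F) : G) ∈ H₀ := by
      have h2 := H₀.mul_mem hf (H₀.inv_mem (hc g))
      simpa [mul_assoc] using h2
    have h3 := hx _ h1
    rw [map_mul, map_inv, inv_mul_eq_one] at h3
    exact h3.symm
  refine ⟨MonoidHom.mk' (fun u : U => x (c u)) fun u v => ?_, fun f _ => hwd _ f (by simp)⟩
  have h1 : x (MulAut.conjNormal (u : G) (c v)) = x (c v) := by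
    have h2 := (hU _).1 (U.inv_mem u.2)
    have h3 := DFunLike.congr_fun h2 (c v)
    rwa [cjc_apply, inv_inv] at h3
  have h4 : x (c u) * x (c v) = x (MulAut.conjNormal (u : G) (c v) * c u) := by
    rw [map_mul, h1, mul_comm]
  rw [h4]
  refine hwd _ _ ?_
  have h5 := H₀.mul_mem (hc u) (hc v)
  simpa [mul_assoc] using h5

end Pool.Agent.Lib.MP_98dfd6_al
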