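import Pool.Agent.Lib.MP_98dfd6_al.Base

/-! Independence of characters. -/

namespace Pool.Agent.Lib.MP_98dfd6_al

open MulAction

variable {k G : Type} [Field k] [Group G]

theorem indepV {V U ι : Type} [AddCommGroup V] [Module k V] (ρ : U → V →ₗ[k] V) (v : ι → V)
    (χ : ι → U → k) (hv : ∀ i, v i ≠ 0) (hχ : Function.Injective χ)
    (h : ∀ i u, ρ u (v i) = χ i u • v i) : LinearIndependent k v := by
  classical
  rw [linearIndependent_iff']
  intro s
  induction s using Finset.induction_on with
  | empty => intro g _ i hi; simp at hi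
  | insert j s hj ih =>
    intro g hg
    rw [Finset.sum_insert hj] at hg
    have hs : ∀ i ∈ s, g i = 0 := by
      intro i hi
      have hne : χ i ≠ χ j := fun e => hj (hχ e ▸ hi)
      obtain ⟨u, hu⟩ := Function.ne_iff.1 hne
      have h1 := congrArg (ρ u) hg
      rw [map_add, map_sum, map_zero, map_smul, h] at h1
      have h2 := congrArg (χ j u • ·) hg
      simp only [smul_add, smul_zero, Finset.smul_sum] at h2
      have h3 : ∑ x ∈ s, (g x * (χ x u - χ j u)) • v x = 0 := by
        have e1 : ∑ x ∈ s, (g x * (χ x u - χ j u)) • v x =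
            ∑ x ∈ s, ρ u (g x • v x) - ∑ x ∈ s, χ j u • g x • v x := by
          rw [← Finset.sum_sub_distrib]
          refine Finset.sum_congr rfl fun x _ => ?_
          rw [map_smul, h, smul_smul, smul_smul, ← sub_smul]
          congr 1
          ring
        rw [e1, eq_neg_of_add_eq_zero_right h1, eq_neg_of_add_eq_zero_right h2, smul_comm,
          sub_self]
      have h4 := ih (fun x => g x * (χ x u - χ j u)) h3 i hi
      exact (mul_eq_zero.1 h4).resolve_right (sub_ne_zero.2 hu)
    intro i hi
    rcases Finset.mem_insert.1 hi with rfl | hi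
    · rw [Finset.sum_eq_zero fun x hx => by rw [hs x hx, zero_smul], add_zero] at hg
      exact (smul_eq_zero.1 hg).resolve_right (hv i)
    · exact hs i hi

theorem ch_indep_chra (F A : Subgroup G) :
    LinearIndependent k fun (x : Ch k F A) (q : F ⧸ A.subgroupOf F) => (x.val q.out : k) := by
  have key : ∀ (x : Ch k F A) (f : F),
      x.val (f : F ⧸ A.subgroupOf F).out = x.val f := by
    intro x f
    obtain ⟨a, ha⟩ := QuotientGroup.mk_out_eq_mul (A.subgroupOf F) f
    rw [ha, map_mul, x.prop _ (Subgroup.mem_subgroupOf.1 a.2), mul_one]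
  have hinj : Function.Injective fun x : Ch k F A => (Units.coeHom k).comp x.val := by
    intro x y e
    exact Ch.ext fun f => Units.ext (DFunLike.congr_fun e f)
  have h1 := (linearIndependent_monoidHom F k).comp _ hinj
  refine LinearIndependent.of_comp
    (LinearMap.funLeft k k (fun f : F => (f : F ⧸ A.subgroupOf F))) ?_
  have e : (LinearMap.funLeft k k (fun f : F => (f : F ⧸ A.subgroupOf F))) ∘
      (fun (x : Ch k F A) (q : F ⧸ A.subgroupOf F) => (x.val q.out : k)) =
      ((fun f : F →* k => (f : F → k)) ∘ fun x : Ch k F A => (Units.coeHom k).comp x.val) := by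
    funext x f
    exact congrArg Units.val (key x f)
  rw [e]
  exact h1

theorem ch_finite [Finite G] (F A : Subgroup G) : Finite (Ch k F A) := by
  exact (ch_indep_chra (k := k) F A).finite

theorem ch_card_le [Finite G] (F A : Subgroup G) : Nat.card (Ch k F A) ≤ A.relIndex F := by
  have := ch_finite (k := k) F A
  have := Fintype.ofFinite (Ch k F A)
  have := Fintype.ofFinite (F ⧸ A.subgroupOf F)
  have h := (ch_indep_chra (k := k) F A).fintype_card_le_finrank
  rw [Module.finrank_fintype_fun_eq_card, ← Nat.card_eq_fintype_card,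
    ← Nat.card_eq_fintype_card] at h
  exact h

theorem card_hom_le (k G : Type) [Field k] [Group G] [Finite G] :
    Finite (G →* kˣ) ∧ Nat.card (G →* kˣ) ≤ Nat.card G := by
  have hinj : Function.Injective fun x : G →* kˣ => (Units.coeHom k).comp x := by
    intro x y e
    exact MonoidHom.ext fun f => Units.ext (DFunLike.congr_fun e f)
  have h1 := (linearIndependent_monoidHom G k).comp _ hinj
  have h2 : Finite (G →* kˣ) := h1.finite
  refine ⟨h2, ?_⟩
  have := Fintype.ofFinite (G →* kˣ)
  have := Fintype.ofFinite G
  have h := h1.fintype_card_le_finrank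
  rw [Module.finrank_fintype_fun_eq_card, ← Nat.card_eq_fintype_card,
    ← Nat.card_eq_fintype_card] at h
  exact h

end Pool.Agent.Lib.MP_98dfd6_al
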