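import Mathlib

namespace Pool.Agent.Lib.MP_98dfd6_al

/-- For every `s`, each family of pairwise non-conjugate elements of order coprime to `p` whose
conjugacy classes have size `s` has at most `m` members. -/
def ClLe (p : ℕ) (G : Type) [Group G] (m : ℕ) : Prop :=
  ∀ (s n : ℕ) (x : Fin n → G), (∀ i, (orderOf (x i)).Coprime p) →
    (∀ i, Nat.card {y : G // IsConj (x i) y} = s) → (∀ i j, IsConj (x i) (x j) → i = j) → n ≤ m

end Pool.Agent.Lib.MP_98dfd6_al
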