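import Pool.Agent.Lib.MP_98dfd6_al.Base

/-! Transfer lemmas for orbit sizes and linear characters. -/

namespace Pool.Agent.Lib.MP_98dfd6_al

open MulAction

variable {H H' X Y : Type} [Group H] [Group H']

theorem Mult.mono [MulAction H X] {m m' : ℕ} (h : Mult H X m) (hm : m ≤ m') : Mult H X m' :=
  fun s T h1 h2 => (h s T h1 h2).trans hm

theorem idx_rel_OpsA [MulAction H X] (O : Subgroup H) (x : X) :
    (stabilizer H x).index * O.relIndex (stabilizer H x) = (stabilizer O x).index * O.index := by
  have h1 : (stabilizer O x).index = (stabilizer H x).relIndex O := by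
    have : stabilizer O x = (stabilizer H x).subgroupOf O := by
      ext g
      simp [Subgroup.mem_subgroupOf, mem_stabilizer_iff, Subgroup.smul_def]
    rw [this]
    rfl
  have h2 := Subgroup.relIndex_mul_index (inf_le_right : stabilizer H x ⊓ O ≤ O)
  have h3 := Subgroup.relIndex_mul_index (inf_le_left : stabilizer H x ⊓ O ≤ stabilizer H x)
  rw [Subgroup.inf_relIndex_right] at h2
  rw [Subgroup.inf_relIndex_left] at h3
  rw [h1, h2, ← h3, mul_comm]

theorem step_OpsA [Finite H] [MulAction H X] {m : ℕ} (h : Mult H X m) (O : Subgroup H)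
    (s : ℕ) (T : Finset X) (h1 : ∀ x ∈ T, (stabilizer H x).index = s)
    (h2 : ∀ x ∈ T, ∀ y ∈ T, ∀ g : O, g • x = y → x = y) : T.card ≤ O.index * m := by
  classical
  let r : X → X := fun x => (Quotient.mk (orbitRel H X) x).out
  have hr : ∀ x, ∃ g : H, g • r x = x := by
    intro x
    have : (orbitRel H X) (r x) x := Quotient.mk_out (s := orbitRel H X) x
    have h' : x ∈ orbit H (r x) := (orbitRel_apply).1 ((orbitRel H X).symm this)
    exact h'
  choose g hg using hr
  have him : (T.image r).card ≤ m := by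
    refine h s _ ?_ ?_
    · intro y hy
      obtain ⟨x, hx, rfl⟩ := Finset.mem_image.1 hy
      rw [← h1 x hx, index_stabilizer, index_stabilizer]
      congr 1
      conv_rhs => rw [← hg x]
      rw [orbit_smul]
    · intro a ha b hb k hk
      obtain ⟨x, -, rfl⟩ := Finset.mem_image.1 ha
      obtain ⟨y, -, rfl⟩ := Finset.mem_image.1 hb
      have : (Quotient.mk (orbitRel H X) x) = Quotient.mk (orbitRel H X) y := by
        apply Quotient.sound
        change (orbitRel H X) x y
        rw [orbitRel_apply]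
        refine ⟨g x * k⁻¹ * (g y)⁻¹, ?_⟩
        change (g x * k⁻¹ * (g y)⁻¹) • y = x
        have e1 : (g y)⁻¹ • y = r y := by rw [inv_smul_eq_iff, hg]
        rw [mul_smul, mul_smul, e1, ← hk, inv_smul_smul, hg]
      simp only [r, this]
  refine (Finset.card_le_mul_card_image (f := r) T O.index ?_).trans
    (Nat.mul_le_mul_left _ him)
  intro a _
  haveI : Fintype (H ⧸ O) := Fintype.ofFinite _
  have hc : O.index = (Finset.univ : Finset (H ⧸ O)).card := by
    rw [Finset.card_univ, Subgroup.index, Nat.card_eq_fintype_card]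
  rw [hc]
  refine Finset.card_le_card_of_injOn (fun x => (((g x)⁻¹ : H) : H ⧸ O))
    (fun _ _ => Finset.mem_coe.2 (Finset.mem_univ _)) ?_
  intro x hx y hy hxy
  have hx' := Finset.mem_filter.1 (Finset.mem_coe.1 hx)
  have hy' := Finset.mem_filter.1 (Finset.mem_coe.1 hy)
  have hm : ((g x)⁻¹)⁻¹ * (g y)⁻¹ ∈ O := QuotientGroup.eq.1 hxy
  refine (h2 y hy'.1 x hx'.1 ⟨_, hm⟩ ?_).symm
  change (((g x)⁻¹)⁻¹ * (g y)⁻¹) • y = x
  have e1 : (g y)⁻¹ • y = r y := by rw [inv_smul_eq_iff, hg]
  rw [mul_smul, e1, inv_inv, hy'.2, ← hx'.2, hg]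

theorem Mult.subgroup [Finite H] [MulAction H X] {m : ℕ} (h : Mult H X m) (O : Subgroup H) :
    Mult O X (m * O.index ^ 2) := by
  classical
  intro s T h1 h2
  have hmap : ∀ x ∈ T, O.relIndex (stabilizer H x) ∈ Finset.Icc 1 O.index := by
    intro x _
    rw [Finset.mem_Icc]
    refine ⟨Nat.one_le_iff_ne_zero.2 (Subgroup.index_ne_zero_of_finite), ?_⟩
    have := Subgroup.relIndex_le_of_le_right (H := O) (le_top : stabilizer H x ≤ ⊤)
      (by rw [Subgroup.relIndex_top_right]; exact Subgroup.index_ne_zero_of_finite)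
    rwa [Subgroup.relIndex_top_right] at this
  have := Finset.card_le_mul_card_image_of_maps_to
    (f := fun x => O.relIndex (stabilizer H x)) hmap (O.index * m) (by
      intro e he
      have he1 : 0 < e := (Finset.mem_Icc.1 he).1
      refine step_OpsA h O (s * O.index / e) _ ?_ ?_
      · intro x hx
        obtain ⟨hx1, hx2⟩ := Finset.mem_filter.1 hx
        have := idx_rel_OpsA O x
        rw [hx2, h1 x hx1] at this
        rw [← this, Nat.mul_div_cancel _ he1]
      · intro x hx y hy
        exact h2 x (Finset.mem_filter.1 hx).1 y (Finset.mem_filter.1 hy).1)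
  rw [Nat.card_Icc] at this
  calc T.card ≤ O.index * m * (O.index + 1 - 1) := this
    _ = m * O.index ^ 2 := by rw [Nat.add_sub_cancel]; ring

theorem Mult.im [MulAction H X] {m : ℕ} (h : Mult H X m) : Mult (Im H X) X m := by
  intro s T h1 h2
  refine h s T ?_ ?_
  · intro x hx
    rw [← h1 x hx, ← Subgroup.index_comap_of_surjective _ (toIm_surj H X)]
    congr 1
  · intro x hx y hy g hg
    exact h2 x hx y hy (toIm H X g) hg

theorem Mult.of_inj [MulAction H X] [MulAction H Y] {m : ℕ} (h : Mult H X m) (f : Y → X)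
    (hf : Function.Injective f) (he : ∀ (g : H) (y : Y), f (g • y) = g • f y) : Mult H Y m := by
  intro s T h1 h2
  rw [← Finset.card_map ⟨f, hf⟩]
  refine h s _ ?_ ?_
  · intro x hx
    obtain ⟨y, hy, rfl⟩ := Finset.mem_map.1 hx
    rw [← h1 y hy]
    congr 1
    ext g
    simp only [mem_stabilizer_iff, Function.Embedding.coeFn_mk, ← he, hf.eq_iff]
  · intro a ha b hb g hg
    obtain ⟨x, hx, rfl⟩ := Finset.mem_map.1 ha
    obtain ⟨y, hy, rfl⟩ := Finset.mem_map.1 hb
    simp only [Function.Embedding.coeFn_mk, ← he, hf.eq_iff] at hg ⊢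
    exact h2 x hx y hy g hg

theorem Mult.comp {ι : Type} {X : ι → Type} [∀ i, AddCommGroup (X i)]
    [∀ i, DistribMulAction H (X i)] {m : ℕ} (h : Mult H (∀ i, X i) m) (i : ι) :
    Mult H (X i) m := by
  classical
  refine h.of_inj (fun y => Pi.single i y) (Pi.single_injective i) ?_
  intro g y
  exact Pi.single_smul i g y

theorem Lin.of_surj {p m : ℕ} (h : Lin p H m) (φ : H →* H') (hφ : Function.Surjective φ) :
    Lin p H' m := by
  intro N L hNL hc
  have e : (L.comap φ).relIndex (N.comap φ) = L.relIndex N := by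
    rw [Subgroup.relIndex_comap, Subgroup.map_comap_eq_self_of_surjective hφ]
  have := h (N.comap φ) (L.comap φ) (by
    rw [← Subgroup.map_le_iff_le_comap, Subgroup.map_commutator,
      Subgroup.map_comap_eq_self_of_surjective hφ]
    exact hNL) (by rwa [e])
  rwa [e, Subgroup.index_comap_of_surjective _ hφ] at this

theorem Lin.subgroup {p m : ℕ} (h : Lin p H m) (N : Subgroup H) : Lin p N (m * N.index ^ 2) := by
  intro A L hAL hc
  have e : (L.map N.subtype).relIndex (A.map N.subtype) = L.relIndex A :=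
    Subgroup.relIndex_map_map_of_injective _ _ N.subtype_injective
  have := h (A.map N.subtype) (L.map N.subtype) (by
    rw [← Subgroup.map_commutator]
    exact Subgroup.map_mono hAL) (by rwa [e])
  rw [e, Subgroup.index_map_subtype] at this
  calc L.relIndex A ≤ m * (A.index * N.index) ^ 2 := this
    _ = m * N.index ^ 2 * A.index ^ 2 := by ring

theorem Lin.pos {p m : ℕ} (h : Lin p H m) : 1 ≤ m := by
  have := h ⊤ ⊤ le_top (by simp)
  simpa using this

theorem Lin.abelian [Finite H] {p m : ℕ} (hp : p.Prime) (h : Lin p H m) (Z : Subgroup H)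
    (hZ : ∀ a ∈ Z, ∀ b ∈ Z, a * b = b * a) :
    ∃ a c, c ≠ 0 ∧ Nat.card Z = p ^ a * c ∧ c ≤ m * Z.index ^ 2 := by
  haveI : Fact p.Prime := ⟨hp⟩
  obtain ⟨P⟩ : Nonempty (Sylow p Z) := inferInstance
  obtain ⟨a, ha⟩ := P.isPGroup'.exists_card_eq
  have e : ((P : Subgroup Z).map Z.subtype).relIndex Z = (P : Subgroup Z).index := by
    rw [Subgroup.relIndex, Subgroup.subgroupOf,
      Subgroup.comap_map_eq_self_of_injective Z.subtype_injective]
  refine ⟨a, (P : Subgroup Z).index, Subgroup.index_ne_zero_of_finite, ?_, ?_⟩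
  · rw [← ha, Subgroup.card_mul_index]
  · rw [← e]
    refine h Z _ ?_ ?_
    · rw [Subgroup.commutator_le]
      intro x hx y hy
      rw [commutatorElement_eq_one_iff_mul_comm.2 (hZ x hx y hy)]
      exact one_mem _
    · rw [e]
      exact ((Nat.Prime.coprime_iff_not_dvd hp).2 P.not_dvd_index).symm

end Pool.Agent.Lib.MP_98dfd6_al
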