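import Pool.Agent.Lib.MP_98dfd6_al.ClNum
import Pool.Agent.Lib.MP_98dfd6_al.OpsA
import Pool.Agent.Lib.MP_98dfd6_al.FerStmt

/-! Classes of `p`-regular elements as orbits; cyclic quotients of subgroups. -/

namespace Pool.Agent.Lib.MP_98dfd6_al

open MulAction

/-- The elements of order coprime to `p`. -/
abbrev Reg (p : ℕ) (G : Type) [Group G] : Type := {x : G // (orderOf x).Coprime p}

theorem orderOf_cj {G : Type} [Group G] (g x : G) : orderOf (g * x * g⁻¹) = orderOf x :=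
  (MulAut.conj g).orderOf_eq x

instance regAct (p : ℕ) (G : Type) [Group G] : MulAction G (Reg p G) where
  smul g x := ⟨g * x.1 * g⁻¹, by rw [orderOf_cj]; exact x.2⟩
  one_smul x := Subtype.ext (by change 1 * x.1 * 1⁻¹ = x.1; simp)
  mul_smul a b x := Subtype.ext (by
    change a * b * x.1 * (a * b)⁻¹ = a * (b * x.1 * b⁻¹) * a⁻¹
    simp [mul_assoc])

theorem reg_smul {p : ℕ} {G : Type} [Group G] (g : G) (x : Reg p G) :
    (g • x).1 = g * x.1 * g⁻¹ := rfl

theorem reg_stab {p : ℕ} {G : Type} [Group G] (g : G) (x : Reg p G) :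
    g ∈ stabilizer G x ↔ g * x.1 = x.1 * g := by
  rw [mem_stabilizer_iff, Subtype.ext_iff, reg_smul, mul_inv_eq_iff_eq_mul]

theorem ClLe.mult {p m : ℕ} {G : Type} [Group G] (h : ClLe p G m) : Mult G (Reg p G) m := by
  classical
  intro s T hs hT
  let e := T.equivFin.symm
  refine h s T.card (fun i => (e i).1.1) (fun i => (e i).1.2) (fun i => ?_) fun i j hij => ?_
  · rw [← hs _ (e i).2, index_stabilizer, ← Nat.card_coe_set_eq]
    refine (Nat.card_congr (Equiv.ofBijective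
      (fun y : orbit G (e i).1 => (⟨y.1.1, ?_⟩ : {y : G // IsConj (e i).1.1 y})) ⟨?_, ?_⟩)).symm
    · obtain ⟨g, hg⟩ := y.2
      exact isConj_iff.2 ⟨g, congrArg Subtype.val hg⟩
    · intro a b hab
      exact Subtype.ext (Subtype.ext (Subtype.mk.inj hab))
    · rintro ⟨y, hy⟩
      obtain ⟨g, hg⟩ := isConj_iff.1 hy
      exact ⟨⟨g • (e i).1, g, rfl⟩, Subtype.ext hg⟩
  · obtain ⟨g, hg⟩ := isConj_iff.1 hij
    exact e.injective (Subtype.ext (hT _ (e i).2 _ (e j).2 g (Subtype.ext hg)))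

theorem mult_reg_sub {p m : ℕ} {G : Type} [Group G] [Finite G] (h : Mult G (Reg p G) m)
    (R : Subgroup G) : Mult R (Reg p R) (m * R.index ^ 2) := by
  refine (h.subgroup R).of_inj
    (fun y : Reg p R => (⟨(y.1 : G), by rw [Subgroup.orderOf_coe]; exact y.2⟩ : Reg p G)) ?_ ?_
  · intro a b hab
    exact Subtype.ext (Subtype.ext (Subtype.mk.inj hab))
  · intro g y
    rfl

/-- A power of `g` with the same image whose order involves only the primes of the image. -/
theorem lift_pow {G : Type} [Group G] [Finite G] (g : G) {s : ℕ} (hs : s ≠ 0) :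
    ∃ e : ℕ, e ≡ 1 [MOD s] ∧ ∀ r : ℕ, r.Prime → r ∣ orderOf (g ^ e) → r ∣ s := by
  have ho : orderOf g ≠ 0 := (orderOf_pos g).ne'
  obtain ⟨w, hw1, hw2⟩ : ∃ w, w.Coprime s ∧ ∀ r : ℕ, r.Prime → r ∣ orderOf g / (orderOf g).gcd w →
      r ∣ s := by
    generalize orderOf g = o at ho
    induction o using induction_on_primes with
    | zero => exact absurd rfl ho
    | one => exact ⟨1, by simp, fun r hr h => absurd (Nat.dvd_one.1 (by simpa using h)) hr.ne_one⟩
    | prime_mul q a hq ih =>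
      have ha : a ≠ 0 := fun h => ho (by rw [h, mul_zero])
      obtain ⟨w, hw1, hw2⟩ := ih ha
      by_cases hqs : q ∣ s
      · refine ⟨w, hw1, fun r hr h => ?_⟩
        have h1 : q * a / (q * a).gcd w ∣ q * (a / a.gcd w) := by
          rw [← Nat.mul_div_assoc _ (Nat.gcd_dvd_left a w)]
          exact Nat.div_dvd_div_left ((Nat.gcd_dvd_left _ _))
            (Nat.gcd_dvd_gcd_of_dvd_left _ (Dvd.intro_left _ rfl))
        rcases (Nat.Prime.dvd_mul hr).1 (h.trans h1) with h2 | h2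
        · rwa [(Nat.prime_dvd_prime_iff_eq hr hq).1 h2]
        · exact hw2 r hr h2
      · refine ⟨q * w, Nat.Coprime.mul_left ((Nat.Prime.coprime_iff_not_dvd hq).2 hqs) hw1,
          fun r hr h => hw2 r hr ?_⟩
        rwa [Nat.gcd_mul_left, Nat.mul_div_mul_left _ _ hq.pos] at h
  refine ⟨w ^ s.totient, Nat.ModEq.pow_totient hw1, fun r hr h => hw2 r hr (h.trans ?_)⟩
  have h1 : 0 < s.totient := Nat.totient_pos.2 (Nat.pos_of_ne_zero hs)
  rw [← orderOf_pow]
  refine orderOf_dvd_of_pow_eq_one ?_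
  obtain ⟨c, hc⟩ : w ∣ w ^ s.totient := dvd_pow_self w h1.ne'
  rw [hc, pow_mul, ← pow_mul, mul_comm c, pow_mul, pow_orderOf_eq_one, one_pow]

theorem lift_hom {G C : Type} [Group G] [Finite G] [Group C] (χ : G →* C) (g : G) {s : ℕ}
    (hs : s ≠ 0) (h : χ g ^ s = 1) :
    ∃ e : ℕ, χ (g ^ e) = χ g ∧ ∀ r : ℕ, r.Prime → r ∣ orderOf (g ^ e) → r ∣ s := by
  obtain ⟨e, h1, h2⟩ := lift_pow g hs
  refine ⟨e, ?_, h2⟩
  rw [map_pow]
  conv_rhs => rw [← pow_one (χ g)]
  exact pow_eq_pow_iff_modEq.2 (h1.of_dvd (orderOf_dvd_of_pow_eq_one h))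

/-- Cyclic `p'`-quotients of subgroups of small index are small. -/
def Cyc (p : ℕ) (G : Type) [Group G] (m : ℕ) : Prop :=
  ∀ (N : Subgroup G) (C : Type) [Group C] [Finite C] [IsCyclic C] (χ : N →* C),
    Function.Surjective χ → (Nat.card C).Coprime p → Nat.card C ≤ m * N.index ^ 2

section API

variable {p m : ℕ} {H H' : Type} [Group H] [Group H']

theorem Cyc.of_surj (h : Cyc p H m) (φ : H →* H') (hφ : Function.Surjective φ) : Cyc p H' m := by
  intro N C _ _ _ χ hχ hc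
  have := h (N.comap φ) C (χ.comp (φ.subgroupComap N))
    (hχ.comp (φ.subgroupComap_surjective_of_surjective N hφ)) hc
  rwa [Subgroup.index_comap_of_surjective _ hφ] at this

theorem Cyc.subgroup (h : Cyc p H m) (N : Subgroup H) : Cyc p N (m * N.index ^ 2) := by
  intro A C _ _ _ χ hχ hc
  have := h (A.map N.subtype) C
    (χ.comp (A.equivMapOfInjective N.subtype N.subtype_injective).symm.toMonoidHom)
    (hχ.comp (A.equivMapOfInjective N.subtype N.subtype_injective).symm.surjective) hc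
  rw [Subgroup.index_map_subtype] at this
  calc Nat.card C ≤ m * (A.index * N.index) ^ 2 := this
    _ = m * N.index ^ 2 * A.index ^ 2 := by ring

theorem Cyc.mono {m' : ℕ} (h : Cyc p H m) (hm : m ≤ m') : Cyc p H m' :=
  fun N C _ _ _ χ hχ hc => (h N C χ hχ hc).trans (Nat.mul_le_mul_right _ hm)

theorem Cyc.cyclic [Finite H] (hp : p.Prime) (h : Cyc p H m) (Z : Subgroup H) [IsCyclic Z] :
    ∃ a c, c ≠ 0 ∧ Nat.card Z = p ^ a * c ∧ c ≤ m * Z.index ^ 2 := by
  have : Fact p.Prime := ⟨hp⟩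
  obtain ⟨P⟩ : Nonempty (Sylow p Z) := inferInstance
  obtain ⟨a, ha⟩ := P.isPGroup'.exists_card_eq
  have hn : (P : Subgroup Z).Normal := ⟨fun n hn g => by
    rwa [(IsCyclic.isMulCommutative (α := Z)).is_comm.comm g n, mul_inv_cancel_right]⟩
  have : IsCyclic (Z ⧸ (P : Subgroup Z)) :=
    isCyclic_of_surjective _ (QuotientGroup.mk'_surjective (P : Subgroup Z))
  refine ⟨a, (P : Subgroup Z).index, Subgroup.index_ne_zero_of_finite, ?_, ?_⟩
  · rw [← ha, Subgroup.card_mul_index]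
  · exact h Z (Z ⧸ (P : Subgroup Z)) _ (QuotientGroup.mk'_surjective _)
      ((Nat.Prime.coprime_iff_not_dvd hp).2 P.not_dvd_index).symm

end API

theorem cyc_of_mult : ∃ C, ∀ (p m : ℕ) (G : Type) [Group G] [Finite G], p.Prime →
    Mult G (Reg p G) m → Cyc p G (C * m ^ 2) := by
  classical
  obtain ⟨C₀, hC₀⟩ := totR
  refine ⟨C₀, fun p m G _ _ hp hM N C _ _ _ χ hχ hc => ?_⟩
  set s := Nat.card C with hs
  have hs0 : s ≠ 0 := Nat.card_pos.ne'
  obtain ⟨c₀, hc₀⟩ := IsCyclic.exists_ofOrder_eq_natCard (α := C)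
  obtain ⟨g₀, rfl⟩ := hχ c₀
  obtain ⟨e, he1, he2⟩ := lift_hom χ g₀ hs0 pow_card_eq_one'
  generalize g₀ ^ e = h at he1 he2
  have hos : ∀ i : ℕ, i.Coprime s → i.Coprime (orderOf h) := fun i hi =>
    Nat.coprime_of_dvd fun r hr h1 h2 =>
      (Nat.Prime.coprime_iff_not_dvd hr).1 (hi.coprime_dvd_left h1) (he2 r hr h2)
  have hop : (orderOf h).Coprime p := Nat.coprime_of_dvd fun r hr h1 h2 =>
    (Nat.Prime.coprime_iff_not_dvd hr).1 (hc.symm.coprime_dvd_left h2) (he2 r hr h1)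
  let x : ℕ → Reg p G := fun i => ⟨(h : G) ^ i, by
    rw [← Subgroup.coe_pow, Subgroup.orderOf_coe]
    exact hop.coprime_dvd_left (orderOf_pow_dvd i)⟩
  have hst : ∀ i : ℕ, i.Coprime s → stabilizer G (x i) = stabilizer G (x 1) := by
    intro i hi
    ext g
    rw [reg_stab, reg_stab]
    change Commute g ((h : G) ^ i) ↔ Commute g ((h : G) ^ 1)
    rw [pow_one]
    refine ⟨fun hg => ?_, fun hg => hg.pow_right i⟩
    obtain ⟨j, hj⟩ := exists_pow_eq_self_of_coprime (x := h) (hos i hi)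
    have h1 : ((h : G) ^ i) ^ j = h := by exact_mod_cast congrArg Subtype.val hj
    exact h1 ▸ hg.pow_right j
  set I := (Finset.range s).filter (fun i => s.Coprime i) with hI
  let cl : ℕ → Quotient (orbitRel G (Reg p G)) := fun i => Quotient.mk _ (x i)
  have h1 : (I.image cl).card ≤ m := by
    have h2 : ∀ c ∈ I.image cl, ∃ i ∈ I, cl i = c := fun c hc => Finset.mem_image.1 hc
    choose! r hr1 hr2 using h2
    have h3 := hM (stabilizer G (x 1)).index ((I.image cl).image fun c => x (r c)) (by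
      intro y hy
      obtain ⟨c, hc, rfl⟩ := Finset.mem_image.1 hy
      rw [hst _ (Finset.mem_filter.1 (hr1 c hc)).2.symm]) (by
      intro y hy z hz g hg
      obtain ⟨c, hc, rfl⟩ := Finset.mem_image.1 hy
      obtain ⟨c', hc', rfl⟩ := Finset.mem_image.1 hz
      have h4 : c' = c := by
        rw [← hr2 c hc, ← hr2 c' hc']
        exact Quotient.sound ⟨g, hg⟩
      rw [h4])
    rwa [Finset.card_image_of_injOn] at h3
    intro c hc c' hc' h4
    rw [← hr2 c hc, ← hr2 c' hc']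
    exact congrArg (Quotient.mk _) h4
  have h2 : ∀ c ∈ I.image cl, (I.filter fun i => cl i = c).card ≤ N.index := by
    intro c hc
    obtain ⟨i₀, -, rfl⟩ := Finset.mem_image.1 hc
    have h3 : ∀ i ∈ I.filter (fun i => cl i = cl i₀), ∃ g : G, g • x i = x i₀ := fun i hi =>
      Quotient.exact (Finset.mem_filter.1 hi).2.symm
    choose! g hg using h3
    have := Fintype.ofFinite (G ⧸ N)
    rw [Subgroup.index, Nat.card_eq_fintype_card, ← Finset.card_univ]
    refine Finset.card_le_card_of_injOn (fun i => (g i : G ⧸ N)) (fun _ _ => Finset.mem_univ _) ?_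
    intro i hi j hj hij
    have h4 : (g i)⁻¹ * g j ∈ N := QuotientGroup.eq.1 hij
    have h5 : ((g i)⁻¹ * g j) • x j = x i := by
      rw [mul_smul, hg j hj, ← hg i hi, inv_smul_smul]
    have h5' : (g i)⁻¹ * g j * (h : G) ^ j * ((g i)⁻¹ * g j)⁻¹ = (h : G) ^ i :=
      congrArg Subtype.val h5
    have h6 : (⟨_, h4⟩ : N) * h ^ j * (⟨_, h4⟩ : N)⁻¹ = h ^ i := Subtype.ext h5'
    have h7 := congrArg χ h6
    rw [map_mul, map_mul, map_inv, (IsCyclic.isMulCommutative (α := C)).is_comm.comm (χ _) (χ (h ^ j)),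
      mul_inv_cancel_right, map_pow, map_pow, he1, pow_eq_pow_iff_modEq, hc₀] at h7
    have hi' := Finset.mem_range.1 (Finset.mem_filter.1 (Finset.mem_filter.1 hi).1).1
    have hj' := Finset.mem_range.1 (Finset.mem_filter.1 (Finset.mem_filter.1 hj).1).1
    exact (Nat.ModEq.eq_of_lt_of_lt h7 hj' hi').symm
  have h3 : s.totient ≤ N.index * m :=
    (Finset.card_le_mul_card_image I _ h2).trans (Nat.mul_le_mul_left _ h1)
  calc s ≤ C₀ * s.totient ^ 2 := hC₀ s hs0
    _ ≤ C₀ * (N.index * m) ^ 2 := Nat.mul_le_mul_left _ (Nat.pow_le_pow_left h3 2)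
    _ = _ := by ring

end Pool.Agent.Lib.MP_98dfd6_al
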