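import Pool.Agent.Lib.MP_98dfd6_al.Grp

/-! Nilpotent normal subgroups and the Frattini subgroup. -/

namespace Pool.Agent.Lib.MP_98dfd6_al

open MulAction
open scoped commutatorElement

variable {G : Type} [Group G] [Finite G] {p : ℕ} {F : Subgroup G}

theorem NoP.coprime (hp : p.Prime) (hO : NoP p G) (hn : F.Normal) (hF : Group.IsNilpotent F) :
    (Nat.card F).Coprime p := by
  have : Fact p.Prime := ⟨hp⟩
  rw [Nat.coprime_comm, hp.coprime_iff_not_dvd]
  intro hd
  obtain ⟨P⟩ : Nonempty (Sylow p F) := inferInstance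
  have hPn : (P : Subgroup F).Normal := inferInstance
  have : (P : Subgroup F).Characteristic := Sylow.characteristic_of_normal P hPn
  have hN : ((P : Subgroup F).map F.subtype).Normal := inferInstance
  have hb := hO _ hN (P.isPGroup'.map F.subtype)
  have hP : (P : Subgroup F) = ⊥ :=
    (Subgroup.map_eq_bot_iff_of_injective _ F.subtype_injective).1 hb
  exact P.ne_bot_of_dvd_card hd hP

theorem commutator_le_coatom_PG1 {H : Type} [Group H] [Group.IsNilpotent H] {M : Subgroup H}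
    (hM : IsCoatom M) : commutator H ≤ M := by
  have hn : M.Normal :=
    Subgroup.NormalizerCondition.normal_of_coatom M Group.normalizerCondition_of_isNilpotent hM
  have : Nontrivial (H ⧸ M) := QuotientGroup.nontrivial_iff.2 hM.1
  have hlt : commutator (H ⧸ M) < ⊤ := Group.IsSolvable.commutator_lt_top_of_nontrivial (H ⧸ M)
  have hMK : M ≤ (commutator (H ⧸ M)).comap (QuotientGroup.mk' M) := by
    intro x hx
    rw [Subgroup.mem_comap, QuotientGroup.mk'_apply, (QuotientGroup.eq_one_iff x).2 hx]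
    exact Subgroup.one_mem _
  have hK : (commutator (H ⧸ M)).comap (QuotientGroup.mk' M) ≠ ⊤ := by
    intro h
    apply hlt.ne
    rw [eq_top_iff]
    intro y _
    obtain ⟨x, rfl⟩ := QuotientGroup.mk'_surjective M y
    have hx : x ∈ (commutator (H ⧸ M)).comap (QuotientGroup.mk' M) := h ▸ Subgroup.mem_top x
    exact hx
  have hE : (commutator (H ⧸ M)).comap (QuotientGroup.mk' M) = M := by
    rcases hMK.eq_or_lt with h | h
    · exact h.symm
    · exact absurd (hM.2 _ h) hK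
  rw [← hE, ← Subgroup.map_le_iff_le_comap, commutator_def, Subgroup.map_commutator,
    commutator_def]
  exact Subgroup.commutator_mono le_top le_top

omit [Finite G] in
theorem comm_subgroupOf_PG1 (F : Subgroup G) : (⁅F, F⁆ : Subgroup G).subgroupOf F = commutator F := by
  rw [← Subgroup.map_subtype_commutator, Subgroup.subgroupOf,
    Subgroup.comap_map_eq_self_of_injective F.subtype_injective]

omit [Finite G] in
theorem comm_le_self_PG1 (F : Subgroup G) : (⁅F, F⁆ : Subgroup G) ≤ F := by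
  rw [← Subgroup.map_subtype_commutator]
  exact Subgroup.map_subtype_le _

theorem eq_of_sup_comm (hF : Group.IsNilpotent F) {B : Subgroup G} (hB : B ≤ F)
    (h : F ≤ B ⊔ ⁅F, F⁆) : B = F := by
  by_contra hne
  have hB' : B.subgroupOf F ≠ ⊤ := by
    intro ht
    exact hne (le_antisymm hB (Subgroup.subgroupOf_eq_top.1 ht))
  obtain ⟨M, hM, hBM⟩ := (eq_top_or_exists_le_coatom (B.subgroupOf F)).resolve_left hB'
  have hc : commutator F ≤ M := commutator_le_coatom_PG1 hM
  have h1 : B ≤ M.map F.subtype := by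
    intro x hx
    exact ⟨⟨x, hB hx⟩, hBM (by exact hx), rfl⟩
  have h2 : (⁅F, F⁆ : Subgroup G) ≤ M.map F.subtype := by
    rw [← Subgroup.map_subtype_commutator]
    exact Subgroup.map_mono hc
  have h3 : F ≤ M.map F.subtype := h.trans (sup_le h1 h2)
  apply hM.1
  rw [eq_top_iff]
  intro x _
  obtain ⟨y, hy, hyx⟩ := h3 x.2
  have : y = x := Subtype.ext hyx
  exact this ▸ hy

theorem comm_le_coatom (hn : F.Normal) (hF : Group.IsNilpotent F) {M : Subgroup G}
    (hM : IsCoatom M) : ⁅F, F⁆ ≤ M := by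
  by_contra hne
  have hC : (⁅F, F⁆ : Subgroup G).Normal := inferInstance
  have ht : (⁅F, F⁆ : Subgroup G) ⊔ M = ⊤ := by
    apply hM.2
    refine lt_of_le_of_ne le_sup_right fun h => hne ?_
    rw [h]
    exact le_sup_left
  have hle : F ≤ (F ⊓ M) ⊔ ⁅F, F⁆ := by
    intro f hf
    have hf' : f ∈ (⁅F, F⁆ : Subgroup G) ⊔ M := ht ▸ Subgroup.mem_top f
    obtain ⟨c, hc, m, hm, hcm⟩ := Subgroup.mem_sup_of_normal_left.1 hf'
    have hmF : m ∈ F := by
      have : m = c⁻¹ * f := by rw [← hcm]; group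
      rw [this]
      exact F.mul_mem (F.inv_mem (comm_le_self_PG1 F hc)) hf
    rw [← hcm]
    exact Subgroup.mul_mem _ (Subgroup.mem_sup_right hc) (Subgroup.mem_sup_left ⟨hmF, hm⟩)
  have hE := eq_of_sup_comm hF inf_le_left hle
  exact hne ((comm_le_self_PG1 F).trans (hE ▸ inf_le_right))

omit [Finite G] in
theorem conj_mem_PG1 {L : Subgroup G} (h1 : ⁅F, F⁆ ≤ L) (h2 : L ≤ F) {f x : G} (hf : f ∈ F)
    (hx : x ∈ L) : f * x * f⁻¹ ∈ L := by
  have e : f * x * f⁻¹ = ⁅f, x⁆ * x := by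
    rw [commutatorElement_def]
    group
  rw [e]
  exact L.mul_mem (h1 (Subgroup.commutator_mem_commutator hf (h2 hx))) hx

omit [Finite G] in
theorem normal_of_supp_PG1 (hn : F.Normal) {H L : Subgroup G} (ht : F ⊔ H = ⊤)
    (h1 : ⁅F, F⁆ ≤ L) (h2 : L ≤ F) (h3 : ∀ h ∈ H, ∀ x ∈ L, h * x * h⁻¹ ∈ L) : L.Normal := by
  constructor
  intro x hx g
  have hg : g ∈ F ⊔ H := ht ▸ Subgroup.mem_top g
  obtain ⟨f, hf, h, hh, rfl⟩ := Subgroup.mem_sup_of_normal_left.1 hg
  have e : f * h * x * (f * h)⁻¹ = f * (h * x * h⁻¹) * f⁻¹ := by group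
  rw [e]
  exact conj_mem_PG1 h1 h2 hf (h3 h hh x hx)

theorem inf_coatom_normal (hn : F.Normal) (hF : Group.IsNilpotent F) {M : Subgroup G}
    (hM : IsCoatom M) : (F ⊓ M).Normal := by
  by_cases hle : F ≤ M
  · rw [inf_eq_left.2 hle]
    exact hn
  · have ht : F ⊔ M = ⊤ := by
      apply hM.2
      refine lt_of_le_of_ne le_sup_right fun h => hle ?_
      rw [h]
      exact le_sup_left
    refine normal_of_supp_PG1 hn ht (le_inf (comm_le_self_PG1 F) (comm_le_coatom hn hF hM))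
      inf_le_left ?_
    intro h hh x hx
    exact ⟨hn.conj_mem x hx.1 h, M.mul_mem (M.mul_mem hh hx.2) (M.inv_mem hh)⟩

theorem exists_supp (hn : F.Normal) (hF : Group.IsNilpotent F) :
    ∃ H₀ : Subgroup G, F ⊔ H₀ = ⊤ ∧ F ⊓ H₀ ≤ frattini G := by
  obtain ⟨H₀, hH, hmin⟩ := (wellFounded_lt (α := Subgroup G)).has_min {H | F ⊔ H = ⊤}
    ⟨⊤, by simp⟩
  have hH : F ⊔ H₀ = ⊤ := hH
  refine ⟨H₀, hH, ?_⟩
  rw [frattini, Order.radical]
  refine le_iInf₂ fun M hM => ?_
  have hM : IsCoatom M := hM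
  by_contra hne
  have hN : (F ⊓ M).Normal := inf_coatom_normal hn hF hM
  have hL : ((F ⊓ H₀) ⊔ (F ⊓ M)).Normal := by
    refine normal_of_supp_PG1 hn hH
      ((le_inf (comm_le_self_PG1 F) (comm_le_coatom hn hF hM)).trans le_sup_right)
      (sup_le inf_le_left inf_le_left) ?_
    intro h hh x hx
    obtain ⟨a, ha, b, hb, rfl⟩ := Subgroup.mem_sup_of_normal_right.1 hx
    have e : h * (a * b) * h⁻¹ = (h * a * h⁻¹) * (h * b * h⁻¹) := by group
    rw [e]
    refine Subgroup.mul_mem _ (Subgroup.mem_sup_left ?_) (Subgroup.mem_sup_right ?_)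
    · exact ⟨hn.conj_mem a ha.1 h, H₀.mul_mem (H₀.mul_mem hh ha.2) (H₀.inv_mem hh)⟩
    · exact hN.conj_mem b hb h
  have ht : ((F ⊓ H₀) ⊔ (F ⊓ M)) ⊔ M = ⊤ := by
    apply hM.2
    refine lt_of_le_of_ne le_sup_right fun h => hne ?_
    rw [h]
    exact le_sup_left.trans le_sup_left
  have hle : H₀ ≤ F ⊔ (H₀ ⊓ M) := by
    intro h hh
    have hh' : h ∈ ((F ⊓ H₀) ⊔ (F ⊓ M)) ⊔ M := ht ▸ Subgroup.mem_top h
    obtain ⟨l, hl, m, hm, hlm⟩ := Subgroup.mem_sup_of_normal_left.1 hh'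
    obtain ⟨a, ha, b, hb, rfl⟩ := Subgroup.mem_sup_of_normal_right.1 hl
    have e : b * m = a⁻¹ * h := by rw [← hlm]; group
    have hbm : b * m ∈ H₀ ⊓ M :=
      ⟨e ▸ H₀.mul_mem (H₀.inv_mem ha.2) hh, M.mul_mem hb.2 hm⟩
    rw [← hlm, mul_assoc]
    exact Subgroup.mul_mem _ (Subgroup.mem_sup_left ha.1) (Subgroup.mem_sup_right hbm)
  have ht2 : F ⊔ (H₀ ⊓ M) = ⊤ := by
    rw [eq_top_iff, ← hH]
    exact sup_le le_sup_left hle
  have hnlt : ¬ (H₀ ⊓ M < H₀) := hmin _ ht2
  have hE : H₀ ⊓ M = H₀ := by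
    by_contra h
    exact hnlt (lt_of_le_of_ne inf_le_left h)
  exact hne (inf_le_right.trans (inf_eq_left.1 hE))

theorem exists_irred (F : Subgroup G) :
    ∃ I : Finset (Subgroup G), (∀ M ∈ I, IsCoatom M) ∧
      (∀ f ∈ F, (∀ M ∈ I, f ∈ M) → f ∈ frattini G) ∧
      ∀ M ∈ I, ∃ f ∈ F, f ∉ M ∧ ∀ M' ∈ I, M' ≠ M → f ∈ M' := by
  classical
  have hex : ∃ n, ∃ I : Finset (Subgroup G), I.card = n ∧ (∀ M ∈ I, IsCoatom M) ∧
      ∀ f ∈ F, (∀ M ∈ I, f ∈ M) → f ∈ frattini G := by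
    refine ⟨_, (Set.toFinite {M : Subgroup G | IsCoatom M}).toFinset, rfl, ?_, ?_⟩
    · intro M hM
      simpa using hM
    · intro f _ hf
      rw [frattini, Order.radical]
      simp only [Subgroup.mem_iInf]
      intro M hM
      exact hf M (by simpa using hM)
  obtain ⟨I, hI, h1, h2⟩ := Nat.find_spec hex
  refine ⟨I, h1, h2, fun M hM => ?_⟩
  by_contra hne
  have hlt : (I.erase M).card < Nat.find hex := hI ▸ Finset.card_erase_lt_of_mem hM
  apply Nat.find_min hex hlt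
  refine ⟨I.erase M, rfl, fun M' hM' => h1 M' (Finset.mem_of_mem_erase hM'), ?_⟩
  intro f hf hall
  have hall' : ∀ M' ∈ I, M' ≠ M → f ∈ M' := fun M' h h' => hall M' (Finset.mem_erase.2 ⟨h', h⟩)
  have hfM : f ∈ M := by
    by_contra h
    exact hne ⟨f, hf, h, hall'⟩
  refine h2 f hf fun M' hM' => ?_
  by_cases h : M' = M
  · exact h ▸ hfM
  · exact hall' M' hM' h

theorem exists_gen_nil (hF : Group.IsNilpotent F) :
    ∃ S : Finset F, Subgroup.closure (S : Set F) = ⊤ ∧ S.card ≤ ⁅F, F⁆.relIndex F := by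
  classical
  have : Fintype (F ⧸ commutator F) := Fintype.ofFinite _
  refine ⟨Finset.univ.image fun q : F ⧸ commutator F => q.out, ?_, ?_⟩
  · by_contra hne
    obtain ⟨M, hM, hSM⟩ := (eq_top_or_exists_le_coatom _).resolve_left hne
    have hc : commutator F ≤ M := commutator_le_coatom_PG1 hM
    apply hM.1
    rw [eq_top_iff]
    intro x _
    obtain ⟨c, hc'⟩ := QuotientGroup.mk_out_eq_mul (commutator F) x
    have h1 : (QuotientGroup.mk x : F ⧸ commutator F).out ∈ M := by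
      apply hSM
      apply Subgroup.subset_closure
      simp only [Finset.coe_image, Finset.coe_univ, Set.image_univ]
      exact ⟨_, rfl⟩
    have e : x = (QuotientGroup.mk x : F ⧸ commutator F).out * (c : F)⁻¹ := by
      rw [hc']
      group
    rw [e]
    exact M.mul_mem h1 (M.inv_mem (hc c.2))
  · refine Finset.card_image_le.trans (le_of_eq ?_)
    rw [Subgroup.relIndex, comm_subgroupOf_PG1, Subgroup.index, Nat.card_eq_fintype_card,
      Finset.card_univ]

end Pool.Agent.Lib.MP_98dfd6_al
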