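import Pool.Agent.Lib.MP_98dfd6_al.Chr
import Pool.Agent.Lib.MP_98dfd6_al.PG1

/-! The character groups of complemented chief factors. -/

namespace Pool.Agent.Lib.MP_98dfd6_al

open MulAction

variable {k G : Type} [Field k] [Group G] [Finite G] {F : Subgroup G} [F.Normal]

omit [Finite G] in
theorem exists_mul_coatom {E M : Subgroup G} (hE : E.Normal) (hM : IsCoatom M) (h : ¬E ≤ M)
    (g : G) : ∃ e ∈ E, e⁻¹ * g ∈ M := by
  have ht : E ⊔ M = ⊤ := hM.2 _ (lt_of_le_of_ne le_sup_right fun h1 => h (h1 ▸ le_sup_left))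
  have hg : g ∈ E ⊔ M := ht ▸ Subgroup.mem_top g
  obtain ⟨e, he, μ, hμ, rfl⟩ := Subgroup.mem_sup_of_normal_left.1 hg
  exact ⟨e, he, by simpa using hμ⟩

/-- The common kernel of a set of characters. -/
def kerY {A : Subgroup G} (Y : AddSubgroup (Ch k F A)) : Subgroup G :=
  (⨅ y : Y, (y : Ch k F A).val.ker).map F.subtype

omit [Finite G] [F.Normal] in
theorem mem_kerY {A : Subgroup G} {Y : AddSubgroup (Ch k F A)} {f : F} :
    (f : G) ∈ kerY Y ↔ ∀ y ∈ Y, Ch.val y f = 1 := by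
  rw [kerY, ← Subgroup.subtype_apply, Subgroup.mem_map_iff_mem F.subtype_injective]
  simp [Subgroup.mem_iInf]

omit [Finite G] [F.Normal] in
theorem Ch.val_sub {A : Subgroup G} (x y : Ch k F A) (f : F) :
    (x - y).val f * y.val f = x.val f := by
  rw [← Ch.val_add, sub_add_cancel]

theorem ch_irr {p : ℕ} [Fact p.Prime] [IsAlgClosed k] [CharP k p] (hc : (Nat.card F).Coprime p)
    {M : Subgroup G} (hM : IsCoatom M) (hFM : ¬F ≤ M) (h2 : ⁅F, F⁆ ≤ M) [(F ⊓ M).Normal] :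
    Irr G (Ch k F (F ⊓ M)) := by
  have hA : ⁅F, F⁆ ≤ F ⊓ M := le_inf (comm_le_self_PG1 F) h2
  have hc' : ((F ⊓ M).relIndex F).Coprime p :=
    hc.coprime_dvd_left (Subgroup.relIndex_dvd_card _ _)
  refine ⟨?_, fun Y hY => ?_⟩
  · obtain ⟨f, hf, hfM⟩ := SetLike.not_le_iff_exists.mp hFM
    obtain ⟨x, hx⟩ := ch_sep (k := k) F (F ⊓ M) hA hc' (f := ⟨f, hf⟩) fun h => hfM h.2
    exact ⟨x, 0, fun h => hx (h ▸ Ch.val_zero _)⟩
  refine or_iff_not_imp_left.mpr fun hb => ?_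
  have hle : kerY Y ≤ F := Subgroup.map_subtype_le _
  have hn : (kerY Y).Normal := ⟨fun b hb g => by
    have h1 := (mem_kerY (f := ⟨b, hle hb⟩)).mp hb
    have h3 : ((MulAut.conjNormal g (⟨b, hle hb⟩ : F) : F) : G) ∈ kerY Y :=
      mem_kerY.mpr fun y hy => by
        have h4 := h1 _ (hY g⁻¹ y hy)
        rwa [Ch.val_smul, cjc_apply, inv_inv] at h4
    exact h3⟩
  have hBM : kerY Y ≤ M := by
    by_contra h
    refine hb ((AddSubgroup.eq_bot_iff_forall _).mpr fun y hy => Ch.ext fun f => ?_)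
    obtain ⟨e, he, h1⟩ := exists_mul_coatom hn hM h f
    have h3 := (mem_kerY (f := ⟨e, hle he⟩)).mp he y hy
    have h4 := y.prop ((⟨e, hle he⟩ : F)⁻¹ * f) ⟨Subtype.prop _, h1⟩
    rw [map_mul, map_inv, h3, inv_one, one_mul] at h4
    exact h4
  have := ch_finite (k := k) F (F ⊓ M)
  obtain ⟨_, h5⟩ := card_hom_le k (Multiplicative Y)
  refine AddSubgroup.eq_top_of_le_card Y ((ch_card_le F _).trans (le_trans ?_ h5))
  refine Nat.card_le_card_of_injective (fun q : F ⧸ (F ⊓ M).subgroupOf F =>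
    (MonoidHom.mk' (fun y => Ch.val (Multiplicative.toAdd y : Y).1 q.out) fun _ _ => rfl :
      Multiplicative Y →* kˣ)) fun q q' h => ?_
  rw [← q.out_eq', ← q'.out_eq', QuotientGroup.eq, Subgroup.mem_subgroupOf]
  refine ⟨Subtype.prop _, hBM (mem_kerY.mpr fun y hy => ?_)⟩
  have h6 : Ch.val y q.out = Ch.val y q'.out := DFunLike.congr_fun h (Multiplicative.ofAdd ⟨y, hy⟩)
  rw [map_mul, map_inv, h6, inv_mul_cancel]

theorem ch_card_resid {A : Subgroup G} [A.Normal] (hI : Irr G (Ch k F A)) {C : ℕ}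
    (hR : Resid G C) : Nat.card (Ch k F A) ≤ C := by
  obtain ⟨B, ⟨hBn, hBF, hB⟩, hmin⟩ := (wellFounded_lt (α := Subgroup G)).has_min
    {B | B.Normal ∧ B ≤ F ∧ ∀ x : Ch k F A, (∀ f : F, (f : G) ∈ B → x.val f = 1) → x = 0}
    ⟨F, inferInstance, le_rfl, fun x hx => Ch.ext fun f => hx f f.2⟩
  have hB0 : B ≠ ⊥ := by
    rintro rfl
    have := hI.1
    obtain ⟨x, hx⟩ := exists_ne (0 : Ch k F A)
    refine hx (hB x fun f hf => ?_)
    rw [show f = 1 from Subtype.ext (Subgroup.mem_bot.mp hf), map_one]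
  obtain ⟨⟨g, hgB⟩, hg⟩ := Subgroup.ne_bot_iff_exists_ne_one.mp hB0
  obtain ⟨N, hN, hNC, hgN⟩ := hR g fun h => hg (Subtype.ext h)
  let Y : AddSubgroup (Ch k F A) :=
    { carrier := {x | ∀ f : F, (f : G) ∈ B ⊓ N → x.val f = 1}
      add_mem' := fun {x y} hx hy f hf => by rw [Ch.val_add, hx f hf, hy f hf, one_mul]
      zero_mem' := fun f _ => rfl
      neg_mem' := fun {x} hx f hf => by
        have h1 := Ch.val_add (-x) x f
        rw [neg_add_cancel, hx f hf, mul_one] at h1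
        exact h1.symm }
  have hY : Y = ⊤ := by
    refine (hI.2 Y fun a x hx f hf => ?_).resolve_left fun h => ?_
    · rw [Ch.val_smul, cjc_apply]
      exact hx _ ((inferInstance : (B ⊓ N).Normal).conj_mem _ hf a⁻¹)
    · refine hmin (B ⊓ N) ⟨inferInstance, inf_le_left.trans hBF, fun x hx => ?_⟩
        (lt_of_le_of_ne inf_le_left fun h1 => hgN (h1.ge hgB).2)
      exact (AddSubgroup.eq_bot_iff_forall _).mp h x hx
  have := ch_finite (k := k) B N
  have h2 : N.relIndex B ≤ C :=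
    (Nat.le_of_dvd (Nat.pos_of_ne_zero Subgroup.FiniteIndex.index_ne_zero)
      (Subgroup.relIndex_dvd_index_of_normal N B)).trans hNC
  refine le_trans ?_ ((ch_card_le (k := k) B N).trans h2)
  refine Nat.card_le_card_of_injective (fun x : Ch k F A =>
    (Ch.mk (x.val.comp (Subgroup.inclusion hBF)) fun b hb =>
      (hY.ge (AddSubgroup.mem_top x) : x ∈ Y) _ ⟨b.2, hb⟩ : Ch k B N)) fun x y h => ?_
  refine sub_eq_zero.mp (hB _ fun f hf => ?_)
  have h3 : x.val f = y.val f := congrArg (fun z : Ch k B N => z.val ⟨f, hf⟩) h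
  have h4 := Ch.val_sub x y f
  rw [h3] at h4
  exact mul_eq_right.mp h4

theorem ch_prod_inj {ι : Type} [Fintype ι] (M : ι → Subgroup G) (hM : ∀ i, IsCoatom (M i))
    (hn : ∀ i, (F ⊓ M i).Normal) (hirr : ∀ i, ∃ f ∈ F, f ∉ M i ∧ ∀ j, j ≠ i → f ∈ M j) :
    Function.Injective fun x : ∀ i, Ch k F (F ⊓ M i) => ∏ i, (x i).val := by
  classical
  intro x y h
  funext j
  refine Ch.ext fun f => ?_
  have hE : (F ⊓ ⨅ i : {i // i ≠ j}, (F ⊓ M i)).Normal := by
    have := Subgroup.normal_iInf_normal fun i : {i // i ≠ j} => hn i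
    infer_instance
  obtain ⟨e, he, h1⟩ := exists_mul_coatom hE (hM j) (fun hle => by
    obtain ⟨g, hg, h1, h2⟩ := hirr j
    exact h1 (hle ⟨hg, Subgroup.mem_iInf.mpr fun i => ⟨hg, h2 i i.2⟩⟩)) f
  have key : ∀ z : ∀ i, Ch k F (F ⊓ M i), (z j).val f = (∏ i, (z i).val) ⟨e, he.1⟩ := by
    intro z
    have h4 := (z j).prop ((⟨e, he.1⟩ : F)⁻¹ * f) ⟨Subtype.prop _, h1⟩
    rw [map_mul, map_inv, inv_mul_eq_one] at h4
    rw [MonoidHom.finsetProd_apply, Finset.prod_eq_single j, h4]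
    · intro i _ hi
      exact (z i).prop _ (Subgroup.mem_iInf.mp he.2 ⟨i, hi⟩)
    · simp
  rw [key x, key y]
  exact DFunLike.congr_fun h _

end Pool.Agent.Lib.MP_98dfd6_al
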