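import Pool.Agent.Lib.MP_98dfd6_al.PG2
import Pool.Agent.Lib.MP_98dfd6_al.PG3

/-! The complemented chief factors inside the Fitting subgroup. -/

namespace Pool.Agent.Lib.MP_98dfd6_al

open MulAction Multiplicative
open scoped commutatorElement

variable {G : Type} [Group G]

/-- Conjugation on the section `F / A`. -/
def secMap (F A : Subgroup G) [F.Normal] [hA : A.Normal] (g : G) :
    F ⧸ A.subgroupOf F →* F ⧸ A.subgroupOf F :=
  QuotientGroup.map _ _ (MulAut.conjNormal g : MulAut F).toMonoidHom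
    fun _ hf => hA.conj_mem _ hf g

theorem secMap_mk (F A : Subgroup G) [F.Normal] [A.Normal] (g : G) (f : F) :
    secMap F A g (f : F ⧸ A.subgroupOf F) = (MulAut.conjNormal g f : F) := rfl

theorem exists_sec [Finite G] (F A : Subgroup G) [F.Normal] [A.Normal] (h : ⁅F, F⁆ ≤ A) :
    ∃ (X : Type) (_ : AddCommGroup X) (_ : Finite X) (_ : DistribMulAction G X)
      (π : F →* Multiplicative X), Function.Surjective π ∧ (∀ f : F, π f = 1 ↔ (f : G) ∈ A) ∧
      ∀ (g : G) (f : F), (π (MulAut.conjNormal g f)).toAdd = g • (π f).toAdd := by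
  let i1 : CommGroup (F ⧸ A.subgroupOf F) :=
    { (inferInstance : Group (F ⧸ A.subgroupOf F)) with
      mul_comm := fun a b => by
        obtain ⟨a, rfl⟩ := QuotientGroup.mk_surjective a
        obtain ⟨b, rfl⟩ := QuotientGroup.mk_surjective b
        rw [← QuotientGroup.mk_mul, ← QuotientGroup.mk_mul, QuotientGroup.eq]
        have h1 := h (Subgroup.commutator_mem_commutator (F.inv_mem b.2) (F.inv_mem a.2))
        rw [Subgroup.mem_subgroupOf]
        simpa [commutatorElement_def, mul_assoc] using h1 }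
  let i2 : DistribMulAction G (Additive (F ⧸ A.subgroupOf F)) :=
    { smul := fun g x => Additive.ofMul (secMap F A g x.toMul)
      one_smul := fun x => by
        obtain ⟨a, ha⟩ := QuotientGroup.mk_surjective x.toMul
        change Additive.ofMul (secMap F A 1 x.toMul) = x
        rw [← ha, secMap_mk, map_one, MulAut.one_apply, ha]
        rfl
      mul_smul := fun g g' x => by
        obtain ⟨a, ha⟩ := QuotientGroup.mk_surjective x.toMul
        change Additive.ofMul (secMap F A (g * g') x.toMul) =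
          Additive.ofMul (secMap F A g (secMap F A g' x.toMul))
        rw [← ha, secMap_mk, secMap_mk, secMap_mk, map_mul, MulAut.mul_apply]
      smul_zero := fun g => congrArg Additive.ofMul (map_one (secMap F A g))
      smul_add := fun g x y => congrArg Additive.ofMul (map_mul (secMap F A g) x.toMul y.toMul) }
  refine ⟨Additive (F ⧸ A.subgroupOf F), inferInstance, inferInstance, i2,
    QuotientGroup.mk' (A.subgroupOf F), QuotientGroup.mk'_surjective _, fun f => ?_,
    fun g f => rfl⟩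
  exact QuotientGroup.eq_one_iff f

theorem sec_irr {F M : Subgroup G} [F.Normal] {X : Type} [AddCommGroup X] [DistribMulAction G X]
    (π : F →* Multiplicative X) (hs : Function.Surjective π) (hM : IsCoatom M) (hFM : ¬F ≤ M)
    (hk : ∀ f : F, π f = 1 ↔ (f : G) ∈ F ⊓ M)
    (he : ∀ (g : G) (f : F), (π (MulAut.conjNormal g f)).toAdd = g • (π f).toAdd) : Irr G X := by
  constructor
  · obtain ⟨f, hf, hf'⟩ := SetLike.not_le_iff_exists.1 hFM
    exact ⟨(π ⟨f, hf⟩).toAdd, 0, fun h => hf' ((hk ⟨f, hf⟩).1 h).2⟩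
  · intro Y hY
    let E : Subgroup G := (Y.toSubgroup.comap π).map F.subtype
    have hE : E.Normal := ⟨by
      rintro _ ⟨f, hf, rfl⟩ g
      refine ⟨MulAut.conjNormal g f, ?_, rfl⟩
      change (π (MulAut.conjNormal g f)).toAdd ∈ Y
      rw [he]
      exact hY g _ hf⟩
    by_cases h : E ≤ M
    · left
      rw [eq_bot_iff]
      intro y hy
      obtain ⟨f, hf⟩ := hs (ofAdd y)
      have h1 : (f : G) ∈ E := ⟨f, by
        change (π f).toAdd ∈ Y
        rw [hf]
        exact hy, rfl⟩
      have h2 := (hk f).2 ⟨f.2, h h1⟩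
      rw [hf] at h2
      exact h2
    · right
      rw [eq_top_iff]
      intro y _
      obtain ⟨f, hf⟩ := hs (ofAdd y)
      obtain ⟨_, ⟨e, he1, rfl⟩, he2⟩ := exists_mul_coatom hE hM h f
      have h2 := (hk (e⁻¹ * f)).2 ⟨(e⁻¹ * f).2, he2⟩
      rw [map_mul, map_inv, inv_mul_eq_one, hf] at h2
      have h3 : (π e).toAdd ∈ Y := he1
      rw [h2] at h3
      exact h3

theorem pgc [Finite G] [Group.IsSolvable G] {F : Subgroup G} [F.Normal] (hF : MaxNil F) :
    ∃ (ι : Type) (_ : Fintype ι) (X : ι → Type) (_ : ∀ i, AddCommGroup (X i))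
      (_ : ∀ i, Finite (X i)) (_ : ∀ i, DistribMulAction G (X i))
      (π : ∀ i, F →* Multiplicative (X i)), (∀ i, Irr G (X i)) ∧
        (∀ i (g : G) (f : F), (π i (MulAut.conjNormal g f)).toAdd = g • (π i f).toAdd) ∧
        (∀ f : F, (∀ i, π i f = 1) → (f : G) ∈ frattini G) ∧
        (∀ y : ∀ i, X i, ∃ f : F, ∀ i, (π i f).toAdd = y i) ∧
        ∀ g : G, (∀ i, ∀ x : X i, g • x = x) ↔ g ∈ F := by
  classical
  have hn := hF.normal
  obtain ⟨I, hI1, hI2, hI3⟩ := exists_irred F
  have hN : ∀ M : I, (F ⊓ (M : Subgroup G)).Normal := fun M =>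
    inf_coatom_normal hn hF.nil (hI1 M M.2)
  have h2 : ∀ M : I, ⁅F, F⁆ ≤ (M : Subgroup G) := fun M => comm_le_coatom hn hF.nil (hI1 M M.2)
  have h2' : ∀ M : I, ⁅F, F⁆ ≤ F ⊓ (M : Subgroup G) := fun M =>
    le_inf (Subgroup.commutator_le_left _ _) (h2 M)
  have hFM : ∀ M : I, ¬F ≤ (M : Subgroup G) := fun M h => by
    obtain ⟨f, hf, hf', -⟩ := hI3 M M.2
    exact hf' (h hf)
  choose X i1 i2 i3 π hs hk he using fun M : I => exists_sec F (F ⊓ (M : Subgroup G)) (h2' M)
  have hirr : ∀ M : I, Irr G (X M) := fun M =>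
    sec_irr (π M) (hs M) (hI1 M M.2) (hFM M) (hk M) (he M)
  have hfr : ∀ f : F, (∀ i, π i f = 1) → (f : G) ∈ frattini G := fun f hf =>
    hI2 f f.2 fun M hM => ((hk ⟨M, hM⟩ f).1 (hf _)).2
  refine ⟨I, inferInstance, X, i1, i2, i3, π, hirr, he, hfr, fun y => ?_, fun g => ⟨fun h => ?_, ?_⟩⟩
  · have h1 : ∀ (i : I) (x : X i), ∃ f : F, (π i f).toAdd = x ∧ ∀ j, j ≠ i → π j f = 1 := by
      intro i
      let Y : AddSubgroup (X i) :=
        { carrier := {x | ∃ f : F, (π i f).toAdd = x ∧ ∀ j, j ≠ i → π j f = 1}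
          add_mem' := by
            rintro _ _ ⟨a, rfl, ha⟩ ⟨b, rfl, hb⟩
            exact ⟨a * b, by rw [map_mul, toAdd_mul], fun j hj => by
              rw [map_mul, ha j hj, hb j hj, one_mul]⟩
          zero_mem' := ⟨1, by rw [map_one, toAdd_one], fun j _ => map_one _⟩
          neg_mem' := by
            rintro _ ⟨a, rfl, ha⟩
            exact ⟨a⁻¹, by rw [map_inv, toAdd_inv], fun j hj => by
              rw [map_inv, ha j hj, inv_one]⟩ }
      rcases (hirr i).2 Y (by
        rintro g _ ⟨a, rfl, ha⟩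
        refine ⟨MulAut.conjNormal g a, he i g a, fun j hj => ?_⟩
        have h3 := he j g a
        rw [ha j hj, toAdd_one, smul_zero] at h3
        exact h3) with h | h
      · obtain ⟨f, hf, hf', hf''⟩ := hI3 i i.2
        have h3 : (π i ⟨f, hf⟩).toAdd ∈ Y := ⟨⟨f, hf⟩, rfl, fun j hj =>
          (hk j _).2 ⟨hf, hf'' j j.2 fun e => hj (Subtype.ext e)⟩⟩
        rw [h] at h3
        exact absurd ((hk i ⟨f, hf⟩).1 h3).2 hf'
      · intro x
        have h3 : x ∈ Y := h ▸ AddSubgroup.mem_top x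
        exact h3
    have h3 : ∀ T : Finset I, ∃ f : F, (∀ i ∈ T, (π i f).toAdd = y i) ∧ ∀ i ∉ T, π i f = 1 := by
      intro T
      induction T using Finset.induction_on with
      | empty => exact ⟨1, by simp, fun i _ => map_one _⟩
      | insert a T ha ih =>
        obtain ⟨f, hf1, hf2⟩ := ih
        obtain ⟨f', hf3, hf4⟩ := h1 a (y a)
        refine ⟨f * f', fun i hi => ?_, fun i hi => ?_⟩
        · rw [map_mul]
          rcases Finset.mem_insert.1 hi with rfl | hi
          · rw [hf2 _ ha, one_mul, hf3]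
          · rw [hf4 i fun e => ha (e ▸ hi), mul_one, hf1 i hi]
        · rw [Finset.mem_insert, not_or] at hi
          rw [map_mul, hf2 i hi.2, hf4 i hi.1, one_mul]
    obtain ⟨f, hf, -⟩ := h3 Finset.univ
    exact ⟨f, fun i => hf i (Finset.mem_univ i)⟩
  · refine hF.mem_of_comm ?_ (g := g) fun f hf => ?_
    · intro a ha
      exact hI2 a (Subgroup.commutator_le_left _ _ ha) fun M hM => h2 ⟨M, hM⟩ ha
    · refine hfr (MulAut.conjNormal g ⟨f, hf⟩ * (⟨f, hf⟩ : F)⁻¹) fun i => ?_
      rw [map_mul, map_inv, mul_inv_eq_one]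
      exact toAdd.injective ((he i g _).trans (h i _))
  · intro hg i x
    obtain ⟨f, hf⟩ := hs i (ofAdd x)
    have h1 := he i g f
    have e : (MulAut.conjNormal g f : F) = ⟨g, hg⟩ * f * (⟨g, hg⟩ : F)⁻¹ := rfl
    rw [e, map_mul (π i), map_mul (π i), map_inv, mul_inv_cancel_comm, hf] at h1
    exact h1.symm

end Pool.Agent.Lib.MP_98dfd6_al
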