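import Pool.Agent.Lib.MP_98dfd6_al.ClQ
import Pool.Agent.Lib.MP_98dfd6_al.ClSec

/-! Solvable groups with few prime divisors and bounded multiplicity of class sizes. -/

namespace Pool.Agent.Lib.MP_98dfd6_al

open MulAction Multiplicative

theorem cl_solv {p : ℕ} (hp : p.Prime) (m k : ℕ) : ∃ D,
    ∀ (G : Type) [Group G] [Finite G] [Group.IsSolvable G], NoP p G → Mult G (Reg p G) m →
      (Nat.card G).primeFactors.card ≤ k → ∀ F : Subgroup G, MaxNil F →
      ∃ M : Subgroup G, M.Normal ∧ M.index ≤ D ∧ ⁅M, M⁆ ≤ F := by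
  classical
  have : Fact p.Prime := ⟨hp⟩
  obtain ⟨C₀, hC₀⟩ := cyc_of_mult
  obtain ⟨c, hc⟩ := singleR hp
  obtain ⟨c', hc'⟩ := equal_card hp
  obtain ⟨c₁, hc₁⟩ := absorb (6 * m + C₀ * m ^ 2 + 1) (k + 2)
  obtain ⟨x₀, hx₀⟩ := bootR ((k * (c + 1) * c' * (2 * c) + 2) * c₁ ^ 9) 9
  refine ⟨2 ^ (((k * (c + 1) * c' * (2 * c) + 2) * c₁ ^ 9) * (Nat.log 2 x₀ + 1) ^ 9),
    fun G _ _ _ hO hM hk F hF => ?_⟩
  have hn := hF.normal
  obtain ⟨ι, _, X, _, _, _, π, hI, he, hfr, hs, hK⟩ := pgc hF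
  choose ch hch hex using fun i => irr_exp (hI i)
  choose d hd using fun i => card_of_exp (hch i) (hex i)
  set O : Subgroup G := ⨅ i, (Op p (Im G (X i))).comap (toIm G (X i)) with hOd
  have hOn : O.Normal := Subgroup.normal_iInf_normal fun i => inferInstance
  have hmem : ∀ g, g ∈ O ↔ ∀ i, toIm G (X i) g ∈ Op p (Im G (X i)) := fun g => by
    simp only [hOd, Subgroup.mem_iInf, Subgroup.mem_comap]
  have hone : ∀ g : G, g ∈ F ↔ ∀ i, toIm G (X i) g = 1 := fun g => by
    rw [← hK]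
    exact forall_congr' fun i => ⟨fun h => Subtype.ext (Equiv.ext h),
      fun h y => by rw [← toIm_smul, h, one_smul]⟩
  have hFO : F ≤ O := fun g hg => (hmem g).2 fun i => by
    rw [(hone g).1 hg i]
    exact one_mem _
  have hOp : ∀ g ∈ O, ∃ a, g ^ p ^ a ∈ F := by
    intro g hg
    choose a ha using fun i => (Op.isPGroup (p := p) (G := Im G (X i))) ⟨_, (hmem g).1 hg i⟩
    refine ⟨∑ i, a i, (hone _).2 fun i => ?_⟩
    obtain ⟨e, he⟩ := Nat.exists_eq_add_of_le
      (Finset.single_le_sum (fun j _ => Nat.zero_le (a j)) (Finset.mem_univ i))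
    have h2 : toIm G (X i) g ^ p ^ a i = 1 := congrArg Subtype.val (ha i)
    rw [map_pow, he, pow_add, pow_mul, h2, one_pow]
  obtain ⟨A, hA⟩ : ∃ A, F.relIndex O = p ^ A := by
    have h1 : IsPGroup p (O ⧸ F.subgroupOf O) := by
      intro z
      obtain ⟨g, rfl⟩ := QuotientGroup.mk_surjective z
      obtain ⟨a, ha⟩ := hOp g g.2
      exact ⟨a, by rw [← QuotientGroup.mk_pow, QuotientGroup.eq_one_iff]; exact ha⟩
    exact h1.exists_card_eq
  have hμ : O.index ≠ 0 := Subgroup.index_ne_zero_of_finite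
  have hFi : F.index = p ^ A * O.index := by rw [← hA, Subgroup.relIndex_mul_index hFO]
  obtain ⟨x, hx⟩ : ∃ x, x = ∑ i, d i + Nat.log 2 O.index + 2 := ⟨_, rfl⟩
  have hx2 : O.index ≤ 2 ^ x := (Nat.lt_pow_succ_log_self (by norm_num) _).le.trans
    (Nat.pow_le_pow_right (by norm_num) (by omega))
  have hD : O.index.divisors.card ≤ x ^ k :=
    (divR Nat.card_pos.ne' (Subgroup.index_dvd_card O) hk).trans
      (Nat.pow_le_pow_left (by omega) k)
  obtain ⟨l, hl⟩ : ∃ l, l = Nat.log 2 x + 1 := ⟨_, rfl⟩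
  have hxl : x ≤ 2 ^ l := hl ▸ (Nat.lt_pow_succ_log_self (by norm_num) _).le
  have hbig : (6 * m + C₀ * m ^ 2 + 1) * x ^ (k + 2) ≤ 2 ^ (c₁ * l) :=
    (Nat.mul_le_mul_left _ (Nat.pow_le_pow_left hxl _)).trans (hc₁ l (by omega))
  have hxk : x ^ k ≤ x ^ (k + 2) := Nat.pow_le_pow_right (by omega) (by omega)
  have hxk1 : 2 ≤ x ^ (k + 2) := le_trans (by omega) (Nat.le_self_pow (by omega) x)
  generalize hL : c₁ * l = L at hbig
  have hb0 : x ^ (k + 2) ≤ 2 ^ L := (Nat.le_mul_of_pos_left _ (by omega)).trans hbig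
  have hL1 : 1 ≤ L := by
    by_contra h
    rw [show L = 0 by omega] at hb0
    omega
  have hb1 : m * (2 * O.index.divisors.card * (x * x + x + 2)) ≤ 2 ^ L := by
    refine le_trans ?_ ((Nat.mul_le_mul_right _ (show 6 * m ≤ _ by omega)).trans hbig)
    have h0 : 2 * x ≤ x * x := Nat.mul_le_mul_right x (by omega)
    have h1 : x * x + x + 2 ≤ 3 * (x * x) := by omega
    calc _ ≤ m * (2 * x ^ k * (3 * (x * x))) :=
          Nat.mul_le_mul_left _ (Nat.mul_le_mul (Nat.mul_le_mul_left _ hD) h1)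
      _ = _ := by ring
  have hb2 : C₀ * m ^ 2 ≤ 2 ^ L :=
    le_trans (le_trans (by omega) (Nat.le_mul_of_pos_right _ (by omega))) hbig
  have hb3 : O.index.divisors.card ≤ 2 ^ L := hD.trans (hxk.trans hb0)
  have hMq : ∀ q : ℕ, q.Prime → Mult G (∀ i : {i // ch i = q}, X i) (2 ^ L) := fun q hq =>
    (mult_q hp hF.nil (hO.coprime hp hn hF.nil) hM π he hfr hs (fun g hg => (hK g).2 hg) hFO hOp hA
      ch d hch hex hd (by omega) hx2 hq).mono hb1
  have hCy : Cyc p G (2 ^ L) := (hC₀ p m G hp hM).mono hb2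
  have hS := fun i => by
    have : Group.IsSolvable (Im G (X i)) := Group.isSolvable_of_surjective (toIm_surj G (X i))
    refine hc (Im G (X i)) (X i) (2 ^ L) A O.index L (ch i) (d i) (hI i).im
      (Mult.im ((hMq _ (hch i)).comp (X := fun j : {j // ch j = ch i} => X j) ⟨i, rfl⟩))
      (hCy.of_surj _ (toIm_surj G (X i))) hμ (fun y => ?_) hL1 le_rfl hb3 (hch i) (hd i)
    rw [← hFi, ← Subgroup.index_comap_of_surjective _ (toIm_surj G (X i))]
    exact Subgroup.index_dvd_of_le fun g hg => (hK g).2 hg i y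
  choose B hBn hBi hBc using fun i => (hS i).2.2
  have hd0 : ∀ i, d i ≠ 0 := fun i h => by
    have := (hI i).1
    have h1 := hd i
    rw [h, pow_zero] at h1
    exact Finite.one_lt_card.ne' h1
  have hN : Fintype.card ι ≤ k * (c + 1) * c' * L ^ 3 := by
    have h1 : ∀ i ∈ (Finset.univ : Finset ι), (ch i, d i) ∈
        (Nat.card G).primeFactors ×ˢ Finset.range (c * L ^ 2 + 1) := by
      intro i _
      refine Finset.mem_product.2 ⟨Nat.mem_primeFactors.2 ⟨hch i, ?_, Nat.card_pos.ne'⟩,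
        Finset.mem_range.2 (Nat.lt_succ_of_le (hS i).1)⟩
      have h2 : Function.Surjective (π i) := fun y => by
        obtain ⟨f, hf⟩ := hs (Pi.single i y.toAdd)
        exact ⟨f, toAdd.injective ((hf i).trans (Pi.single_eq_same _ _))⟩
      have h3 : Nat.card (Multiplicative (X i)) ∣ Nat.card F :=
        Subgroup.card_dvd_of_surjective (π i) h2
      have h4 : ch i ∣ Nat.card (X i) := hd i ▸ dvd_pow_self _ (hd0 i)
      exact (h4.trans h3).trans (Subgroup.card_subgroup_dvd_card F)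
    have h2 := Finset.card_le_mul_card_image_of_maps_to h1 (c' * L) (by
      rintro ⟨q, e⟩ hb
      have hq := Nat.prime_of_mem_primeFactors (Finset.mem_product.1 hb).1
      rcases Nat.eq_zero_or_pos e with rfl | he0
      · rw [Finset.filter_false_of_mem fun i _ h => hd0 i (Prod.mk.inj h).2]
        simp
      refine le_trans ?_ (hc' G {i // ch i = q} (fun i => X i) (2 ^ L) A O.index L (q ^ e)
        (Finset.univ.filter fun i => d i = e) (hMq q hq) hμ (fun y => ?_) hL1 le_rfl hb3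
        (hq.two_le.trans (Nat.le_self_pow he0.ne' q)) fun i hi => ?_)
      · rw [← Finset.card_map (Function.Embedding.subtype _)]
        refine Finset.card_le_card fun i hi => ?_
        obtain ⟨h3, h4⟩ := Prod.mk.inj (Finset.mem_filter.1 hi).2
        exact Finset.mem_map.2 ⟨⟨i, h3⟩, Finset.mem_filter.2 ⟨Finset.mem_univ _, h4⟩, rfl⟩
      · rw [← hFi]
        exact Subgroup.index_dvd_of_le fun g hg => funext fun i => (hK g).2 hg i (y i)
      · rw [hd i, i.2, (Finset.mem_filter.1 hi).2])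
    rw [Finset.card_univ, Finset.card_product, Finset.card_range] at h2
    have h3 : c * L ^ 2 + 1 ≤ (c + 1) * L ^ 2 := by
      have := Nat.one_le_pow 2 L hL1
      nlinarith
    calc _ ≤ c' * L * (k * ((c + 1) * L ^ 2)) :=
          h2.trans (Nat.mul_le_mul_left _ (Nat.mul_le_mul hk h3))
      _ = _ := by ring
  have hprod : ∀ S : ∀ i, Subgroup (Im G (X i)), (∀ i, (S i).index ≤ 2 ^ (c * L ^ 6)) →
      (⨅ i, (S i).comap (toIm G (X i))).index ≤ 2 ^ (c * L ^ 6 * Fintype.card ι) := by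
    intro S hSi
    refine (Subgroup.index_iInf_le _).trans ?_
    rw [pow_mul, ← Finset.card_univ]
    refine Finset.prod_le_pow_card _ _ _ fun i _ => ?_
    rw [Subgroup.index_comap_of_surjective _ (toIm_surj _ _)]
    exact hSi i
  have h1 : Nat.log 2 O.index ≤ c * L ^ 6 * Fintype.card ι :=
    log_le_Num _ _ (hprod _ fun i => (hS i).2.1)
  have h2 : ∑ i, d i ≤ c * L ^ 6 * Fintype.card ι := by
    rw [mul_comm, ← Finset.card_univ, ← smul_eq_mul]
    exact Finset.sum_le_card_nsmul _ _ _ fun i _ => (hS i).1.trans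
      (Nat.mul_le_mul_left _ (Nat.pow_le_pow_right hL1 (by norm_num)))
  have h3 : 2 * (c * L ^ 6 * Fintype.card ι) + 2 ≤
      ((k * (c + 1) * c' * (2 * c) + 2) * c₁ ^ 9) * l ^ 9 := by
    have h4 := Nat.one_le_pow 9 L hL1
    calc _ ≤ 2 * (c * L ^ 6 * (k * (c + 1) * c' * L ^ 3)) + 2 * L ^ 9 :=
          Nat.add_le_add (Nat.mul_le_mul_left _ (Nat.mul_le_mul_left _ hN)) (by omega)
      _ = _ := by rw [← hL]; ring
  have h4 : x ≤ x₀ := hx₀ x (by rw [← hl]; omega)
  have h5 : l ≤ Nat.log 2 x₀ + 1 := hl ▸ Nat.succ_le_succ (Nat.log_mono_right h4)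
  refine ⟨⨅ i, (B i).comap (toIm G (X i)),
    Subgroup.normal_iInf_normal fun i => (hBn i).comap _, (hprod B hBi).trans
      (Nat.pow_le_pow_right (by norm_num) (le_trans (by omega)
        (h3.trans (Nat.mul_le_mul_left _ (Nat.pow_le_pow_left h5 9))))), ?_⟩
  rw [Subgroup.commutator_le]
  intro a ha b hb
  refine (hone _).2 fun i => ?_
  rw [map_commutatorElement, commutatorElement_eq_one_iff_mul_comm]
  exact hBc i _ (Subgroup.mem_iInf.1 ha i) _ (Subgroup.mem_iInf.1 hb i)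

theorem cl_gen (p : ℕ) (hp : p.Prime) : ∃ f : ℕ → ℕ → ℕ → ℕ,
    ∀ (G : Type) [Group G] [Finite G] (m k : ℕ) (R F : Subgroup G) [R.Normal] [F.Normal],
      NoP p G → ClLe p G m → Group.IsSolvable R → (Nat.card R).primeFactors.card ≤ k →
      Group.IsNilpotent F → (∀ N : Subgroup G, N.Normal → Group.IsNilpotent N → N ≤ F) →
      ∃ M : Subgroup (R ⧸ F.subgroupOf R),
        M.Normal ∧ (∀ a ∈ M, ∀ b ∈ M, a * b = b * a) ∧ M.index ≤ f m k R.index := by
  choose D hD using fun m k => cl_solv hp m k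
  refine ⟨fun m k t => D (m * t ^ 2) k, fun G _ _ m k R F _ hFn hO hB hR hk hF hmax => ?_⟩
  obtain ⟨M, hMn, hMi, hM⟩ := hD _ k R (hO.normal R) (mult_reg_sub hB.mult R) hk _
    (maxNil_subgroupOf hFn hF hmax R)
  have hs := QuotientGroup.mk'_surjective (F.subgroupOf R)
  refine ⟨M.map (QuotientGroup.mk' _), hMn.map _ hs, ?_,
    (Nat.le_of_dvd (Nat.pos_of_ne_zero Subgroup.index_ne_zero_of_finite)
      (Subgroup.index_map_dvd M hs)).trans hMi⟩
  rintro _ ⟨a, ha, rfl⟩ _ ⟨b, hb, rfl⟩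
  rw [← commutatorElement_eq_one_iff_mul_comm, ← map_commutatorElement]
  exact (QuotientGroup.eq_one_iff _).2 (hM (Subgroup.commutator_mem_commutator ha hb))

end Pool.Agent.Lib.MP_98dfd6_al
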