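import Pool.Agent.Lib.MP_98dfd6_al.Grp

/-! Maximal nilpotent normal subgroups. -/

namespace Pool.Agent.Lib.MP_98dfd6_al

open MulAction
open scoped commutatorElement

variable {G : Type} [Group G] [Finite G] {F : Subgroup G}

theorem sylow_map_normal_PG2 {H : Type} [Group H] [Finite H] (N : Subgroup H) [N.Normal]
    (hN : Group.IsNilpotent N) {p : ℕ} [Fact p.Prime] (Q : Sylow p N) :
    ((Q : Subgroup N).map N.subtype).Normal := by
  have hQ : (Q : Subgroup N).Normal := inferInstance
  have : (Q : Subgroup N).Characteristic := Sylow.characteristic_of_normal Q hQ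
  exact ConjAct.normal_of_characteristic_of_normal

theorem gaschutz {K D : Subgroup G} (hK : K.Normal) [D.Normal] (hD : D ≤ frattini G)
    (hDK : D ≤ K) (h : Group.IsNilpotent (K.map (QuotientGroup.mk' D))) :
    Group.IsNilpotent K := by
  have q := (Group.isNilpotent_of_finite_tfae (G := K)).out 0 3
  rw [q]
  clear q
  intro p p_prime P
  have hsurj : Function.Surjective ((QuotientGroup.mk' D).subgroupMap K) :=
    MonoidHom.subgroupMap_surjective _ _
  have hKb : (K.map (QuotientGroup.mk' D)).Normal :=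
    hK.map _ (QuotientGroup.mk'_surjective D)
  have h1 := sylow_map_normal_PG2 (K.map (QuotientGroup.mk' D)) h (P.mapSurjective hsurj)
  set P' : Subgroup G := (P : Subgroup K).map K.subtype with hP'
  have h2 : ((P.mapSurjective hsurj : Subgroup (K.map (QuotientGroup.mk' D))).map
      (K.map (QuotientGroup.mk' D)).subtype) = P'.map (QuotientGroup.mk' D) := by
    rw [Sylow.coe_mapSurjective, hP', Subgroup.map_map, Subgroup.map_map]
    rfl
  rw [h2] at h1
  have h3 : (P' ⊔ D).Normal := by
    have := h1.comap (QuotientGroup.mk' D)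
    rwa [Subgroup.comap_map_eq, QuotientGroup.ker_mk'] at this
  have hP'K : P' ≤ K := Subgroup.map_subtype_le _
  have hLK : P' ⊔ D ≤ K := sup_le hP'K hDK
  have hpg : IsPGroup p (P'.subgroupOf (P' ⊔ D)) :=
    (P.isPGroup'.map K.subtype).comap_subtype
  have hidx : ¬ p ∣ (P'.subgroupOf (P' ⊔ D)).index := by
    intro hd
    apply P.not_dvd_index
    have h4 : P'.relIndex (P' ⊔ D) * (P' ⊔ D).relIndex K = P'.relIndex K :=
      Subgroup.relIndex_mul_relIndex _ _ _ le_sup_left hLK
    have h5 : P'.relIndex K = (P : Subgroup K).index := by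
      rw [Subgroup.relIndex, hP', Subgroup.subgroupOf, Subgroup.comap_map_eq_self_of_injective]
      exact K.subtype_injective
    rw [← h5, ← h4]
    exact Dvd.dvd.mul_right hd _
  have h6 := Sylow.normalizer_sup_eq_top (hpg.toSylow hidx)
  have h7 : ((hpg.toSylow hidx : Sylow p (P' ⊔ D : Subgroup G)) : Subgroup (P' ⊔ D : Subgroup G)).map
      (P' ⊔ D).subtype = P' := by
    rw [IsPGroup.toSylow_coe, Subgroup.subgroupOf_map_subtype, inf_of_le_left le_sup_left]
  rw [h7] at h6
  have h8 : Subgroup.normalizer (P' : Set G) ⊔ frattini G = ⊤ := by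
    rw [eq_top_iff, ← h6]
    exact sup_le le_sup_left
      (sup_le (le_trans Subgroup.le_normalizer le_sup_left) (le_trans hD le_sup_right))
  have h9 : P'.Normal := Subgroup.normalizer_eq_top_iff.mp (frattini_nongenerating h8)
  exact h9.of_map_subtype

theorem MaxNil.mem_of_comm [Group.IsSolvable G] (hF : MaxNil F) (h2 : ⁅F, F⁆ ≤ frattini G) {g : G}
    (h : ∀ f ∈ F, g * f * g⁻¹ * f⁻¹ ∈ frattini G) : g ∈ F := by
  have hFn := hF.normal
  let π := QuotientGroup.mk' (frattini G)
  have hFb : (F.map π).Normal := hFn.map _ (QuotientGroup.mk'_surjective _)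
  let C : Subgroup G := (Subgroup.centralizer (F.map π : Set (G ⧸ frattini G))).comap π
  have hCn : C.Normal := inferInstance
  have hmem : ∀ x : G, x ∈ C ↔ ∀ f ∈ F, ⁅f, x⁆ ∈ frattini G := by
    intro x
    simp only [C, Subgroup.mem_comap, Subgroup.mem_centralizer_iff, SetLike.mem_coe,
      Subgroup.mem_map]
    constructor
    · intro hx f hf
      have := hx (π f) ⟨f, hf, rfl⟩
      rw [← QuotientGroup.ker_mk' (frattini G), MonoidHom.mem_ker, map_commutatorElement,
        commutatorElement_eq_one_iff_mul_comm]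
      exact this
    · rintro hx _ ⟨f, hf, rfl⟩
      have := hx f hf
      rw [← QuotientGroup.ker_mk' (frattini G), MonoidHom.mem_ker, map_commutatorElement,
        commutatorElement_eq_one_iff_mul_comm] at this
      exact this
  have hFC : F ≤ C := fun x hx =>
    (hmem x).mpr fun f hf => h2 (Subgroup.commutator_mem_commutator hf hx)
  have hcomm : ⁅F, C⁆ ≤ frattini G :=
    Subgroup.commutator_le.mpr fun f hf x hx => (hmem x).mp hx f hf
  have hg : g ∈ C := by
    refine (hmem g).mpr fun f hf => ?_
    have := (frattini G).inv_mem (h f hf)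
    rw [commutatorElement_def]
    convert this using 1
    group
  have step : ∀ S : Subgroup G, S.Normal → S ≤ C → ⁅S, S⁆ ≤ F → S ≤ F := by
    intro S hS hSC hSS
    have hKn : (F ⊔ S).Normal := Subgroup.sup_normal F S
    have hKC : F ⊔ S ≤ C := sup_le hFC hSC
    have hKK : ⁅F ⊔ S, F ⊔ S⁆ ≤ F := by
      have e1 : (F ⊔ S).map (QuotientGroup.mk' F) = S.map (QuotientGroup.mk' F) := by
        rw [Subgroup.map_sup, QuotientGroup.map_mk'_self, bot_sup_eq]
      have e2 : ⁅F ⊔ S, F ⊔ S⁆.map (QuotientGroup.mk' F) = ⊥ := by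
        rw [Subgroup.map_commutator, e1, ← Subgroup.map_commutator, Subgroup.map_eq_bot_iff,
          QuotientGroup.ker_mk']
        exact hSS
      rwa [Subgroup.map_eq_bot_iff, QuotientGroup.ker_mk'] at e2
    have hDn : (F ⊓ frattini G).Normal := Subgroup.normal_inf_normal _ _
    have h3 : ⁅⁅F ⊔ S, F ⊔ S⁆, F ⊔ S⁆ ≤ F ⊓ frattini G := by
      refine le_trans (Subgroup.commutator_mono hKK hKC) (le_inf ?_ hcomm)
      exact Subgroup.commutator_le_left _ _
    have hnil : Group.IsNilpotent ((F ⊔ S).map (QuotientGroup.mk' (F ⊓ frattini G))) := by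
      rw [Subgroup.isNilpotent_iff_lowerCentralSeries]
      refine ⟨2, ?_⟩
      rw [← Subgroup.map_lowerCentralSeries, Subgroup.map_eq_bot_iff, QuotientGroup.ker_mk']
      exact h3
    have hK := gaschutz hKn inf_le_right (le_trans inf_le_left le_sup_left) hnil
    have := hF.max _ hKn hK le_sup_left
    rw [← this]
    exact le_sup_right
  have main : ∀ n : ℕ, ∀ S : Subgroup G, S.Normal → S ≤ C →
      (fun T : Subgroup G => ⁅T, T⁆)^[n] S = ⊥ → S ≤ F := by
    intro n
    induction n with
    | zero =>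
      intro S _ _ hS
      simp only [Function.iterate_zero, id] at hS
      rw [hS]
      exact bot_le
    | succ n ih =>
      intro S hS hSC h0
      rw [Function.iterate_succ_apply] at h0
      refine step S hS hSC (ih _ inferInstance ?_ h0)
      exact le_trans (Subgroup.commutator_le_left _ _) hSC
  obtain ⟨n, hn⟩ := (inferInstance : Group.IsSolvable G).solvable
  have hle : ∀ n : ℕ, (fun T : Subgroup G => ⁅T, T⁆)^[n] C ≤ derivedSeries G n := by
    intro n
    induction n with
    | zero => exact le_top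
    | succ n ih =>
      rw [Function.iterate_succ_apply', derivedSeries_succ]
      exact Subgroup.commutator_mono ih ih
  exact main n C hCn le_rfl (le_bot_iff.mp (hn ▸ hle n)) hg

theorem exists_maxNil (G : Type) [Group G] [Finite G] : ∃ F : Subgroup G, MaxNil F := by
  have hfin : {N : Subgroup G | N.Normal ∧ Group.IsNilpotent N}.Finite := Set.toFinite _
  have hne : {N : Subgroup G | N.Normal ∧ Group.IsNilpotent N}.Nonempty :=
    ⟨⊥, inferInstance, inferInstance⟩
  obtain ⟨F, hF⟩ := hfin.exists_maximal hne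
  exact ⟨F, hF.1.1, hF.1.2, fun N hN hn hle => le_antisymm (hF.2 ⟨hN, hn⟩ hle) hle⟩

theorem NoP.normal {p : ℕ} (hO : NoP p G) (R : Subgroup G) [R.Normal] : NoP p R := by
  intro N hN hp
  have h1 : N ≤ Op p R := le_Op hN hp
  have h2 : ((Op p R).map R.subtype) = ⊥ :=
    hO _ ConjAct.normal_of_characteristic_of_normal (Op.isPGroup.map R.subtype)
  rw [Subgroup.map_eq_bot_iff_of_injective _ R.subtype_injective] at h2
  exact le_bot_iff.mp (h2 ▸ h1)

theorem maxNil_subgroupOf (hn : F.Normal) (hF : Group.IsNilpotent F)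
    (hmax : ∀ N : Subgroup G, N.Normal → Group.IsNilpotent N → N ≤ F) (R : Subgroup G)
    [R.Normal] : MaxNil (F.subgroupOf R) := by
  refine ⟨inferInstance, ?_, ?_⟩
  · have e1 : F.subgroupOf R = (F ⊓ R).subgroupOf R := (Subgroup.inf_subgroupOf_right F R).symm
    rw [e1]
    have e2 : Group.IsNilpotent ((F ⊓ R).subgroupOf F) := inferInstance
    have e3 : Group.IsNilpotent (F ⊓ R : Subgroup G) :=
      Group.nilpotent_of_mulEquiv (Subgroup.subgroupOfEquivOfLe inf_le_left)
    exact Group.nilpotent_of_mulEquiv (Subgroup.subgroupOfEquivOfLe inf_le_right).symm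
  · intro N hN hNn hle
    refine le_antisymm ?_ hle
    rw [← Subgroup.relIndex_eq_one]
    by_contra hne
    obtain ⟨q, hq, hqd⟩ := Nat.exists_prime_and_dvd hne
    have : Fact q.Prime := ⟨hq⟩
    obtain ⟨P⟩ : Nonempty (Sylow q N) := inferInstance
    have h1 := sylow_map_normal_PG2 N hNn P
    have h2 : (P : Subgroup N).map N.subtype ≤ Op q R :=
      le_Op h1 (P.isPGroup'.map N.subtype)
    have h3 : (Op q R).map R.subtype ≤ F :=
      hmax _ ConjAct.normal_of_characteristic_of_normal
        (IsPGroup.isNilpotent (p := q) (Op.isPGroup.map R.subtype))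
    have h4 : (P : Subgroup N) ≤ (F.subgroupOf R).subgroupOf N := by
      intro x hx
      rw [Subgroup.mem_subgroupOf, Subgroup.mem_subgroupOf]
      exact h3 (Subgroup.mem_map_of_mem _ (h2 (Subgroup.mem_map_of_mem _ hx)))
    exact P.not_dvd_index (hqd.trans (Subgroup.index_dvd_of_le h4))

end Pool.Agent.Lib.MP_98dfd6_al
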