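import Pool.Agent.Lib.MP_98dfd6_al.ClA
import Pool.Agent.Lib.MP_98dfd6_al.PG2

/-! Class sizes inside a normal `q`-subgroup and the mass argument. -/

namespace Pool.Agent.Lib.MP_98dfd6_al

open MulAction

variable {G : Type} [Group G] [Finite G]

theorem lift_q {C : Type} [Group C] (χ : G →* C) (g : G) {q j : ℕ} (hq : q.Prime)
    (h : χ g ^ q ^ j = 1) : ∃ e : ℕ, χ (g ^ e) = χ g ∧ ∃ i, (g ^ e) ^ q ^ i = 1 := by
  obtain ⟨e, h1, h2⟩ := lift_hom χ g (pow_ne_zero j hq.ne_zero) h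
  refine ⟨e, h1, (orderOf (g ^ e)).primeFactorsList.length, ?_⟩
  rw [← Nat.eq_prime_pow_of_unique_prime_dvd (orderOf_pos _).ne' fun hd h3 =>
    (Nat.prime_dvd_prime_iff_eq hd hq).1 (hd.dvd_of_dvd_pow (h2 _ hd h3)), pow_orderOf_eq_one]

theorem qelt_of {C : Type} [Group C] (χ : G →* C) (g : G) {q : ℕ}
    (h : ∀ r : ℕ, r.Prime → r ≠ q → ∀ e : ℕ, (∃ i, (g ^ e) ^ r ^ i = 1) → χ (g ^ e) = 1) :
    ∃ j, χ g ^ q ^ j = 1 := by
  have h0 : orderOf (χ g) ≠ 0 := ne_zero_of_dvd_ne_zero (orderOf_pos g).ne' (orderOf_map_dvd χ g)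
  refine ⟨(orderOf (χ g)).primeFactorsList.length, ?_⟩
  rw [← Nat.eq_prime_pow_of_unique_prime_dvd h0, pow_orderOf_eq_one]
  intro r hr hd
  by_contra hne
  obtain ⟨c, hc⟩ := hd
  obtain ⟨e, h1, h2⟩ := lift_q χ (g ^ c) (j := 1) hr (by
    rw [map_pow, pow_one, ← pow_mul, mul_comm, ← hc, pow_orderOf_eq_one])
  rw [← pow_mul] at h1 h2
  rw [h r hr hne _ h2, map_pow] at h1
  have hc0 : 0 < c := Nat.pos_of_ne_zero fun h3 => h0 (by rw [hc, h3, mul_zero])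
  have h3 := Nat.le_of_dvd hc0 (orderOf_dvd_of_pow_eq_one h1.symm)
  have h4 := hr.two_le
  nlinarith

omit [Finite G] in
theorem pg_zpowers {x : G} {q : ℕ} (h : ∃ j, x ^ q ^ j = 1) :
    IsPGroup q (Subgroup.zpowers x) := by
  obtain ⟨j, hj⟩ := h
  rintro ⟨_, k, rfl⟩
  refine ⟨j, Subtype.ext ?_⟩
  change (x ^ k) ^ q ^ j = 1
  rw [← zpow_natCast, ← zpow_mul, mul_comm, zpow_mul, zpow_natCast, hj, one_zpow]

theorem nil_commute [Group.IsNilpotent G] {x y : G} {q r : ℕ} (hq : q.Prime) (hr : r.Prime)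
    (hne : q ≠ r) (hx : ∃ j, x ^ q ^ j = 1) (hy : ∃ j, y ^ r ^ j = 1) : Commute x y := by
  have : Fact q.Prime := ⟨hq⟩
  have : Fact r.Prime := ⟨hr⟩
  obtain ⟨P, hP⟩ := (pg_zpowers hx).exists_le_sylow
  obtain ⟨P', hP'⟩ := (pg_zpowers hy).exists_le_sylow
  exact Subgroup.commute_of_normal_of_disjoint (P : Subgroup G) (P' : Subgroup G) inferInstance
    inferInstance (IsPGroup.disjoint_of_ne q r hne _ _ P.isPGroup' P'.isPGroup') x y
    (hP (Subgroup.mem_zpowers x)) (hP' (Subgroup.mem_zpowers y))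

theorem exists_Q (F : Subgroup G) [F.Normal] (hF : Group.IsNilpotent F) {q : ℕ} (hq : q.Prime) :
    ∃ Q : Subgroup G, Q.Normal ∧ Q ≤ F ∧ (∀ x ∈ Q, ∃ j, x ^ q ^ j = 1) ∧
      ∀ f ∈ F, (∃ j, f ^ q ^ j = 1) → f ∈ Q := by
  have : Fact q.Prime := ⟨hq⟩
  obtain ⟨P⟩ : Nonempty (Sylow q F) := inferInstance
  refine ⟨_, sylow_map_normal_PG2 F hF P, Subgroup.map_subtype_le _, ?_, fun f hf ⟨j, hj⟩ => ?_⟩
  · rintro _ ⟨x, hx, rfl⟩
    obtain ⟨j, hj⟩ := P.isPGroup' ⟨x, hx⟩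
    exact ⟨j, congrArg (fun z : (P : Subgroup F) => ((z : F) : G)) hj⟩
  · obtain ⟨P', hP'⟩ := (pg_zpowers (x := (⟨f, hf⟩ : F)) ⟨j, Subtype.ext hj⟩).exists_le_sylow
    have := P.unique_of_normal inferInstance
    rw [Subsingleton.elim P' P] at hP'
    exact ⟨⟨f, hf⟩, hP' (Subgroup.mem_zpowers _), rfl⟩

theorem exists_U (G : Type) [Group G] [Finite G] {q : ℕ} (hq : q.Prime) :
    ∃ U : Subgroup G, U.Normal ∧ (∀ x ∈ U, (∃ j, x ^ q ^ j = 1) → x = 1) ∧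
      ∀ N : Subgroup G, N.Normal → (∀ x ∈ N, (∃ j, x ^ q ^ j = 1) → x = 1) → N ≤ U := by
  obtain ⟨U, ⟨hU1, hU2⟩, hmax⟩ := (wellFounded_gt (α := Subgroup G)).has_min
    {U | U.Normal ∧ ∀ x ∈ U, (∃ j, x ^ q ^ j = 1) → x = 1}
    ⟨⊥, inferInstance, fun x hx _ => hx⟩
  refine ⟨U, hU1, hU2, fun N hN1 hN2 => ?_⟩
  by_contra hne
  refine hmax (U ⊔ N) ⟨inferInstance, fun x hx ⟨j, hj⟩ => ?_⟩
    (lt_of_le_of_ne le_sup_left fun h => hne (h ▸ le_sup_right))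
  obtain ⟨u, hu, n, hn, rfl⟩ := Subgroup.mem_sup_of_normal_left.1 hx
  have h1 : QuotientGroup.mk' U (u * n) = QuotientGroup.mk' U n := by
    rw [map_mul, QuotientGroup.mk'_apply, (QuotientGroup.eq_one_iff u).2 hu, one_mul]
  obtain ⟨e, h2, h3⟩ := lift_q (QuotientGroup.mk' U) n (j := j) hq (by
    rw [← h1, ← map_pow, hj, map_one])
  rw [hN2 _ (N.pow_mem hn e) h3, map_one, ← h1] at h2
  exact hU2 _ ((QuotientGroup.eq_one_iff _).1 h2.symm) ⟨j, hj⟩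

omit [Finite G] in
theorem two_elt {x : G} {q r : ℕ} (hq : q.Prime) (hr : r.Prime) (hne : r ≠ q)
    (h1 : ∃ j, x ^ r ^ j = 1) (h2 : ∃ j, x ^ q ^ j = 1) : x = 1 := by
  obtain ⟨i, hi⟩ := h1
  obtain ⟨j, hj⟩ := h2
  exact (pow_eq_one_iff_of_coprime
    (Nat.Coprime.pow i j ((Nat.coprime_primes hr hq).2 hne))).1 ⟨hi, hj⟩

theorem cent_index {p q : ℕ} (hp : p.Prime) (hq : q.Prime) {F K Q : Subgroup G} [F.Normal]
    [hKn : K.Normal] [hQn : Q.Normal] (hF : Group.IsNilpotent F)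
    (hK : ∀ g ∈ K, ∃ a, g ^ p ^ a ∈ F) (hQK : Q ≤ K) (hQp : ∀ x ∈ Q, ∃ j, x ^ q ^ j = 1)
    (hQ : ∀ f ∈ F, (∃ j, f ^ q ^ j = 1) → f ∈ Q)
    (hc : ∀ g ∈ K, ∀ x ∈ Q, g * x * g⁻¹ * x⁻¹ ∈ frattini G) :
    ∃ β, (Subgroup.centralizer (Q : Set G)).relIndex K = q ^ β := by
  have : Fact p.Prime := ⟨hp⟩
  have : Fact q.Prime := ⟨hq⟩
  obtain ⟨U, hUn, hU1, hU2⟩ := exists_U G hq
  set φ := QuotientGroup.mk' U with hφ
  have hφs : Function.Surjective φ := QuotientGroup.mk'_surjective U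
  have hFQ : ∀ f ∈ F, ∃ x ∈ Q, φ x = φ f := by
    intro f hf
    obtain ⟨j, hj⟩ := qelt_of φ f (q := q) fun r hr hne e he => by
      obtain ⟨R, hR1, -, hR2, hR3⟩ := exists_Q F hF hr
      exact (QuotientGroup.eq_one_iff _).2 (hU2 R hR1
        (fun x hx h => two_elt hq hr hne (hR2 x hx) h) (hR3 _ (F.pow_mem hf e) he))
    obtain ⟨e, h1, h2⟩ := lift_q φ f hq hj
    exact ⟨_, hQ _ (F.pow_mem hf e) h2, h1⟩
  have hKb : (K.map φ).Normal := hKn.map φ hφs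
  have hcomm : ∀ g : G, ∀ x ∈ Q, g * x * g⁻¹ * x⁻¹ ∈ Q := fun g x hx =>
    Q.mul_mem (hQn.conj_mem x hx g) (Q.inv_mem hx)
  have hnil : Group.IsNilpotent (K.map φ) := by
    refine gaschutz (D := K.map φ ⊓ frattini (G ⧸ U)) hKb inf_le_right inf_le_left ?_
    refine Group.of_quotient_center_nilpotent (IsPGroup.isNilpotent (p := p) fun z => ?_)
    obtain ⟨⟨_, _, ⟨g, hg, rfl⟩, rfl⟩, rfl⟩ := QuotientGroup.mk_surjective z
    obtain ⟨a, ha⟩ := hK g hg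
    obtain ⟨x, hx, hx'⟩ := hFQ _ ha
    refine ⟨a, ?_⟩
    rw [← QuotientGroup.mk_pow, QuotientGroup.eq_one_iff, Subgroup.mem_center_iff]
    rintro ⟨_, _, ⟨k, hk, rfl⟩, rfl⟩
    refine Subtype.ext ?_
    simp only [Subgroup.coe_mul, SubgroupClass.coe_pow]
    rw [← map_pow, ← map_pow, ← hx', ← mul_inv_eq_one, mul_inv_rev, ← mul_assoc]
    have h1 : φ (k * x * k⁻¹ * x⁻¹) ∈ K.map φ ⊓ frattini (G ⧸ U) :=
      ⟨Subgroup.mem_map_of_mem _ (hQK (hcomm k x hx)),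
        frattini_le_comap_frattini_of_surjective hφs (hc k hk x hx)⟩
    have h2 := (QuotientGroup.eq_one_iff _).2 h1
    simpa only [map_mul, map_inv, QuotientGroup.mk_mul, QuotientGroup.mk_inv,
      QuotientGroup.mk'_apply] using h2
  have hcen : ∀ r : ℕ, r.Prime → r ≠ q → ∀ g ∈ K, (∃ i, g ^ r ^ i = 1) →
      g ∈ Subgroup.centralizer (Q : Set G) := by
    rintro r hr hne g hg ⟨i, hi⟩
    rw [Subgroup.mem_centralizer_iff]
    intro x hx
    obtain ⟨j, hj⟩ := hQp x hx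
    have h1 := nil_commute (G := K.map φ) (x := ⟨φ g, Subgroup.mem_map_of_mem _ hg⟩)
      (y := ⟨φ x, Subgroup.mem_map_of_mem _ (hQK hx)⟩) hr hq hne
      ⟨i, Subtype.ext (by change φ g ^ r ^ i = 1; rw [← map_pow, hi, map_one])⟩
      ⟨j, Subtype.ext (by change φ x ^ q ^ j = 1; rw [← map_pow, hj, map_one])⟩
    have h2 : φ g * φ x = φ x * φ g := congrArg Subtype.val h1
    have h3 : g * x * g⁻¹ * x⁻¹ ∈ U := by
      rw [← QuotientGroup.eq_one_iff]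
      change φ _ = 1
      rw [map_mul, map_mul, map_mul, h2, map_inv, map_inv, mul_inv_cancel_right, mul_inv_cancel]
    have h4 := hU1 _ h3 (hQp _ (hcomm g x hx))
    rw [mul_inv_eq_one, mul_inv_eq_iff_eq_mul] at h4
    exact h4.symm
  have hCn : (Subgroup.centralizer (Q : Set G)).Normal := Subgroup.normal_centralizer
  have hpg : IsPGroup q (K ⧸ (Subgroup.centralizer (Q : Set G)).subgroupOf K) := by
    intro z
    obtain ⟨g, rfl⟩ := QuotientGroup.mk_surjective z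
    refine qelt_of (QuotientGroup.mk' _) g fun r hr hne e ⟨i, hi⟩ => ?_
    exact (QuotientGroup.eq_one_iff _).2
      (hcen r hr hne _ (g ^ e).2 ⟨i, congrArg Subtype.val hi⟩)
  exact hpg.exists_card_eq

theorem mass {A Y : Type} [MulAction G A] [Finite A] [MulAction G Y] [Finite Y] (π : A → Y)
    (he : ∀ (g : G) (a : A), π (g • a) = g • π a) {ν m E : ℕ} (hν : 0 < ν)
    (hf : ∀ y, Nat.card {a // π a = y} = ν) (hM : Mult G A m) (S : ℕ → Prop)
    (hS : ∀ a : A, S (stabilizer G a).index)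
    (hE : ∀ (y : ℕ) (Sz : Finset ℕ), (∀ σ ∈ Sz, S σ) → (∀ σ ∈ Sz, σ ≤ y) → ∑ σ ∈ Sz, σ ≤ E * y) :
    Mult G Y (m * E) := by
  classical
  have := Fintype.ofFinite A
  have := Fintype.ofFinite Y
  intro s T hs hT
  rcases T.eq_empty_or_nonempty with rfl | ⟨t₀, ht₀⟩
  · simp
  have hs0 : 0 < s := by
    rw [← hs t₀ ht₀]
    exact Nat.pos_of_ne_zero Subgroup.index_ne_zero_of_finite
  have hpre : ∀ B : Finset Y, (Finset.univ.filter fun a => π a ∈ B).card = B.card * ν := by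
    intro B
    rw [Finset.card_eq_sum_card_fiberwise (f := π) (t := B)
      (s := Finset.univ.filter fun a => π a ∈ B)
      fun a ha => (Finset.mem_filter.1 ha).2, ← smul_eq_mul, ← Finset.sum_const]
    refine Finset.sum_congr rfl fun y hy => ?_
    rw [← hf y, Nat.card_eq_fintype_card, Fintype.card_subtype, Finset.filter_filter]
    congr 1
    exact Finset.filter_congr fun a _ => ⟨fun h => h.2, fun h => ⟨h ▸ hy, h⟩⟩
  have horb : ∀ t ∈ T, (orbit G t).toFinset.card = s := fun t ht => by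
    rw [← hs t ht, index_stabilizer, Set.ncard_eq_toFinset_card']
  have hB : (T.biUnion fun t => (orbit G t).toFinset).card = T.card * s := by
    rw [Finset.card_biUnion, Finset.sum_congr rfl horb, Finset.sum_const, smul_eq_mul]
    intro t ht t' ht' hne
    refine Finset.disjoint_left.2 fun y hy hy' => hne ?_
    obtain ⟨g, hg⟩ := Set.mem_toFinset.1 hy
    obtain ⟨g', hg'⟩ := Set.mem_toFinset.1 hy'
    refine hT t ht t' ht' (g'⁻¹ * g) ?_
    rw [mul_smul, inv_smul_eq_iff]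
    exact hg.trans hg'.symm
  set A' := Finset.univ.filter fun a => π a ∈ T.biUnion fun t => (orbit G t).toFinset with hA'
  have h1 := hM.card_le A' (A'.image fun a => (stabilizer G a).index)
    fun a ha => Finset.mem_image_of_mem _ ha
  have h2 := hE (s * ν) (A'.image fun a => (stabilizer G a).index) (by
    intro σ hσ
    obtain ⟨a, -, rfl⟩ := Finset.mem_image.1 hσ
    exact hS a) (by
    intro σ hσ
    obtain ⟨a, ha, rfl⟩ := Finset.mem_image.1 hσ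
    obtain ⟨t, ht, g, hg⟩ : ∃ t ∈ T, π a ∈ orbit G t := by
      simpa only [hA', Finset.mem_filter, Finset.mem_univ, true_and, Finset.mem_biUnion,
        Set.mem_toFinset] using ha
    rw [← horb t ht, ← hpre, index_stabilizer, Set.ncard_eq_toFinset_card']
    refine Finset.card_le_card fun b hb => ?_
    obtain ⟨g', rfl⟩ := Set.mem_toFinset.1 hb
    refine Finset.mem_filter.2 ⟨Finset.mem_univ _, Set.mem_toFinset.2 ⟨g' * g, ?_⟩⟩
    change (g' * g) • t = π (g' • a)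
    rw [he, mul_smul]
    exact congrArg _ hg)
  rw [hA', hpre, hB] at h1
  have h3 : T.card * (s * ν) ≤ m * E * (s * ν) := by
    rw [← mul_assoc, mul_assoc m]
    exact h1.trans (Nat.mul_le_mul_left _ h2)
  exact Nat.le_of_mul_le_mul_right h3 (Nat.mul_pos hs0 hν)

end Pool.Agent.Lib.MP_98dfd6_al
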