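import Pool.Agent.Lib.MP_98dfd6_al.Num

/-! Counting in windows of orbit sizes. -/

namespace Pool.Agent.Lib.MP_98dfd6_al

open MulAction

variable {H X : Type} [Group H] [Finite H] [MulAction H X] {m : ℕ}

theorem Mult.card_le (h : Mult H X m) (Y : Finset X) (Sz : Finset ℕ)
    (hS : ∀ x ∈ Y, (stabilizer H x).index ∈ Sz) : Y.card ≤ m * ∑ s ∈ Sz, s := by
  classical
  let r : X → X := fun x => (Quotient.mk (orbitRel H X) x).out
  have hr : ∀ x, orbit H (r x) = orbit H x := fun x => by
    have h1 : orbitRel H X (r x) x := Quotient.mk_out (s := orbitRel H X) x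
    exact orbit_eq_iff.2 (orbitRel_apply.1 h1)
  have hfin : ∀ x : X, (orbit H x).Finite := fun x => Set.finite_range _
  have hidx : ∀ x, (stabilizer H (r x)).index = (stabilizer H x).index := by
    intro x
    rw [index_stabilizer, index_stabilizer, hr]
  have h1 : Y ⊆ (Y.image r).biUnion (fun x => (hfin x).toFinset) := by
    intro x hx
    refine Finset.mem_biUnion.2 ⟨r x, Finset.mem_image_of_mem r hx, ?_⟩
    rw [Set.Finite.mem_toFinset, hr]
    exact mem_orbit_self x
  have h2 : Y.card ≤ ∑ x ∈ Y.image r, (stabilizer H x).index := by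
    refine (Finset.card_le_card h1).trans (Finset.card_biUnion_le.trans (le_of_eq ?_))
    refine Finset.sum_congr rfl fun x _ => ?_
    rw [index_stabilizer, Set.ncard_eq_toFinset_card _ (hfin x)]
  have h3 : ∀ x ∈ Y.image r, (stabilizer H x).index ∈ Sz := by
    intro x hx
    obtain ⟨a, ha, rfl⟩ := Finset.mem_image.1 hx
    rw [hidx]
    exact hS a ha
  rw [← Finset.sum_fiberwise_of_maps_to h3] at h2
  refine h2.trans ?_
  rw [Finset.mul_sum]
  refine Finset.sum_le_sum fun s _ => ?_
  have h4 : ((Y.image r).filter fun x => (stabilizer H x).index = s).card ≤ m := by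
    refine h s _ (fun x hx => (Finset.mem_filter.1 hx).2) ?_
    intro x hx y hy g hg
    obtain ⟨a, -, rfl⟩ := Finset.mem_image.1 (Finset.mem_filter.1 hx).1
    obtain ⟨b, -, rfl⟩ := Finset.mem_image.1 (Finset.mem_filter.1 hy).1
    have h5 : orbit H (r b) = orbit H (r a) := orbit_eq_iff.2 (hg ▸ mem_orbit (r a) g)
    rw [hr, hr] at h5
    have h6 : Quotient.mk (orbitRel H X) b = Quotient.mk (orbitRel H X) a :=
      Quotient.sound (orbitRel_apply.2 (orbit_eq_iff.1 h5))
    simp only [r, h6]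
  calc ∑ x ∈ (Y.image r).filter (fun x => (stabilizer H x).index = s), (stabilizer H x).index
      = ∑ _x ∈ (Y.image r).filter (fun x => (stabilizer H x).index = s), s :=
        Finset.sum_congr rfl fun x hx => (Finset.mem_filter.1 hx).2
    _ ≤ m * s := by
        rw [Finset.sum_const, smul_eq_mul]
        exact Nat.mul_le_mul_right s h4

theorem geom_win {p : ℕ} (hp : 2 ≤ p) (k : ℕ) : ∑ a ∈ Finset.range (k + 1), p ^ a ≤ 2 * p ^ k := by
  induction k with
  | zero => simp
  | succ k ih =>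
    rw [Finset.sum_range_succ, pow_succ]
    nlinarith [Nat.zero_le (p ^ k)]

theorem sum_pow_win {p u s : ℕ} (hp : 2 ≤ p) (A : Finset ℕ) (hA : ∀ a ∈ A, p ^ a * u ≤ s) :
    ∑ a ∈ A, p ^ a * u ≤ 2 * s := by
  rcases A.eq_empty_or_nonempty with rfl | hne
  · simp
  · have h1 : A ⊆ Finset.range (A.max' hne + 1) := fun a ha =>
      Finset.mem_range.2 (Nat.lt_succ_of_le (A.le_max' a ha))
    calc ∑ a ∈ A, p ^ a * u ≤ ∑ a ∈ Finset.range (A.max' hne + 1), p ^ a * u :=
          Finset.sum_le_sum_of_subset h1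
      _ = (∑ a ∈ Finset.range (A.max' hne + 1), p ^ a) * u := by rw [Finset.sum_mul]
      _ ≤ 2 * p ^ A.max' hne * u := Nat.mul_le_mul_right u (geom_win hp _)
      _ ≤ 2 * s := by
          rw [mul_assoc]
          exact Nat.mul_le_mul_left 2 (hA _ (A.max'_mem hne))

theorem card_gap_win (A : Finset ℕ) (L : ℕ) (hA : ∀ a ∈ A, ∀ b ∈ A, a ≤ b → b - a ≤ L) :
    A.card ≤ L + 1 := by
  rcases A.eq_empty_or_nonempty with rfl | hne
  · simp
  · have h1 : A ⊆ Finset.Icc (A.min' hne) (A.min' hne + L) := fun a ha => by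
      have h2 := A.min'_le a ha
      have h3 := hA _ (A.min'_mem hne) a ha h2
      exact Finset.mem_Icc.2 ⟨h2, by omega⟩
    refine (Finset.card_le_card h1).trans ?_
    rw [Nat.card_Icc]
    omega

theorem split_win {p M t a : ℕ} (hp : p.Prime) (hM : M ≠ 0) (ht : t ∣ p ^ a * M) :
    ∃ b, ∃ u ∈ M.divisors, t = p ^ b * u := by
  obtain ⟨v, u, hv, hu, rfl⟩ := (Nat.dvd_mul).1 ht
  obtain ⟨b, -, rfl⟩ := (Nat.dvd_prime_pow hp).1 hv
  exact ⟨b, u, Nat.mem_divisors.2 ⟨hu, hM⟩, rfl⟩

theorem sum_sizes_win {p M s : ℕ} (hp : p.Prime) (Sz : Finset ℕ)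
    (h1 : ∀ t ∈ Sz, ∃ b, ∃ u ∈ M.divisors, t = p ^ b * u) (h2 : ∀ t ∈ Sz, t ≤ s) :
    ∑ t ∈ Sz, t ≤ M.divisors.card * (2 * s) := by
  classical
  choose! b u hu hbu using h1
  rw [← Finset.sum_fiberwise_of_maps_to hu]
  refine (Finset.sum_le_card_nsmul _ _ (2 * s) fun v _ => ?_).trans (by rw [smul_eq_mul])
  have hinj : Set.InjOn b (Sz.filter fun t => u t = v) := by
    intro t ht t' ht' hb
    have h3 := Finset.mem_filter.1 (Finset.mem_coe.1 ht)
    have h4 := Finset.mem_filter.1 (Finset.mem_coe.1 ht')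
    rw [hbu t h3.1, hbu t' h4.1, hb, h3.2, h4.2]
  have h5 : ∑ t ∈ Sz.filter (fun t => u t = v), t =
      ∑ a ∈ (Sz.filter fun t => u t = v).image b, p ^ a * v := by
    rw [Finset.sum_image hinj]
    refine Finset.sum_congr rfl fun t ht => ?_
    have h3 := Finset.mem_filter.1 ht
    rw [← h3.2]
    exact hbu t h3.1
  rw [h5]
  refine sum_pow_win hp.two_le _ fun a ha => ?_
  obtain ⟨t, ht, rfl⟩ := Finset.mem_image.1 ha
  have h3 := Finset.mem_filter.1 ht
  rw [← h3.2, ← hbu t h3.1]
  exact h2 t h3.1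

theorem card_sizes_win {p M K Λ y : ℕ} (hp : p.Prime) (hy : 0 < y) (V : Finset ℕ)
    (h1 : ∀ t ∈ V, ∃ b, ∃ u ∈ M.divisors, t = p ^ b * u) (h2 : ∀ t ∈ V, y ≤ K * t)
    (h3 : ∀ t ∈ V, t ≤ Λ * y) : V.card ≤ M.divisors.card * (Nat.log 2 (K * Λ) + 1) := by
  classical
  choose! b u hu hbu using h1
  rw [mul_comm]
  refine Finset.card_le_mul_card_image_of_maps_to hu _ fun v hv => ?_
  have hinj : Set.InjOn b (V.filter fun t => u t = v) := by
    intro t ht t' ht' hb
    have h3 := Finset.mem_filter.1 (Finset.mem_coe.1 ht)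
    have h4 := Finset.mem_filter.1 (Finset.mem_coe.1 ht')
    rw [hbu t h3.1, hbu t' h4.1, hb, h3.2, h4.2]
  rw [← Finset.card_image_of_injOn hinj]
  refine card_gap_win _ _ fun a ha c hc hac => ?_
  obtain ⟨t, ht, rfl⟩ := Finset.mem_image.1 ha
  obtain ⟨t', ht', rfl⟩ := Finset.mem_image.1 hc
  have h4 := Finset.mem_filter.1 ht
  have h5 := Finset.mem_filter.1 ht'
  have h6 : t' = p ^ (b t' - b t) * t := by
    calc t' = p ^ b t' * v := by rw [← h5.2]; exact hbu t' h5.1
      _ = p ^ (b t' - b t) * (p ^ b t * v) := by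
          rw [← mul_assoc, ← pow_add, Nat.sub_add_cancel hac]
      _ = p ^ (b t' - b t) * t := by rw [← h4.2, ← hbu t h4.1]
  have ht0 : 0 < t := by
    have := h2 t h4.1
    rcases Nat.eq_zero_or_pos t with h0 | h0
    · rw [h0, mul_zero] at this
      omega
    · exact h0
  have h7 : p ^ (b t' - b t) * t ≤ K * Λ * t := by
    calc p ^ (b t' - b t) * t = t' := h6.symm
      _ ≤ Λ * y := h3 t' h5.1
      _ ≤ Λ * (K * t) := Nat.mul_le_mul_left Λ (h2 t h4.1)
      _ = K * Λ * t := by ring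
  have h8 : 2 ^ (b t' - b t) ≤ K * Λ :=
    (Nat.pow_le_pow_left hp.two_le _).trans (Nat.le_of_mul_le_mul_right h7 ht0)
  exact Nat.le_log_of_pow_le (by norm_num) h8

theorem window (h : Mult H X m) {p M : ℕ} (hp : p.Prime) (hM : M ≠ 0) {ι : Type} [Fintype ι]
    (Y : ι → Finset X) (hinv : ∀ i, ∀ g : H, ∀ x ∈ Y i, g • x ∈ Y i)
    (hdisj : ∀ i j, i ≠ j → Disjoint (Y i) (Y j))
    (hsz : ∀ i, ∀ x ∈ Y i, ∃ a, (stabilizer H x).index ∣ p ^ a * M) {y Λ : ℕ} (hy : 0 < y)
    (hlo : ∀ i, y ≤ (Y i).card) (hhi : ∀ i, (Y i).card ≤ Λ * y) :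
    Fintype.card ι ≤ m * M.divisors.card * (Nat.log 2 (2 * m * M.divisors.card * Λ) + 1) := by
  classical
  have hne : ∀ i, (Y i).Nonempty := fun i => Finset.card_pos.1 (hy.trans_le (hlo i))
  have hex : ∀ i, ∃ x ∈ Y i, ∀ x' ∈ Y i, (stabilizer H x').index ≤ (stabilizer H x).index :=
    fun i => Finset.exists_max_image (Y i) (fun x => (stabilizer H x).index) (hne i)
  choose x hx hmax using hex
  have hsp : ∀ i, ∀ z ∈ Y i, ∃ b, ∃ u ∈ M.divisors, (stabilizer H z).index = p ^ b * u := by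
    intro i z hz
    obtain ⟨a, ha⟩ := hsz i z hz
    exact split_win hp hM ha
  let s : ι → ℕ := fun i => (stabilizer H (x i)).index
  have hlow : ∀ i, y ≤ 2 * m * M.divisors.card * s i := by
    intro i
    have h1 := h.card_le (Y i) ((Y i).image fun z => (stabilizer H z).index)
      fun z hz => Finset.mem_image_of_mem _ hz
    have h2 := sum_sizes_win (M := M) (s := s i) hp ((Y i).image fun z => (stabilizer H z).index)
      (fun t ht => by
        obtain ⟨z, hz, rfl⟩ := Finset.mem_image.1 ht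
        exact hsp i z hz)
      (fun t ht => by
        obtain ⟨z, hz, rfl⟩ := Finset.mem_image.1 ht
        exact hmax i z hz)
    calc y ≤ (Y i).card := hlo i
      _ ≤ m * (M.divisors.card * (2 * s i)) := h1.trans (Nat.mul_le_mul_left m h2)
      _ = 2 * m * M.divisors.card * s i := by ring
  have hup : ∀ i, s i ≤ Λ * y := by
    intro i
    refine le_trans ?_ (hhi i)
    have h1 : orbit H (x i) ⊆ (Y i : Set X) := by
      rintro _ ⟨g, rfl⟩
      exact hinv i g _ (hx i)
    simp only [s]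
    rw [index_stabilizer, ← Set.ncard_coe_finset]
    exact Set.ncard_le_ncard h1 (Y i).finite_toSet
  have hV := card_sizes_win (M := M) (K := 2 * m * M.divisors.card) (Λ := Λ) hp hy
    (Finset.univ.image s)
    (fun t ht => by
      obtain ⟨i, -, rfl⟩ := Finset.mem_image.1 ht
      exact hsp i _ (hx i))
    (fun t ht => by
      obtain ⟨i, -, rfl⟩ := Finset.mem_image.1 ht
      exact hlow i)
    (fun t ht => by
      obtain ⟨i, -, rfl⟩ := Finset.mem_image.1 ht
      exact hup i)
  have hsame : ∀ i j, ∀ g : H, g • x i = x j → i = j := by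
    intro i j g hg
    by_contra hij
    exact Finset.disjoint_left.1 (hdisj i j hij) (hg ▸ hinv i g _ (hx i)) (hx j)
  have hfib : ∀ t ∈ Finset.univ.image s, (Finset.univ.filter fun i => s i = t).card ≤ m := by
    intro t _
    have hinj : Function.Injective x := fun i j hij => hsame i j 1 (by rw [one_smul, hij])
    rw [← Finset.card_image_of_injective _ hinj]
    refine h t _ ?_ ?_
    · intro z hz
      obtain ⟨i, hi, rfl⟩ := Finset.mem_image.1 hz
      exact (Finset.mem_filter.1 hi).2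
    · intro z hz w hw g hg
      obtain ⟨i, -, rfl⟩ := Finset.mem_image.1 hz
      obtain ⟨j, -, rfl⟩ := Finset.mem_image.1 hw
      rw [hsame i j g hg]
  have h9 := Finset.card_le_mul_card_image (f := s) Finset.univ m hfib
  rw [Finset.card_univ] at h9
  rw [mul_assoc]
  exact h9.trans (Nat.mul_le_mul_left m hV)

theorem bad_card (m C : ℕ) {p c : ℕ} (hp : p.Prime) (hc : c ≠ 0) : ∃ r₀,
    ∀ (G ι : Type) [Group G] [Finite G] [Fintype ι] (X : ι → Type) [∀ i, MulAction G (X i)]
      [∀ i, Finite (X i)] [∀ i, Nonempty (X i)] (J : Finset ι), Mult G (∀ i, X i) m →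
      (∀ i ∈ J, Bad G (X i) C) →
      (∀ x : ∀ i, X i, ∃ a, (stabilizer G x).index ∣ p ^ a * c ^ J.card) → J.card ≤ r₀ := by
  classical
  obtain ⟨r₀, hr₀⟩ := num_L1 m c C
  refine ⟨r₀, ?_⟩
  intro G ι _ _ _ X _ _ _ J hmult hbad hsz
  let _ : ∀ i, Fintype (X i) := fun i => Fintype.ofFinite (X i)
  choose Y y hy hd hinv hcard using hbad
  let F : (J → Bool) → ∀ i, Finset (X i) := fun τ i =>
    if h : i ∈ J then Y i h (τ ⟨i, h⟩) else Finset.univ
  let w : ι → ℕ := fun i => if h : i ∈ J then y i h else Fintype.card (X i)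
  have hw : 0 < ∏ i, w i := by
    refine Finset.prod_pos fun i _ => ?_
    simp only [w]
    split_ifs with h
    · exact hy i h
    · exact Fintype.card_pos
  have key := window (H := G) (X := ∀ i, X i) hmult hp (pow_ne_zero J.card hc) (ι := J → Bool)
    (fun τ => Fintype.piFinset (F τ)) ?_ ?_ (fun _ x _ => hsz x) (y := ∏ i, w i)
    (Λ := C ^ J.card) hw ?_ ?_
  · refine hr₀ J.card ?_
    rwa [Fintype.card_fun, Fintype.card_bool, Fintype.card_coe] at key
  · intro τ g x hx
    rw [Fintype.mem_piFinset] at hx ⊢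
    intro i
    have h1 := hx i
    simp only [F] at h1 ⊢
    split_ifs at h1 ⊢ with h
    · exact hinv i h _ g _ h1
    · exact Finset.mem_univ _
  · intro τ τ' hne
    obtain ⟨i, hi⟩ := Function.ne_iff.1 hne
    refine Finset.disjoint_left.2 fun x hx hx' => ?_
    have h1 := Fintype.mem_piFinset.1 hx i.1
    have h2 := Fintype.mem_piFinset.1 hx' i.1
    simp only [F, dif_pos i.2, Subtype.coe_eta] at h1 h2
    cases h3 : τ i <;> cases h4 : τ' i
    · exact hi (h3.trans h4.symm)
    · rw [h3] at h1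
      rw [h4] at h2
      exact Finset.disjoint_left.1 (hd i.1 i.2) h2 h1
    · rw [h3] at h1
      rw [h4] at h2
      exact Finset.disjoint_left.1 (hd i.1 i.2) h1 h2
    · exact hi (h3.trans h4.symm)
  · intro τ
    rw [Fintype.card_piFinset]
    refine Finset.prod_le_prod' fun i _ => ?_
    simp only [F, w]
    split_ifs with h
    · exact (hcard i h _).1
    · exact le_of_eq Finset.card_univ.symm
  · intro τ
    have h1 : C ^ J.card = ∏ i, if i ∈ J then C else 1 := by
      rw [Finset.prod_ite_mem, Finset.univ_inter, Finset.prod_const]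
    rw [Fintype.card_piFinset, h1, ← Finset.prod_mul_distrib]
    refine Finset.prod_le_prod' fun i _ => ?_
    simp only [F, w]
    split_ifs with h
    · exact (hcard i h _).2
    · rw [one_mul]
      exact le_of_eq Finset.card_univ

theorem free_count {W : Type} [AddCommGroup W] [Finite W] [DistribMulAction H W]
    (h : Mult H W m) (Z : Subgroup H) [Z.Normal]
    (hZ : ∀ z ∈ Z, ∀ w : W, w ≠ 0 → z • w = w → z = 1) :
    Nat.card W - 1 ≤ m * Nat.card Z * Z.index ^ 2 := by
  classical
  let _ : Fintype W := Fintype.ofFinite W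
  have h1 := h.card_le (Finset.univ.erase 0)
    ((Finset.Icc 1 Z.index).image fun k => Nat.card Z * k) (by
      intro w hw
      have hw0 : w ≠ 0 := (Finset.mem_erase.1 hw).1
      have h2 : Z.subgroupOf (stabilizer H w) = ⊥ := by
        rw [eq_bot_iff]
        intro g hg
        rw [Subgroup.mem_bot]
        exact Subtype.ext (hZ g hg w hw0 g.2)
      have h3 : Z.relIndex (stabilizer H w ⊔ Z) = Nat.card (stabilizer H w) := by
        rw [Subgroup.relIndex_sup_right, Subgroup.relIndex, h2, Subgroup.index_bot]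
      have h4 := Subgroup.relIndex_mul_index (le_sup_right : Z ≤ stabilizer H w ⊔ Z)
      rw [h3] at h4
      have h5 := (stabilizer H w).card_mul_index
      have h6 := Z.card_mul_index
      have h7 : 0 < Nat.card (stabilizer H w) := Nat.card_pos
      refine Finset.mem_image.2 ⟨(stabilizer H w ⊔ Z).index, Finset.mem_Icc.2 ⟨?_, ?_⟩, ?_⟩
      · exact Nat.one_le_iff_ne_zero.2 Subgroup.index_ne_zero_of_finite
      · rw [← h4]
        exact Nat.le_mul_of_pos_left _ h7
      · refine Nat.eq_of_mul_eq_mul_left h7 ?_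
        rw [h5, ← h6, ← h4]
        ring)
  rw [Finset.card_erase_of_mem (Finset.mem_univ _), Finset.card_univ,
    ← Nat.card_eq_fintype_card] at h1
  refine h1.trans ?_
  rw [mul_assoc]
  refine Nat.mul_le_mul_left m ?_
  have h8 := Finset.sum_le_card_nsmul ((Finset.Icc 1 Z.index).image fun k => Nat.card Z * k)
    (fun s => s) (Nat.card Z * Z.index) (by
      intro s hs
      obtain ⟨k, hk, rfl⟩ := Finset.mem_image.1 hs
      exact Nat.mul_le_mul_left _ (Finset.mem_Icc.1 hk).2)
  refine h8.trans ?_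
  have h9 : ((Finset.Icc 1 Z.index).image fun k => Nat.card Z * k).card ≤ Z.index :=
    Finset.card_image_le.trans (by rw [Nat.card_Icc]; omega)
  rw [smul_eq_mul]
  calc _ ≤ Z.index * (Nat.card Z * Z.index) := Nat.mul_le_mul_right _ h9
    _ = Nat.card Z * Z.index ^ 2 := by ring

end Pool.Agent.Lib.MP_98dfd6_al
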