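import Pool.Agent.Lib.MP_98dfd6_al.Num2
import Pool.Agent.Lib.MP_98dfd6_al.Win

/-! Numerical lemmas with rates. -/

namespace Pool.Agent.Lib.MP_98dfd6_al

theorem galR {p : ℕ} (hp : p.Prime) : ∃ C, ∀ m m' y f a c : ℕ, 2 ≤ y → 2 ≤ f →
    p ^ a ∣ y ^ f - 1 → c ≤ m' * f ^ 2 → y ^ f - 1 ≤ m * (p ^ a * c) * f ^ 2 →
    y ^ f ≤ C * (m * m') ^ (2 * p) := by
  obtain ⟨C, hC⟩ := pow_le_two_pow (8 * p)
  refine ⟨(4 * p) ^ (2 * p) * C, fun m m' y f a c hy hf hd hc hm => ?_⟩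
  obtain ⟨Θ, h1, h2⟩ := lte_theta hp hy hf hd
  have h3 : 2 ^ f ≤ y ^ f := Nat.pow_le_pow_left hy f
  have h4 : 2 ≤ y ^ f := hy.trans (Nat.le_self_pow (by omega) y)
  generalize y ^ f = N at *
  have h5 : Θ ≤ 4 * p * (m * m') * f ^ 4 := by
    refine Nat.le_of_mul_le_mul_right ?_ (show 0 < N by omega)
    calc Θ * N ≤ Θ * (2 * (m * (p ^ a * c) * f ^ 2)) := Nat.mul_le_mul_left _ (by omega)
      _ = 2 * m * f ^ 2 * (c * (p ^ a * Θ)) := by ring
      _ ≤ 2 * m * f ^ 2 * (m' * f ^ 2 * (2 * p * N)) :=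
        Nat.mul_le_mul_left _ (Nat.mul_le_mul hc h1)
      _ = _ := by ring
  refine Nat.le_of_mul_le_mul_right ?_ (show 0 < N by omega)
  have h6 := h2.trans (Nat.pow_le_pow_left h5 p)
  calc N * N ≤ (4 * p * (m * m') * f ^ 4) ^ p * (4 * p * (m * m') * f ^ 4) ^ p :=
        Nat.mul_le_mul h6 h6
    _ = (4 * p) ^ (2 * p) * (m * m') ^ (2 * p) * f ^ (8 * p) := by
      rw [← pow_add, ← two_mul, mul_pow, mul_pow (4 * p), ← pow_mul,
        show 4 * (2 * p) = 8 * p by ring]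
    _ ≤ (4 * p) ^ (2 * p) * (m * m') ^ (2 * p) * (C * N) :=
      Nat.mul_le_mul_left _ ((hC f).trans (Nat.mul_le_mul_left _ h3))
    _ = _ := by ring

theorem symplR : ∃ C, ∀ m q e f r z t : ℕ, 2 ≤ e → 2 ≤ q → 2 ^ f ≤ q → z ≤ q - 1 →
    r ≤ e ^ 2 → t ≤ f * (r * r ^ Nat.log 2 r) → q ^ e - 1 ≤ m * z * t ^ 2 → q ^ e ≤ C * m ^ 4 := by
  obtain ⟨C, hC⟩ := pow_le_two_pow 8
  obtain ⟨C', hC'⟩ := two_pow_log_sq_le 72
  refine ⟨C * C', fun m q e f r z t he hq hf hz hr ht hm => ?_⟩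
  obtain ⟨n, rfl⟩ : ∃ n, e = n + 1 := ⟨e - 1, by omega⟩
  have hqD : q ≤ q ^ n := Nat.le_self_pow (by omega) q
  have h2D : 2 ^ n ≤ q ^ n := Nat.pow_le_pow_left hq n
  have hR : (r * r ^ Nat.log 2 r) ^ 8 ≤ C' * q ^ n := by
    have h1 : n + 1 ≤ 2 ^ (Nat.log 2 n + 1) := Nat.lt_pow_succ_log_self (by norm_num) n
    have h2 : r ≤ 2 ^ ((Nat.log 2 n + 1) * 2) := by
      rw [pow_mul]
      exact hr.trans (Nat.pow_le_pow_left h1 2)
    have h3 : Nat.log 2 r ≤ (Nat.log 2 n + 1) * 2 := by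
      have := Nat.log_mono_right (b := 2) h2
      rwa [Nat.log_pow (by norm_num)] at this
    have h4 : (Nat.log 2 r + 1) ^ 2 ≤ (3 * (Nat.log 2 n + 1)) ^ 2 :=
      Nat.pow_le_pow_left (by omega) 2
    rw [← pow_succ']
    calc _ ≤ (2 ^ ((Nat.log 2 r + 1) ^ 2)) ^ 8 := Nat.pow_le_pow_left (pow_log_succ_le r) 8
      _ ≤ 2 ^ (72 * (Nat.log 2 n + 1) ^ 2) := by
        rw [← pow_mul]
        exact Nat.pow_le_pow_right (by norm_num) (by nlinarith)
      _ ≤ _ := (hC' n).trans (Nat.mul_le_mul_left _ h2D)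
  have hF : f ^ 8 ≤ C * q ^ n := (hC f).trans (Nat.mul_le_mul_left _ (hf.trans hqD))
  rw [pow_succ] at hm ⊢
  generalize q ^ n = D at *
  generalize r * r ^ Nat.log 2 r = R at *
  obtain ⟨w, rfl⟩ : ∃ w, q = w + 1 := ⟨q - 1, by omega⟩
  have h5 : D ≤ m * (f * R) ^ 2 := by
    refine Nat.le_of_mul_le_mul_right ?_ (show 0 < w by omega)
    calc D * w ≤ D * (w + 1) - 1 := by rw [mul_add, mul_one]; omega
      _ ≤ m * z * t ^ 2 := hm
      _ ≤ m * w * (f * R) ^ 2 :=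
        Nat.mul_le_mul (Nat.mul_le_mul_left _ (by omega)) (Nat.pow_le_pow_left ht 2)
      _ = _ := by ring
  refine (Nat.mul_le_mul_left D hqD).trans ?_
  refine Nat.le_of_mul_le_mul_right ?_ (show 0 < D * D from Nat.mul_pos (by omega) (by omega))
  calc D * D * (D * D) = D ^ 4 := by ring
    _ ≤ (m * (f * R) ^ 2) ^ 4 := Nat.pow_le_pow_left h5 4
    _ = m ^ 4 * (f ^ 8 * R ^ 8) := by ring
    _ ≤ m ^ 4 * (C * D * (C' * D)) := Nat.mul_le_mul_left _ (Nat.mul_le_mul hF hR)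
    _ = _ := by ring

/-- a constant is absorbed in the exponent -/
theorem absorb (C j : ℕ) : ∃ c, ∀ L, 1 ≤ L → C * (2 ^ L) ^ j ≤ 2 ^ (c * L) := by
  refine ⟨C + j, fun L hL => ?_⟩
  rw [add_mul, pow_add, ← pow_mul, mul_comm L j]
  refine Nat.mul_le_mul_right _ ((le_two_pow_Num C).trans ?_)
  exact Nat.pow_le_pow_right (by norm_num) (Nat.le_mul_of_pos_right _ hL)

theorem linR (j B : ℕ) : ∃ c, ∀ n L : ℕ, 1 ≤ L → 2 ^ n ≤ (n + 1) ^ j * (2 ^ L) ^ B → n ≤ c * L := by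
  obtain ⟨C, hC⟩ := pow_le_two_pow (2 * j)
  obtain ⟨c, hc⟩ := absorb (2 * C) (2 * B)
  refine ⟨c, fun n L hL h => ?_⟩
  have h1 := hC (n + 1)
  have h2 : 2 ^ n * 2 ^ n ≤ (2 * C * (2 ^ L) ^ (2 * B)) * 2 ^ n := by
    calc 2 ^ n * 2 ^ n ≤ ((n + 1) ^ j * (2 ^ L) ^ B) * ((n + 1) ^ j * (2 ^ L) ^ B) :=
          Nat.mul_le_mul h h
      _ = (n + 1) ^ (2 * j) * (2 ^ L) ^ (2 * B) := by ring
      _ ≤ (C * 2 ^ (n + 1)) * (2 ^ L) ^ (2 * B) := Nat.mul_le_mul_right _ h1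
      _ = _ := by ring
  have h3 := (Nat.le_of_mul_le_mul_right h2 (by positivity)).trans (hc L hL)
  exact (Nat.pow_le_pow_iff_right (by norm_num)).1 h3

theorem winR {m D L : ℕ} (n : ℕ) (hL : 1 ≤ L) (hm : m ≤ 2 ^ L) (hD : D ≤ 2 ^ L) :
    m * D * (Nat.log 2 (2 * m * D * 2 ^ n) + 1) ≤ (n + 1) * (2 ^ L) ^ 4 := by
  have h1 : Nat.log 2 (2 * m * D * 2 ^ n) ≤ 1 + L + L + n := by
    refine log_le_Num _ _ ?_
    rw [pow_add, pow_add, pow_add, pow_one]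
    exact Nat.mul_le_mul_right _ (Nat.mul_le_mul (Nat.mul_le_mul_left _ hm) hD)
  have h2 : L + 1 ≤ 2 ^ L := Nat.lt_two_pow_self
  have h3 : 2 ≤ 2 ^ L := Nat.le_self_pow (by omega) 2
  have h4 : Nat.log 2 (2 * m * D * 2 ^ n) + 1 ≤ (n + 1) * (2 ^ L * 2 ^ L) := by
    have h5 := Nat.mul_le_mul h3 h2
    have h6 : (n + 1) * (2 * (L + 1)) ≤ (n + 1) * (2 ^ L * 2 ^ L) := Nat.mul_le_mul_left _ h5
    nlinarith
  calc _ ≤ 2 ^ L * 2 ^ L * ((n + 1) * (2 ^ L * 2 ^ L)) := Nat.mul_le_mul (Nat.mul_le_mul hm hD) h4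
    _ = _ := by ring

theorem totR : ∃ C, ∀ s : ℕ, s ≠ 0 → s ≤ C * s.totient ^ 2 := by
  obtain ⟨C, hC⟩ := card_divisors_pow_k 2
  refine ⟨C, fun s hs => ?_⟩
  have h1 : s ≤ s.divisors.card * s.totient := by
    conv_lhs => rw [← Nat.sum_totient s]
    rw [← smul_eq_mul]
    exact Finset.sum_le_card_nsmul _ _ _ fun d hd =>
      Nat.le_of_dvd (Nat.totient_pos.2 (Nat.pos_of_ne_zero hs))
        (Nat.totient_dvd_of_dvd (Nat.dvd_of_mem_divisors hd))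
  refine Nat.le_of_mul_le_mul_right ?_ (Nat.pos_of_ne_zero hs)
  calc s * s ≤ (s.divisors.card * s.totient) * (s.divisors.card * s.totient) := Nat.mul_le_mul h1 h1
    _ = s.divisors.card ^ 2 * s.totient ^ 2 := by ring
    _ ≤ C * s * s.totient ^ 2 := Nat.mul_le_mul_right _ (hC s hs)
    _ = _ := by ring

theorem bootR (C j : ℕ) : ∃ x₀, ∀ x, x ≤ C * (Nat.log 2 x + 1) ^ j → x ≤ x₀ := by
  obtain ⟨C', hC'⟩ := pow_le_two_pow (2 * j)
  refine ⟨C * C * C' * 2, fun x hx => ?_⟩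
  rcases Nat.eq_zero_or_pos x with rfl | h0
  · exact Nat.zero_le _
  have h1 : 2 ^ Nat.log 2 x ≤ x := Nat.pow_log_le_self 2 h0.ne'
  refine Nat.le_of_mul_le_mul_right ?_ h0
  calc x * x ≤ (C * (Nat.log 2 x + 1) ^ j) * (C * (Nat.log 2 x + 1) ^ j) := Nat.mul_le_mul hx hx
    _ = C * C * (Nat.log 2 x + 1) ^ (2 * j) := by ring
    _ ≤ C * C * (C' * 2 ^ (Nat.log 2 x + 1)) := Nat.mul_le_mul_left _ (hC' _)
    _ = C * C * C' * 2 * 2 ^ Nat.log 2 x := by ring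
    _ ≤ _ := Nat.mul_le_mul_left _ h1

theorem divR {μ N k : ℕ} (hN : N ≠ 0) (hd : μ ∣ N) (hk : N.primeFactors.card ≤ k) :
    μ.divisors.card ≤ (Nat.log 2 μ + 1) ^ k := by
  have h0 : μ ≠ 0 := ne_zero_of_dvd_ne_zero hN hd
  rw [Nat.card_divisors h0]
  refine (Finset.prod_le_pow_card _ _ (Nat.log 2 μ + 1) fun q hq => ?_).trans ?_
  · exact Nat.succ_le_succ (factorization_le_log_NumA μ q h0 (Nat.prime_of_mem_primeFactors hq))
  · exact Nat.pow_le_pow_right (Nat.succ_pos _)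
      ((Finset.card_le_card (Nat.primeFactors_mono hd hN)).trans hk)

theorem minR {q : ℕ} (hq : 2 ≤ q) (R y : ℕ) :
    ∑ b ∈ Finset.range (Nat.log q y + 1), min y (q ^ b * q ^ R) ≤ (R + 2) * y := by
  classical
  set j := Nat.log q y with hj
  rw [← Finset.sum_filter_add_sum_filter_not _ (fun b => b + R < j)]
  have h1 : ∑ b ∈ (Finset.range (j + 1)).filter (fun b => b + R < j), min y (q ^ b * q ^ R) ≤ y := by
    by_cases hRj : R < j
    · have hy : y ≠ 0 := by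
        rintro rfl
        simp at hj
        omega
      refine (Finset.sum_le_sum fun b _ => min_le_right _ _).trans ?_
      rw [← Finset.sum_mul]
      have h2 : ∑ b ∈ (Finset.range (j + 1)).filter (fun b => b + R < j), q ^ b < q ^ (j - R) :=
        Nat.geomSum_lt hq fun b hb => by
          have := (Finset.mem_filter.1 hb).2
          omega
      refine (Nat.mul_le_mul_right _ h2.le).trans ?_
      rw [← pow_add, Nat.sub_add_cancel hRj.le]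
      exact Nat.pow_log_le_self q hy
    · rw [Finset.filter_false_of_mem fun b _ => by omega]
      simp
  have h2 : ∑ b ∈ (Finset.range (j + 1)).filter (fun b => ¬b + R < j), min y (q ^ b * q ^ R) ≤
      (R + 1) * y := by
    refine (Finset.sum_le_card_nsmul _ _ y fun b _ => min_le_left _ _).trans ?_
    rw [smul_eq_mul]
    refine Nat.mul_le_mul_right _ ((Finset.card_le_card (t := Finset.Icc (j - R) j) ?_).trans ?_)
    · intro b hb
      rw [Finset.mem_filter, Finset.mem_range] at hb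
      rw [Finset.mem_Icc]
      omega
    · rw [Nat.card_Icc]
      omega
  calc _ ≤ y + (R + 1) * y := Nat.add_le_add h1 h2
    _ = _ := by ring

theorem sizesR {p q μ R y : ℕ} (hp : p.Prime) (hq : 2 ≤ q) (Sz : Finset ℕ)
    (h1 : ∀ σ ∈ Sz, ∃ b a, ∃ u ∈ μ.divisors, p ^ a * u ≤ q ^ R ∧ σ = q ^ b * (p ^ a * u))
    (h2 : ∀ σ ∈ Sz, σ ≤ y) : ∑ σ ∈ Sz, σ ≤ 2 * μ.divisors.card * (R + 2) * y := by
  classical
  choose! b hb using h1
  have hq0 : 0 < q := by omega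
  have hmap : ∀ σ ∈ Sz, b σ ∈ Finset.range (Nat.log q y + 1) := by
    intro σ hσ
    obtain ⟨a, u, hu, -, he⟩ := hb σ hσ
    have h3 : 0 < p ^ a * u := Nat.mul_pos (pow_pos hp.pos _) (Nat.pos_of_mem_divisors hu)
    have h4 : q ^ b σ ≤ y := (Nat.le_mul_of_pos_right _ h3).trans (he ▸ h2 σ hσ)
    exact Finset.mem_range.2 (Nat.lt_succ_of_le (Nat.le_log_of_pow_le (by omega) h4))
  rw [← Finset.sum_fiberwise_of_maps_to hmap]
  have hfib : ∀ i ∈ Finset.range (Nat.log q y + 1), ∑ σ ∈ Sz with b σ = i, σ ≤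
      2 * μ.divisors.card * min y (q ^ i * q ^ R) := by
    intro i _
    have hqi : 0 < q ^ i := pow_pos hq0 i
    have hform : ∀ σ ∈ Sz.filter (fun σ => b σ = i), ∃ a, ∃ u ∈ μ.divisors,
        p ^ a * u ≤ q ^ R ∧ σ = q ^ i * (p ^ a * u) := by
      intro σ hσ
      obtain ⟨h3, h4⟩ := Finset.mem_filter.1 hσ
      exact h4 ▸ hb σ h3
    have hdiv : ∀ σ ∈ Sz.filter (fun σ => b σ = i), σ = q ^ i * (σ / q ^ i) := by
      intro σ hσ
      obtain ⟨a, u, -, -, he⟩ := hform σ hσ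
      exact (Nat.mul_div_cancel' ⟨_, he⟩).symm
    have h3 := sum_sizes_win (M := μ) (s := min (y / q ^ i) (q ^ R)) hp
      ((Sz.filter (fun σ => b σ = i)).image fun σ => σ / q ^ i) (by
        intro t ht
        obtain ⟨σ, hσ, rfl⟩ := Finset.mem_image.1 ht
        obtain ⟨a, u, hu, -, he⟩ := hform σ hσ
        exact ⟨a, u, hu, by rw [he, Nat.mul_div_cancel_left _ hqi]⟩) (by
        intro t ht
        obtain ⟨σ, hσ, rfl⟩ := Finset.mem_image.1 ht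
        obtain ⟨a, u, hu, h4, he⟩ := hform σ hσ
        refine le_min (Nat.div_le_div_right (h2 σ (Finset.mem_filter.1 hσ).1)) ?_
        rw [he, Nat.mul_div_cancel_left _ hqi]
        exact h4)
    rw [Finset.sum_image fun σ hσ τ hτ h => by
      rw [hdiv σ hσ, hdiv τ hτ]
      exact congrArg _ h] at h3
    rw [Finset.sum_congr rfl hdiv, ← Finset.mul_sum]
    refine (Nat.mul_le_mul_left _ h3).trans ?_
    have h4 : q ^ i * min (y / q ^ i) (q ^ R) ≤ min y (q ^ i * q ^ R) :=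
      le_min ((Nat.mul_le_mul_left _ (min_le_left _ _)).trans (Nat.mul_div_le _ _))
        (Nat.mul_le_mul_left _ (min_le_right _ _))
    calc _ = 2 * μ.divisors.card * (q ^ i * min (y / q ^ i) (q ^ R)) := by ring
      _ ≤ _ := Nat.mul_le_mul_left _ h4
  refine (Finset.sum_le_sum hfib).trans ?_
  rw [← Finset.mul_sum, mul_assoc (2 * μ.divisors.card)]
  exact Nat.mul_le_mul_left _ (minR hq R y)

end Pool.Agent.Lib.MP_98dfd6_al
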