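import Pool.Agent.Lib.MP_98dfd6_al.Base

/-! Set-transitive p-groups. -/

namespace Pool.Agent.Lib.MP_98dfd6_al

open MulAction

open Pointwise

variable {G : Type} [Group G] [Finite G]

theorem pset {p : ℕ} (hp : p.Prime) {Ω : Type} [MulAction G Ω] [Finite Ω] (P : Subgroup G)
    (hP : IsPGroup p P) :
    (∃ S S' : Set Ω, S.ncard = S'.ncard ∧ ∀ g ∈ P, g • S ≠ S') ∨
      ∀ g ∈ ⁅P, P⁆, ∀ ω : Ω, g • ω = ω := by
  have := Fact.mk hp
  rw [or_iff_not_imp_left]
  intro h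
  push Not at h
  have key : ∀ k, k ≤ Nat.card Ω → ∃ t, (Nat.card Ω).choose k = p ^ t := by
    intro k hk
    obtain ⟨S, -, hS⟩ := Set.exists_subset_card_eq (s := (Set.univ : Set Ω)) (n := k)
      (by rwa [Set.ncard_univ])
    obtain ⟨t, ht⟩ := hP.card_orbit S
    refine ⟨t, ?_⟩
    rw [← ht, ← Set.ncard_univ, ← Set.ncard_powerset_ncard Set.finite_univ, Nat.card_coe_set_eq]
    congr 1
    ext T
    constructor
    · rintro ⟨-, hT⟩
      obtain ⟨g, hg, e⟩ := h S T (hS.trans hT.symm)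
      exact ⟨⟨g, hg⟩, e⟩
    · rintro ⟨g, rfl⟩
      exact ⟨Set.subset_univ _, by rw [Set.ncard_smul_set, hS]⟩
  intro g hg ω
  rcases le_or_gt (Nat.card Ω) 1 with h1 | h1
  · have : Subsingleton Ω := Finite.card_le_one_iff_subsingleton.1 h1
    exact Subsingleton.elim _ _
  obtain ⟨s, hs⟩ := key 1 h1.le
  obtain ⟨t, ht⟩ := key 2 h1
  rw [Nat.choose_one_right] at hs
  have hn : Nat.card Ω = p := by
    have h2 : Nat.card Ω * (Nat.card Ω - 1) = 2 * p ^ t := by
      rw [← ht, Nat.choose_two_right, Nat.mul_div_cancel' (Nat.even_mul_pred_self _).two_dvd]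
    have hs0 : s ≠ 0 := by
      rintro rfl
      rw [pow_zero] at hs
      omega
    have hc : (Nat.card Ω - 1).Coprime (p ^ t) := by
      refine Nat.Coprime.pow_right _ ((Nat.Prime.coprime_iff_not_dvd hp).2 fun hd => ?_).symm
      have h3 : p ∣ Nat.card Ω := hs ▸ dvd_pow_self p hs0
      have h4 := (Nat.dvd_sub h3 hd)
      rw [show Nat.card Ω - (Nat.card Ω - 1) = 1 by omega] at h4
      exact hp.one_lt.ne' (Nat.dvd_one.1 h4)
    have h5 : Nat.card Ω - 1 ∣ 2 := hc.dvd_of_dvd_mul_right (h2 ▸ dvd_mul_left _ _)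
    have h6 := Nat.le_of_dvd (by norm_num) h5
    have h7 : s = 1 := by
      by_contra h8
      have h9 : 2 ^ 2 ≤ p ^ s :=
        (Nat.pow_le_pow_left hp.two_le 2).trans (Nat.pow_le_pow_right hp.pos (by omega))
      omega
    rw [hs, h7, pow_one]
  have hi : (stabilizer P ω).index = p := by
    rw [index_stabilizer, ← hn, ← Set.ncard_univ]
    congr 1
    refine Set.eq_univ_of_forall fun x => ?_
    obtain ⟨g, hg, e⟩ := h {ω} {x} (by simp)
    rw [Set.smul_set_singleton, Set.singleton_eq_singleton_iff] at e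
    exact ⟨⟨g, hg⟩, e⟩
  obtain ⟨a, ha⟩ := hP.exists_card_eq
  have ha0 : a ≠ 0 := by
    rintro rfl
    have := (stabilizer P ω).index_dvd_card
    rw [hi, ha, pow_zero] at this
    exact hp.one_lt.ne' (Nat.dvd_one.1 this)
  have : (stabilizer P ω).Normal :=
    Subgroup.normal_of_index_eq_minFac_card (by rw [hi, ha, hp.pow_minFac ha0])
  have : IsCyclic (P ⧸ stabilizer P ω) := isCyclic_of_prime_card (p := p) hi
  have hle : ⁅P, P⁆ ≤ stabilizer G ω := by
    refine Subgroup.commutator_le.2 fun g₁ h₁ g₂ h₂ => ?_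
    have : (⟨g₁, h₁⟩ * ⟨g₂, h₂⟩ * ⟨g₁, h₁⟩⁻¹ * ⟨g₂, h₂⟩⁻¹ : P) ∈ stabilizer P ω := by
      rw [← QuotientGroup.eq_one_iff]
      let _ := IsCyclic.commGroup (α := P ⧸ stabilizer P ω)
      simp only [QuotientGroup.mk_mul, QuotientGroup.mk_inv]
      rw [mul_inv_eq_one, mul_inv_eq_iff_eq_mul]
      exact mul_comm _ _
    exact this
  exact hle hg

end Pool.Agent.Lib.MP_98dfd6_al
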