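import Pool.Agent.Lib.MP_98dfd6_al.Perm1

/-! Solvable permutation groups have many orbits on subsets. -/

namespace Pool.Agent.Lib.MP_98dfd6_al

open MulAction

open Pointwise

variable {H : Type} [Group H] [Finite H] {U U₀ U₁ V : Subgroup H} {s s' : ℕ}

theorem Fam.anti (h : Fam U₀ V s) (hU : U ≤ U₀) : Fam U V s := by
  obtain ⟨D, h1, h2, h3⟩ := h
  exact ⟨D, h1, fun i x hx u hu => h2 i x hx u (hU hu), h3⟩

theorem smul_mk_perm2 {G : Type} [Group G] (W : Subgroup G) (g x : G) :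
    g • ((x : G) : G ⧸ W) = ((g * x : G) : G ⧸ W) := rfl

theorem fam_card (hUV : U ≤ V) : Fam U V (U.relIndex V + 1) := by
  classical
  haveI : Fintype (V ⧸ U.subgroupOf V) := Fintype.ofFinite _
  have hcard : (Finset.univ : Finset (V ⧸ U.subgroupOf V)).card = U.relIndex V := by
    rw [Finset.card_univ, ← Nat.card_eq_fintype_card]
    rfl
  have hT : ∀ i : Fin (U.relIndex V + 1), ∃ T : Finset (V ⧸ U.subgroupOf V), T.card = i := by
    intro i
    obtain ⟨T, -, hT⟩ := Finset.exists_subset_card_eq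
      (s := (Finset.univ : Finset (V ⧸ U.subgroupOf V))) (n := i) (by have := i.2; omega)
    exact ⟨T, hT⟩
  choose T hT using hT
  refine ⟨fun i => {x | ∃ hx : x ∈ V, ((⟨x, hx⟩ : V) : V ⧸ U.subgroupOf V) ∈ T i}, ?_, ?_, ?_⟩
  · rintro i x ⟨hx, -⟩
    exact hx
  · rintro i x ⟨hx, hxT⟩ u hu
    refine ⟨V.mul_mem hx (hUV hu), ?_⟩
    have : ((⟨x * u, V.mul_mem hx (hUV hu)⟩ : V) : V ⧸ U.subgroupOf V) =
        ((⟨x, hx⟩ : V) : V ⧸ U.subgroupOf V) := by
      symm
      rw [QuotientGroup.eq, Subgroup.mem_subgroupOf]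
      simpa using hu
    rw [this]
    exact hxT
  · intro i j v hv hij
    apply Fin.ext
    rw [← hT i, ← hT j]
    refine Finset.card_equiv (MulAction.toPerm (⟨v, hv⟩ : V)) ?_
    intro q
    obtain ⟨x, rfl⟩ := QuotientGroup.mk_surjective q
    rw [MulAction.toPerm_apply, smul_mk_perm2]
    constructor
    · intro hx
      obtain ⟨_, h2⟩ := (hij x).1 ⟨x.2, hx⟩
      exact h2
    · intro hx
      obtain ⟨_, h2⟩ := (hij x).2 ⟨V.mul_mem hv x.2, hx⟩
      exact h2

theorem fam_of_type_perm2 {ι : Type} [Finite ι] (D : ι → Set H) (h1 : ∀ i, ∀ x ∈ D i, x ∈ V)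
    (h2 : ∀ i, ∀ x ∈ D i, ∀ u ∈ U, x * u ∈ D i)
    (h3 : ∀ i j, ∀ v ∈ V, (∀ x, x ∈ D i ↔ v * x ∈ D j) → i = j) : Fam U V (Nat.card ι) := by
  let e := (Finite.equivFin ι).symm
  exact ⟨fun i => D (e i), fun i => h1 _, fun i => h2 _,
    fun i j v hv h => e.injective (h3 _ _ v hv h)⟩

/-- The relation between colourings of the cosets. -/
def colRel_perm2 (V W : Type) [Group V] [MulAction V W] (n : ℕ) : Setoid (W → Fin n) where
  r χ χ' := ∃ v : V, ∀ q, χ q = χ' (v • q)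
  iseqv := ⟨fun _ => ⟨1, fun q => by rw [one_smul]⟩, by
    rintro χ χ' ⟨v, hv⟩
    exact ⟨v⁻¹, fun q => by rw [hv, smul_inv_smul]⟩, by
    rintro χ χ' χ'' ⟨v, hv⟩ ⟨w, hw⟩
    exact ⟨w * v, fun q => by rw [hv, hw, mul_smul]⟩⟩

theorem col_count_perm2 {G W : Type} [Group G] [Finite G] [Finite W] [MulAction G W] (n : ℕ)
    (c : Subgroup G) (hc : ∀ x ∈ c, ∀ q : W, x • q = q) :
    n ^ Nat.card W ≤ Nat.card (Quotient (colRel_perm2 G W n)) * c.index := by
  classical
  have hsurj : Function.Surjective (fun z : Quotient (colRel_perm2 G W n) × (G ⧸ c) =>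
      (fun q => z.1.out (z.2.out • q) : W → Fin n)) := by
    intro χ
    obtain ⟨v, hv⟩ : (colRel_perm2 G W n).r χ (Quotient.mk (colRel_perm2 G W n) χ).out :=
      (colRel_perm2 G W n).symm (Quotient.mk_out χ)
    refine ⟨(Quotient.mk _ χ, (v : G ⧸ c)), ?_⟩
    funext q
    obtain ⟨x, hx⟩ := QuotientGroup.mk_out_eq_mul c v
    change (Quotient.mk (colRel_perm2 G W n) χ).out ((v : G ⧸ c).out • q) = χ q
    rw [hx, mul_smul, hc x x.2, hv]
  have := Nat.card_le_card_of_surjective _ hsurj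
  rw [Nat.card_prod, Nat.card_fun, Nat.card_eq_fintype_card (α := Fin n), Fintype.card_fin] at this
  exact this

theorem Fam.step (h : Fam U U₁ s') (hU : U ≤ U₁) (h1 : U₁ ≤ V) (c : Subgroup H) (hc : c ≤ U₁)
    (hn : ∀ v ∈ V, ∀ x ∈ c, v * x * v⁻¹ ∈ c) :
    ∃ s, Fam U V s ∧ s' ^ U₁.relIndex V ≤ s * c.relIndex V := by
  classical
  obtain ⟨D, hD1, hD2, hD3⟩ := h
  refine ⟨Nat.card (Quotient (colRel_perm2 V (V ⧸ U₁.subgroupOf V) s')), ?_, ?_⟩
  · let E : ((V ⧸ U₁.subgroupOf V) → Fin s') → Set H := fun χ =>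
      {x | ∃ hx : x ∈ V, ((((⟨x, hx⟩ : V) : V ⧸ U₁.subgroupOf V).out : V) : H)⁻¹ * x ∈
        D (χ ((⟨x, hx⟩ : V) : V ⧸ U₁.subgroupOf V))}
    have hE : ∀ χ (x : V) (q : V ⧸ U₁.subgroupOf V), (x : V ⧸ U₁.subgroupOf V) = q →
        ((x : H) ∈ E χ ↔ ((q.out : V) : H)⁻¹ * x ∈ D (χ q)) := by
      intro χ x q hq
      subst hq
      exact ⟨fun ⟨_, h⟩ => h, fun h => ⟨x.2, h⟩⟩
    have hmk : ∀ (x : V) (y : H) (hy : y ∈ U₁),
        ((x * ⟨y, h1 hy⟩ : V) : V ⧸ U₁.subgroupOf V) = (x : V ⧸ U₁.subgroupOf V) := by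
      intro x y hy
      symm
      rw [QuotientGroup.eq, Subgroup.mem_subgroupOf]
      simpa using hy
    refine fam_of_type_perm2 (fun ω => E ω.out) ?_ ?_ ?_
    · rintro ω x ⟨hx, -⟩
      exact hx
    · rintro ω x hxE u hu
      have hx : x ∈ V := hxE.1
      have h2 := (hE ω.out ⟨x, hx⟩ _ rfl).1 hxE
      have h3 := (hE ω.out (⟨x, hx⟩ * ⟨u, h1 (hU hu)⟩) _ (hmk ⟨x, hx⟩ u (hU hu))).2 (by
        have := hD2 _ _ h2 u hu
        rwa [mul_assoc] at this)
      exact h3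
    · intro ω ω' v hv hE'
      rw [← Quotient.out_eq ω, ← Quotient.out_eq ω']
      apply Quotient.sound
      refine ⟨⟨v, hv⟩, fun q => ?_⟩
      have hw : (((((⟨v, hv⟩ : V) • q).out : V) : H))⁻¹ * v * (q.out : V) ∈ U₁ := by
        have h2 : ((((⟨v, hv⟩ : V) • q).out : V) : V ⧸ U₁.subgroupOf V) =
            (((⟨v, hv⟩ : V) * q.out : V) : V ⧸ U₁.subgroupOf V) := by
          rw [← smul_mk_perm2, QuotientGroup.out_eq', QuotientGroup.out_eq']
        rw [QuotientGroup.eq, Subgroup.mem_subgroupOf] at h2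
        simpa [mul_assoc] using h2
      refine hD3 _ _ _ hw fun y => ?_
      have key : ∀ hy : y ∈ U₁, (y ∈ D (ω.out q) ↔
          (((((⟨v, hv⟩ : V) • q).out : V) : H))⁻¹ * v * (q.out : V) * y ∈
            D (ω'.out ((⟨v, hv⟩ : V) • q))) := by
        intro hy
        have e1 : ((q.out * ⟨y, h1 hy⟩ : V) : V ⧸ U₁.subgroupOf V) = q := by
          rw [hmk, QuotientGroup.out_eq']
          exact hy
        have e2 : (((⟨v, hv⟩ : V) * (q.out * ⟨y, h1 hy⟩) : V) : V ⧸ U₁.subgroupOf V) =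
            (⟨v, hv⟩ : V) • q := by
          rw [← smul_mk_perm2, e1]
        have a1 := hE ω.out _ _ e1
        have a2 := hE ω'.out _ _ e2
        have a3 := hE' ((q.out * ⟨y, h1 hy⟩ : V) : H)
        have b1 : ((q.out : V) : H)⁻¹ * ((q.out * ⟨y, h1 hy⟩ : V) : H) = y := by simp
        have b2 : ((((⟨v, hv⟩ : V) • q).out : V) : H)⁻¹ *
            (((⟨v, hv⟩ : V) * (q.out * ⟨y, h1 hy⟩) : V) : H) =
            (((((⟨v, hv⟩ : V) • q).out : V) : H))⁻¹ * v * (q.out : V) * y := by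
          simp [mul_assoc]
        rw [b1] at a1
        rw [b2] at a2
        rw [← a1, ← a2]
        exact a3
      constructor
      · intro hy
        exact (key (hD1 _ _ hy)).1 hy
      · intro hy
        exact (key ((U₁.mul_mem_cancel_left hw).1 (hD1 _ _ hy))).2 hy
  · refine col_count_perm2 s' (c.subgroupOf V) ?_
    intro x hx q
    obtain ⟨v, rfl⟩ := QuotientGroup.mk_surjective q
    rw [smul_mk_perm2]
    symm
    rw [QuotientGroup.eq, Subgroup.mem_subgroupOf]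
    have := hc (hn (v : H)⁻¹ (V.inv_mem v.2) x (Subgroup.mem_subgroupOf.1 hx))
    simpa [mul_assoc] using this

theorem outer_perm2 [Group.IsSolvable H] (h : Fam U U₁ s') (hU : U ≤ U₁) :
    ∃ s, Fam U ⊤ s ∧ s' ^ U₁.index ≤ s * 16 ^ U₁.index := by
  obtain ⟨s, hs, hle⟩ := h.step hU le_top U₁.normalCore U₁.normalCore_le
    (fun v _ x hx => (inferInstance : U₁.normalCore.Normal).conj_mem x hx v)
  rw [Subgroup.relIndex_top_right, Subgroup.relIndex_top_right] at hle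
  refine ⟨s, hs, hle.trans (Nat.mul_le_mul_left _ ((core_index_le U₁).trans ?_))⟩
  exact Nat.pow_le_pow_right (by norm_num) (Nat.sub_le _ _)

theorem fam_exp : ∃ B, ∀ (H : Type) [Group H] [Finite H] [Group.IsSolvable H] (U : Subgroup H),
    ∃ s, Fam U ⊤ s ∧ 2 ^ U.index ≤ s ^ B := by
  obtain ⟨b₀, hb₀⟩ := num_fam
  refine ⟨64 + 32 * b₀, fun H _ _ _ U => ?_⟩
  by_cases hn : U.index < 32
  · refine ⟨U.relIndex ⊤ + 1, fam_card le_top, ?_⟩
    rw [Subgroup.relIndex_top_right]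
    have h0 : U.index ≠ 0 := Subgroup.index_ne_zero_of_finite
    calc 2 ^ U.index ≤ 2 ^ (64 + 32 * b₀) := Nat.pow_le_pow_right (by norm_num) (by omega)
      _ ≤ (U.index + 1) ^ (64 + 32 * b₀) := Nat.pow_le_pow_left (by omega) _
  · obtain ⟨U₁, ⟨hU1, h32⟩, hmin⟩ := (wellFounded_lt (α := Subgroup H)).has_min
      {W | U ≤ W ∧ 32 ≤ U.relIndex W} ⟨⊤, le_top, by rw [Subgroup.relIndex_top_right]; omega⟩
    have hlt : U < U₁ := by
      refine lt_of_le_of_ne hU1 ?_
      rintro rfl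
      rw [Subgroup.relIndex_self] at h32
      omega
    obtain ⟨U₀, hU0, hcov⟩ := exists_le_covBy_of_lt hlt
    have ha : U.relIndex U₀ < 32 := by
      by_contra hcon
      exact hmin U₀ ⟨hU0, by omega⟩ hcov.lt
    have hidx : U.index = U.relIndex U₀ * U₀.relIndex U₁ * U₁.index := by
      rw [Subgroup.relIndex_mul_relIndex U U₀ U₁ hU0 hcov.le, Subgroup.relIndex_mul_index hU1]
    by_cases hb : U₀.relIndex U₁ ≤ b₀
    · obtain ⟨s, hs, hle⟩ := outer_perm2 (fam_card hU1) hU1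
      refine ⟨s, hs, ?_⟩
      have h2 : 2 ^ U₁.index ≤ s := by
        have : 2 ^ U₁.index * 16 ^ U₁.index ≤ s * 16 ^ U₁.index := by
          rw [← mul_pow]
          exact (Nat.pow_le_pow_left (by omega) _).trans hle
        exact Nat.le_of_mul_le_mul_right this (by positivity)
      have hs1 : 1 ≤ s := le_trans (Nat.one_le_two_pow) h2
      calc 2 ^ U.index ≤ 2 ^ (U₁.index * (32 * b₀)) := by
            refine Nat.pow_le_pow_right (by norm_num) ?_
            rw [hidx, mul_comm U₁.index]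
            exact Nat.mul_le_mul_right _ (Nat.mul_le_mul ha.le hb)
        _ ≤ s ^ (32 * b₀) := by
            rw [pow_mul]
            exact Nat.pow_le_pow_left h2 _
        _ ≤ s ^ (64 + 32 * b₀) := Nat.pow_le_pow_right hs1 (by omega)
    · obtain ⟨c, hc1, hc2, hc3⟩ := exists_rel_core hcov
      obtain ⟨s', hs', hle'⟩ := (fam_card (le_refl U₀)).step le_rfl hcov.le c hc1 hc2
      rw [Subgroup.relIndex_self] at hle'
      obtain ⟨s, hs, hle⟩ := outer_perm2 (hs'.anti hU0) hU1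
      refine ⟨s, hs, ?_⟩
      have hnum := hb₀ _ (not_le.1 hb)
      generalize U₀.relIndex U₁ = b at *
      generalize U₁.index = n at *
      generalize b ^ (Nat.log 2 b + 1) = t at *
      have h3 : 2 ^ b ≤ s' * t := hle'.trans (Nat.mul_le_mul_left _ hc3)
      have h4 : 256 * 2 ^ b ≤ s' ^ 2 := by
        have : 256 * 2 ^ b * 2 ^ b ≤ s' ^ 2 * 2 ^ b := by
          calc 256 * 2 ^ b * 2 ^ b = 256 * (2 ^ b * 2 ^ b) := by ring
            _ ≤ 256 * ((s' * t) * (s' * t)) := Nat.mul_le_mul_left _ (Nat.mul_le_mul h3 h3)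
            _ = s' ^ 2 * (256 * t ^ 2) := by ring
            _ ≤ s' ^ 2 * 2 ^ b := Nat.mul_le_mul_left _ hnum
        exact Nat.le_of_mul_le_mul_right this (by positivity)
      have h5 : 2 ^ (b * n) ≤ s ^ 2 := by
        have : 2 ^ (b * n) * 256 ^ n ≤ s ^ 2 * 256 ^ n := by
          calc 2 ^ (b * n) * 256 ^ n = (256 * 2 ^ b) ^ n := by rw [mul_pow, pow_mul, mul_comm]
            _ ≤ (s' ^ 2) ^ n := Nat.pow_le_pow_left h4 _
            _ = (s' ^ n) ^ 2 := by rw [← pow_mul, ← pow_mul, mul_comm]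
            _ ≤ (s * 16 ^ n) ^ 2 := Nat.pow_le_pow_left hle _
            _ = s ^ 2 * 256 ^ n := by
              rw [mul_pow, ← pow_mul 16, mul_comm n 2, pow_mul]
              norm_num
        exact Nat.le_of_mul_le_mul_right this (by positivity)
      have hs1 : 1 ≤ s := by
        rcases Nat.eq_zero_or_pos s with rfl | h
        · have : 0 < 2 ^ (b * n) := by positivity
          omega
        · exact h
      calc 2 ^ U.index ≤ 2 ^ (b * n * 32) := by
            refine Nat.pow_le_pow_right (by norm_num) ?_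
            rw [hidx, mul_assoc, mul_comm (b * n)]
            exact Nat.mul_le_mul_right _ ha.le
        _ ≤ (s ^ 2) ^ 32 := by
            rw [pow_mul]
            exact Nat.pow_le_pow_left h5 _
        _ ≤ s ^ (64 + 32 * b₀) := by
            rw [← pow_mul]
            exact Nat.pow_le_pow_right hs1 (by omega)

theorem Fam.sets (h : Fam U ⊤ s) :
    ∃ S : Fin s → Set (H ⧸ U), ∀ i j, ∀ g : H, g • S i = S j → i = j := by
  obtain ⟨D, -, h2, h3⟩ := h
  have key : ∀ i (x : H), ((x : H ⧸ U) ∈ {q : H ⧸ U | ∃ y ∈ D i, (y : H ⧸ U) = q}) ↔ x ∈ D i := by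
    intro i x
    constructor
    · rintro ⟨y, hy, hyx⟩
      have := h2 i y hy _ (QuotientGroup.eq.1 hyx)
      rwa [mul_inv_cancel_left] at this
    · intro hx
      exact ⟨x, hx, rfl⟩
  refine ⟨fun i => {q : H ⧸ U | ∃ y ∈ D i, (y : H ⧸ U) = q}, fun i j g hg => ?_⟩
  refine h3 i j g (Subgroup.mem_top g) fun x => ?_
  rw [← key i x, ← key j (g * x), ← smul_mk_perm2]
  have hg' : g • {q : H ⧸ U | ∃ y ∈ D i, (y : H ⧸ U) = q} =
    {q : H ⧸ U | ∃ y ∈ D j, (y : H ⧸ U) = q} := hg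
  rw [← hg', Set.smul_mem_smul_set_iff]

end Pool.Agent.Lib.MP_98dfd6_al
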