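import Pool.Agent.Lib.MP_98dfd6_al.Pr3
import Pool.Agent.Lib.MP_98dfd6_al.Perm2
import Pool.Agent.Lib.MP_98dfd6_al.PSet
import Pool.Agent.Lib.MP_98dfd6_al.Blk3

/-! One irreducible component. -/

namespace Pool.Agent.Lib.MP_98dfd6_al

open MulAction Pointwise

theorem blk_index_le (m A : ℕ) {p : ℕ} (hp : p.Prime) : ∃ n₀,
    ∀ (H X : Type) [Group H] [Finite H] [Group.IsSolvable H] [AddCommGroup X] [Finite X]
      [DistribMulAction H X] [FaithfulSMul H X] (ε : X →+ X) (a c : ℕ), Good H ε → Irr H X →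
      Mult H X m → c ≠ 0 → c ≤ A * (stb H ε).index ^ A →
      Nat.card (Im (stb H ε) ε.range) ∣ p ^ a * c → (stb H ε).index ≤ n₀ := by
  classical
  obtain ⟨B, hB⟩ := fam_exp
  obtain ⟨n₀, hn₀⟩ := num_S4 m A B
  refine ⟨n₀, fun H X _ _ _ _ _ _ _ ε a c hε hI hM hc hcA hK => ?_⟩
  obtain ⟨s, hs, hsB⟩ := hB H (stb H ε)
  obtain ⟨S, hS⟩ := hs.sets
  obtain ⟨Y, hY1, hY2, hY3, hY4⟩ := blk_sets hε hI ⊤
  set n := (stb H ε).index with hn
  set T := (stb H ε).normalCore.index with hT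
  have hT0 : T ≠ 0 := Subgroup.index_ne_zero_of_finite
  have hT1 : T ≤ 16 ^ n :=
    (core_index_le _).trans (Nat.pow_le_pow_right (by norm_num) (Nat.sub_le _ _))
  have hw : 2 ≤ Nat.card ε.range := by
    have := (hε.irr hI).1
    exact Finite.one_lt_card
  have hH : Nat.card H ∣ p ^ (a * n) * (c ^ n * T) := by
    rw [← (stb H ε).normalCore.card_mul_index, pow_mul, ← mul_assoc, ← mul_pow]
    exact Nat.mul_dvd_mul_right ((blk_core_dvd hε hI).trans (pow_dvd_pow_of_dvd hK _)) _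
  refine hn₀ n s c T hsB hcA hT1 ?_
  have hfib : ∀ j ∈ Finset.range (n + 1),
      (Finset.univ.filter fun i : Fin s => (S i).ncard = j).card ≤
        m * (c ^ n * T).divisors.card *
          (Nat.log 2 (2 * m * (c ^ n * T).divisors.card * 2 ^ n) + 1) := by
    intro j _
    rw [← Fintype.card_subtype]
    refine window hM hp (mul_ne_zero (pow_ne_zero _ hc) hT0)
      (fun i : {i : Fin s // (S i).ncard = j} => Y (S i.1))
      (fun i g x hx => hY1 _ g (Subgroup.mem_top g) x hx) (fun i i' hi => hY4 _ _ fun g _ hg => ?_)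
      (fun i x _ => ⟨a * n, (Subgroup.index_dvd_card _).trans hH⟩)
      (y := (Nat.card ε.range - 1) ^ j) (pow_pos (by omega) _) (fun i => ?_) (fun i => ?_)
    · exact hi (Subtype.ext (hS _ _ g hg))
    · have := hY2 (S i.1)
      rwa [i.2] at this
    · have := hY3 (S i.1)
      rwa [i.2] at this
  have hmap : ∀ i ∈ (Finset.univ : Finset (Fin s)), (S i).ncard ∈ Finset.range (n + 1) := by
    intro i _
    rw [Finset.mem_range, Nat.lt_succ_iff, hn, Subgroup.index, ← Set.ncard_univ]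
    exact Set.ncard_le_ncard (Set.subset_univ _)
  have := Finset.card_le_mul_card_image_of_maps_to hmap _ hfib
  rw [Finset.card_univ, Fintype.card_fin, Finset.card_range, mul_comm] at this
  exact this

theorem single (m : ℕ) {p : ℕ} (hp : p.Prime) : ∃ C,
    ∀ (H X : Type) [Group H] [Finite H] [Group.IsSolvable H] [AddCommGroup X] [Finite X]
      [DistribMulAction H X] [FaithfulSMul H X], Irr H X → Mult H X m → Lin p H m →
      (Op p H).index ≤ C ∧
        (∃ B : Subgroup H, B.Normal ∧ B.index ≤ C ∧ ∀ a ∈ B, ∀ b ∈ B, a * b = b * a) ∧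
        ∀ P : Subgroup H, IsPGroup p P → Bad P X C ∨ ⁅⁅P, P⁆, ⁅P, P⁆⁆ = ⊥ := by
  classical
  obtain ⟨C₁, h₁⟩ := prim_struct (m + 1) hp
  obtain ⟨n₀, h₀⟩ := blk_index_le m (C₁ * m ^ (4 * p) + 8 * p + m + 2) hp
  set D := (C₁ * (m * n₀ ^ 2) ^ (2 * p) + 1) ^ n₀ with hD
  refine ⟨D + D.factorial + 16 ^ n₀ * (m * n₀ ^ 2 + 1) ^ n₀,
    fun H X _ _ _ _ _ _ _ hI hM hL => ?_⟩
  obtain ⟨ε, hε, hP⟩ := exists_block hI
  have hIW := hε.irr hI
  have hLK : Lin p (Im (stb H ε) ε.range) (m * (stb H ε).index ^ 2) :=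
    (hL.subgroup (stb H ε)).of_surj _ (toIm_surj _ _)
  have : Group.IsSolvable (Im (stb H ε) ε.range) :=
    Group.isSolvable_of_surjective (toIm_surj (stb H ε) ε.range)
  have hn1 : 1 ≤ (stb H ε).index := Nat.one_le_iff_ne_zero.mpr Subgroup.index_ne_zero_of_finite
  have hpow : ∀ i j : ℕ, i ≤ j → (stb H ε).index ^ i ≤ (stb H ε).index ^ j :=
    fun i j h => Nat.pow_le_pow_right hn1 h
  have h16 : 1 ≤ 16 ^ n₀ := Nat.one_le_pow _ _ (by norm_num)
  have hmn : 1 ≤ (m * n₀ ^ 2 + 1) ^ n₀ := Nat.one_le_pow _ _ (by omega)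
  have := hI.1
  rcases h₁ (Im (stb H ε) ε.range) ε.range _ hIW.im hP.im (blk_mult hε hM).im hLK with
    ⟨hW, hK⟩ | hK
  · have hn : (stb H ε).index ≤ n₀ := by
      refine h₀ H X ε 0 _ hε hI hM Nat.card_pos.ne' (hK.trans ?_) (by simp)
      rw [mul_pow, ← mul_assoc, ← pow_mul]
      exact Nat.mul_le_mul (by omega) (hpow _ _ (by omega))
    have hX : Nat.card X ≤ D := by
      rw [blk_card hε hI, hD]
      have h1 : Nat.card ε.range ≤ C₁ * (m * n₀ ^ 2) ^ (2 * p) + 1 :=
        (hW.trans (Nat.mul_le_mul_left _ (Nat.pow_le_pow_left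
          (Nat.mul_le_mul_left _ (Nat.pow_le_pow_left hn _)) _))).trans (Nat.le_succ _)
      exact (Nat.pow_le_pow_left h1 _).trans (Nat.pow_le_pow_right (by omega) hn)
    have hH : Nat.card H ≤ D.factorial := card_le_of_faithful hX
    refine ⟨?_, ⟨⊥, inferInstance, ?_, ?_⟩, fun P _ => Or.inl ?_⟩
    · exact (Nat.le_of_dvd Nat.card_pos (Subgroup.index_dvd_card _)).trans (by omega)
    · rw [Subgroup.index_bot]
      omega
    · intro a ha b hb
      rw [Subgroup.mem_bot.mp ha, Subgroup.mem_bot.mp hb]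
    · exact bad_of_card_le (by omega)
  · obtain ⟨a, c, hc0, hac, hc⟩ := hLK.abelian hp ⊤ fun a _ b _ => hK a b
    rw [Subgroup.card_top] at hac
    rw [Subgroup.index_top, one_pow, mul_one] at hc
    have hn : (stb H ε).index ≤ n₀ := by
      refine h₀ H X ε a c hε hI hM hc0 (hc.trans ?_) (by rw [hac])
      exact Nat.mul_le_mul (by omega) (hpow _ _ (by omega))
    have hB := blk_core_comm hε hI hK
    have hBi : (stb H ε).normalCore.index ≤ 16 ^ n₀ :=
      (core_index_le _).trans (Nat.pow_le_pow_right (by norm_num) (by omega))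
    have hcn : c ^ (stb H ε).index ≤ (m * n₀ ^ 2 + 1) ^ n₀ := by
      have h1 : c ≤ m * n₀ ^ 2 + 1 :=
        (hc.trans (Nat.mul_le_mul_left _ (Nat.pow_le_pow_left hn _))).trans (Nat.le_succ _)
      exact (Nat.pow_le_pow_left h1 _).trans (Nat.pow_le_pow_right (by omega) hn)
    have hle : 16 ^ n₀ ≤ 16 ^ n₀ * (m * n₀ ^ 2 + 1) ^ n₀ := Nat.le_mul_of_pos_right _ hmn
    refine ⟨?_, ⟨_, inferInstance, by omega, hB⟩, fun P hP => ?_⟩
    · have hd := blk_core_dvd hε hI
      rw [hac, mul_pow, ← pow_mul] at hd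
      have h1 := Op.index_le hp _ hB (pow_ne_zero _ hc0) hd
      have h2 := Nat.mul_le_mul hBi hcn
      omega
    · rcases pset hp (Ω := H ⧸ stb H ε) P hP with ⟨S, S', hS, hS'⟩ | h
      · left
        obtain ⟨Y, hY1, hY2, hY3, hY4⟩ := blk_sets hε hI P
        have hw : 2 ≤ Nat.card ε.range := by
          have := hIW.1
          exact Finite.one_lt_card
        have h2 : 2 ^ (stb H ε).index ≤ D + D.factorial + 16 ^ n₀ * (m * n₀ ^ 2 + 1) ^ n₀ := by
          have h3 : 2 ^ (stb H ε).index ≤ 16 ^ n₀ :=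
            (Nat.pow_le_pow_right (by norm_num) hn).trans (Nat.pow_le_pow_left (by norm_num) _)
          omega
        refine ⟨fun b => if b then Y S else Y S', (Nat.card ε.range - 1) ^ S.ncard,
          pow_pos (by omega) _, by simpa using hY4 S S' hS', ?_, ?_⟩
        · rintro (_ | _) g x hx
          · exact hY1 S' g g.2 x hx
          · exact hY1 S g g.2 x hx
        · rintro (_ | _)
          · rw [hS]
            exact ⟨hY2 S', (hY3 S').trans (Nat.mul_le_mul_right _ h2)⟩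
          · exact ⟨hY2 S, (hY3 S).trans (Nat.mul_le_mul_right _ h2)⟩
      · right
        have hle : ⁅P, P⁆ ≤ (stb H ε).normalCore := by
          intro g hg
          rw [Subgroup.normalCore_eq_ker, MonoidHom.mem_ker]
          exact Equiv.ext (h g hg)
        rw [Subgroup.commutator_eq_bot_iff_le_centralizer]
        intro a ha
        exact Subgroup.mem_centralizer_iff.mpr fun b hb => hB b (hle hb) a (hle ha)

end Pool.Agent.Lib.MP_98dfd6_al
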