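import Pool.Agent.Lib.MP_98dfd6_al.ClA
import Pool.Agent.Lib.MP_98dfd6_al.SC

/-! One irreducible component, with rates. -/

namespace Pool.Agent.Lib.MP_98dfd6_al

open MulAction Pointwise

theorem exists_gen_q (G : Type) [Group G] [Finite G] {q d : ℕ} (hq : q.Prime)
    (hG : Nat.card G = q ^ d) : ∃ S : Finset G, Subgroup.closure (S : Set G) = ⊤ ∧ S.card ≤ d := by
  classical
  obtain ⟨H, ⟨S, rfl, hS⟩, hmax⟩ := (wellFounded_gt (α := Subgroup G)).has_min
    {H | ∃ S : Finset G, Subgroup.closure (S : Set G) = H ∧ q ^ S.card ≤ Nat.card H}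
    ⟨_, ∅, rfl, by simp⟩
  have ht : Subgroup.closure (S : Set G) = ⊤ := by
    by_contra hne
    obtain ⟨g, -, hg⟩ := SetLike.exists_of_lt (lt_top_iff_ne_top.mpr hne)
    have hle : Subgroup.closure (S : Set G) ≤ Subgroup.closure ((insert g S : Finset G) : Set G) :=
      Subgroup.closure_mono (by simp)
    have hne' : Subgroup.closure (S : Set G) ≠ Subgroup.closure ((insert g S : Finset G) : Set G) :=
      fun h => hg (h ▸ Subgroup.subset_closure (by simp))
    refine hmax _ ⟨insert g S, rfl, ?_⟩ (lt_of_le_of_ne hle hne')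
    obtain ⟨c, hc⟩ := Subgroup.card_dvd_of_le hle
    have h0 : c ∣ q ^ d := (Dvd.intro_left _ hc.symm).trans (hG ▸ Subgroup.card_subgroup_dvd_card _)
    obtain ⟨j, -, rfl⟩ := (Nat.dvd_prime_pow hq).1 h0
    have h1 : j ≠ 0 := by
      rintro rfl
      rw [pow_zero, mul_one] at hc
      exact hne' (Subgroup.eq_of_le_of_card_ge hle hc.le)
    calc q ^ (insert g S).card ≤ q ^ (S.card + 1) :=
          Nat.pow_le_pow_right hq.pos (Finset.card_insert_le _ _)
      _ ≤ _ := by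
        rw [hc, pow_succ]
        exact Nat.mul_le_mul hS (Nat.le_self_pow h1 q)
  rw [ht, Subgroup.card_top, hG] at hS
  exact ⟨S, ht, (Nat.pow_le_pow_iff_right hq.one_lt).1 hS⟩

theorem card_le_aut {H X : Type} [Group H] [AddCommGroup X] [Finite X] [DistribMulAction H X]
    [FaithfulSMul H X] {q d : ℕ} (hq : q.Prime) (hX : Nat.card X = q ^ d) :
    Nat.card H ≤ q ^ (d * d) := by
  obtain ⟨S, hS, hd⟩ := exists_gen_q (Multiplicative X) hq hX
  obtain ⟨_, h1⟩ := card_hom_le_pow (G' := Multiplicative X) S hS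
  refine le_trans (Nat.card_le_card_of_injective
    (fun g : H => AddMonoidHom.toMultiplicative (DistribSMul.toAddMonoidHom X g))
    fun a b h => ?_) (h1.trans ?_)
  · exact eq_of_smul_eq_smul (α := X) fun x => DFunLike.congr_fun h (Multiplicative.ofAdd x)
  · rw [pow_mul, ← hX]
    exact Nat.pow_le_pow_right Nat.card_pos hd

theorem card_of_exp {X : Type} [AddCommGroup X] [Finite X] {q : ℕ} (hq : q.Prime)
    (h : ∀ x : X, q • x = 0) : ∃ d, Nat.card X = q ^ d := by
  have : Fact q.Prime := ⟨hq⟩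
  have h1 : IsPGroup q (Multiplicative X) := fun x => ⟨1, by
    rw [pow_one]
    exact h x.toAdd⟩
  exact h1.exists_card_eq

theorem irr_exp {H X : Type} [Group H] [AddCommGroup X] [Finite X] [DistribMulAction H X]
    (hI : Irr H X) : ∃ q : ℕ, q.Prime ∧ ∀ x : X, q • x = 0 := by
  have := hI.1
  have h1 : Nat.card X ≠ 1 := Finite.one_lt_card.ne'
  have hq := Nat.minFac_prime h1
  have : Fact (Nat.card X).minFac.Prime := ⟨hq⟩
  obtain ⟨x, hx⟩ := exists_prime_addOrderOf_dvd_card' (G := X) _ (Nat.minFac_dvd _)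
  refine ⟨_, hq, ?_⟩
  rcases hI.2 (nsmulAddMonoidHom (Nat.card X).minFac).ker (fun g y hy => by
    rw [AddMonoidHom.mem_ker, nsmulAddMonoidHom_apply] at hy ⊢
    rw [smul_comm, hy, smul_zero]) with h | h
  · have h2 : x ∈ (nsmulAddMonoidHom (Nat.card X).minFac).ker := by
      rw [AddMonoidHom.mem_ker, nsmulAddMonoidHom_apply, ← hx, addOrderOf_nsmul_eq_zero]
    rw [h, AddSubgroup.mem_bot] at h2
    rw [h2, addOrderOf_zero] at hx
    exact absurd hx.symm hq.ne_one
  · intro y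
    have h2 : y ∈ (nsmulAddMonoidHom (Nat.card X).minFac).ker := h ▸ AddSubgroup.mem_top y
    exact h2

theorem primR {p : ℕ} (hp : p.Prime) : ∃ C,
    ∀ (K W : Type) [Group K] [Finite K] [Group.IsSolvable K] [AddCommGroup W] [Finite W]
      [DistribMulAction K W] [FaithfulSMul K W] (m q d : ℕ), Irr K W → Prim K W → Mult K W m →
      Cyc p K m → 1 ≤ m → 2 ≤ q → Nat.card W = q ^ d →
      Nat.card W ≤ C * m ^ (4 * p) ∨ (IsCyclic K ∧ d = 1) := by
  obtain ⟨C₁, h₁⟩ := symplR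
  obtain ⟨C₂, h₂⟩ := galR hp
  refine ⟨C₁ + C₂, fun K W _ _ _ _ _ _ _ m q d hI hP hM hL hm hq hd => ?_⟩
  have := hI.1
  obtain ⟨L, hLn, hL1, hL2⟩ := exists_two K
  set Z := Subgroup.centralizer (L : Set K) with hZ
  have : Z.Normal := Subgroup.normal_centralizer
  have hZc : ∀ a ∈ Z, ∀ b ∈ Z, a * b = b * a := fun a ha b hb =>
    (Subgroup.mem_centralizer_iff.mp hb a (hL1 ha))
  obtain ⟨F, _, _, _, ζ, σ, h⟩ := exists_field hI hP Z hZc
  have : Module.Finite F W := Module.Finite.of_finite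
  have : IsCyclic Z := isCyclic_of_injective ζ h.inj
  obtain ⟨y, hy, hyF⟩ := h.gal
  have hr := h.relIndex_le hZ.symm hL2
  have hc := h.relIndex_cent hZ.symm hL1
  have hcount := free_count hM Z h.free
  have hW : Nat.card W = Nat.card F ^ Module.finrank F W := Module.natCard_eq_pow_finrank
  have hZle : Z ≤ Subgroup.centralizer (Z : Set K) := fun a ha =>
    Subgroup.mem_centralizer_iff.mpr fun b hb => hZc b hb a ha
  have hidx : Z.index = (Subgroup.centralizer (Z : Set K)).index *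
      Z.relIndex (Subgroup.centralizer (Z : Set K)) := by
    rw [mul_comm, Subgroup.relIndex_mul_index hZle]
  have hF2 : 2 ≤ Nat.card F := Finite.one_lt_card
  have hzd := h.card_dvd
  have hz : Nat.card Z ≤ Nat.card F - 1 := Nat.le_of_dvd (by omega) hzd
  have he0 : Module.finrank F W ≠ 0 := Module.finrank_pos.ne'
  have hmm : (m * m) ^ (2 * p) = m ^ (4 * p) := by ring
  by_cases he : 2 ≤ Module.finrank F W
  · left
    have hb : Nat.card W ≤ C₁ * m ^ 4 := by
      rw [hW]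
      refine h₁ m _ _ (Subgroup.centralizer (Z : Set K)).index (Z.relIndex L) (Nat.card Z) Z.index
        he hF2 ?_ hz hr ?_ (hW ▸ hcount)
      · rw [hyF]
        exact Nat.pow_le_pow_left hy _
      · rw [hidx]
        exact Nat.mul_le_mul_left _ hc
    exact hb.trans (Nat.mul_le_mul (by omega)
      (Nat.pow_le_pow_right hm (Nat.le_mul_of_pos_right _ hp.pos)))
  · have he1 : Module.finrank F W = 1 := by omega
    rw [he1] at hr hW
    have hr0 : Z.relIndex L ≠ 0 := Subgroup.index_ne_zero_of_finite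
    have hLZ : L ≤ Z := Subgroup.relIndex_eq_one.mp (by omega)
    have hLe : L = Z := le_antisymm hLZ hL1
    have hcz : Subgroup.centralizer (Z : Set K) = Z := by
      conv_lhs => rw [← hLe]
    rw [hcz] at hyF
    rw [pow_one] at hW
    obtain ⟨a, c, -, hac, hcm⟩ := hL.cyclic hp Z
    have hpa : p ^ a ∣ Nat.card F - 1 := (Dvd.intro _ hac.symm).trans hzd
    by_cases hf : 2 ≤ Z.index
    · left
      rw [hW, hyF, hac] at hcount
      rw [hW, hyF]
      exact (h₂ m m y Z.index a c hy hf (hyF ▸ hpa) hcm hcount).trans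
        (Nat.mul_le_mul (by omega) hmm.le)
    · have h0 : Z.index ≠ 0 := Subgroup.index_ne_zero_of_finite
      have h1 : Z.index = 1 := by omega
      by_cases hd2 : 2 ≤ d
      · left
        rw [h1] at hcount hcm
        rw [hd, hac] at hcount
        rw [← hW, hd] at hpa
        have h3 : 1 ^ 2 ≤ d ^ 2 := Nat.pow_le_pow_left (by omega) 2
        rw [hd]
        exact (h₂ m m q d a c hq hd2 hpa (hcm.trans (Nat.mul_le_mul_left _ h3))
          (hcount.trans (Nat.mul_le_mul_left _ h3))).trans (Nat.mul_le_mul (by omega) hmm.le)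
      · right
        have ht : Z = ⊤ := Subgroup.index_eq_one.mp h1
        refine ⟨isCyclic_of_surjective Z.subtype fun g => ⟨⟨g, ht ▸ Subgroup.mem_top g⟩, rfl⟩, ?_⟩
        have h3 : d ≠ 0 := by
          rintro rfl
          rw [hW, pow_zero] at hd
          omega
        omega

theorem blkR {p : ℕ} (hp : p.Prime) : ∃ c,
    ∀ (H X : Type) [Group H] [Finite H] [Group.IsSolvable H] [AddCommGroup X] [Finite X]
      [DistribMulAction H X] (ε : X →+ X) (m a μ L : ℕ), Good H ε → Irr H X →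
      Mult H X m → μ ≠ 0 → (∀ x : X, (stabilizer H x).index ∣ p ^ a * μ) → 1 ≤ L → m ≤ 2 ^ L →
      μ.divisors.card ≤ 2 ^ L → (stb H ε).index ≤ c * L := by
  classical
  obtain ⟨B, hB⟩ := fam_exp
  obtain ⟨c, hc⟩ := linR (2 * B) (4 * B)
  refine ⟨c, fun H X _ _ _ _ _ _ ε m a μ L hε hI hM hμ hH hL hm hD => ?_⟩
  obtain ⟨s, hs, hsB⟩ := hB H (stb H ε)
  obtain ⟨S, hS⟩ := hs.sets
  obtain ⟨Y, hY1, hY2, hY3, hY4⟩ := blk_sets hε hI ⊤
  set n := (stb H ε).index with hn
  have hw : 2 ≤ Nat.card ε.range := by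
    have := (hε.irr hI).1
    exact Finite.one_lt_card
  have hfib : ∀ j ∈ Finset.range (n + 1),
      (Finset.univ.filter fun i : Fin s => (S i).ncard = j).card ≤ (n + 1) * (2 ^ L) ^ 4 := by
    intro j _
    rw [← Fintype.card_subtype]
    refine le_trans (window hM hp hμ
      (fun i : {i : Fin s // (S i).ncard = j} => Y (S i.1))
      (fun i g x hx => hY1 _ g (Subgroup.mem_top g) x hx) (fun i i' hi => hY4 _ _ fun g _ hg => ?_)
      (fun i x _ => ⟨a, hH x⟩)
      (y := (Nat.card ε.range - 1) ^ j) (pow_pos (by omega) _) (fun i => ?_) (fun i => ?_))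
      (winR n hL hm hD)
    · exact hi (Subtype.ext (hS _ _ g hg))
    · have := hY2 (S i.1)
      rwa [i.2] at this
    · have := hY3 (S i.1)
      rwa [i.2] at this
  have hmap : ∀ i ∈ (Finset.univ : Finset (Fin s)), (S i).ncard ∈ Finset.range (n + 1) := by
    intro i _
    rw [Finset.mem_range, Nat.lt_succ_iff, hn, Subgroup.index, ← Set.ncard_univ]
    exact Set.ncard_le_ncard (Set.subset_univ _)
  have h1 := Finset.card_le_mul_card_image_of_maps_to hmap _ hfib
  rw [Finset.card_univ, Fintype.card_fin, Finset.card_range] at h1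
  refine hc n L hL (hsB.trans ((Nat.pow_le_pow_left h1 B).trans (le_of_eq ?_)))
  rw [pow_mul, pow_mul, ← mul_pow]
  congr 1
  ring

theorem singleR {p : ℕ} (hp : p.Prime) : ∃ c,
    ∀ (H X : Type) [Group H] [Finite H] [Group.IsSolvable H] [AddCommGroup X] [Finite X]
      [DistribMulAction H X] [FaithfulSMul H X] (m a μ L q d : ℕ), Irr H X → Mult H X m →
      Cyc p H m → μ ≠ 0 → (∀ x : X, (stabilizer H x).index ∣ p ^ a * μ) → 1 ≤ L → m ≤ 2 ^ L →
      μ.divisors.card ≤ 2 ^ L → q.Prime → Nat.card X = q ^ d →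
      d ≤ c * L ^ 2 ∧ (Op p H).index ≤ 2 ^ (c * L ^ 6) ∧
        ∃ B : Subgroup H, B.Normal ∧ B.index ≤ 2 ^ (c * L ^ 6) ∧ ∀ a ∈ B, ∀ b ∈ B, a * b = b * a := by
  classical
  obtain ⟨C₁, h₁⟩ := primR hp
  obtain ⟨c₀, h₀⟩ := blkR hp
  obtain ⟨c₁, hc₁⟩ := absorb ((c₀ + 2) ^ 2) 3
  obtain ⟨c₂, hc₂⟩ := absorb C₁ (c₁ * (4 * p))
  refine ⟨(c₀ * c₂) ^ 3 + c₀ * c₂ + c₀ + (4 + c₁) * c₀,
    fun H X _ _ _ _ _ _ _ m a μ L q d hI hM hC hμ hH hL hm hD hq hd => ?_⟩
  obtain ⟨ε, hε, hP⟩ := exists_block hI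
  have hIW := hε.irr hI
  have hn := h₀ H X ε m a μ L hε hI hM hμ hH hL hm hD
  have hn1 : 1 ≤ (stb H ε).index := Nat.one_le_iff_ne_zero.mpr Subgroup.index_ne_zero_of_finite
  have hL2 : L ≤ 2 ^ L := le_two_pow_Num L
  have h2L : 1 ≤ 2 ^ L := Nat.one_le_two_pow
  have hb1 : m * (stb H ε).index ^ 2 ≤ 2 ^ (c₁ * L) := by
    refine le_trans ?_ (hc₁ L hL)
    have h1 : (stb H ε).index ≤ (c₀ + 2) * 2 ^ L := hn.trans (Nat.mul_le_mul (by omega) hL2)
    calc _ ≤ 2 ^ L * ((c₀ + 2) * 2 ^ L) ^ 2 := Nat.mul_le_mul hm (Nat.pow_le_pow_left h1 2)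
      _ = _ := by ring
  have hb2 : m + 1 ≤ 2 ^ (c₁ * L) := by
    refine le_trans ?_ (hc₁ L hL)
    have h1 : 2 ^ L ≤ (2 ^ L) ^ 3 := Nat.le_self_pow (by norm_num) _
    have h2 : 2 ^ 2 ≤ (c₀ + 2) ^ 2 := Nat.pow_le_pow_left (by omega) 2
    have h3 := Nat.mul_le_mul h2 h1
    omega
  have hLK : Cyc p (Im (stb H ε) ε.range) (2 ^ (c₁ * L)) :=
    ((hC.subgroup (stb H ε)).of_surj _ (toIm_surj _ _)).mono hb1
  have : Group.IsSolvable (Im (stb H ε) ε.range) :=
    Group.isSolvable_of_surjective (toIm_surj (stb H ε) ε.range)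
  have hXW := blk_card hε hI
  obtain ⟨e, -, he⟩ := (Nat.dvd_prime_pow hq).1
    (hd ▸ AddSubgroup.card_addSubgroup_dvd_card ε.range)
  have hde : d = e * (stb H ε).index := by
    rw [hd, he, ← pow_mul] at hXW
    exact Nat.pow_right_injective hq.two_le hXW
  have hL26 : L ^ 2 ≤ L ^ 6 := Nat.pow_le_pow_right hL (by norm_num)
  have hL12 : L ≤ L ^ 2 := Nat.le_self_pow (by norm_num) L
  rcases h₁ (Im (stb H ε) ε.range) ε.range (2 ^ (c₁ * L)) q e hIW.im hP.im
    ((blk_mult hε hM).im.mono hb2) hLK Nat.one_le_two_pow hq.two_le he with hW | ⟨hK, he1⟩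
  · have hW2 : Nat.card ε.range ≤ 2 ^ (c₂ * L) := by
      refine hW.trans (le_trans (le_of_eq ?_) (hc₂ L hL))
      rw [← pow_mul, ← pow_mul]
      congr 2
      ring
    have hX : q ^ d ≤ 2 ^ (c₀ * c₂ * L ^ 2) := by
      rw [← hd, hXW]
      refine (Nat.pow_le_pow_left hW2 _).trans ?_
      rw [← pow_mul]
      refine Nat.pow_le_pow_right (by norm_num) ((Nat.mul_le_mul_left _ hn).trans (le_of_eq ?_))
      ring
    have hdl : d ≤ c₀ * c₂ * L ^ 2 := (Nat.pow_le_pow_iff_right (by norm_num)).1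
      ((Nat.pow_le_pow_left hq.two_le d).trans hX)
    have hH2 : Nat.card H ≤ 2 ^ (((c₀ * c₂) ^ 3 + c₀ * c₂ + c₀ + (4 + c₁) * c₀) * L ^ 6) := by
      refine (card_le_aut hq hd).trans ?_
      rw [pow_mul]
      refine (Nat.pow_le_pow_left hX _).trans ?_
      rw [← pow_mul]
      refine Nat.pow_le_pow_right (by norm_num) ((Nat.mul_le_mul_left _ hdl).trans ?_)
      generalize c₀ * c₂ = u
      have h1 : u * u ≤ u ^ 3 + u := by
        rcases Nat.eq_zero_or_pos u with rfl | hu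
        · simp
        · nlinarith
      have h2 : L ^ 4 ≤ L ^ 6 := Nat.pow_le_pow_right hL (by norm_num)
      calc _ = (u * u) * L ^ 4 := by ring
        _ ≤ _ := Nat.mul_le_mul (by omega) h2
    refine ⟨hdl.trans (Nat.mul_le_mul_right _ (by omega)), ?_, ⊥, inferInstance, ?_, ?_⟩
    · exact (Nat.le_of_dvd Nat.card_pos (Subgroup.index_dvd_card _)).trans hH2
    · rwa [Subgroup.index_bot]
    · intro a ha b hb
      rw [Subgroup.mem_bot.mp ha, Subgroup.mem_bot.mp hb]
  · have : IsCyclic (⊤ : Subgroup (Im (stb H ε) ε.range)) := inferInstance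
    obtain ⟨a', c, hc0, hac, hc⟩ := hLK.cyclic hp ⊤
    rw [Subgroup.card_top] at hac
    rw [Subgroup.index_top, one_pow, mul_one] at hc
    have hB := blk_core_comm hε hI fun a b => hK.isMulCommutative.is_comm.comm a b
    have hBi : (stb H ε).normalCore.index ≤ 2 ^ (4 * (c₀ * L)) := by
      rw [pow_mul]
      exact (core_index_le _).trans (Nat.pow_le_pow_right (by norm_num) (by omega))
    have hcn : c ^ (stb H ε).index ≤ 2 ^ (c₁ * L * (c₀ * L)) := by
      rw [pow_mul]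
      exact (Nat.pow_le_pow_left hc _).trans (Nat.pow_le_pow_right Nat.one_le_two_pow hn)
    have hexp : 4 * (c₀ * L) + c₁ * L * (c₀ * L) ≤
        ((c₀ * c₂) ^ 3 + c₀ * c₂ + c₀ + (4 + c₁) * c₀) * L ^ 6 := by
      calc _ = 4 * c₀ * L + c₁ * c₀ * L ^ 2 := by ring
        _ ≤ 4 * c₀ * L ^ 6 + c₁ * c₀ * L ^ 6 := Nat.add_le_add
          (Nat.mul_le_mul_left _ (hL12.trans hL26)) (Nat.mul_le_mul_left _ hL26)
        _ = (4 + c₁) * c₀ * L ^ 6 := by ring
        _ ≤ _ := Nat.mul_le_mul_right _ (by omega)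
    refine ⟨?_, ?_, _, inferInstance, ?_, hB⟩
    · rw [hde, he1, one_mul]
      exact hn.trans (Nat.mul_le_mul (by omega) hL12)
    · have hd' := blk_core_dvd hε hI
      rw [hac, mul_pow, ← pow_mul] at hd'
      refine (Op.index_le hp _ hB (pow_ne_zero _ hc0) hd').trans
        ((Nat.mul_le_mul hBi hcn).trans ?_)
      rw [← pow_add]
      exact Nat.pow_le_pow_right (by norm_num) hexp
    · exact hBi.trans (Nat.pow_le_pow_right (by norm_num) (by omega))

end Pool.Agent.Lib.MP_98dfd6_al
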