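import Pool.Agent.Lib.MP_98dfd6_al.ClMass
import Pool.Agent.Lib.MP_98dfd6_al.ClPrim

/-! Orbit multiplicities on the `q`-part of the Fitting factor. -/

namespace Pool.Agent.Lib.MP_98dfd6_al

open MulAction Multiplicative

theorem equal_card {p : ℕ} (hp : p.Prime) : ∃ c,
    ∀ (G ι : Type) [Group G] [Finite G] [Fintype ι] (X : ι → Type) [∀ i, AddCommGroup (X i)]
      [∀ i, Finite (X i)] [∀ i, DistribMulAction G (X i)] (m a μ L s : ℕ) (J : Finset ι),
      Mult G (∀ i, X i) m → μ ≠ 0 → (∀ x : ∀ i, X i, (stabilizer G x).index ∣ p ^ a * μ) → 1 ≤ L →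
      m ≤ 2 ^ L → μ.divisors.card ≤ 2 ^ L → 2 ≤ s → (∀ i ∈ J, Nat.card (X i) = s) →
      J.card ≤ c * L := by
  classical
  obtain ⟨c, hc⟩ := linR 1 4
  refine ⟨c, fun G ι _ _ _ X _ _ _ m a μ L s J hM hμ hH hL hm hD hs hJ => hc _ L hL ?_⟩
  have := fun i => Fintype.ofFinite (X i)
  let Y : Finset ι → Finset (∀ i, X i) := fun S =>
    Fintype.piFinset fun i => if i ∈ S then Finset.univ.erase 0 else {0}
  have hY : ∀ S x, x ∈ Y S ↔ ∀ i, (i ∈ S ↔ x i ≠ 0) := by
    intro S x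
    rw [Fintype.mem_piFinset]
    refine forall_congr' fun i => ?_
    split_ifs with h <;> simp [h]
  have hcard : ∀ S ⊆ J, (Y S).card = (s - 1) ^ S.card := by
    intro S hS
    rw [Fintype.card_piFinset, ← Finset.prod_const, ← Finset.prod_subset (Finset.subset_univ S)]
    · refine Finset.prod_congr rfl fun i hi => ?_
      rw [if_pos hi, Finset.card_erase_of_mem (Finset.mem_univ _), Finset.card_univ,
        ← Nat.card_eq_fintype_card, hJ i (hS hi)]
    · intro i _ hi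
      rw [if_neg hi, Finset.card_singleton]
  have hj : ∀ j ∈ Finset.range (J.card + 1), J.card.choose j ≤ (2 ^ L) ^ 4 := by
    intro j _
    rw [← Finset.card_powersetCard, ← Fintype.card_coe]
    have h1 : ∀ S : J.powersetCard j, (Y S).card = (s - 1) ^ j := fun S => by
      obtain ⟨h2, h3⟩ := Finset.mem_powersetCard.1 S.2
      rw [hcard _ h2, h3]
    refine le_trans (window hM hp hμ (fun S : J.powersetCard j => Y S) (fun S g x hx => ?_)
      (fun S S' hne => ?_) (fun S x _ => ⟨a, hH x⟩) (y := (s - 1) ^ j) (Λ := 2 ^ 0)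
      (pow_pos (by omega) _) (fun S => (h1 S).ge) (fun S => by rw [h1 S, pow_zero, one_mul]))
      ((winR 0 hL hm hD).trans (by rw [zero_add, one_mul]))
    · rw [hY] at hx ⊢
      intro i
      rw [hx i, Pi.smul_apply, ne_eq, ne_eq, smul_eq_zero_iff_eq]
    · refine Finset.disjoint_left.2 fun x hx hx' => hne (Subtype.ext (Finset.ext fun i => ?_))
      rw [(hY _ _).1 hx i, (hY _ _).1 hx' i]
  rw [← Nat.sum_range_choose, pow_one]
  refine (Finset.sum_le_card_nsmul _ _ _ hj).trans ?_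
  rw [Finset.card_range, smul_eq_mul]

theorem mult_q {G ι : Type} [Group G] [Finite G] [Fintype ι] {X : ι → Type}
    [∀ i, AddCommGroup (X i)] [∀ i, Finite (X i)] [∀ i, DistribMulAction G (X i)]
    {F O : Subgroup G} [F.Normal] [O.Normal] {p m A x : ℕ} (hp : p.Prime)
    (hF : Group.IsNilpotent F) (hc : (Nat.card F).Coprime p) (hM : Mult G (Reg p G) m)
    (π : ∀ i, F →* Multiplicative (X i))
    (he : ∀ i (g : G) (f : F), (π i (MulAut.conjNormal g f)).toAdd = g • (π i f).toAdd)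
    (hfr : ∀ f : F, (∀ i, π i f = 1) → (f : G) ∈ frattini G)
    (hs : ∀ y : ∀ i, X i, ∃ f : F, ∀ i, (π i f).toAdd = y i)
    (hK : ∀ g ∈ F, ∀ i, ∀ y : X i, g • y = y) (hFO : F ≤ O)
    (hO : ∀ g ∈ O, ∃ a, g ^ p ^ a ∈ F) (hA : F.relIndex O = p ^ A)
    (ch d : ι → ℕ) (hch : ∀ i, (ch i).Prime) (hex : ∀ i (y : X i), ch i • y = 0)
    (hd : ∀ i, Nat.card (X i) = ch i ^ d i) (hx1 : ∑ i, d i ≤ x) (hx2 : O.index ≤ 2 ^ x)
    {q : ℕ} (hq : q.Prime) :
    Mult G (∀ i : {i // ch i = q}, X i) (m * (2 * O.index.divisors.card * (x * x + x + 2))) := by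
  classical
  obtain ⟨Q, hQn, hQF, hQp, hQ⟩ := exists_Q F hF hq
  let _ : MulAction G Q := MulAction.compHom Q (MulAut.conjNormal : G →* MulAut Q)
  have hsm : ∀ (g : G) (a : Q), ((g • a : Q) : G) = g * a * g⁻¹ := fun _ _ => rfl
  have hMQ : Mult G Q m := hM.of_inj
    (fun a : Q => ⟨a, hc.coprime_dvd_left (F.orderOf_dvd_natCard (hQF a.2))⟩)
    (fun a b h => Subtype.ext (Subtype.mk.inj h)) fun _ _ => rfl
  let Φ : F →* ∀ i : {i // ch i = q}, Multiplicative (X i) := MonoidHom.pi fun i => π i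
  let Ψ := Φ.comp (Subgroup.inclusion hQF)
  have hpow : ∀ i (z : Multiplicative (X i)), z ^ ch i ^ 1 = 1 := fun i z => by
    rw [pow_one]
    exact hex i z.toAdd
  have hΨ : Function.Surjective Ψ := by
    intro y
    obtain ⟨f, hf⟩ := hs fun i => if h : ch i = q then (y ⟨i, h⟩).toAdd else 0
    have h1 : Φ f = y := funext fun i => toAdd.injective (by
      have h2 := hf i
      rw [dif_pos i.2] at h2
      exact h2)
    obtain ⟨e, h2, j, h3⟩ := lift_q Φ f (j := 1) hq (funext fun i => by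
      have h2 := hpow i (Φ f i)
      rw [i.2] at h2
      exact h2)
    exact ⟨⟨(f ^ e : F), hQ _ (f ^ e).2 ⟨j, congrArg Subtype.val h3⟩⟩, h2.trans h1⟩
  set K := O ⊓ (toIm G (∀ i : {i // ch i = q}, X i)).ker with hKd
  have hker : ∀ g : G, g ∈ (toIm G (∀ i : {i // ch i = q}, X i)).ker ↔
      ∀ y : ∀ i : {i // ch i = q}, X i, g • y = y := fun g =>
    ⟨fun h y => by rw [← toIm_smul, MonoidHom.mem_ker.1 h, one_smul],
      fun h => Subtype.ext (Equiv.ext h)⟩
  have hFK : F ≤ K := fun g hg =>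
    ⟨hFO hg, (hker g).2 fun y => funext fun i => hK g hg i (y i)⟩
  obtain ⟨β, hβ⟩ := cent_index (K := K) (Q := Q) hp hq hF (fun g hg => hO g hg.1) (hQF.trans hFK)
    hQp hQ (by
      intro g hg z hz
      refine hfr (MulAut.conjNormal g ⟨z, hQF hz⟩ * (⟨z, hQF hz⟩ : F)⁻¹) fun i => ?_
      rw [map_mul, map_inv, mul_inv_eq_one]
      refine toAdd.injective ((he i g _).trans ?_)
      by_cases h : ch i = q
      · have h1 := congrFun ((hker g).1 hg.2 (Pi.single (⟨i, h⟩ : {i // ch i = q})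
          (π i ⟨z, hQF hz⟩).toAdd)) ⟨i, h⟩
        simpa only [Pi.smul_apply, Pi.single_eq_same] using h1
      · obtain ⟨j, hj⟩ := hQp z hz
        have h1 : π i ⟨z, hQF hz⟩ = 1 := two_elt hq (hch i) h ⟨1, hpow i _⟩ ⟨j, by
          rw [← map_pow, show (⟨z, hQF hz⟩ : F) ^ q ^ j = 1 from Subtype.ext hj, map_one]⟩
        rw [h1, toAdd_one, smul_zero])
  obtain ⟨a₀, -, ha₀⟩ := (Nat.dvd_prime_pow hp).1 (hA ▸ Subgroup.relIndex_dvd_of_le_left O hFK)
  have hb : p ^ a₀ ≤ q ^ (x * x) := by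
    have h1 : Nat.card (∀ i : {i // ch i = q}, X i) = q ^ ∑ i : {i // ch i = q}, d i := by
      rw [Nat.card_pi, ← Finset.prod_pow_eq_pow_sum]
      exact Finset.prod_congr rfl fun i _ => by rw [hd i, i.2]
    have h2 : ∑ i : {i // ch i = q}, d i ≤ x := by
      rw [← Finset.sum_subtype (Finset.univ.filter fun i => ch i = q) (by simp)]
      exact (Finset.sum_le_sum_of_subset (Finset.filter_subset _ _)).trans hx1
    have h3 := card_le_aut (H := Im G (∀ i : {i // ch i = q}, X i)) hq h1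
    have h4 : (toIm G (∀ i : {i // ch i = q}, X i)).ker.index =
        Nat.card (Im G (∀ i : {i // ch i = q}, X i)) := by
      rw [Subgroup.index_ker, MonoidHom.range_eq_top.2 (toIm_surj _ _), Subgroup.card_top]
    rw [← ha₀, hKd, Subgroup.inf_relIndex_left]
    refine (Nat.le_of_dvd (Nat.pos_of_ne_zero Subgroup.index_ne_zero_of_finite)
      (Subgroup.relIndex_dvd_index_of_normal _ _)).trans (h4.le.trans (h3.trans ?_))
    exact Nat.pow_le_pow_right hq.pos (Nat.mul_le_mul h2 h2)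
  refine mass (fun (a : Q) (i : {i // ch i = q}) => (Ψ a i).toAdd) (fun g a => funext fun i => ?_)
    (ν := Nat.card Ψ.ker) Nat.card_pos (fun y => ?_) hMQ
    (fun σ => ∃ b a, ∃ u ∈ O.index.divisors, p ^ a * u ≤ q ^ (x * x + x) ∧ σ = q ^ b * (p ^ a * u))
    (fun a => ?_) fun y Sz h1 h2 => sizesR hp hq.two_le Sz h1 h2
  · exact he i g (Subgroup.inclusion hQF a)
  · obtain ⟨a, ha⟩ := hΨ fun i => ofAdd (y i)
    rw [← Nat.card_congr (Ψ.fiberEquivKer a), ha]
    exact Nat.card_congr (Equiv.subtypeEquivRight fun b => Iff.rfl)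
  · have h1 : (stabilizer G a).index ∣ q ^ β * (p ^ a₀ * O.index) := by
      rw [← hβ, ← ha₀, Subgroup.relIndex_mul_index inf_le_left, ← Subgroup.inf_relIndex_right,
        Subgroup.relIndex_mul_index inf_le_right]
      refine Subgroup.index_dvd_of_le fun g hg => Subtype.ext ?_
      rw [hsm, ← Subgroup.mem_centralizer_iff.1 hg.1 a a.2, mul_inv_cancel_right]
    obtain ⟨σ₁, σ₂, h2, h3, h4⟩ := (Nat.dvd_mul).1 h1
    obtain ⟨σ₃, u, h5, h6, rfl⟩ := (Nat.dvd_mul).1 h3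
    obtain ⟨b, -, rfl⟩ := (Nat.dvd_prime_pow hq).1 h2
    obtain ⟨a', ha', rfl⟩ := (Nat.dvd_prime_pow hp).1 h5
    have h0 : O.index ≠ 0 := Subgroup.index_ne_zero_of_finite
    refine ⟨b, a', u, Nat.mem_divisors.2 ⟨h6, h0⟩, ?_, h4.symm⟩
    rw [pow_add]
    exact Nat.mul_le_mul ((Nat.pow_le_pow_right hp.pos ha').trans hb)
      ((Nat.le_of_dvd (Nat.pos_of_ne_zero h0) h6).trans
        (hx2.trans (Nat.pow_le_pow_left hq.two_le x)))

end Pool.Agent.Lib.MP_98dfd6_al
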