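import Mathlib

/-! The group of affine monomial maps of `K^3`, its classes of elements of odd order. -/

namespace Pool.Agent.Lib.MP_98dfd6_al.Fer

open Equiv

/-- `v ↦ (t j * v (p⁻¹ j) + w j)_j` -/
@[ext] structure E (K : Type) [Field K] where
  p : Perm (Fin 3)
  t : Fin 3 → Kˣ
  w : Fin 3 → K

variable {K : Type} [Field K]

instance : Mul (E K) := ⟨fun x y => ⟨x.p * y.p, fun j => x.t j * y.t (x.p⁻¹ j),
  fun j => x.t j * y.w (x.p⁻¹ j) + x.w j⟩⟩

instance : One (E K) := ⟨⟨1, fun _ => 1, fun _ => 0⟩⟩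

instance : Inv (E K) := ⟨fun x => ⟨x.p⁻¹, fun j => (x.t (x.p j))⁻¹,
  fun j => -(((x.t (x.p j))⁻¹ : Kˣ) * x.w (x.p j))⟩⟩

@[simp] theorem mul_p (x y : E K) : (x * y).p = x.p * y.p := rfl
@[simp] theorem mul_t (x y : E K) (j) : (x * y).t j = x.t j * y.t (x.p⁻¹ j) := rfl
@[simp] theorem mul_w (x y : E K) (j) : (x * y).w j = x.t j * y.w (x.p⁻¹ j) + x.w j := rfl
@[simp] theorem one_p : (1 : E K).p = 1 := rfl
@[simp] theorem one_t (j) : (1 : E K).t j = 1 := rfl
@[simp] theorem one_w (j) : (1 : E K).w j = 0 := rfl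
@[simp] theorem inv_p (x : E K) : x⁻¹.p = x.p⁻¹ := rfl
@[simp] theorem inv_t (x : E K) (j) : x⁻¹.t j = (x.t (x.p j))⁻¹ := rfl
@[simp] theorem inv_w (x : E K) (j) :
    x⁻¹.w j = -(((x.t (x.p j))⁻¹ : Kˣ) * x.w (x.p j)) := rfl

theorem ext3 {x y : E K} (h1 : x.p = y.p) (h2 : ∀ j, x.t j = y.t j) (h3 : ∀ j, x.w j = y.w j) :
    x = y := E.ext h1 (funext h2) (funext h3)

instance : Group (E K) := Group.ofLeftAxioms
  (fun x y z => ext3 (mul_assoc _ _ _) (fun j => by simp [mul_assoc]) fun j => by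
    simp only [mul_w, mul_t, mul_p, mul_inv_rev, Perm.mul_apply, Units.val_mul]
    ring)
  (fun x => ext3 (by simp) (fun j => by simp) fun j => by simp)
  (fun x => ext3 (by simp) (fun j => by simp) fun j => by simp)

instance [Finite K] : Finite (E K) :=
  Finite.of_injective (fun x : E K => (x.p, x.t, x.w)) fun _ _ h => by
    simp only [Prod.mk.injEq] at h
    exact E.ext h.1 h.2.1 h.2.2

/-- the permutation part -/
def ph : E K →* Perm (Fin 3) := ⟨⟨E.p, rfl⟩, fun _ _ => rfl⟩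

/-- translations -/
def tr (v : Fin 3 → K) : E K := ⟨1, fun _ => 1, v⟩

/-- the subgroup of translations -/
def V (K : Type) [Field K] : Subgroup (E K) where
  carrier := {x | x.p = 1 ∧ ∀ j, x.t j = 1}
  mul_mem' := fun h k => ⟨by simp [h.1, k.1], fun j => by simp [h.2, k.2]⟩
  one_mem' := ⟨rfl, fun _ => rfl⟩
  inv_mem' := fun h => ⟨by simp [h.1], fun j => by simp [h.2]⟩

theorem mem_V {x : E K} : x ∈ V K ↔ x.p = 1 ∧ ∀ j, x.t j = 1 := Iff.rfl

theorem V_normal : (V K).Normal := ⟨fun x h g => ⟨by simp [h.1], fun j => by simp [h.1, h.2]⟩⟩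

theorem V_comm {x y : E K} (h : x ∈ V K) (k : y ∈ V K) : x * y = y * x :=
  ext3 (by simp [h.1, k.1]) (fun j => by simp [h.2, k.2]) fun j => by
    simp [h.1, h.2, k.1, k.2, add_comm]

theorem pow_t {x : E K} (h : x.p = 1) (n : ℕ) (j) : (x ^ n).t j = x.t j ^ n := by
  induction n with
  | zero => simp
  | succ n ih => rw [pow_succ', mul_t, h, pow_succ']; simp [ih]

theorem pow_V {x : E K} (h : x ∈ V K) (n : ℕ) (j) : (x ^ n).w j = n * x.w j := by
  induction n with
  | zero => simp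
  | succ n ih => rw [pow_succ', mul_w, h.1, h.2]; simp [ih]; ring

theorem conj_of {G : Type} [Group G] {x y : G} (g : G) (h : g * x = y * g) : IsConj x y :=
  isConj_iff.2 ⟨g, by rw [h, mul_inv_cancel_right]⟩

/-- the rotation -/
def c : Perm (Fin 3) := finRotate 3

/-- translation parts of the representatives -/
def rw' (K : Type) [Field K] (s : ℕ) : Fin 3 → K := fun j => if j.val < s then 1 else 0

/-- representatives of the classes of elements of odd order -/
def rep (K : Type) [Field K] : Fin 6 → E K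
  | 0 => ⟨c, fun _ => 1, rw' K 1⟩
  | 1 => ⟨c, fun _ => 1, rw' K 0⟩
  | 2 => tr (rw' K 3)
  | 3 => tr (rw' K 2)
  | 4 => tr (rw' K 1)
  | 5 => tr (rw' K 0)

theorem t_eq_one {e : ℕ} (he : ∀ u : Kˣ, u ^ 2 ^ e = 1) {u : Kˣ} {n : ℕ} (hn : Odd n)
    (h : u ^ n = 1) : u = 1 := by
  have h1 : orderOf u ∣ Nat.gcd (2 ^ e) n :=
    Nat.dvd_gcd (orderOf_dvd_of_pow_eq_one (he u)) (orderOf_dvd_of_pow_eq_one h)
  rw [Nat.Coprime.pow_left e (Nat.coprime_two_left.2 hn)] at h1
  exact orderOf_eq_one_iff.1 (Nat.dvd_one.1 h1)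

theorem supp_perm : ∀ b : Fin 3 → Bool, ∃ (s : Fin 4) (p : Perm (Fin 3)),
    ∀ j, b (p⁻¹ j) = decide (j.val < s.val) := by decide

theorem conj_tr (v : Fin 3 → K) : ∃ r, IsConj (tr v) (rep K r) := by
  classical
  obtain ⟨s, p, h⟩ := supp_perm fun j => decide (v j ≠ 0)
  have key : IsConj (tr v) (tr (rw' K s)) := by
    refine conj_of ⟨p, fun j => if k : v (p⁻¹ j) = 0 then 1 else (Units.mk0 _ k)⁻¹, fun _ => 0⟩
      (ext3 (by simp [tr]) (fun j => by simp [tr]) fun j => ?_)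
    have hj : v (p⁻¹ j) ≠ 0 ↔ j.val < s.val := decide_eq_decide.1 (h j)
    simp only [mul_w, tr, rw', Units.val_one, mul_zero, add_zero, zero_add]
    by_cases k : v (p⁻¹ j) = 0
    · rw [if_neg fun t => hj.2 t k, k, mul_zero]
    · rw [if_pos (hj.1 k), dif_neg k, Units.val_inv_eq_inv_val, Units.val_mk0, inv_mul_cancel₀ k]
  fin_cases s
  · exact ⟨5, key⟩
  · exact ⟨4, key⟩
  · exact ⟨3, key⟩
  · exact ⟨2, key⟩

theorem c0 : c⁻¹ 0 = 2 := by decide
theorem c1 : c⁻¹ 1 = 0 := by decide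
theorem c2 : c⁻¹ 2 = 1 := by decide

theorem conj_rot {x : E K} (hp : x.p = c) (ht : x.t 0 * x.t 1 * x.t 2 = 1) :
    ∃ r, IsConj x (rep K r) := by
  set σ : K := x.t 1 * x.t 2 * x.w 0 + x.t 2 * x.w 1 + x.w 2 with hσ
  have key : ∀ (u : Kˣ) (s : ℕ), (s = 0 ∨ s = 1) → (u : K) * σ = s →
      IsConj x (⟨c, fun _ => 1, rw' K s⟩ : E K) := by
    intro u s hs hu
    refine conj_of ⟨1, ![u * (x.t 1 * x.t 2), u * x.t 2, u],
      ![u * (x.t 2 * x.w 1 + x.w 2), u * x.w 2, 0]⟩ (ext3 (by simp [hp]) (fun j => ?_) fun j => ?_)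
    · fin_cases j
      · simp only [mul_t, inv_one, Perm.one_apply, one_mul]
        simp only [Fin.zero_eta, c0, Matrix.cons_val]
        rw [mul_assoc, mul_comm _ (x.t 0), ← mul_assoc (x.t 0), ht, mul_one]
      · simp only [mul_t, inv_one, Perm.one_apply, one_mul]
        simp only [Fin.mk_one, c1, Matrix.cons_val]
        rw [mul_assoc, mul_comm (x.t 2)]
      · simp only [mul_t, inv_one, Perm.one_apply, one_mul]
        simp only [Fin.reduceFinMk, c2, Matrix.cons_val]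
    · fin_cases j
      · simp only [mul_w, inv_one, Perm.one_apply, Units.val_one, one_mul]
        simp only [Fin.zero_eta, c0, Matrix.cons_val, Units.val_mul]
        have : rw' K s 0 = s := by rcases hs with rfl | rfl <;> simp [rw']
        rw [this, ← hu, hσ]
        ring
      · simp only [mul_w, inv_one, Perm.one_apply, Units.val_one, one_mul]
        simp only [Fin.mk_one, c1, Matrix.cons_val, Units.val_mul, rw']
        rcases hs with rfl | rfl <;> simp <;> ring
      · simp only [mul_w, inv_one, Perm.one_apply, Units.val_one, one_mul]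
        simp only [Fin.reduceFinMk, c2, Matrix.cons_val, rw']
        rcases hs with rfl | rfl <;> simp
  by_cases h : σ = 0
  · exact ⟨1, key 1 0 (Or.inl rfl) (by simp [h])⟩
  · exact ⟨0, key (Units.mk0 σ h)⁻¹ 1 (Or.inr rfl) (by simp [h])⟩

theorem perm3 : ∀ p : Perm (Fin 3), Perm.sign p = 1 →
    p = 1 ∨ p = c ∨ swap 0 1 * p * (swap 0 1)⁻¹ = c := by decide

theorem conj_rep {e : ℕ} (he : ∀ u : Kˣ, u ^ 2 ^ e = 1) (x : E K) (hx : Odd (orderOf x)) :
    ∃ r, IsConj x (rep K r) := by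
  have hrot : ∀ y : E K, y ^ orderOf x = 1 → y.p = c → ∃ r, IsConj y (rep K r) := by
    intro y hy hp
    refine conj_rot hp (t_eq_one he hx ?_)
    have h3 : (y ^ 3).p = 1 := by
      have : c * c * c = 1 := by decide
      simp [pow_succ, hp, this]
    have h4 : (y ^ 3).t 0 = y.t 0 * y.t 1 * y.t 2 := by
      have : (c * c)⁻¹ 0 = 1 := by decide
      simp only [pow_succ, pow_zero, one_mul, mul_t, mul_p, hp, c0, this]
      rw [mul_right_comm]
    rw [← h4, ← pow_t h3, ← pow_mul, mul_comm, pow_mul, hy, one_pow, one_t]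
  have h1 := pow_orderOf_eq_one x
  have hs : Perm.sign x.p = 1 := by
    have h2 : Perm.sign x.p ^ orderOf x = 1 := by
      rw [← map_pow]
      have : x.p ^ orderOf x = 1 := by
        rw [show x.p = ph x from rfl, ← map_pow, h1, map_one]
      rw [this, map_one]
    rcases Int.units_eq_one_or (Perm.sign x.p) with h | h
    · exact h
    · rw [h, hx.neg_one_pow] at h2
      exact absurd h2 (by decide)
  rcases perm3 x.p hs with h | h | h
  · have : x = tr x.w := ext3 h (fun j => t_eq_one he hx (by rw [← pow_t h, h1, one_t]))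
      fun _ => rfl
    rw [this]
    exact conj_tr _
  · exact hrot x h1 h
  · set g : E K := ⟨swap 0 1, fun _ => 1, fun _ => 0⟩
    obtain ⟨r, hr⟩ := hrot (g * x * g⁻¹) (by rw [conj_pow, h1]; simp) h
    exact ⟨r, (isConj_iff.2 ⟨g, rfl⟩).trans hr⟩

end Pool.Agent.Lib.MP_98dfd6_al.Fer
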