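import Pool.Agent.Lib.MP_98dfd6_al.FerA

/-! Centraliser orders, Fitting subgroup and derived series of the affine monomial group. -/

namespace Pool.Agent.Lib.MP_98dfd6_al.Fer

open Equiv
open scoped commutatorElement

/-- order of the centraliser -/
noncomputable def cz {G : Type} [Group G] (x : G) : ℕ := Nat.card {g : G // g * x = x * g}

theorem cz_ge {G ι : Type} [Group G] [Finite G] (x : G) (f : ι → G) (hf : Function.Injective f)
    (h : ∀ i, f i * x = x * f i) : Nat.card ι ≤ cz x :=
  Nat.card_le_card_of_injective (fun i => (⟨f i, h i⟩ : {g : G // g * x = x * g}))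
    fun _ _ k => hf (congrArg Subtype.val k)

theorem cz_le {G κ : Type} [Group G] [Finite κ] (x : G) (φ : G → κ)
    (h : ∀ g g', g * x = x * g → g' * x = x * g' → φ g = φ g' → g = g') : cz x ≤ Nat.card κ :=
  Nat.card_le_card_of_injective (fun g : {g : G // g * x = x * g} => φ g.1)
    fun g g' k => Subtype.ext (h _ _ g.2 g'.2 k)

variable {K : Type} [Field K]

theorem tr_t {s : ℕ} {g : E K} (h : g * tr (rw' K s) = tr (rw' K s) * g) {j : Fin 3}
    (hj : j.val < s) : g.t j = 1 := by
  have k := congrArg (fun x => E.w x j) h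
  simp only [mul_w, tr, inv_one, Perm.one_apply, Units.val_one, one_mul, rw', if_pos hj] at k
  rw [add_comm, add_right_inj] at k
  split_ifs at k
  · exact Units.ext (by simpa using k)
  · simp at k

theorem tr_comm {s : ℕ} {g : E K} (hp : g.p = 1) (h : ∀ j : Fin 3, j.val < s → g.t j = 1) :
    g * tr (rw' K s) = tr (rw' K s) * g :=
  ext3 (by simp [tr]) (fun j => by simp [tr]) fun j => by
    simp only [mul_w, tr, hp, inv_one, Perm.one_apply, Units.val_one, one_mul, rw']
    split_ifs with k
    · simp [h j k, add_comm]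
    · simp

theorem rot_t {v : Fin 3 → K} {g : E K} (h : g * ⟨c, fun _ => 1, v⟩ = ⟨c, fun _ => 1, v⟩ * g) (j) :
    g.t j = g.t 0 := by
  have k1 := congrArg (fun x => E.t x 1) h
  have k2 := congrArg (fun x => E.t x 2) h
  simp only [mul_t, mul_one, one_mul, c1, c2] at k1 k2
  fin_cases j
  · rfl
  · exact k1
  · exact k2.trans k1

theorem rot_w {v : Fin 3 → K} {g : E K} (h : g * ⟨c, fun _ => 1, v⟩ = ⟨c, fun _ => 1, v⟩ * g) (j) :
    g.t 0 * v (g.p⁻¹ j) + g.w j = g.w (c⁻¹ j) + v j := by
  have k := congrArg (fun x => E.w x j) h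
  simpa only [mul_w, Units.val_one, one_mul, rot_t h j] using k

theorem rot_det {v : Fin 3 → K} {g g' : E K}
    (h : g * ⟨c, fun _ => 1, v⟩ = ⟨c, fun _ => 1, v⟩ * g)
    (h' : g' * ⟨c, fun _ => 1, v⟩ = ⟨c, fun _ => 1, v⟩ * g') (h1 : g.p = g'.p)
    (h2 : g.t 0 = g'.t 0) (h3 : g.w 0 = g'.w 0) : g = g' := by
  have a1 := rot_w h 1
  have a2 := rot_w h 2
  have b1 := rot_w h' 1
  have b2 := rot_w h' 2
  rw [c1] at a1 b1
  rw [c2] at a2 b2
  rw [h1, h2] at a1 a2
  have e1 : g.w 1 = g'.w 1 := by linear_combination a1 - b1 + h3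
  refine ext3 h1 (fun j => by rw [rot_t h, rot_t h' j, h2]) fun j => ?_
  fin_cases j
  · exact h3
  · exact e1
  · show g.w 2 = g'.w 2
    linear_combination a2 - b2 + e1

theorem rot_one {g : E K}
    (h : g * ⟨c, fun _ => 1, rw' K 1⟩ = ⟨c, fun _ => 1, rw' K 1⟩ * g) : g.t 0 = 1 := by
  have k := Finset.sum_congr (rfl : (Finset.univ : Finset (Fin 3)) = _) fun j _ => rot_w h j
  rw [Finset.sum_add_distrib, Finset.sum_add_distrib, ← Finset.mul_sum,
    Equiv.sum_comp g.p⁻¹ (rw' K 1), Equiv.sum_comp c⁻¹ g.w] at k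
  have : ∑ j, rw' K 1 j = 1 := by simp [rw']
  rw [this] at k
  exact Units.ext (by rw [Units.val_one]; linear_combination k)

theorem rot_comm (v : Fin 3 → K) (u : Kˣ) (a : K) (h : ∀ j, u * v j = v j) :
    (⟨1, fun _ => u, fun _ => a⟩ : E K) * ⟨c, fun _ => 1, v⟩ =
      ⟨c, fun _ => 1, v⟩ * ⟨1, fun _ => u, fun _ => a⟩ :=
  ext3 (by simp) (fun j => by simp) fun j => by simp [h, add_comm]

theorem card_perm3 : Nat.card (Perm (Fin 3)) = 6 := by
  rw [Nat.card_eq_fintype_card, Fintype.card_perm]; rfl

theorem cz_lower [Finite K] (r : Fin 6) : Nat.card Kˣ ^ (r.val + 1) ≤ cz (rep K r) := by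
  have tr_case : ∀ s : ℕ, s ≤ 3 → Nat.card Kˣ ^ (6 - s) ≤ cz (tr (rw' K s)) := by
    intro s hs
    have := cz_ge (tr (rw' K s)) (fun u : (Fin 3 → Kˣ) × ({j : Fin 3 // ¬ j.val < s} → Kˣ) =>
      (⟨1, fun j => if k : j.val < s then 1 else u.2 ⟨j, k⟩, fun j => u.1 j⟩ : E K))
      (fun u u' h => by
        refine Prod.ext (funext fun j => Units.ext (congrArg (fun x => E.w x j) h))
          (funext fun j => ?_)
        have := congrArg (fun x => E.t x j.1) h
        simpa only [dif_neg j.2] using this)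
      fun u => tr_comm rfl fun j k => dif_pos k
    rw [Nat.card_prod, Nat.card_fun, Nat.card_fun, ← pow_add] at this
    refine le_of_eq_of_le ?_ this
    congr 1
    interval_cases s <;> simp only [Nat.card_eq_fintype_card] <;> rfl
  fin_cases r
  · have := cz_ge (rep K 0) (fun u : Kˣ => (⟨1, fun _ => 1, fun _ => u⟩ : E K))
      (fun u u' h => Units.ext (congrArg (fun x => E.w x 0) h))
      fun u => rot_comm _ _ _ (by simp)
    simpa using this
  · have := cz_ge (rep K 1) (fun u : Kˣ × Kˣ => (⟨1, fun _ => u.1, fun _ => u.2⟩ : E K))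
      (fun u u' h => Prod.ext (congrArg (fun x => E.t x 0) h)
        (Units.ext (congrArg (fun x => E.w x 0) h)))
      fun u => rot_comm _ _ _ (by simp [rw'])
    rw [Nat.card_prod, ← sq] at this
    exact this
  · exact tr_case 3 le_rfl
  · exact tr_case 2 (by norm_num)
  · exact tr_case 1 (by norm_num)
  · exact tr_case 0 (by norm_num)

theorem cz_upper [Finite K] (r : Fin 6) : cz (rep K r) ≤ 6 * Nat.card K ^ (r.val + 1) := by
  have tr_case : ∀ s : ℕ, s ≤ 3 → cz (tr (rw' K s)) ≤ 6 * Nat.card K ^ (6 - s) := by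
    intro s hs
    have := cz_le (tr (rw' K s)) (fun g : E K =>
      (g.p, g.w, fun j : {j : Fin 3 // ¬ j.val < s} => (g.t j.1 : K)))
      fun g g' h h' k => by
        simp only [Prod.mk.injEq] at k
        refine ext3 k.1 (fun j => ?_) fun j => congrFun k.2.1 j
        by_cases hj : j.val < s
        · rw [tr_t h hj, tr_t h' hj]
        · exact Units.ext (congrFun k.2.2 ⟨j, hj⟩)
    rw [Nat.card_prod, Nat.card_prod, Nat.card_fun, Nat.card_fun, ← pow_add, card_perm3] at this
    refine this.trans (le_of_eq ?_)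
    congr 2
    interval_cases s <;> simp only [Nat.card_eq_fintype_card] <;> rfl
  fin_cases r
  · have := cz_le (rep K 0) (fun g : E K => (g.p, g.w 0)) fun g g' h h' k => by
      simp only [Prod.mk.injEq] at k
      exact rot_det h h' k.1 ((rot_one h).trans (rot_one h').symm) k.2
    rw [Nat.card_prod, card_perm3] at this
    simpa using this
  · have := cz_le (rep K 1) (fun g : E K => (g.p, (g.t 0 : K), g.w 0)) fun g g' h h' k => by
      simp only [Prod.mk.injEq] at k
      exact rot_det h h' k.1 (Units.ext k.2.1) k.2.2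
    rw [Nat.card_prod, Nat.card_prod, card_perm3, ← sq] at this
    exact this
  · exact tr_case 3 le_rfl
  · exact tr_case 2 (by norm_num)
  · exact tr_case 1 (by norm_num)
  · exact tr_case 0 (by norm_num)

/-- `-1` in place `j` -/
def dg (K : Type) [Field K] (j : Fin 3) : E K :=
  ⟨1, fun i => if i = j then -1 else 1, fun _ => 0⟩

theorem neg_ne (h2 : (2 : K) ≠ 0) : (-1 : Kˣ) ≠ 1 := fun h => h2 (by
  have := congrArg Units.val h
  simp only [Units.val_neg, Units.val_one] at this
  linear_combination -this)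

theorem comm_tr {y : E K} (hy : y.p = 1) (v : Fin 3 → K) :
    ⁅tr v, y⁆ = tr fun j => (1 - y.t j) * v j :=
  ext3 (by simp [commutatorElement_def, tr, hy]) (fun j => by simp [commutatorElement_def, tr, hy])
    fun j => by
      simp only [commutatorElement_def, tr, hy, mul_w, mul_t, mul_p, inv_w, inv_t, inv_p, inv_one,
        Perm.one_apply, one_mul, mul_one, Units.val_one, Units.val_inv_eq_inv_val]
      have := (y.t j).ne_zero
      field_simp
      ring

theorem fit (h2 : (2 : K) ≠ 0) (N : Subgroup (E K)) (hN : N.Normal) (hn : Group.IsNilpotent N) :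
    N ≤ V K := by
  have key : ∀ y ∈ N, y.p = 1 → ∀ j, y.t j = 1 := by
    intro y hy hp j
    by_contra hj
    have hu : (1 - y.t j : K) ≠ 0 := fun k => hj (Units.ext (by
      rw [Units.val_one]; linear_combination -k))
    have e : ∀ a : K, ⁅tr (Pi.single j ((1 - y.t j : K)⁻¹ * a)), y⁆ = tr (Pi.single j a) := by
      intro a
      rw [comm_tr hp]
      congr 1
      funext i
      by_cases k : i = j
      · subst k
        simp [hu]
      · simp [k]
    have all : ∀ n, ∀ a : K, tr (Pi.single j a) ∈ N.lowerCentralSeries n := by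
      intro n
      induction n with
      | zero =>
        intro a
        rw [← e, commutatorElement_def]
        exact N.mul_mem (hN.conj_mem y hy _) (N.inv_mem hy)
      | succ n ih =>
        intro a
        rw [← e]
        exact Subgroup.commutator_mem_commutator (ih _) hy
    obtain ⟨n, hn⟩ := (Subgroup.isNilpotent_iff_lowerCentralSeries N).1 hn
    have := all n 1
    rw [hn, Subgroup.mem_bot] at this
    simpa [tr] using congrArg (fun x => E.w x j) this
  intro x hx
  have hp : x.p = 1 := by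
    refine inv_eq_one.1 (Perm.ext fun j => ?_)
    by_contra hj
    have hy : x * (dg K j * x⁻¹ * (dg K j)⁻¹) ∈ N := N.mul_mem hx (hN.conj_mem _ (N.inv_mem hx) _)
    have := key _ hy (by simp [dg]) j
    have hj' : ¬ x.p⁻¹ j = j := hj
    have hk : x.p (x.p⁻¹ j) = j := by simp
    have d1 : (dg K j).p = 1 := rfl
    have d2 : (dg K j).t j = -1 := if_pos rfl
    have d3 : (dg K j).t (x.p⁻¹ j) = 1 := if_neg hj'
    simp only [mul_t, mul_p, inv_t, inv_p, d1, inv_one, Perm.one_apply, one_mul, inv_inv,
      hk, d2, d3] at this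
    rw [← mul_assoc, mul_inv_cancel, one_mul, inv_eq_one] at this
    exact neg_ne h2 this
  exact ⟨hp, key x hx hp⟩

theorem not_meta (h2 : (2 : K) ≠ 0) :
    ¬ derivedSeries (E K) 2 ≤ V K := fun h => by
  have := (h (Subgroup.commutator_mem_commutator
    (Subgroup.commutator_mem_commutator
      (Subgroup.mem_top (⟨swap 0 1, fun _ => 1, fun _ => 0⟩ : E K))
      (Subgroup.mem_top (⟨c, fun _ => 1, fun _ => 0⟩ : E K)))
    (Subgroup.commutator_mem_commutator
      (Subgroup.mem_top (⟨c, fun _ => 1, fun _ => 0⟩ : E K)) (Subgroup.mem_top (dg K 0))))).2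
  have k0 := this 0
  simp only [commutatorElement_def, mul_t, mul_p, inv_t, inv_p, dg, inv_one, one_mul,
    mul_one] at k0
  simp (decide := true) at k0
  exact neg_ne h2 k0

theorem solv : Group.IsSolvable (E K) := by
  have a1 : derivedSeries (E K) 1 ≤ (Perm.sign.comp ph).ker :=
    Abelianization.commutator_subset_ker _
  have a2 : derivedSeries (E K) 2 ≤ (ph (K := K)).ker := by
    refine (Subgroup.commutator_mono a1 a1).trans (Subgroup.commutator_le.2 fun x hx y hy => ?_)
    have : ∀ p q : Perm (Fin 3), Perm.sign p = 1 → Perm.sign q = 1 → p * q * p⁻¹ * q⁻¹ = 1 := by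
      decide
    exact this x.p y.p hx hy
  have a3 : derivedSeries (E K) 3 ≤ V K := by
    refine (Subgroup.commutator_mono a2 a2).trans (Subgroup.commutator_le.2 fun x hx y hy => ?_)
    have hx' : x.p = 1 := hx
    have hy' : y.p = 1 := hy
    exact ⟨by simp [commutatorElement_def, hx', hy'],
      fun j => by simp [commutatorElement_def, hx', hy', mul_comm (x.t j), mul_assoc]⟩
  refine ⟨4, le_bot_iff.1 ((Subgroup.commutator_mono a3 a3).trans
    (Subgroup.commutator_le.2 fun x hx y hy => ?_))⟩
  rw [Subgroup.mem_bot, commutatorElement_eq_one_iff_mul_comm]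
  exact V_comm hx hy

end Pool.Agent.Lib.MP_98dfd6_al.Fer
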