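import Pool.Agent.Lib.MP_98dfd6_al.FerB
import Pool.Agent.Lib.MP_98dfd6_al.FerStmt

/-! Products of affine monomial groups over Fermat primes. -/

namespace Pool.Agent.Lib.MP_98dfd6_al.Fer

open scoped commutatorElement

/-- the properties kept along the product construction -/
structure Good (G : Type) [Group G] (W : Subgroup G) (t : ℕ) : Prop where
  solv : Group.IsSolvable G
  norm : W.Normal
  comm : ∀ a ∈ W, ∀ b ∈ W, a * b = b * a
  odd : ∀ a ∈ W, Odd (orderOf a)
  fit : ∀ N : Subgroup G, N.Normal → Group.IsNilpotent N → N ≤ W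
  idx : ∀ M : Subgroup G, M.Normal → ⁅⁅M, M⁆, ⁅M, M⁆⁆ ≤ W → 2 ^ t ≤ M.index
  cls : ∀ x y : G, Odd (orderOf x) → Odd (orderOf y) → cz x = cz y → IsConj x y

theorem cz_pos {G : Type} [Group G] [Finite G] (x : G) : 0 < cz x :=
  Nat.card_pos_iff.2 ⟨⟨⟨1, by simp⟩⟩, inferInstance⟩

theorem cz_le_card {G : Type} [Group G] [Finite G] (x : G) : cz x ≤ Nat.card G :=
  cz_le x id fun _ _ _ _ h => h

theorem cz_prod {G H : Type} [Group G] [Group H] (x : G × H) : cz x = cz x.1 * cz x.2 := by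
  rw [cz, cz, cz, ← Nat.card_prod]
  exact Nat.card_congr
    { toFun := fun g => (⟨g.1.1, congrArg Prod.fst g.2⟩, ⟨g.1.2, congrArg Prod.snd g.2⟩)
      invFun := fun g => ⟨(g.1.1, g.2.1), Prod.ext g.1.2 g.2.2⟩
      left_inv := fun _ => rfl
      right_inv := fun _ => rfl }

theorem class_mul_cz {G : Type} [Group G] (x : G) :
    Nat.card {y : G // IsConj x y} * cz x = Nat.card G := by
  have h := (MulAction.stabilizer (ConjAct G) x).index_mul_card
  rw [MulAction.index_stabilizer, ← Nat.card_coe_set_eq] at h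
  refine Eq.trans ?_ h
  congr 1
  · exact Nat.card_congr (Equiv.subtypeEquivRight fun y => by
      rw [ConjAct.mem_orbit_conjAct, isConj_comm])
  · exact Nat.card_congr ((ConjAct.toConjAct (G := G)).toEquiv.subtypeEquiv fun g => by
      rw [MulAction.mem_stabilizer_iff]
      exact (mul_inv_eq_iff_eq_mul (a := g * x)).symm)

theorem cz_conj {G : Type} [Group G] [Finite G] {x y : G} (h : IsConj x y) : cz x = cz y := by
  have e : Nat.card {z : G // IsConj x z} = Nat.card {z : G // IsConj y z} :=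
    Nat.card_congr (Equiv.subtypeEquivRight fun z => ⟨h.symm.trans, h.trans⟩)
  have h1 := class_mul_cz x
  rw [e, ← class_mul_cz y] at h1
  exact Nat.eq_of_mul_eq_mul_left (Nat.card_pos_iff.2 ⟨⟨⟨y, IsConj.refl y⟩⟩, inferInstance⟩) h1

theorem size_lt {n a q u u' z z' d d' : ℕ} (ha : 384 * n < a) (hq : q ≤ 2 * a) (hd : d ≤ 6)
    (hu : u ≤ n) (hu' : 0 < u') (hz : z ≤ 6 * q ^ d) (hz' : a ^ d' ≤ z') (h : d < d') :
    u * z < u' * z' := by
  have a0 : 0 < a := by omega
  calc u * z ≤ n * (6 * (2 * a) ^ d) := by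
        gcongr
        exact hz.trans (by gcongr)
    _ = n * 6 * 2 ^ d * a ^ d := by rw [mul_pow]; ring
    _ ≤ n * 6 * 2 ^ 6 * a ^ d := by gcongr; norm_num
    _ < a * a ^ d := by gcongr; omega
    _ ≤ a ^ d' := by rw [← pow_succ']; exact Nat.pow_le_pow_right a0 h
    _ ≤ u' * z' := hz'.trans (Nat.le_mul_of_pos_left _ hu')

theorem nilp_map {G H : Type} [Group G] [Group H] (f : G →* H) (N : Subgroup G)
    (h : Group.IsNilpotent N) : Group.IsNilpotent (N.map f) :=
  Group.nilpotent_of_surjective (f.subgroupMap N) (f.subgroupMap_surjective N)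

theorem Good.step {G : Type} [Group G] [Finite G] {W : Subgroup G} {t : ℕ} (h : Good G W t)
    {q e : ℕ} [Fact q.Prime] (hq : q = 2 ^ e + 1) (hbig : 384 * Nat.card G < 2 ^ e) :
    Good (G × E (ZMod q)) (W.prod (V (ZMod q))) (t + 1) := by
  have hG : 0 < Nat.card G := Nat.card_pos
  have he : e ≠ 0 := by
    rintro rfl
    omega
  have hodd : Odd q := hq ▸ ((Nat.even_pow.2 ⟨even_two, he⟩).add_one)
  have h2 : (2 : ZMod q) ≠ 0 := fun k => by
    have := (ZMod.natCast_eq_zero_iff 2 q).1 (by exact_mod_cast k)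
    have := Nat.le_of_dvd two_pos this
    omega
  have hK : Nat.card (ZMod q) = q := Nat.card_zmod q
  have hU : Nat.card (ZMod q)ˣ = 2 ^ e := by
    rw [Nat.card_units, hK, hq, Nat.add_sub_cancel]
  have hpow : ∀ u : (ZMod q)ˣ, u ^ 2 ^ e = 1 := fun u => hU ▸ pow_card_eq_one'
  have s1 := Prod.fst_surjective (α := G) (β := E (ZMod q))
  have s2 := Prod.snd_surjective (α := G) (β := E (ZMod q))
  refine ⟨?_, ?_, ?_, ?_, ?_, ?_, ?_⟩
  · have := h.solv
    have := Fer.solv (K := ZMod q)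
    infer_instance
  · have := h.norm
    have := V_normal (K := ZMod q)
    infer_instance
  · exact fun a ha b hb => Prod.ext (h.comm _ ha.1 _ hb.1) (V_comm ha.2 hb.2)
  · intro a ha
    have h1 : a.2 ^ q = 1 := by
      have := (V (ZMod q)).pow_mem ha.2 q
      exact ext3 this.1 this.2 fun j => by rw [pow_V ha.2]; simp
    rw [Prod.orderOf]
    exact ((h.odd _ ha.1).mul (hodd.of_dvd_nat (orderOf_dvd_of_pow_eq_one h1))).of_dvd_nat
      (Nat.lcm_dvd_mul _ _)
  · intro N hN hn x hx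
    exact ⟨h.fit _ (hN.map (MonoidHom.fst _ _) s1) (nilp_map _ N hn) ⟨x, hx, rfl⟩,
      Fer.fit h2 _ (hN.map (MonoidHom.snd _ _) s2) (nilp_map _ N hn) ⟨x, hx, rfl⟩⟩
  · intro M hM hm
    have a1 := h.idx _ (hM.map (MonoidHom.fst _ _) s1) (by
      simp only [← Subgroup.map_commutator]
      rintro _ ⟨x, hx, rfl⟩
      exact (hm hx).1)
    have a2 : M.map (MonoidHom.snd _ _) ≠ ⊤ := fun k => not_meta h2 (by
      show ⁅⁅(⊤ : Subgroup (E (ZMod q))), (⊤ : Subgroup (E (ZMod q)))⁆,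
        ⁅(⊤ : Subgroup (E (ZMod q))), (⊤ : Subgroup (E (ZMod q)))⁆⁆ ≤ _
      rw [← k]
      simp only [← Subgroup.map_commutator]
      rintro _ ⟨x, hx, rfl⟩
      exact (hm hx).2)
    have a3 : M ≤ (M.map (MonoidHom.fst _ _)).prod (M.map (MonoidHom.snd _ _)) :=
      fun x hx => ⟨⟨x, hx, rfl⟩, ⟨x, hx, rfl⟩⟩
    refine le_trans ?_ (Subgroup.index_antitone a3)
    rw [Subgroup.index_prod, pow_succ]
    exact Nat.mul_le_mul a1 (Subgroup.one_lt_index_of_ne_top a2)
  · intro x y hx hy hc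
    have o1 : ∀ z : G × E (ZMod q), Odd (orderOf z) → Odd (orderOf z.1) := fun z hz =>
      hz.of_dvd_nat (orderOf_map_dvd (MonoidHom.fst _ _) z)
    have o2 : ∀ z : G × E (ZMod q), Odd (orderOf z) → Odd (orderOf z.2) := fun z hz =>
      hz.of_dvd_nat (orderOf_map_dvd (MonoidHom.snd _ _) z)
    obtain ⟨r, hr⟩ := conj_rep hpow x.2 (o2 x hx)
    obtain ⟨r', hr'⟩ := conj_rep hpow y.2 (o2 y hy)
    rw [cz_prod, cz_prod, cz_conj hr, cz_conj hr'] at hc
    have lt : ∀ (a b : G) (i j : Fin 6), i.val < j.val →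
        cz a * cz (rep (ZMod q) i) < cz b * cz (rep (ZMod q) j) := fun a b i j hij =>
      size_lt (q := q) (d := i.val + 1) (d' := j.val + 1) hbig (by omega) (by omega)
        (cz_le_card a) (cz_pos b) ((cz_upper i).trans_eq (by rw [hK]))
        ((cz_lower j).trans_eq' (by rw [hU])) (by omega)
    have hrr : r = r' := Fin.ext (le_antisymm (not_lt.1 fun k => (lt _ _ _ _ k).ne' hc)
      (not_lt.1 fun k => (lt _ _ _ _ k).ne hc))
    subst hrr
    obtain ⟨g, hg⟩ := isConj_iff.1 (h.cls _ _ (o1 x hx) (o1 y hy)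
      (Nat.eq_of_mul_eq_mul_right (cz_pos _) hc))
    obtain ⟨g', hg'⟩ := isConj_iff.1 (hr.trans hr'.symm)
    exact isConj_iff.2 ⟨(g, g'), Prod.ext hg hg'⟩

theorem exists_good (h : {k : ℕ | (2 ^ 2 ^ k + 1).Prime}.Infinite) (t : ℕ) :
    ∃ (G : Type) (_ : Group G) (_ : Finite G) (W : Subgroup G), Good G W t := by
  induction t with
  | zero =>
    exact ⟨Unit, inferInstance, inferInstance, ⊤, inferInstance, inferInstance,
      fun _ _ _ _ => rfl, fun a _ => by rw [Subsingleton.elim a 1, orderOf_one]; exact odd_one, fun _ _ _ => le_top,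
      fun M _ _ => Nat.pos_of_ne_zero M.index_ne_zero_of_finite,
      fun _ _ _ _ _ => IsConj.refl _⟩
  | succ t ih =>
    obtain ⟨G, _, _, W, hW⟩ := ih
    obtain ⟨k, hk, hlt⟩ := h.exists_gt (384 * Nat.card G)
    have : Fact (2 ^ 2 ^ k + 1).Prime := ⟨hk⟩
    exact ⟨_, inferInstance, inferInstance, _, hW.step rfl
      (hlt.trans (Nat.lt_two_pow_self.trans Nat.lt_two_pow_self))⟩

theorem Good.clLe {G : Type} [Group G] [Finite G] {W : Subgroup G} {t : ℕ} (h : Good G W t) :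
    ClLe 2 G 1 := by
  intro s n x hx hs hc
  by_contra hn
  have key : ∀ i j, i = j := fun i j => hc i j (h.cls _ _ (Nat.coprime_two_right.1 (hx i))
    (Nat.coprime_two_right.1 (hx j)) (by
      have h1 := class_mul_cz (x i)
      rw [← class_mul_cz (x j), hs i, hs j] at h1
      refine Nat.eq_of_mul_eq_mul_left ?_ h1
      rw [← hs i]
      exact Nat.card_pos_iff.2 ⟨⟨⟨x i, IsConj.refl _⟩⟩, inferInstance⟩))
  have := key ⟨0, by omega⟩ ⟨1, by omega⟩
  simp at this

theorem Good.two {G : Type} [Group G] [Finite G] {W : Subgroup G} {t : ℕ} (h : Good G W t)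
    (N : Subgroup G) (hN : N.Normal) (hp : IsPGroup 2 N) : N = ⊥ := by
  refine eq_bot_iff.2 fun x hx => ?_
  obtain ⟨k, hk⟩ := hp ⟨x, hx⟩
  have h1 : orderOf x ∣ Nat.gcd (2 ^ k) (orderOf x) :=
    Nat.dvd_gcd (orderOf_dvd_of_pow_eq_one (congrArg Subtype.val hk)) dvd_rfl
  rw [Nat.Coprime.pow_left k
    (Nat.coprime_two_left.2 (h.odd x (h.fit N hN hp.isNilpotent hx)))] at h1
  exact orderOf_eq_one_iff.1 (Nat.dvd_one.1 h1)

theorem Good.nilp {G : Type} [Group G] {W : Subgroup G} {t : ℕ} (h : Good G W t) :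
    Group.IsNilpotent W :=
  (Subgroup.isNilpotent_iff_lowerCentralSeries W).2 ⟨1, le_bot_iff.1
    (Subgroup.commutator_le.2 fun a ha b hb => by
      rw [Subgroup.mem_bot, commutatorElement_eq_one_iff_mul_comm]
      exact h.comm a ha b hb)⟩

theorem Good.quot {G : Type} [Group G] {W : Subgroup G} [W.Normal] {t : ℕ} (h : Good G W t)
    (M : Subgroup (G ⧸ W)) (hM : M.Normal) (hd : derivedSeries M 2 = ⊥) : 2 ^ t ≤ M.index := by
  have hs := QuotientGroup.mk'_surjective W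
  rw [← Subgroup.index_comap_of_surjective M hs]
  refine h.idx _ (hM.comap _) ?_
  have e : ⁅⁅M, M⁆, ⁅M, M⁆⁆ = ⊥ := by
    have := congrArg (Subgroup.map M.subtype) hd
    simpa only [derivedSeries_succ, derivedSeries_zero, Subgroup.map_commutator,
      ← MonoidHom.range_eq_map, Subgroup.subtype_range, Subgroup.map_bot] using this
  refine le_of_le_of_eq ?_ (QuotientGroup.ker_mk' W)
  rw [← Subgroup.map_eq_bot_iff]
  simp only [Subgroup.map_commutator, Subgroup.map_comap_eq_self_of_surjective hs]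
  exact e

theorem fermat_finite (B : ℕ)
    (h : ∀ (G : Type) [Group G] [Finite G] (F : Subgroup G) [F.Normal], Group.IsSolvable G →
      (∀ N : Subgroup G, N.Normal → IsPGroup 2 N → N = ⊥) → ClLe 2 G 1 → Group.IsNilpotent F →
      (∀ N : Subgroup G, N.Normal → Group.IsNilpotent N → N ≤ F) →
      ∃ M : Subgroup (G ⧸ F), M.Normal ∧ derivedSeries M 2 = ⊥ ∧ M.index ≤ B) :
    {k : ℕ | (2 ^ 2 ^ k + 1).Prime}.Finite := by
  by_contra hinf
  obtain ⟨G, _, _, W, hW⟩ := exists_good hinf B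
  have := hW.norm
  obtain ⟨M, h1, h2, h3⟩ := h G W hW.solv hW.two hW.clLe hW.nilp hW.fit
  exact absurd ((hW.quot M h1 h2).trans h3) (not_le.2 Nat.lt_two_pow_self)

end Pool.Agent.Lib.MP_98dfd6_al.Fer
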