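import Pool.Agent.Lib.MP_98dfd6_al.Base

/-! The largest normal p-subgroup. -/

namespace Pool.Agent.Lib.MP_98dfd6_al

open MulAction

variable {G G' : Type} [Group G] [Group G'] {p : ℕ}

theorem map_Op_le_grpA (φ : G ≃* G) : (Op p G).map φ.toMonoidHom ≤ Op p G := by
  rw [Subgroup.map_le_iff_le_comap]
  refine sSup_le fun N hN => ?_
  rw [← Subgroup.map_le_iff_le_comap]
  exact le_sSup ⟨hN.1.map _ φ.surjective, hN.2.map _⟩

theorem char_grpA : (Op p G).Characteristic :=
  Subgroup.characteristic_iff_map_le.2 map_Op_le_grpA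

instance Op.normal : (Op p G).Normal := by
  haveI := char_grpA (p := p) (G := G)
  infer_instance

instance Op.characteristic : (Op p G).Characteristic := char_grpA

theorem Op.isPGroup [Finite G] : IsPGroup p (Op p G) := by
  have hfin : {N : Subgroup G | N.Normal ∧ IsPGroup p N}.Finite := Set.toFinite _
  obtain ⟨N, hN, hmax⟩ := hfin.exists_maximal
    ⟨⊥, Subgroup.normal_bot, IsPGroup.of_bot⟩
  have hle : Op p G ≤ N := by
    refine sSup_le fun K hK => ?_
    haveI := hN.1
    haveI := hK.1
    have hs : N ⊔ K ∈ {N : Subgroup G | N.Normal ∧ IsPGroup p N} :=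
      ⟨inferInstance, IsPGroup.to_sup_of_normal_left hN.2 hK.2⟩
    exact le_sup_right.trans (hmax hs le_sup_left)
  exact hN.2.to_le hle

theorem le_Op {N : Subgroup G} (hN : N.Normal) (h : IsPGroup p N) : N ≤ Op p G :=
  le_sSup ⟨hN, h⟩

theorem Op.index_le [Finite G] (hp : p.Prime) (B : Subgroup G) [B.Normal]
    (hB : ∀ a ∈ B, ∀ b ∈ B, a * b = b * a) {a M : ℕ} (hM : M ≠ 0) (h : Nat.card B ∣ p ^ a * M) :
    (Op p G).index ≤ B.index * M := by
  haveI : Fact p.Prime := ⟨hp⟩
  obtain ⟨P⟩ : Nonempty (Sylow p B) := inferInstance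
  have hPn : (P : Subgroup B).Normal := by
    refine ⟨fun n hn g => ?_⟩
    have : g * n * g⁻¹ = n := by
      apply Subtype.ext
      have h1 := hB g g.2 n n.2
      simp only [Subgroup.coe_mul, Subgroup.coe_inv]
      rw [h1, mul_inv_cancel_right]
    rw [this]
    exact hn
  haveI : (P : Subgroup B).Characteristic := Sylow.characteristic_of_normal P hPn
  have hQn : ((P : Subgroup B).map B.subtype).Normal := inferInstance
  have hQp : IsPGroup p ((P : Subgroup B).map B.subtype) := P.isPGroup'.map _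
  have hle := le_Op hQn hQp
  have h1 : (Op p G).index ≤ ((P : Subgroup B).map B.subtype).index :=
    Nat.le_of_dvd (Nat.pos_of_ne_zero Subgroup.index_ne_zero_of_finite)
      (Subgroup.index_dvd_of_le hle)
  rw [Subgroup.index_map_subtype] at h1
  have hnd : ¬ p ∣ (P : Subgroup B).index := P.not_dvd_index
  have hcop : Nat.Coprime (P : Subgroup B).index (p ^ a) :=
    (((Nat.Prime.coprime_iff_not_dvd hp).2 hnd).symm).pow_right a
  have hd : (P : Subgroup B).index ∣ M :=
    hcop.dvd_of_dvd_mul_left ((Subgroup.index_dvd_card _).trans h)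
  have h2 : (P : Subgroup B).index ≤ M := Nat.le_of_dvd (Nat.pos_of_ne_zero hM) hd
  calc (Op p G).index ≤ (P : Subgroup B).index * B.index := h1
    _ ≤ M * B.index := Nat.mul_le_mul_right _ h2
    _ = B.index * M := Nat.mul_comm _ _

end Pool.Agent.Lib.MP_98dfd6_al
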