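import Pool.Agent.Lib.MP_98dfd6_al.OpsA

/-! Transfer lemmas for the orbit hypotheses. -/

namespace Pool.Agent.Lib.MP_98dfd6_al

open MulAction

variable {H H' X Y : Type} [Group H] [Group H']

theorem Irr.im [AddCommGroup X] [DistribMulAction H X] (h : Irr H X) : Irr (Im H X) X := by
  refine ⟨h.1, fun Y hY => h.2 Y fun g x hx => ?_⟩
  exact hY (toIm H X g) x hx

theorem Prim.im [AddCommGroup X] [DistribMulAction H X] (h : Prim H X) : Prim (Im H X) X := by
  intro ε hε
  exact h ε ⟨hε.1, hε.2.1, fun g => hε.2.2 (toIm H X g)⟩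

theorem Bad.mono [MulAction H X] {C C' : ℕ} (h : Bad H X C) (hC : C ≤ C') : Bad H X C' := by
  obtain ⟨Y, y, h1, h2, h3, h4⟩ := h
  exact ⟨Y, y, h1, h2, h3, fun b => ⟨(h4 b).1, (h4 b).2.trans (Nat.mul_le_mul_right _ hC)⟩⟩

theorem Bad.of_map [MulAction H X] {C : ℕ} (O : Subgroup H)
    (h : Bad (O.map (toIm H X)) X C) : Bad O X C := by
  obtain ⟨Y, y, h1, h2, h3, h4⟩ := h
  exact ⟨Y, y, h1, h2, fun b g x hx =>
    h3 b ⟨toIm H X g, Subgroup.mem_map_of_mem _ g.2⟩ x hx, h4⟩

theorem bad_of_card_le [AddCommGroup X] [DistribMulAction H X] [Finite X] [Nontrivial X] {C : ℕ}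
    (h : Nat.card X ≤ C) : Bad H X C := by
  classical
  have := Fintype.ofFinite X
  have h2 : 2 ≤ Fintype.card X := Fintype.one_lt_card
  rw [Nat.card_eq_fintype_card] at h
  refine ⟨fun b => if b then {0} else Finset.univ.erase 0, 1, one_pos, by simp, ?_, ?_⟩
  · rintro (_ | _) g x hx
    · simp only [Bool.false_eq_true, if_false, Finset.mem_erase, Finset.mem_univ, and_true] at hx ⊢
      exact fun h0 => hx ((smul_eq_zero_iff_eq g).mp h0)
    · simp only [if_true, Finset.mem_singleton] at hx ⊢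
      rw [hx, smul_zero]
  · rintro (_ | _)
    · simp only [Bool.false_eq_true, if_false, Finset.card_erase_of_mem (Finset.mem_univ _),
        Finset.card_univ]
      omega
    · simp only [if_true, Finset.card_singleton]
      omega

theorem card_le_of_faithful [MulAction H X] [FaithfulSMul H X] [Finite X] {C : ℕ}
    (h : Nat.card X ≤ C) : Nat.card H ≤ C.factorial := by
  have h1 := Nat.card_le_card_of_injective _ (MulAction.toPerm_injective (α := H) (β := X))
  rw [Nat.card_perm] at h1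
  exact h1.trans (Nat.factorial_le h)

theorem index_dvd_pi [Finite H] {ι : Type} [Fintype ι] {X : ι → Type} [∀ i, MulAction H (X i)]
    [∀ i, Finite (X i)] {C : ℕ} (h : ∀ i, Nat.card (X i) ≤ C) (F : Subgroup H)
    (hF : ∀ g : H, (∀ i, ∀ x : X i, g • x = x) → g ∈ F) :
    F.index ∣ C.factorial ^ Fintype.card ι := by
  let φ : H →* ∀ i, Equiv.Perm (X i) := MonoidHom.pi fun i => MulAction.toPermHom H (X i)
  have h1 : φ.ker ≤ F := fun g hg => hF g fun i x => by
    have h2 : MulAction.toPermHom H (X i) g = 1 := congrFun hg i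
    exact congrArg (fun σ : Equiv.Perm (X i) => σ x) h2
  refine (Subgroup.index_dvd_of_le h1).trans ?_
  rw [Subgroup.index_ker]
  refine (Subgroup.card_subgroup_dvd_card _).trans ?_
  rw [Nat.card_pi, ← Finset.card_univ, ← Finset.prod_const]
  refine Finset.prod_dvd_prod_of_dvd _ _ fun i _ => ?_
  rw [Nat.card_perm]
  exact Nat.factorial_dvd_factorial (h i)

end Pool.Agent.Lib.MP_98dfd6_al
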