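import Pool.Agent.Lib.MP_98dfd6_al.PG
import Pool.Agent.Lib.MP_98dfd6_al.Ops
import Pool.Agent.Lib.MP_98dfd6_al.Win

/-! Subdirect products of small groups. -/

namespace Pool.Agent.Lib.MP_98dfd6_al

open MulAction

theorem lemB (p m C : ℕ) [Fact p.Prime] : ∃ D,
    ∀ (k : Type) [Field k] [IsAlgClosed k] [CharP k p] (G : Type) [Group G] [Finite G]
      [Group.IsSolvable G], NoP p G → BrLe k G m → Resid G C → Nat.card G ≤ D := by
  obtain ⟨r₀, hr⟩ := bad_card m C (Fact.out : p.Prime) C.factorial_ne_zero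
  refine ⟨C.factorial ^ C.factorial ^ (m * (C.factorial ^ r₀) ^ 2) * C.factorial ^ r₀,
    fun k _ _ _ G _ _ _ hO hB hR => ?_⟩
  obtain ⟨F, hF⟩ := exists_maxNil G
  obtain ⟨ι, _, X, _, _, _, hI, hM, hK, hC⟩ := pg k hO hB hF
  have hd := index_dvd_pi (hC C hR) F fun g hg => (hK g).1 hg
  have hι : Fintype.card ι ≤ r₀ := by
    refine hr G ι X Finset.univ hM (fun i _ => ?_) fun x => ⟨0, ?_⟩
    · have := (hI i).1
      exact bad_of_card_le (hC C hR i)
    · rw [pow_zero, one_mul]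
      refine (Subgroup.index_dvd_of_le fun g hg => ?_).trans hd
      exact funext fun i => (hK g).2 hg i (x i)
  have ht : F.index ≤ C.factorial ^ r₀ :=
    (Nat.le_of_dvd (pow_pos C.factorial_pos _) hd).trans
      (Nat.pow_le_pow_right C.factorial_pos hι)
  have hc : (Nat.card F).Coprime p := hO.coprime Fact.out hF.normal hF.nil
  have hl := hB.lin (p := p) F ⁅F, F⁆ le_rfl (hc.coprime_dvd_left (Subgroup.index_dvd_card _))
  obtain ⟨S, hS, hS'⟩ := exists_gen_nil hF.nil
  have hcard := (hR.subgroup F).card_le S hS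
    (hS'.trans (hl.trans (Nat.mul_le_mul_left m (Nat.pow_le_pow_left ht 2))))
  rw [← F.card_mul_index]
  exact Nat.mul_le_mul hcard ht

end Pool.Agent.Lib.MP_98dfd6_al
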