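import Pool.Agent.Lib.MP_98dfd6_al.Rep1b

/-! Passage to a normal subgroup. -/

namespace Pool.Agent.Lib.MP_98dfd6_al

open MulAction

variable {k G : Type} [Field k] [Group G]

theorem inv_cases_Rep3 {W : Type} [AddCommGroup W] [Module k W] (θ : Representation k G W)
    (hθ : θ.IsIrreducible) (S : Submodule k W) (hS : ∀ g, ∀ w ∈ S, θ g w ∈ S) :
    S = ⊥ ∨ S = ⊤ := by
  rcases hθ.eq_bot_or_eq_top ⟨S, fun g w hw => hS g w hw⟩ with h | h
  · exact Or.inl (congrArg Subrepresentation.toSubmodule h)
  · exact Or.inr (congrArg Subrepresentation.toSubmodule h)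

theorem nontrivial_Rep3 {W : Type} [AddCommGroup W] [Module k W] (θ : Representation k G W)
    (hθ : θ.IsIrreducible) : Nontrivial W := by
  by_contra hW
  rw [not_nontrivial_iff_subsingleton] at hW
  have h1 : (⊥ : Subrepresentation θ) = ⊤ :=
    Subrepresentation.toSubmodule_injective (Subsingleton.elim _ _)
  exact hθ.toNontrivial.exists_pair_ne.elim fun a ⟨b, hab⟩ => hab (by
    apply le_antisymm
    · exact le_top.trans (h1 ▸ bot_le)
    · exact le_top.trans (h1 ▸ bot_le))

theorem finrank_step_Rep3 {V W : Type} [AddCommGroup V] [Module k V] [Module.Finite k V]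
    [AddCommGroup W] [Module k W] (K : Submodule k V) (ψ : V →ₗ[k] W) (hK : K.map ψ = ⊤) :
    Module.finrank k (K ⊓ LinearMap.ker ψ : Submodule k V) + Module.finrank k W =
      Module.finrank k K := by
  have h1 := LinearMap.finrank_range_add_finrank_ker (ψ.domRestrict K)
  rw [LinearMap.range_domRestrict, hK, finrank_top, LinearMap.ker_domRestrict] at h1
  have h2 : Module.finrank k (Submodule.comap K.subtype (LinearMap.ker ψ)) =
      Module.finrank k (K ⊓ LinearMap.ker ψ : Submodule k V) := by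
    rw [← Submodule.map_comap_subtype, Submodule.finrank_map_subtype_eq]
  omega

theorem surj_Rep3 {V W ι : Type} [AddCommGroup V] [Module k V] [AddCommGroup W] [Module k W]
    (ρ : Representation k G V) (θ : ι → Representation k G W)
    (hi : ∀ i, (θ i).IsIrreducible) (hne : ∀ i j, Nonempty ((θ i).Equiv (θ j)) → i = j)
    (φ : ι → V →ₗ[k] W) (hφ : ∀ i, φ i ≠ 0)
    (h : ∀ i g v, φ i (ρ g v) = θ i g (φ i v)) (T : Finset ι) :
    ∀ w : ι → W, ∃ v, ∀ i ∈ T, φ i v = w i := by
  classical
  induction T using Finset.induction_on with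
  | empty => intro w; exact ⟨0, by simp⟩
  | insert j T hj ih =>
    intro w
    let K : Submodule k V := ⨅ i ∈ T, LinearMap.ker (φ i)
    have hK : ∀ v, v ∈ K ↔ ∀ i ∈ T, φ i v = 0 := by
      intro v
      simp [K, Submodule.mem_iInf]
    have hinv : ∀ g, ∀ x ∈ K.map (φ j), θ j g x ∈ K.map (φ j) := by
      rintro g x ⟨v, hv, rfl⟩
      refine ⟨ρ g v, (hK _).2 fun i hiT => ?_, h j g v⟩
      rw [h, (hK v).1 hv i hiT, map_zero]
    rcases inv_cases_Rep3 (θ j) (hi j) _ hinv with h0 | h0
    · exfalso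
      have key : ∀ v v', (∀ i ∈ T, φ i v = φ i v') → φ j v = φ j v' := by
        intro v v' hv
        have h1 : φ j (v - v') ∈ K.map (φ j) :=
          ⟨v - v', (hK _).2 fun i hiT => by rw [map_sub, hv i hiT, sub_self], rfl⟩
        rw [h0, Submodule.mem_bot, map_sub] at h1
        exact sub_eq_zero.1 h1
      choose c hc using ih
      have hz : ∀ i ∈ T, ∀ x : W, φ j (c (Pi.single i x)) = 0 := by
        intro i hiT
        let ψ : W →ₗ[k] W :=
          { toFun := fun x => φ j (c (Pi.single i x))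
            map_add' := fun x y => by
              rw [← map_add]
              refine key _ _ fun l hl => ?_
              rw [map_add, hc _ l hl, hc _ l hl, hc _ l hl, Pi.single_add, Pi.add_apply]
            map_smul' := fun a x => by
              rw [RingHom.id_apply, ← map_smul]
              refine key _ _ fun l hl => ?_
              rw [map_smul, hc _ l hl, hc _ l hl, Pi.single_smul, Pi.smul_apply] }
        have hψ : ∀ g x, ψ (θ i g x) = θ j g (ψ x) := by
          intro g x
          change φ j (c (Pi.single i (θ i g x))) = θ j g (φ j (c (Pi.single i x)))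
          rw [← h]
          refine key _ _ fun l hl => ?_
          rw [h, hc _ l hl, hc _ l hl]
          by_cases hli : l = i
          · subst hli
            rw [Pi.single_eq_same, Pi.single_eq_same]
          · rw [Pi.single_eq_of_ne hli, Pi.single_eq_of_ne hli, map_zero]
        let f : (θ i).IntertwiningMap (θ j) := ⟨ψ, fun g => LinearMap.ext fun x => hψ g x⟩
        have := hi i
        have := hi j
        rcases Representation.IsIrreducible.bijective_or_eq_zero f with hb | hb
        · have hij := hne i j ⟨f.ofBijective hb⟩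
          exact absurd (hij ▸ hiT) hj
        · intro x
          exact congrArg (fun F : (θ i).IntertwiningMap (θ j) => F x) hb
      apply hφ j
      ext v
      have h1 : φ j v = φ j (∑ i ∈ T, c (Pi.single i (φ i v))) := by
        refine key _ _ fun l hl => ?_
        rw [map_sum, Finset.sum_eq_single_of_mem l hl]
        · rw [hc _ l hl, Pi.single_eq_same]
        · intro i _ hil
          rw [hc _ l hl, Pi.single_eq_of_ne hil.symm]
      rw [h1, map_sum, Finset.sum_eq_zero fun i hiT => hz i hiT _, LinearMap.zero_apply]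
    · obtain ⟨v0, hv0⟩ := ih w
      have h1 : w j - φ j v0 ∈ K.map (φ j) := h0 ▸ Submodule.mem_top
      obtain ⟨v1, hv1, hv2⟩ := h1
      refine ⟨v0 + v1, fun i hiT => ?_⟩
      rcases Finset.mem_insert.1 hiT with rfl | hiT
      · rw [map_add, hv2, add_sub_cancel]
      · rw [map_add, hv0 i hiT, (hK v1).1 hv1 i hiT, add_zero]

theorem indepS {V ι : Type} [AddCommGroup V] [Module k V] [Module.Finite k V] [Fintype ι] {s : ℕ}
    (ρ : Representation k G V) (θ : ι → Representation k G (Fin s → k))
    (hi : ∀ i, (θ i).IsIrreducible) (hne : ∀ i j, Nonempty ((θ i).Equiv (θ j)) → i = j)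
    (φ : ι → V →ₗ[k] (Fin s → k)) (hφ : ∀ i, φ i ≠ 0)
    (h : ∀ i g v, φ i (ρ g v) = θ i g (φ i v)) : Fintype.card ι * s ≤ Module.finrank k V := by
  have hs : Function.Surjective (LinearMap.pi φ) := by
    intro w
    obtain ⟨v, hv⟩ := surj_Rep3 ρ θ hi hne φ hφ h Finset.univ w
    exact ⟨v, funext fun i => hv i (Finset.mem_univ i)⟩
  have h1 := LinearMap.finrank_le_finrank_of_surjective hs
  simpa [Module.finrank_pi_fintype] using h1

theorem clifford_dvd [Finite G] {d s : ℕ} (ρ : Representation k G (Fin d → k))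
    (hρ : ρ.IsIrreducible) (R : Subgroup G) [R.Normal] (θ : Representation k R (Fin s → k))
    (hθ : θ.IsIrreducible) (φ : (Fin d → k) →ₗ[k] (Fin s → k)) (hφ : φ ≠ 0)
    (h : ∀ (r : R) (v), φ (ρ r v) = θ r (φ v)) : s ∣ d := by
  classical
  have hR : R.Normal := inferInstance
  let K : Finset G → Submodule k (Fin d → k) := fun T => ⨅ g ∈ T, LinearMap.ker (φ ∘ₗ ρ g)
  have hK : ∀ T v, v ∈ K T ↔ ∀ g ∈ T, φ (ρ g v) = 0 := by
    intro T v
    simp [K, Submodule.mem_iInf]
  have hmul : ∀ (a b : G) v, ρ a (ρ b v) = ρ (a * b) v := by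
    intro a b v
    rw [map_mul, Module.End.mul_apply]
  have hKinv : ∀ T, ∀ r ∈ R, ∀ v ∈ K T, ρ r v ∈ K T := by
    intro T r hr v hv
    refine (hK _ _).2 fun g hg => ?_
    have h1 := h ⟨g * r * g⁻¹, hR.conj_mem r hr g⟩ (ρ g v)
    rw [(hK _ _).1 hv g hg, map_zero, hmul] at h1
    rw [hmul]
    simpa using h1
  have main : ∀ T, ∃ e, Module.finrank k (K T) + e * s = d := by
    intro T
    induction T using Finset.induction_on with
    | empty =>
      refine ⟨0, ?_⟩
      have h1 : K ∅ = ⊤ := by simp [K]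
      rw [h1]
      simp
    | insert g T hg ih =>
      obtain ⟨e, he⟩ := ih
      have h1 : K (insert g T) = K T ⊓ LinearMap.ker (φ ∘ₗ ρ g) := by
        ext v
        rw [Submodule.mem_inf, hK, hK, Finset.forall_mem_insert, and_comm]
        rfl
      have hinv : ∀ r : R, ∀ x ∈ (K T).map (φ ∘ₗ ρ g), θ r x ∈ (K T).map (φ ∘ₗ ρ g) := by
        rintro r x ⟨v, hv, rfl⟩
        refine ⟨ρ (g⁻¹ * r * g⁻¹⁻¹) v, hKinv T _ (hR.conj_mem r r.2 g⁻¹) v hv, ?_⟩
        change φ (ρ g (ρ _ v)) = θ r (φ (ρ g v))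
        rw [← h, hmul, hmul]
        congr 3
        group
      rcases inv_cases_Rep3 θ hθ _ hinv with h0 | h0
      · refine ⟨e, ?_⟩
        have h2 : K T ≤ LinearMap.ker (φ ∘ₗ ρ g) := by
          intro v hv
          have h3 : (φ ∘ₗ ρ g) v ∈ (K T).map (φ ∘ₗ ρ g) := ⟨v, hv, rfl⟩
          rwa [h0, Submodule.mem_bot] at h3
        rw [h1, inf_eq_left.2 h2, he]
      · refine ⟨e + 1, ?_⟩
        have h2 := finrank_step_Rep3 (K T) (φ ∘ₗ ρ g) h0
        rw [Module.finrank_fin_fun] at h2
        rw [h1, add_mul, one_mul]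
        omega
  have := Fintype.ofFinite G
  obtain ⟨e, he⟩ := main Finset.univ
  have hinv : ∀ g, ∀ v ∈ K Finset.univ, ρ g v ∈ K Finset.univ := by
    intro g v hv
    refine (hK _ _).2 fun a _ => ?_
    rw [hmul]
    exact (hK _ _).1 hv _ (Finset.mem_univ _)
  rcases inv_cases_Rep3 ρ hρ _ hinv with h0 | h0
  · rw [h0, finrank_bot, zero_add] at he
    exact ⟨e, by rw [← he, mul_comm]⟩
  · exfalso
    apply hφ
    refine LinearMap.ext fun v => ?_
    have h1 := (hK _ v).1 (h0 ▸ Submodule.mem_top) 1 (Finset.mem_univ _)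
    simpa using h1

theorem BrLe.normal [Finite G] {m : ℕ} (hB : BrLe k G m) (R : Subgroup G) [R.Normal] :
    BrLe k R (m * R.index ^ 2) := by
  classical
  intro s n θ hi hne
  let P : ℕ → Fin n → Prop := fun e i =>
    ∃ (ρ : Representation k G (Fin (s * e) → k)) (φ : (Fin (s * e) → k) →ₗ[k] (Fin s → k)),
      ρ.IsIrreducible ∧ φ ≠ 0 ∧ ∀ (u : R) (v), φ (ρ u v) = θ i u (φ v)
  have hs : ∀ _ : Fin n, 0 < s := by
    intro i
    have h1 := nontrivial_Rep3 (θ i) (hi i)
    have h2 : 0 < Module.finrank k (Fin s → k) := Module.finrank_pos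
    rwa [Module.finrank_fin_fun] at h2
  have hex : ∀ i, ∃ e ∈ Finset.Icc 1 R.index, P e i := by
    intro i
    have := nontrivial_Rep3 (θ i) (hi i)
    obtain ⟨d, ρ, φ, h1, h2, h3, h4⟩ := exists_simple R (θ i)
    obtain ⟨e, rfl⟩ := clifford_dvd ρ h1 R (θ i) (hi i) φ h3 h4
    rw [Module.finrank_fin_fun, mul_comm R.index] at h2
    refine ⟨e, Finset.mem_Icc.2 ⟨?_, Nat.le_of_mul_le_mul_left h2 (hs i)⟩, ρ, φ, h1, h3, h4⟩
    have h5 := nontrivial_Rep3 ρ h1
    have h6 : 0 < Module.finrank k (Fin (s * e) → k) := Module.finrank_pos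
    rw [Module.finrank_fin_fun] at h6
    exact Nat.pos_of_mul_pos_left h6
  have hfib : ∀ e ∈ Finset.Icc 1 R.index,
      (Finset.univ.filter (P e)).card ≤ m * R.index := by
    intro e he
    rw [← Fintype.card_subtype]
    have hc : ∀ i : {i // P e i}, P e i := fun i => i.2
    choose ρ φ h1 h2 h3 using hc
    refine class_count hB ρ h1 fun i T hT => ?_
    have hE : ∀ j : T, Nonempty ((ρ j).Equiv (ρ i)) := fun j => hT j j.2
    let E := fun j : T => (hE j).some
    have h4 := indepS (G := R) (ι := T) ((ρ i).comp R.subtype) (fun j => θ j.1.1)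
      (fun j => hi _) (fun a b hab => Subtype.ext (Subtype.ext (hne _ _ hab)))
      (fun j => φ j ∘ₗ (E j).symm.toLinearMap) ?_ ?_
    · rw [Module.finrank_fin_fun, Fintype.card_coe, mul_comm] at h4
      exact (Nat.le_of_mul_le_mul_left h4 (hs i)).trans (Finset.mem_Icc.1 he).2
    · intro j hj
      apply h2 j
      refine LinearMap.ext fun v => ?_
      have h5 := LinearMap.congr_fun hj (E j v)
      simpa using h5
    · intro j g v
      change φ j ((E j).symm (ρ i g v)) = θ j.1.1 g (φ j ((E j).symm v))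
      rw [← h3]
      exact congrArg (φ j) ((E j).symm.toIntertwiningMap.isIntertwining _ _ (g : G) v)
  have hsub : (Finset.univ : Finset (Fin n)) ⊆
      (Finset.Icc 1 R.index).biUnion fun e => Finset.univ.filter (P e) := by
    intro i _
    obtain ⟨e, he, hP⟩ := hex i
    exact Finset.mem_biUnion.2 ⟨e, he, Finset.mem_filter.2 ⟨Finset.mem_univ _, hP⟩⟩
  have h1 := (Finset.card_le_card hsub).trans (Finset.card_biUnion_le_card_mul _ _ _ hfib)
  rw [Finset.card_univ, Fintype.card_fin, Nat.card_Icc, Nat.add_sub_cancel] at h1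
  calc n ≤ R.index * (m * R.index) := h1
    _ = m * R.index ^ 2 := by ring

end Pool.Agent.Lib.MP_98dfd6_al
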