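import Pool.Agent.Lib.MP_98dfd6_al.LemB
import Pool.Agent.Lib.MP_98dfd6_al.SC
import Pool.Agent.Lib.MP_98dfd6_al.Rep3

/-! The solvable case and the general statement. -/

namespace Pool.Agent.Lib.MP_98dfd6_al

open MulAction

theorem main_solv (p m : ℕ) [Fact p.Prime] : ∃ D,
    ∀ (k : Type) [Field k] [IsAlgClosed k] [CharP k p] (G : Type) [Group G] [Finite G]
      [Group.IsSolvable G], NoP p G → BrLe k G m → ∀ F : Subgroup G, MaxNil F →
      ∃ M : Subgroup G, M.Normal ∧ M.index ≤ D ∧ ⁅⁅M, M⁆, ⁅M, M⁆⁆ ≤ F := by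
  classical
  have hp : p.Prime := Fact.out
  obtain ⟨C, hC⟩ := single m hp
  obtain ⟨t, ht⟩ := lemB p m C
  obtain ⟨r₀, hr⟩ := bad_card (m * t ^ 2) C hp one_ne_zero
  refine ⟨t * (C + 1) ^ r₀, fun k _ _ _ G _ _ _ hO hB F hF => ?_⟩
  obtain ⟨ι, _, X, _, _, _, hI, hM, hK, -⟩ := pg k hO hB hF
  have hS := fun i => by
    have : Group.IsSolvable (Im G (X i)) := Group.isSolvable_of_surjective (toIm_surj G (X i))
    exact hC (Im G (X i)) (X i) (hI i).im (hM.comp i).im
      ((hB.lin (p := p)).of_surj _ (toIm_surj G (X i)))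
  choose B hBn hBi hBc using fun i => (hS i).2.1
  set O : Subgroup G := ⨅ i, (Op p (Im G (X i))).comap (toIm G (X i)) with hOd
  have hOn : O.Normal := Subgroup.normal_iInf_normal fun i => inferInstance
  have hmem : ∀ g, g ∈ O ↔ ∀ i, toIm G (X i) g ∈ Op p (Im G (X i)) := fun g => by
    simp only [hOd, Subgroup.mem_iInf, Subgroup.mem_comap]
  have hOp : ∀ i, IsPGroup p (O.map (toIm G (X i))) := fun i =>
    Op.isPGroup.to_le (by
      rintro _ ⟨g, hg, rfl⟩
      exact (hmem g).1 hg i)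
  have hNoP : NoP p (G ⧸ O) := by
    intro N hN hNp
    rw [eq_bot_iff]
    intro x hx
    obtain ⟨g, rfl⟩ := QuotientGroup.mk_surjective x
    rw [Subgroup.mem_bot, QuotientGroup.eq_one_iff, hmem]
    intro i
    refine le_Op (N := (N.comap (QuotientGroup.mk' O)).map (toIm G (X i)))
      ((hN.comap _).map _ (toIm_surj _ _)) ?_ ⟨g, hx, rfl⟩
    rintro ⟨_, h, hh, rfl⟩
    obtain ⟨a, ha⟩ := hNp ⟨(h : G ⧸ O), hh⟩
    have h1 : h ^ p ^ a ∈ O := by
      rw [← QuotientGroup.eq_one_iff, QuotientGroup.mk_pow]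
      exact congrArg Subtype.val ha
    obtain ⟨b, hb⟩ := (Op.isPGroup (p := p) (G := Im G (X i))) ⟨_, (hmem _).1 h1 i⟩
    refine ⟨a + b, Subtype.ext ?_⟩
    have h2 := congrArg Subtype.val hb
    simp only [SubmonoidClass.mk_pow, OneMemClass.coe_one, map_pow] at h2 ⊢
    rw [pow_add, pow_mul]
    exact h2
  have hRes : Resid (G ⧸ O) C := by
    intro x hx
    obtain ⟨g, rfl⟩ := QuotientGroup.mk_surjective x
    rw [Ne, QuotientGroup.eq_one_iff, hmem, not_forall] at hx
    obtain ⟨i, hi⟩ := hx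
    have hle : O ≤ (Op p (Im G (X i))).comap (toIm G (X i)) := iInf_le _ i
    refine ⟨((Op p (Im G (X i))).comap (toIm G (X i))).map (QuotientGroup.mk' O),
      Subgroup.Normal.map inferInstance _ (QuotientGroup.mk'_surjective O), ?_, ?_⟩
    · rw [Subgroup.index_map_eq _ (QuotientGroup.mk'_surjective O)
        (by rwa [QuotientGroup.ker_mk']), Subgroup.index_comap_of_surjective _ (toIm_surj _ _)]
      exact (hS i).1
    · rintro ⟨h, hh, e⟩
      apply hi
      have h1 : h⁻¹ * g ∈ O := QuotientGroup.eq.mp e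
      have h2 := Subgroup.mul_mem _ hh (hle h1)
      rwa [mul_inv_cancel_left] at h2
  have hOi : O.index ≤ t :=
    ht k (G ⧸ O) hNoP (hB.of_surj _ (QuotientGroup.mk'_surjective O)) hRes
  have hMO : Mult O (∀ i, X i) (m * t ^ 2) :=
    (hM.subgroup O).mono (Nat.mul_le_mul_left m (Nat.pow_le_pow_left hOi 2))
  set J : Finset ι := Finset.univ.filter fun i => Bad O (X i) C with hJ
  have hJr : J.card ≤ r₀ := by
    refine hr O ι X J hMO (fun i hi => (Finset.mem_filter.mp hi).2) fun x => ?_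
    let φ : O →* ∀ i, O.map (toIm G (X i)) := MonoidHom.pi fun i => (toIm G (X i)).subgroupMap O
    have h1 : IsPGroup p (∀ i, O.map (toIm G (X i))) := by
      intro z
      choose a ha using fun i => hOp i (z i)
      refine ⟨∑ i, a i, funext fun i => ?_⟩
      obtain ⟨c, hc⟩ := Nat.exists_eq_add_of_le
        (Finset.single_le_sum (fun j _ => Nat.zero_le (a j)) (Finset.mem_univ i))
      rw [Pi.pow_apply, hc, pow_add, pow_mul, ha, one_pow, Pi.one_apply]
    obtain ⟨a, ha⟩ := IsPGroup.iff_card.mp (h1.to_subgroup φ.range)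
    refine ⟨a, ?_⟩
    rw [one_pow, mul_one, ← ha, ← Subgroup.index_ker]
    refine Subgroup.index_dvd_of_le fun g hg => funext fun i => ?_
    have h2 : toIm G (X i) (g : G) = 1 := congrArg Subtype.val (congrFun hg i)
    change (g : G) • x i = x i
    rw [← toIm_smul, h2, one_smul]
  refine ⟨O ⊓ ⨅ i : J, (B i).comap (toIm G (X i)), ?_, ?_, ?_⟩
  · have : (⨅ i : J, (B i).comap (toIm G (X i))).Normal :=
      Subgroup.normal_iInf_normal fun i => (hBn i).comap _
    infer_instance
  · refine Subgroup.index_inf_le.trans (Nat.mul_le_mul hOi ((Subgroup.index_iInf_le _).trans ?_))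
    calc ∏ i : J, ((B i).comap (toIm G (X i))).index ≤ ∏ _i : J, (C + 1) :=
          Finset.prod_le_prod' fun i _ => by
            rw [Subgroup.index_comap_of_surjective _ (toIm_surj _ _)]
            exact (hBi i).trans (Nat.le_succ C)
      _ = (C + 1) ^ J.card := by simp
      _ ≤ (C + 1) ^ r₀ := Nat.pow_le_pow_right (Nat.succ_pos C) hJr
  · set M := O ⊓ ⨅ i : J, (B i).comap (toIm G (X i)) with hMd
    intro g hg
    refine (hK g).1 fun i x => ?_
    have key : (⁅⁅M, M⁆, ⁅M, M⁆⁆).map (toIm G (X i)) = ⊥ := by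
      rw [Subgroup.map_commutator, Subgroup.map_commutator]
      by_cases hi : i ∈ J
      · have hle : M.map (toIm G (X i)) ≤ B i :=
          Subgroup.map_le_iff_le_comap.mpr (inf_le_right.trans (iInf_le _ (⟨i, hi⟩ : J)))
        have h0 : ⁅M.map (toIm G (X i)), M.map (toIm G (X i))⁆ = ⊥ := by
          rw [Subgroup.commutator_eq_bot_iff_le_centralizer]
          intro a ha
          exact Subgroup.mem_centralizer_iff.mpr fun b hb => hBc i b (hle hb) a (hle ha)
        rw [h0, Subgroup.commutator_bot_left]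
      · have hle : M.map (toIm G (X i)) ≤ O.map (toIm G (X i)) := Subgroup.map_mono inf_le_left
        rcases (hS i).2.2 _ (hOp i) with h | h
        · exact absurd (Finset.mem_filter.mpr ⟨Finset.mem_univ i, Bad.of_map O h⟩) hi
        · rw [eq_bot_iff, ← h]
          exact Subgroup.commutator_mono (Subgroup.commutator_mono hle hle)
            (Subgroup.commutator_mono hle hle)
    have h1 : toIm G (X i) g = 1 := Subgroup.mem_bot.mp (key ▸ Subgroup.mem_map_of_mem _ hg)
    rw [← toIm_smul, h1, one_smul]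

theorem main_gen (p : ℕ) [Fact p.Prime] : ∃ f : ℕ → ℕ → ℕ,
    ∀ (k : Type) [Field k] [IsAlgClosed k] [CharP k p] (G : Type) [Group G] [Finite G] (m : ℕ)
      (R F : Subgroup G) [R.Normal] [F.Normal], NoP p G → BrLe k G m → Group.IsSolvable R →
      Group.IsNilpotent F → (∀ N : Subgroup G, N.Normal → Group.IsNilpotent N → N ≤ F) →
      ∃ M : Subgroup (R ⧸ F.subgroupOf R),
        M.Normal ∧ derivedSeries M 2 = ⊥ ∧ M.index ≤ f m R.index := by
  choose D hD using fun m => main_solv p m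
  refine ⟨fun m t => D (m * t ^ 2), fun k _ _ _ G _ _ m R F _ hFn hO hB hR hF hmax => ?_⟩
  obtain ⟨M, hMn, hMi, hM⟩ := hD _ k R (hO.normal R) (hB.normal R) _
    (maxNil_subgroupOf hFn hF hmax R)
  have hs := QuotientGroup.mk'_surjective (F.subgroupOf R)
  refine ⟨M.map (QuotientGroup.mk' _), hMn.map _ hs, ?_,
    (Nat.le_of_dvd (Nat.pos_of_ne_zero Subgroup.index_ne_zero_of_finite)
      (Subgroup.index_map_dvd M hs)).trans hMi⟩
  have h1 : ⁅⁅M.map (QuotientGroup.mk' (F.subgroupOf R)),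
      M.map (QuotientGroup.mk' (F.subgroupOf R))⁆, ⁅M.map (QuotientGroup.mk' (F.subgroupOf R)),
      M.map (QuotientGroup.mk' (F.subgroupOf R))⁆⁆ = ⊥ := by
    rw [← Subgroup.map_commutator, ← Subgroup.map_commutator, Subgroup.map_eq_bot_iff,
      QuotientGroup.ker_mk']
    exact hM
  apply Subgroup.map_injective (M.map (QuotientGroup.mk' (F.subgroupOf R))).subtype_injective
  rw [Subgroup.map_bot, ← h1]
  simp only [derivedSeries_succ, derivedSeries_zero, Subgroup.map_commutator,
    ← MonoidHom.range_eq_map, Subgroup.range_subtype]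

end Pool.Agent.Lib.MP_98dfd6_al
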