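import Pool.Agent.Lib.MP_98dfd6_al.NumA

/-! Divisor bounds and numerical lemmas. -/

namespace Pool.Agent.Lib.MP_98dfd6_al

open MulAction

theorem poly_Num (K j : ℕ) : ∃ r₀, ∀ r : ℕ, 2 ^ r ≤ K * (r + 1) ^ j → r ≤ r₀ := by
  obtain ⟨C, hC⟩ := pow_le_two_pow (2 * j)
  refine ⟨2 * K ^ 2 * C, fun r hr => ?_⟩
  have h1 : 2 ^ r * 2 ^ r ≤ (2 * K ^ 2 * C) * 2 ^ r := by
    calc 2 ^ r * 2 ^ r ≤ (K * (r + 1) ^ j) * (K * (r + 1) ^ j) := Nat.mul_le_mul hr hr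
      _ = K ^ 2 * (r + 1) ^ (2 * j) := by ring
      _ ≤ K ^ 2 * (C * 2 ^ (r + 1)) := Nat.mul_le_mul_left _ (hC _)
      _ = (2 * K ^ 2 * C) * 2 ^ r := by ring
  have h2 : 2 ^ r ≤ 2 * K ^ 2 * C := Nat.le_of_mul_le_mul_right h1 (by positivity)
  exact le_trans (Nat.lt_two_pow_self).le h2

theorem log_le_Num (x k : ℕ) (h : x ≤ 2 ^ k) : Nat.log 2 x ≤ k := by
  have := Nat.log_mono_right (b := 2) h
  rwa [Nat.log_pow (by norm_num)] at this

theorem le_two_pow_Num (x : ℕ) : x ≤ 2 ^ x := (Nat.lt_two_pow_self).le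

theorem num_L1 (m c Λ : ℕ) : ∃ r₀, ∀ r, 2 ^ r ≤ m * (c ^ r).divisors.card *
    (Nat.log 2 (2 * m * (c ^ r).divisors.card * Λ ^ r) + 1) → r ≤ r₀ := by
  set L := Nat.log 2 c with hL
  obtain ⟨r₀, hr₀⟩ := poly_Num (m * (L + 1) ^ L * (2 + m + (L + 1) ^ L + Λ)) (2 * L + 1)
  refine ⟨r₀, fun r hr => hr₀ r (le_trans hr ?_)⟩
  set d := (c ^ r).divisors.card with hd
  have hd1 : d ≤ (L + 1) ^ L * (r + 1) ^ L := by
    rw [← mul_pow]
    refine le_trans (card_divisors_pow_le c r) (Nat.pow_le_pow_left ?_ _)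
    rw [← hL]; nlinarith
  have hlog : Nat.log 2 (2 * m * d * Λ ^ r) ≤ 1 + m + d + Λ * r := by
    apply log_le_Num
    calc 2 * m * d * Λ ^ r ≤ 2 * 2 ^ m * 2 ^ d * (2 ^ Λ) ^ r := by
          gcongr <;> exact le_two_pow_Num _
      _ = 2 ^ (1 + m + d + Λ * r) := by rw [← pow_mul]; ring
  have hu1 : 1 ≤ (r + 1) ^ (L + 1) := Nat.one_le_pow _ _ (by omega)
  have hu2 : (r + 1) ^ L ≤ (r + 1) ^ (L + 1) := Nat.pow_le_pow_right (by omega) (by omega)
  have hu3 : r ≤ (r + 1) ^ (L + 1) :=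
    le_trans (Nat.le_succ r) (Nat.le_self_pow (by omega) _)
  have h2 : Nat.log 2 (2 * m * d * Λ ^ r) + 1 ≤
      (2 + m + (L + 1) ^ L + Λ) * (r + 1) ^ (L + 1) := by
    have e1 : 2 + m ≤ (2 + m) * (r + 1) ^ (L + 1) := Nat.le_mul_of_pos_right _ hu1
    have e2 : d ≤ (L + 1) ^ L * (r + 1) ^ (L + 1) := le_trans hd1 (Nat.mul_le_mul_left _ hu2)
    have e3 : Λ * r ≤ Λ * (r + 1) ^ (L + 1) := Nat.mul_le_mul_left _ hu3
    calc Nat.log 2 (2 * m * d * Λ ^ r) + 1 ≤ (2 + m) + d + Λ * r := by omega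
      _ ≤ (2 + m) * (r + 1) ^ (L + 1) + (L + 1) ^ L * (r + 1) ^ (L + 1) +
            Λ * (r + 1) ^ (L + 1) := by omega
      _ = _ := by ring
  calc m * d * (Nat.log 2 (2 * m * d * Λ ^ r) + 1)
      ≤ m * ((L + 1) ^ L * (r + 1) ^ L) * ((2 + m + (L + 1) ^ L + Λ) * (r + 1) ^ (L + 1)) := by
        gcongr
    _ = _ := by ring

theorem num_S4 (m A B : ℕ) : ∃ n₀, ∀ n s c T : ℕ, 2 ^ n ≤ s ^ B → c ≤ A * n ^ A → T ≤ 16 ^ n →
    s ≤ (n + 1) * (m * (c ^ n * T).divisors.card *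
      (Nat.log 2 (2 * m * (c ^ n * T).divisors.card * 2 ^ n) + 1)) → n ≤ n₀ := by
  obtain ⟨C, hC⟩ := card_divisors_pow_k (8 * B)
  obtain ⟨K, hK⟩ : ∃ K, K = 1 + m + (1 + 2 * A) * (2 * A) + (9 + m + 2 * A) := ⟨_, rfl⟩
  obtain ⟨n₀, hn₀⟩ := le_of_le_log_sq (8 * K * B + C)
  refine ⟨n₀, fun n s c T hs hc hT hsle => hn₀ n ?_⟩
  obtain ⟨lam, hlam⟩ : ∃ lam, lam = Nat.log 2 n + 1 := ⟨_, rfl⟩
  rw [← hlam]
  have hlam1 : 1 ≤ lam := by omega
  have hn : n + 1 ≤ 2 ^ lam := by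
    rw [hlam]; exact Nat.lt_pow_succ_log_self (by norm_num) n
  rcases Nat.eq_zero_or_pos T with hT0 | hT0
  · subst hT0
    have hs0 : s = 0 := by simpa using hsle
    subst hs0
    rcases Nat.eq_zero_or_pos B with hB | hB
    · subst hB
      have : n = 0 := by
        have h1 : n < 2 ^ n := Nat.lt_two_pow_self
        simp only [pow_zero] at hs
        omega
      omega
    · rw [zero_pow hB.ne'] at hs
      have : 0 < 2 ^ n := by positivity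
      omega
  obtain ⟨L, hL⟩ : ∃ L, L = Nat.log 2 c := ⟨_, rfl⟩
  have hL1 : L ≤ 2 * A * lam := by
    have : L ≤ A + lam * A := by
      rw [hL]
      apply log_le_Num
      calc c ≤ A * n ^ A := hc
        _ ≤ 2 ^ A * (2 ^ lam) ^ A := by
            gcongr
            · exact le_two_pow_Num _
            · omega
        _ = 2 ^ (A + lam * A) := by rw [← pow_mul, ← pow_add]
    nlinarith
  have hc2 : c ≤ 2 ^ (L + 1) := by
    rw [hL]; exact (Nat.lt_pow_succ_log_self (by norm_num) c).le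
  have hdc : (c ^ n).divisors.card ≤ 2 ^ ((1 + 2 * A) * (2 * A) * lam ^ 2) := by
    refine le_trans (card_divisors_pow_le c n) ?_
    rw [← hL]
    have h1 : n * L + 1 ≤ 2 ^ (lam + L) := by
      have : L + 1 ≤ 2 ^ L := Nat.lt_two_pow_self
      calc n * L + 1 ≤ (n + 1) * (L + 1) := by nlinarith
        _ ≤ 2 ^ lam * 2 ^ L := Nat.mul_le_mul hn this
        _ = 2 ^ (lam + L) := by rw [pow_add]
    calc (n * L + 1) ^ L ≤ (2 ^ (lam + L)) ^ L := Nat.pow_le_pow_left h1 _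
      _ = 2 ^ ((lam + L) * L) := by rw [← pow_mul]
      _ ≤ _ := by
          apply Nat.pow_le_pow_right (by norm_num)
          calc (lam + L) * L ≤ (lam + 2 * A * lam) * (2 * A * lam) := by gcongr
            _ = _ := by ring
  obtain ⟨d, hd⟩ : ∃ d, d = (c ^ n * T).divisors.card := ⟨_, rfl⟩
  rw [← hd] at hsle
  have hd1 : d ≤ 2 ^ ((1 + 2 * A) * (2 * A) * lam ^ 2) * T.divisors.card := by
    rw [hd]
    exact le_trans (card_divisors_mul_le _ _) (Nat.mul_le_mul_right _ hdc)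
  have hd2 : d ≤ 2 ^ ((L + 1) * n + 4 * n) := by
    calc d ≤ c ^ n * T := by rw [hd]; exact Nat.card_divisors_le_self _
      _ ≤ (2 ^ (L + 1)) ^ n * 16 ^ n := by gcongr
      _ = 2 ^ ((L + 1) * n + 4 * n) := by
          rw [← pow_mul, pow_add, pow_mul 2 4 n]; norm_num
  have hlog : Nat.log 2 (2 * m * d * 2 ^ n) ≤ 1 + m + ((L + 1) * n + 4 * n) + n := by
    apply log_le_Num
    calc 2 * m * d * 2 ^ n ≤ 2 * 2 ^ m * 2 ^ ((L + 1) * n + 4 * n) * 2 ^ n := by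
          gcongr
          exact le_two_pow_Num _
      _ = _ := by ring
  have hlog2 : Nat.log 2 (2 * m * d * 2 ^ n) + 1 ≤ 2 ^ ((9 + m + 2 * A) * lam ^ 2) := by
    calc Nat.log 2 (2 * m * d * 2 ^ n) + 1 ≤ (8 + m + L) * (n + 1) := by nlinarith
      _ ≤ 2 ^ (8 + m + L) * 2 ^ lam := Nat.mul_le_mul (le_two_pow_Num _) hn
      _ = 2 ^ (8 + m + L + lam) := by rw [← pow_add]
      _ ≤ _ := by
          apply Nat.pow_le_pow_right (by norm_num)
          have e1 : lam ≤ lam ^ 2 := by nlinarith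
          calc 8 + m + L + lam ≤ (9 + m + 2 * A) * lam := by nlinarith
            _ ≤ _ := Nat.mul_le_mul_left _ e1
  have hs2 : s ≤ 2 ^ (K * lam ^ 2) * T.divisors.card := by
    have e1 : lam ≤ lam ^ 2 := by nlinarith
    have e2 : m ≤ m * lam ^ 2 := Nat.le_mul_of_pos_right _ (by positivity)
    have e3 : n + 1 ≤ 2 ^ (lam ^ 2) := le_trans hn (Nat.pow_le_pow_right (by norm_num) e1)
    have e4 : m ≤ 2 ^ (m * lam ^ 2) :=
      le_trans (le_two_pow_Num _) (Nat.pow_le_pow_right (by norm_num) e2)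
    calc s ≤ (n + 1) * (m * d * (Nat.log 2 (2 * m * d * 2 ^ n) + 1)) := hsle
      _ ≤ 2 ^ (lam ^ 2) * (2 ^ (m * lam ^ 2) *
            (2 ^ ((1 + 2 * A) * (2 * A) * lam ^ 2) * T.divisors.card) *
            2 ^ ((9 + m + 2 * A) * lam ^ 2)) :=
          Nat.mul_le_mul e3 (Nat.mul_le_mul (Nat.mul_le_mul e4 hd1) hlog2)
      _ = 2 ^ (lam ^ 2 + m * lam ^ 2 + (1 + 2 * A) * (2 * A) * lam ^ 2 +
            (9 + m + 2 * A) * lam ^ 2) * T.divisors.card := by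
          simp only [pow_add (2 : ℕ)]; ring
      _ = _ := by rw [hK]; congr 2; ring
  have hfin : 2 ^ (8 * n) ≤ 2 ^ (8 * K * B * lam ^ 2 + C + 4 * n) := by
    calc 2 ^ (8 * n) = (2 ^ n) ^ 8 := by rw [← pow_mul, mul_comm]
      _ ≤ (s ^ B) ^ 8 := Nat.pow_le_pow_left hs _
      _ = s ^ (8 * B) := by rw [← pow_mul, mul_comm]
      _ ≤ (2 ^ (K * lam ^ 2) * T.divisors.card) ^ (8 * B) := Nat.pow_le_pow_left hs2 _
      _ = 2 ^ (8 * K * B * lam ^ 2) * T.divisors.card ^ (8 * B) := by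
          rw [mul_pow, ← pow_mul]; congr 2; ring
      _ ≤ 2 ^ (8 * K * B * lam ^ 2) * (2 ^ C * 16 ^ n) := by
          refine Nat.mul_le_mul_left _ (le_trans (hC T hT0.ne') ?_)
          exact Nat.mul_le_mul (le_two_pow_Num _) hT
      _ = _ := by
          rw [pow_add, pow_add, pow_mul 2 4 n, ← mul_assoc]; norm_num
  have hfin2 : 8 * n ≤ 8 * K * B * lam ^ 2 + C + 4 * n :=
    (Nat.pow_le_pow_iff_right (by norm_num)).1 hfin
  have e2 : C ≤ C * lam ^ 2 := Nat.le_mul_of_pos_right _ (by positivity)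
  calc n ≤ 8 * K * B * lam ^ 2 + C * lam ^ 2 := by omega
    _ = _ := by ring

end Pool.Agent.Lib.MP_98dfd6_al
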