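import Pool.Agent.Lib.MP_98dfd6_al.NumA

/-! Numerical lemmas for primitive groups. -/

namespace Pool.Agent.Lib.MP_98dfd6_al

open MulAction

theorem pow_log_succ_le (b : ℕ) : b ^ (Nat.log 2 b + 1) ≤ 2 ^ ((Nat.log 2 b + 1) ^ 2) := by
  rw [sq, pow_mul]
  exact Nat.pow_le_pow_left (Nat.lt_pow_succ_log_self (by norm_num) b).le _

theorem sq_add_four_le (l : ℕ) : (l + 1 + 1) ^ 2 + 4 ≤ 4 * 2 ^ (l + 1) := by
  induction l with
  | zero => norm_num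
  | succ l ih =>
    have h := Nat.lt_two_pow_self (n := l + 1)
    rw [pow_succ 2 (l + 1)]
    nlinarith

theorem geom_modEq (Z l : ℕ) : ∑ i ∈ Finset.range l, (Z + 1) ^ i ≡ l [MOD Z] := by
  induction l with
  | zero => simp [Nat.ModEq]
  | succ l ih =>
    rw [Finset.sum_range_succ]
    refine ih.add ?_
    have h : Z + 1 ≡ 1 [MOD Z] := by simp [Nat.ModEq]
    simpa using h.pow l

theorem pow_dvd_mul_aux {p a u v : ℕ} (hp : p.Prime) (hu : ¬p ^ 2 ∣ u) (h : p ^ a ∣ u * v) :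
    p ^ a ∣ p * v := by
  by_cases h1 : p ∣ u
  · obtain ⟨w, rfl⟩ := h1
    have h2 : ¬p ∣ w := fun h3 => hu (by rw [sq]; exact Nat.mul_dvd_mul_left p h3)
    have h3 : (p ^ a).Coprime w := Nat.Coprime.pow_left a (hp.coprime_iff_not_dvd.mpr h2)
    exact h3.dvd_of_dvd_mul_right (by rwa [mul_right_comm] at h)
  · have h3 : (p ^ a).Coprime u := Nat.Coprime.pow_left a (hp.coprime_iff_not_dvd.mpr h1)
    exact (h3.dvd_of_dvd_mul_left h).mul_left p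

theorem lte_aux {p Z l a : ℕ} (hp : p.Prime) (hZ : 1 ≤ Z) (hl : l.Prime)
    (h : p ^ a ∣ (Z + 1) ^ l - 1) :
    ∃ Θ, p ^ a * Θ ≤ 2 * p * (Z + 1) ^ l ∧ (Z + 1) ^ l ≤ Θ ^ p := by
  obtain ⟨Φ, hΦ⟩ : ∃ Φ, Φ = ∑ i ∈ Finset.range l, (Z + 1) ^ i := ⟨_, rfl⟩
  have hid : Φ * Z + 1 = (Z + 1) ^ l := hΦ ▸ geom_sum_mul_add Z l
  have hmod : Φ ≡ l [MOD Z] := hΦ ▸ geom_modEq Z l
  have hdvd : ∀ d, d ∣ Z → d ∣ Φ → d ∣ l := fun d h1 h2 =>
    ((hmod.of_dvd h1).dvd_iff dvd_rfl).mp h2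
  have h1 : p ^ a ∣ Φ * Z := by
    rw [← hid] at h
    simpa using h
  have hZΦ : Z + 1 ≤ Φ := by
    rw [hΦ]
    have h2 := Finset.single_le_sum (f := fun i => (Z + 1) ^ i) (fun i _ => Nat.zero_le _)
      (Finset.mem_range.mpr hl.one_lt)
    simpa using h2
  have hp0 := hp.pos
  rcases le_or_gt l p with hlp | hlp
  · refine ⟨Z + 1, ?_, Nat.pow_le_pow_right (by omega) hlp⟩
    have h2 : p ^ a ≤ p * Φ := by
      by_cases h3 : p ^ 2 ∣ Z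
      · have h4 : ¬p ^ 2 ∣ Φ := fun h4 => by
          have h5 := (Nat.dvd_prime hl).mp (hdvd _ h3 h4)
          rcases h5 with h5 | h5
          · nlinarith [hp.two_le]
          · exact Nat.Prime.not_prime_pow (n := 2) (by norm_num) (h5 ▸ hl)
        exact (Nat.le_of_dvd (by positivity) (pow_dvd_mul_aux hp h4 h1)).trans
          (Nat.mul_le_mul_left p (by omega))
      · exact Nat.le_of_dvd (Nat.mul_pos hp0 (by omega))
          (pow_dvd_mul_aux hp h3 (by rwa [mul_comm] at h1))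
    calc p ^ a * (Z + 1) ≤ p * Φ * (2 * Z) := Nat.mul_le_mul h2 (by omega)
      _ = 2 * p * (Φ * Z) := by ring
      _ ≤ _ := Nat.mul_le_mul_left _ (by omega)
  · have hnd : ¬p ∣ Φ := fun h2 => by
      have := Fact.mk hp
      have h3 : ((Z + 1 : ℕ) : ZMod p) ^ l = 1 := by
        rw [← Nat.cast_pow, ← hid]
        obtain ⟨w, rfl⟩ := h2
        simp
      have h4 : ((Z + 1 : ℕ) : ZMod p) ≠ 0 := fun h5 => by
        rw [h5, zero_pow hl.ne_zero] at h3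
        exact zero_ne_one h3
      have h5 := orderOf_dvd_of_pow_eq_one h3
      have h6 := ZMod.orderOf_dvd_card_sub_one h4
      rcases (Nat.dvd_prime hl).mp h5 with h7 | h7
      · have h8 := orderOf_eq_one_iff.mp h7
        have h9 : p ∣ Z := by
          rw [← ZMod.natCast_eq_zero_iff]
          simpa using h8
        have := (Nat.prime_dvd_prime_iff_eq hp hl).mp (hdvd _ h9 h2)
        omega
      · rw [h7] at h6
        have := Nat.le_of_dvd (by have := hp.two_le; omega) h6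
        omega
    have h3 : (p ^ a).Coprime Φ := Nat.Coprime.pow_left a (hp.coprime_iff_not_dvd.mpr hnd)
    have h4 : p ^ a ≤ Z := Nat.le_of_dvd hZ (h3.dvd_of_dvd_mul_left h1)
    obtain ⟨n, rfl⟩ : ∃ n, l = n + 1 := ⟨l - 1, by omega⟩
    refine ⟨(Z + 1) ^ n, ?_, ?_⟩
    · rw [pow_succ]
      have h5 : p ^ a ≤ 2 * p * (Z + 1) := by nlinarith
      calc _ ≤ 2 * p * (Z + 1) * (Z + 1) ^ n := Nat.mul_le_mul_right _ h5
        _ = _ := by ring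
    · rw [← pow_mul]
      refine Nat.pow_le_pow_right (by omega) ?_
      have := hp.two_le
      nlinarith

theorem num_prim {b : ℕ} (hb : 1 ≤ b) : b ^ (Nat.log 2 b + 1) ≤ 16 ^ (b - 1) := by
  rcases hb.eq_or_lt with rfl | hb
  · simp
  · refine (pow_log_succ_le b).trans ?_
    have h1 : 1 ≤ Nat.log 2 b := Nat.le_log_of_pow_le (by norm_num) hb
    obtain ⟨l, hl⟩ : ∃ l, Nat.log 2 b = l + 1 := ⟨Nat.log 2 b - 1, by omega⟩
    have h2 := Nat.pow_log_le_self 2 (x := b) (by omega)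
    have h3 := sq_add_four_le l
    rw [hl] at h2 ⊢
    rw [show (16 : ℕ) = 2 ^ 4 by norm_num, ← pow_mul]
    exact Nat.pow_le_pow_right (by norm_num) (by omega)

theorem num_fam : ∃ b₀, ∀ b, b₀ < b → 256 * (b ^ (Nat.log 2 b + 1)) ^ 2 ≤ 2 ^ b := by
  obtain ⟨n₀, h₀⟩ := le_of_le_log_sq 10
  refine ⟨n₀, fun b hb => ?_⟩
  have h1 : 10 * (Nat.log 2 b + 1) ^ 2 < b := by
    by_contra h
    have := h₀ b (by omega)
    omega
  have h2 : 1 ≤ (Nat.log 2 b + 1) ^ 2 := Nat.one_le_pow _ _ (by omega)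
  calc 256 * (b ^ (Nat.log 2 b + 1)) ^ 2 ≤ 2 ^ 8 * (2 ^ ((Nat.log 2 b + 1) ^ 2)) ^ 2 :=
        Nat.mul_le_mul (by norm_num) (Nat.pow_le_pow_left (pow_log_succ_le b) 2)
    _ = 2 ^ (8 + (Nat.log 2 b + 1) ^ 2 * 2) := by rw [← pow_mul, ← pow_add]
    _ ≤ 2 ^ b := Nat.pow_le_pow_right (by norm_num) (by omega)

theorem lte_theta {p y f a : ℕ} (hp : p.Prime) (hy : 2 ≤ y) (hf : 2 ≤ f) (h : p ^ a ∣ y ^ f - 1) :
    ∃ Θ, p ^ a * Θ ≤ 2 * p * y ^ f ∧ y ^ f ≤ Θ ^ p := by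
  obtain ⟨g, hg⟩ := Nat.minFac_dvd f
  have hl : f.minFac.Prime := Nat.minFac_prime (by omega)
  have hg0 : g ≠ 0 := by rintro rfl; omega
  have h1 : 2 ≤ y ^ g := hy.trans (Nat.le_self_pow hg0 y)
  obtain ⟨Z, hZ⟩ : ∃ Z, y ^ g = Z + 1 := ⟨y ^ g - 1, by omega⟩
  have h2 : y ^ f = (Z + 1) ^ f.minFac := by
    rw [← hZ, ← pow_mul, mul_comm, ← hg]
  rw [h2] at h ⊢
  exact lte_aux hp (by omega) hl h

theorem num_galois (m : ℕ) {p : ℕ} (hp : p.Prime) : ∃ C, ∀ m' y f a c : ℕ, 2 ≤ y → 2 ≤ f →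
    p ^ a * c ∣ y ^ f - 1 → c ≤ m' * f ^ 2 → y ^ f - 1 ≤ m * (p ^ a * c) * f ^ 2 →
    y ^ f ≤ C * m' ^ (2 * p) := by
  obtain ⟨C, hC⟩ := pow_le_two_pow (8 * p)
  refine ⟨(4 * p * m) ^ (2 * p) * C, fun m' y f a c hy hf hd hc hm => ?_⟩
  obtain ⟨Θ, h1, h2⟩ := lte_theta hp hy hf ((Dvd.intro _ rfl).trans hd)
  have h3 : 2 ^ f ≤ y ^ f := Nat.pow_le_pow_left hy f
  have h4 : 2 ≤ y ^ f := hy.trans (Nat.le_self_pow (by omega) y)
  generalize y ^ f = N at *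
  have h5 : Θ ≤ 4 * p * m * m' * f ^ 4 := by
    refine Nat.le_of_mul_le_mul_right ?_ (show 0 < N by omega)
    calc Θ * N ≤ Θ * (2 * (m * (p ^ a * c) * f ^ 2)) := Nat.mul_le_mul_left _ (by omega)
      _ = 2 * m * f ^ 2 * (c * (p ^ a * Θ)) := by ring
      _ ≤ 2 * m * f ^ 2 * (m' * f ^ 2 * (2 * p * N)) :=
        Nat.mul_le_mul_left _ (Nat.mul_le_mul hc h1)
      _ = _ := by ring
  refine Nat.le_of_mul_le_mul_right ?_ (show 0 < N by omega)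
  have h6 := h2.trans (Nat.pow_le_pow_left h5 p)
  calc N * N ≤ (4 * p * m * m' * f ^ 4) ^ p * (4 * p * m * m' * f ^ 4) ^ p := Nat.mul_le_mul h6 h6
    _ = (4 * p * m) ^ (2 * p) * m' ^ (2 * p) * f ^ (8 * p) := by
      rw [← pow_add, ← two_mul, mul_pow, mul_pow, ← pow_mul, show 4 * (2 * p) = 8 * p by ring]
    _ ≤ (4 * p * m) ^ (2 * p) * m' ^ (2 * p) * (C * N) :=
      Nat.mul_le_mul_left _ ((hC f).trans (Nat.mul_le_mul_left _ h3))
    _ = _ := by ring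

theorem num_sympl (m : ℕ) : ∃ C, ∀ q e f r z t : ℕ, 2 ≤ e → 2 ≤ q → 2 ^ f ≤ q → z ≤ q - 1 →
    r ≤ e ^ 2 → t ≤ f * (r * r ^ Nat.log 2 r) → q ^ e - 1 ≤ m * z * t ^ 2 → q ^ e ≤ C := by
  obtain ⟨C, hC⟩ := pow_le_two_pow 8
  obtain ⟨C', hC'⟩ := two_pow_log_sq_le 72
  refine ⟨m ^ 4 * C * C', fun q e f r z t he hq hf hz hr ht hm => ?_⟩
  obtain ⟨n, rfl⟩ : ∃ n, e = n + 1 := ⟨e - 1, by omega⟩
  have hqD : q ≤ q ^ n := Nat.le_self_pow (by omega) q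
  have h2D : 2 ^ n ≤ q ^ n := Nat.pow_le_pow_left hq n
  have hR : (r * r ^ Nat.log 2 r) ^ 8 ≤ C' * q ^ n := by
    have h1 : n + 1 ≤ 2 ^ (Nat.log 2 n + 1) := Nat.lt_pow_succ_log_self (by norm_num) n
    have h2 : r ≤ 2 ^ ((Nat.log 2 n + 1) * 2) := by
      rw [pow_mul]
      exact hr.trans (Nat.pow_le_pow_left h1 2)
    have h3 : Nat.log 2 r ≤ (Nat.log 2 n + 1) * 2 := by
      have := Nat.log_mono_right (b := 2) h2
      rwa [Nat.log_pow (by norm_num)] at this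
    have h4 : (Nat.log 2 r + 1) ^ 2 ≤ (3 * (Nat.log 2 n + 1)) ^ 2 :=
      Nat.pow_le_pow_left (by omega) 2
    rw [← pow_succ']
    calc _ ≤ (2 ^ ((Nat.log 2 r + 1) ^ 2)) ^ 8 := Nat.pow_le_pow_left (pow_log_succ_le r) 8
      _ ≤ 2 ^ (72 * (Nat.log 2 n + 1) ^ 2) := by
        rw [← pow_mul]
        exact Nat.pow_le_pow_right (by norm_num) (by nlinarith)
      _ ≤ _ := (hC' n).trans (Nat.mul_le_mul_left _ h2D)
  have hF : f ^ 8 ≤ C * q ^ n := (hC f).trans (Nat.mul_le_mul_left _ (hf.trans hqD))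
  rw [pow_succ] at hm ⊢
  generalize q ^ n = D at *
  generalize r * r ^ Nat.log 2 r = R at *
  obtain ⟨w, rfl⟩ : ∃ w, q = w + 1 := ⟨q - 1, by omega⟩
  have h5 : D ≤ m * (f * R) ^ 2 := by
    refine Nat.le_of_mul_le_mul_right ?_ (show 0 < w by omega)
    calc D * w ≤ D * (w + 1) - 1 := by rw [mul_add, mul_one]; omega
      _ ≤ m * z * t ^ 2 := hm
      _ ≤ m * w * (f * R) ^ 2 :=
        Nat.mul_le_mul (Nat.mul_le_mul_left _ (by omega)) (Nat.pow_le_pow_left ht 2)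
      _ = _ := by ring
  refine (Nat.mul_le_mul_left D hqD).trans ?_
  refine Nat.le_of_mul_le_mul_right ?_ (show 0 < D * D from Nat.mul_pos (by omega) (by omega))
  calc D * D * (D * D) = D ^ 4 := by ring
    _ ≤ (m * (f * R) ^ 2) ^ 4 := Nat.pow_le_pow_left h5 4
    _ = m ^ 4 * (f ^ 8 * R ^ 8) := by ring
    _ ≤ m ^ 4 * (C * D * (C' * D)) := Nat.mul_le_mul_left _ (Nat.mul_le_mul hF hR)
    _ = _ := by ring

end Pool.Agent.Lib.MP_98dfd6_al
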