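import Pool.Agent.Lib.MP_98dfd6_al.Base

/-! Divisor bounds. -/

namespace Pool.Agent.Lib.MP_98dfd6_al

open MulAction

theorem card_divisors_mul_le (a b : ℕ) :
    (a * b).divisors.card ≤ a.divisors.card * b.divisors.card := by
  rw [Nat.divisors_mul]
  exact Finset.card_mul_le

theorem factorization_le_log_NumA (c q : ℕ) (hc : c ≠ 0) (hq : q.Prime) :
    c.factorization q ≤ Nat.log 2 c := by
  apply Nat.le_log_of_pow_le (by norm_num)
  calc 2 ^ c.factorization q ≤ q ^ c.factorization q := Nat.pow_le_pow_left hq.two_le _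
    _ ≤ c := Nat.le_of_dvd (Nat.pos_of_ne_zero hc) (Nat.ordProj_dvd c q)

theorem card_primeFactors_le_log_NumA (c : ℕ) (hc : c ≠ 0) :
    c.primeFactors.card ≤ Nat.log 2 c := by
  apply Nat.le_log_of_pow_le (by norm_num)
  calc 2 ^ c.primeFactors.card = ∏ _q ∈ c.primeFactors, 2 := by simp
    _ ≤ ∏ q ∈ c.primeFactors, q :=
        Finset.prod_le_prod' fun q hq => (Nat.prime_of_mem_primeFactors hq).two_le
    _ ≤ c := Nat.le_of_dvd (Nat.pos_of_ne_zero hc) (Nat.prod_primeFactors_dvd c)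

theorem card_divisors_pow_le (c n : ℕ) :
    (c ^ n).divisors.card ≤ (n * Nat.log 2 c + 1) ^ Nat.log 2 c := by
  rcases Nat.eq_zero_or_pos n with rfl | hn
  · simp
  rcases Nat.eq_zero_or_pos c with rfl | hc
  · simp [zero_pow hn.ne']
  have hc' : c ≠ 0 := hc.ne'
  rw [Nat.card_divisors (pow_ne_zero n hc'), Nat.primeFactors_pow c hn.ne']
  calc ∏ x ∈ c.primeFactors, ((c ^ n).factorization x + 1)
      ≤ ∏ _x ∈ c.primeFactors, (n * Nat.log 2 c + 1) := by
        refine Finset.prod_le_prod' fun q hq => ?_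
        rw [Nat.factorization_pow]
        simp only [Finsupp.smul_apply, smul_eq_mul]
        exact Nat.succ_le_succ (Nat.mul_le_mul_left n
          (factorization_le_log_NumA c q hc' (Nat.prime_of_mem_primeFactors hq)))
    _ = (n * Nat.log 2 c + 1) ^ c.primeFactors.card := by simp
    _ ≤ (n * Nat.log 2 c + 1) ^ Nat.log 2 c :=
        Nat.pow_le_pow_right (Nat.succ_pos _) (card_primeFactors_le_log_NumA c hc')

theorem pow_le_two_pow_NumA (k : ℕ) : ∃ C, ∀ f : ℕ, f ^ k ≤ C * 2 ^ f := by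
  refine ⟨k.factorial * 2 ^ k, fun f => ?_⟩
  have h1 : f ^ k ≤ (f + 1).ascFactorial k :=
    le_trans (Nat.pow_le_pow_left (Nat.le_succ f) k) (Nat.pow_succ_le_ascFactorial (f + 1) k)
  rw [Nat.ascFactorial_eq_factorial_mul_choose] at h1
  have h2 : (f + k).choose k ≤ 2 ^ (f + k) := Nat.choose_le_two_pow _ _
  calc f ^ k ≤ k.factorial * (f + k).choose k := h1
    _ ≤ k.factorial * 2 ^ (f + k) := Nat.mul_le_mul_left _ h2
    _ = k.factorial * 2 ^ k * 2 ^ f := by ring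

theorem card_divisors_pow_k (k : ℕ) : ∃ C, ∀ N : ℕ, N ≠ 0 → N.divisors.card ^ k ≤ C * N := by
  obtain ⟨c, hc⟩ := pow_le_two_pow_NumA k
  set D := 2 * c + 1 with hD
  refine ⟨D ^ 2 ^ k, fun N hN => ?_⟩
  have key : ∀ q ∈ N.primeFactors, (N.factorization q + 1) ^ k ≤
      (if q < 2 ^ k then D else 1) * q ^ N.factorization q := by
    intro q hq
    have hq2 := (Nat.prime_of_mem_primeFactors hq).two_le
    set v := N.factorization q
    split_ifs with h
    · calc (v + 1) ^ k ≤ c * 2 ^ (v + 1) := hc _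
        _ = (2 * c) * 2 ^ v := by ring
        _ ≤ D * q ^ v := Nat.mul_le_mul (by omega) (Nat.pow_le_pow_left hq2 _)
    · calc (v + 1) ^ k ≤ (2 ^ v) ^ k := Nat.pow_le_pow_left (Nat.lt_two_pow_self) _
        _ = (2 ^ k) ^ v := by rw [← pow_mul, ← pow_mul, mul_comm]
        _ ≤ q ^ v := Nat.pow_le_pow_left (by omega) _
        _ = 1 * q ^ v := (one_mul _).symm
  have hprod : ∏ q ∈ N.primeFactors, q ^ N.factorization q = N := by
    conv_rhs => rw [← Nat.prod_factorization_pow_eq_self hN]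
    rfl
  have hsmall : ∏ q ∈ N.primeFactors, (if q < 2 ^ k then D else 1) ≤ D ^ 2 ^ k := by
    rw [Finset.prod_ite, Finset.prod_const_one, mul_one, Finset.prod_const]
    apply Nat.pow_le_pow_right (by omega)
    calc (N.primeFactors.filter fun q => q < 2 ^ k).card ≤ (Finset.range (2 ^ k)).card :=
          Finset.card_le_card fun q hq => Finset.mem_range.2 (Finset.mem_filter.1 hq).2
      _ = 2 ^ k := Finset.card_range _
  rw [Nat.card_divisors hN, ← Finset.prod_pow]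
  calc ∏ q ∈ N.primeFactors, (N.factorization q + 1) ^ k
      ≤ ∏ q ∈ N.primeFactors, ((if q < 2 ^ k then D else 1) * q ^ N.factorization q) :=
        Finset.prod_le_prod' key
    _ = (∏ q ∈ N.primeFactors, (if q < 2 ^ k then D else 1)) * N := by
        rw [Finset.prod_mul_distrib, hprod]
    _ ≤ D ^ 2 ^ k * N := Nat.mul_le_mul_right _ hsmall

theorem le_of_le_log_sq (A : ℕ) : ∃ n₀, ∀ n, n ≤ A * (Nat.log 2 n + 1) ^ 2 → n ≤ n₀ := by
  obtain ⟨C, hC⟩ := pow_le_two_pow_NumA 3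
  refine ⟨2 ^ (2 * A * C), fun n hn => ?_⟩
  rcases Nat.eq_zero_or_pos n with rfl | hpos
  · exact Nat.zero_le _
  set l := Nat.log 2 n with hl
  have h1 : 2 ^ l ≤ n := Nat.pow_log_le_self 2 hpos.ne'
  have h2 : n < 2 ^ (l + 1) := Nat.lt_pow_succ_log_self (by norm_num) n
  have h3 : (l + 1) ^ 3 ≤ C * 2 ^ (l + 1) := hC _
  have h4 : (l + 1) * 2 ^ l ≤ (2 * A * C) * 2 ^ l := by
    calc (l + 1) * 2 ^ l ≤ (l + 1) * (A * (l + 1) ^ 2) := Nat.mul_le_mul_left _ (h1.trans hn)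
      _ = A * (l + 1) ^ 3 := by ring
      _ ≤ A * (C * 2 ^ (l + 1)) := Nat.mul_le_mul_left _ h3
      _ = (2 * A * C) * 2 ^ l := by ring
  have h5 : l + 1 ≤ 2 * A * C := Nat.le_of_mul_le_mul_right h4 (by positivity)
  exact h2.le.trans (Nat.pow_le_pow_right (by norm_num) h5)

theorem two_pow_log_sq_le (A : ℕ) : ∃ C, ∀ n, 2 ^ (A * (Nat.log 2 n + 1) ^ 2) ≤ C * 2 ^ n := by
  obtain ⟨n₀, h₀⟩ := le_of_le_log_sq A
  refine ⟨2 ^ (A * (Nat.log 2 n₀ + 1) ^ 2), fun n => ?_⟩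
  by_cases h : n ≤ A * (Nat.log 2 n + 1) ^ 2
  · have hn := h₀ n h
    have hl : Nat.log 2 n ≤ Nat.log 2 n₀ := Nat.log_mono_right hn
    calc 2 ^ (A * (Nat.log 2 n + 1) ^ 2) ≤ 2 ^ (A * (Nat.log 2 n₀ + 1) ^ 2) :=
          Nat.pow_le_pow_right (by norm_num)
            (Nat.mul_le_mul_left _ (Nat.pow_le_pow_left (Nat.succ_le_succ hl) _))
      _ ≤ 2 ^ (A * (Nat.log 2 n₀ + 1) ^ 2) * 2 ^ n := Nat.le_mul_of_pos_right _ (by positivity)
  · calc 2 ^ (A * (Nat.log 2 n + 1) ^ 2) ≤ 2 ^ n :=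
          Nat.pow_le_pow_right (by norm_num) (by omega)
      _ ≤ 2 ^ (A * (Nat.log 2 n₀ + 1) ^ 2) * 2 ^ n := Nat.le_mul_of_pos_left _ (by positivity)

theorem pow_le_two_pow (k : ℕ) : ∃ C, ∀ f : ℕ, f ^ k ≤ C * 2 ^ f :=
  pow_le_two_pow_NumA k

end Pool.Agent.Lib.MP_98dfd6_al
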