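import Pool.Agent.Lib.MP_98dfd6_al.Rep1b

/-! From Brauer degrees to linear characters and orbits. -/

namespace Pool.Agent.Lib.MP_98dfd6_al

open MulAction

variable {k G : Type} [Field k] [Group G] [Finite G] {m : ℕ}

omit [Finite G] in
theorem equiv_apply_rep2 {V W : Type} [AddCommGroup V] [Module k V] [AddCommGroup W] [Module k W]
    {ρ : Representation k G V} {σ : Representation k G W} (e : ρ.Equiv σ) (g : G) (v : V) :
    e.toLinearMap (ρ g v) = σ g (e.toLinearMap v) :=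
  LinearMap.congr_fun (e.toIntertwiningMap.isIntertwining' g) v

theorem comp_ne_zero_rep2 {V W : Type} [AddCommGroup V] [Module k V] [AddCommGroup W]
    [Module k W] {φ : W →ₗ[k] k} (hφ : φ ≠ 0) (e : V →ₗ[k] W) (he : Function.Surjective e) :
    φ ∘ₗ e ≠ 0 := by
  intro h
  apply hφ
  ext w
  obtain ⟨v, rfl⟩ := he w
  exact LinearMap.congr_fun h v

theorem val_inj_rep2 {H : Type} [Group H] :
    Function.Injective fun (x : H →* kˣ) (u : H) => (x u : k) := by
  intro x y h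
  ext u
  exact congrFun h u

theorem fibre_rep2 (hB : BrLe k G m) (N : Subgroup G) (d : ℕ) (S : Finset (N →* kˣ))
    (hS : ∀ lam ∈ S, ∃ (ρ : Representation k G (Fin d → k)) (φ : (Fin d → k) →ₗ[k] k),
      ρ.IsIrreducible ∧ φ ≠ 0 ∧ ∀ (u : N) (v), φ (ρ u v) = lam u * φ v) : S.card ≤ m * d := by
  choose ρ φ hi h0 he using hS
  have h := class_count hB (ι := S) (c := d) (fun i => ρ i.1 i.2) (fun i => hi i.1 i.2)
    fun i T hT => by
      have e : ∀ j : T, (ρ i.1 i.2).Equiv (ρ j.1.1 j.1.2) := fun j => (hT j.1 j.2).some.symm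
      have h1 := card_le_of_eigen (ι := T) (fun u : N => ρ i.1 i.2 u)
        (fun j => φ j.1.1 j.1.2 ∘ₗ (e j).toLinearMap)
        (fun j u => (j.1.1 u : k))
        (fun j => comp_ne_zero_rep2 (h0 _ _) _ (e j).toLinearEquiv.surjective)
        (fun a b hab => Subtype.ext (Subtype.ext (val_inj_rep2 hab)))
        fun j u v => by
          simp only [LinearMap.comp_apply]
          rw [equiv_apply_rep2, he]
      rwa [Fintype.card_coe] at h1
  rwa [Fintype.card_coe] at h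

theorem BrLe.card_hom (hB : BrLe k G m) (N : Subgroup G) :
    Nat.card (N →* kˣ) ≤ m * N.index ^ 2 := by
  classical
  have := (card_hom_le k N).1
  have := Fintype.ofFinite (N →* kˣ)
  choose d ρ φ hi hd h0 he using exists_simple_char (k := k) N
  have h1 : ∀ lam, d lam ∈ Finset.Icc 1 N.index := by
    intro lam
    refine Finset.mem_Icc.2 ⟨Nat.pos_of_ne_zero fun h => h0 lam ?_, hd lam⟩
    have : IsEmpty (Fin (d lam)) := by rw [h]; infer_instance
    exact Subsingleton.elim _ _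
  have h2 := Finset.card_le_mul_card_image_of_maps_to (s := Finset.univ) (f := d)
    (t := Finset.Icc 1 N.index) (fun lam _ => h1 lam) (m * N.index) fun b hb => by
      refine (fibre_rep2 hB N b _ fun lam hl => ?_).trans
        (Nat.mul_le_mul_left m (Finset.mem_Icc.1 hb).2)
      obtain rfl : d lam = b := (Finset.mem_filter.1 hl).2
      exact ⟨ρ lam, φ lam, hi lam, h0 lam, he lam⟩
  rw [Finset.card_univ, Nat.card_Icc, Nat.add_sub_cancel] at h2
  rw [Nat.card_eq_fintype_card, pow_two, ← mul_assoc]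
  exact h2

theorem BrLe.lin {p : ℕ} [Fact p.Prime] [IsAlgClosed k] [CharP k p] (hB : BrLe k G m) :
    Lin p G m := by
  intro N L hL hc
  have := (card_hom_le k N).1
  rw [← ch_card_eq (k := k) N L hL hc]
  refine le_trans (Nat.card_le_card_of_injective Ch.val fun x y h => Ch.ext fun f => ?_)
    (hB.card_hom N)
  rw [h]

omit [Finite G] in
theorem cjc_mul_rep2 {F : Subgroup G} [F.Normal] (a b : G) (x : F →* kˣ) :
    cjc (a * b) x = cjc a (cjc b x) := by
  ext f
  rw [cjc_apply, cjc_apply, cjc_apply, mul_inv_rev, map_mul, MulAut.mul_apply]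

omit [Finite G] in
theorem cjc_one_rep2 {F : Subgroup G} [F.Normal] (x : F →* kˣ) : cjc (1 : G) x = x := by
  ext f
  rw [cjc_apply, inv_one, map_one, MulAut.one_apply]

omit [Finite G] in
theorem cjc_mem_rep2 {F : Subgroup G} [F.Normal] (x : F →* kˣ) (f : F) : cjc (f : G) x = x := by
  ext f'
  have e : MulAut.conjNormal (f : G)⁻¹ f' = f⁻¹ * f' * f := by
    apply Subtype.ext
    rw [MulAut.conjNormal_apply, inv_inv]
    rfl
  rw [cjc_apply, e, map_mul, map_mul, map_inv, inv_mul_cancel_comm]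

omit [Finite G] in
theorem cjc_inj_rep2 {F : Subgroup G} [F.Normal] {x : F →* kˣ} {U : Subgroup G}
    (hU : ∀ g, g ∈ U ↔ cjc g x = x) : Function.Injective fun q : G ⧸ U => cjc q.out x := by
  intro a b h
  have h' : cjc a.out x = cjc b.out x := h
  rw [← a.out_eq', ← b.out_eq', QuotientGroup.eq, hU, cjc_mul_rep2, ← h', ← cjc_mul_rep2,
    inv_mul_cancel, cjc_one_rep2]

omit [Finite G] in
theorem conj_eig_rep2 {F : Subgroup G} [F.Normal] {V : Type} [AddCommGroup V] [Module k V]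
    (ρ : Representation k G V) {φ : V →ₗ[k] k} {x : F →* kˣ}
    (he : ∀ (f : F) (v), φ (ρ f v) = x f * φ v) (g : G) (f : F) (v : V) :
    (φ ∘ₗ ρ g⁻¹) (ρ f v) = cjc g x f * (φ ∘ₗ ρ g⁻¹) v := by
  simp only [LinearMap.comp_apply]
  rw [cjc_apply, ← he, MulAut.conjNormal_apply, ← Module.End.mul_apply, ← map_mul,
    ← Module.End.mul_apply, ← map_mul, inv_mul_cancel_right]

omit [Finite G] in
theorem surj_rep2 {V : Type} [AddCommGroup V] [Module k V] (ρ : Representation k G V) (g : G) :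
    Function.Surjective (ρ g) := fun v =>
  ⟨ρ g⁻¹ v, by rw [← Module.End.mul_apply, ← map_mul, mul_inv_cancel, map_one,
    Module.End.one_apply]⟩

theorem one_rep2 {F : Subgroup G} [F.Normal] {x : F →* kˣ} {U : Subgroup G}
    (hU : ∀ g, g ∈ U ↔ cjc g x = x) {d : ℕ} (ρ : Representation k G (Fin d → k))
    {φ : (Fin d → k) →ₗ[k] k} (h0 : φ ≠ 0) (he : ∀ (f : F) (v), φ (ρ f v) = x f * φ v) :
    U.index ≤ d := by
  have := Fintype.ofFinite (G ⧸ U)
  have h := card_le_of_eigen (ι := G ⧸ U) (fun f : F => ρ f) (fun q => φ ∘ₗ ρ q.out⁻¹)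
    (fun q f => (cjc q.out x f : k)) (fun q => comp_ne_zero_rep2 h0 _ (surj_rep2 ρ _))
    (val_inj_rep2.comp (cjc_inj_rep2 hU)) fun q f v => conj_eig_rep2 ρ he _ f v
  rwa [Subgroup.index, Nat.card_eq_fintype_card]

theorem two_rep2 {F : Subgroup G} [F.Normal] {x y : F →* kˣ} {U : Subgroup G}
    (hU : ∀ g, g ∈ U ↔ cjc g x = x) (hxy : ∀ g, cjc g x ≠ y) {d : ℕ}
    (ρ : Representation k G (Fin d → k)) {φ ψ : (Fin d → k) →ₗ[k] k} (h0 : φ ≠ 0) (h1 : ψ ≠ 0)
    (he : ∀ (f : F) (v), φ (ρ f v) = x f * φ v) (he' : ∀ (f : F) (v), ψ (ρ f v) = y f * ψ v) :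
    U.index + 1 ≤ d := by
  have := Fintype.ofFinite (G ⧸ U)
  have hinj : Function.Injective fun o : Option (G ⧸ U) => o.elim y fun q => cjc q.out x := by
    rintro (_ | a) (_ | b) h
    · rfl
    · exact absurd h.symm (hxy _)
    · exact absurd h (hxy _)
    · exact congrArg some (cjc_inj_rep2 hU h)
  have h := card_le_of_eigen (ι := Option (G ⧸ U)) (fun f : F => ρ f)
    (fun o => o.elim ψ fun q => φ ∘ₗ ρ q.out⁻¹)
    (fun o f => ((o.elim y fun q => cjc q.out x : F →* kˣ) f : k))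
    (by
      rintro (_ | q)
      · exact h1
      · exact comp_ne_zero_rep2 h0 _ (surj_rep2 ρ _))
    (val_inj_rep2.comp hinj)
    (by
      rintro (_ | q) f v
      · exact he' f v
      · exact conj_eig_rep2 ρ he _ f v)
  rwa [Fintype.card_option, ← Nat.card_eq_fintype_card] at h

theorem exists_rep2 {F : Subgroup G} [F.Normal] {x : F →* kˣ} {U : Subgroup G} {s : ℕ}
    (hU : ∀ g, g ∈ U ↔ cjc g x = x) (hs : U.index = s)
    (hext : ∃ lam : U →* kˣ, ∀ (f : F) (hf : (f : G) ∈ U), lam ⟨f, hf⟩ = x f) :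
    ∃ (ρ : Representation k G (Fin s → k)) (φ : (Fin s → k) →ₗ[k] k), ρ.IsIrreducible ∧ φ ≠ 0 ∧
      ∀ (f : F) (v), φ (ρ f v) = x f * φ v := by
  obtain ⟨lam, hl⟩ := hext
  obtain ⟨d, ρ, φ, hi, hd, h0, he⟩ := exists_simple_char U lam
  have he' : ∀ (f : F) (v), φ (ρ f v) = x f * φ v := by
    intro f v
    have hf : (f : G) ∈ U := (hU _).2 (cjc_mem_rep2 x f)
    rw [← hl f hf]
    exact he ⟨f, hf⟩ v
  obtain rfl : d = s := le_antisymm (hs ▸ hd) (hs ▸ one_rep2 hU ρ h0 he')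
  exact ⟨ρ, φ, hi, h0, he'⟩

theorem rep_orb (hB : BrLe k G m) {F : Subgroup G} [F.Normal] {ι : Type} (T : Finset ι)
    (x : ι → F →* kˣ) (U : ι → Subgroup G) (s : ℕ)
    (hU : ∀ i ∈ T, ∀ g, g ∈ U i ↔ cjc g (x i) = x i) (hs : ∀ i ∈ T, (U i).index = s)
    (hext : ∀ i ∈ T, ∃ lam : U i →* kˣ, ∀ (f : F) (hf : (f : G) ∈ U i), lam ⟨f, hf⟩ = x i f)
    (hne : ∀ i ∈ T, ∀ j ∈ T, ∀ g, cjc g (x i) = x j → i = j) : T.card ≤ m := by
  choose ρ φ hi h0 he using fun i : T => exists_rep2 (hU i.1 i.2) (hs i.1 i.2) (hext i.1 i.2)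
  refine hB s T.card (fun n => ρ (T.equivFin.symm n)) (fun n => hi _) fun a b hab => ?_
  apply T.equivFin.symm.injective
  generalize T.equivFin.symm a = i at hab ⊢
  generalize T.equivFin.symm b = j at hab ⊢
  obtain ⟨e⟩ := hab
  by_contra hij
  have h := two_rep2 (y := x j.1) (hU i.1 i.2)
    (fun g hg => hij (Subtype.ext (hne i.1 i.2 j.1 j.2 g hg))) (ρ i) (h0 i)
    (comp_ne_zero_rep2 (h0 j) e.toLinearMap e.toLinearEquiv.surjective) (he i)
    fun f v => by
      simp only [LinearMap.comp_apply]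
      rw [equiv_apply_rep2, he]
  have := hs i.1 i.2
  omega

end Pool.Agent.Lib.MP_98dfd6_al
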