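import Pool.Agent.Lib.MP_98dfd6_al.PG2
import Pool.Agent.Lib.MP_98dfd6_al.PG3
import Pool.Agent.Lib.MP_98dfd6_al.Rep2

/-! The faithful completely reducible module of `G / F`. -/

namespace Pool.Agent.Lib.MP_98dfd6_al

open MulAction

theorem cjc_prod {k G : Type} [Field k] [Group G] {F : Subgroup G} [F.Normal] {ι : Type}
    [Fintype ι] (g : G) (x : ι → F →* kˣ) : cjc g (∏ i, x i) = ∏ i, cjc g (x i) := by
  ext f
  simp only [cjc_apply, MonoidHom.finsetProd_apply]

theorem pg {p : ℕ} [Fact p.Prime] (k : Type) [Field k] [IsAlgClosed k] [CharP k p] {G : Type}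
    [Group G] [Finite G] [Group.IsSolvable G] {m : ℕ} (hO : NoP p G) (hB : BrLe k G m)
    {F : Subgroup G} (hF : MaxNil F) :
    ∃ (ι : Type) (_ : Fintype ι) (X : ι → Type) (_ : ∀ i, AddCommGroup (X i))
      (_ : ∀ i, Finite (X i)) (_ : ∀ i, DistribMulAction G (X i)),
      (∀ i, Irr G (X i)) ∧ Mult G (∀ i, X i) m ∧
        (∀ g : G, (∀ i, ∀ x : X i, g • x = x) ↔ g ∈ F) ∧
        ∀ C, Resid G C → ∀ i, Nat.card (X i) ≤ C := by
  classical
  have hn := hF.normal
  have hc : (Nat.card F).Coprime p := hO.coprime Fact.out hn hF.nil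
  obtain ⟨I, hI1, hI2, hI3⟩ := exists_irred F
  obtain ⟨H₀, hH1, hH2⟩ := exists_supp hn hF.nil
  have hN : ∀ M : I, (F ⊓ (M : Subgroup G)).Normal := fun M =>
    inf_coatom_normal hn hF.nil (hI1 M M.2)
  have h2 : ∀ M : I, ⁅F, F⁆ ≤ (M : Subgroup G) := fun M => comm_le_coatom hn hF.nil (hI1 M M.2)
  have h2' : ∀ M : I, ⁅F, F⁆ ≤ F ⊓ (M : Subgroup G) := fun M =>
    le_inf (Subgroup.commutator_le_left _ _) (h2 M)
  have hFM : ∀ M : I, ¬F ≤ (M : Subgroup G) := fun M h => by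
    obtain ⟨f, hf, hf', -⟩ := hI3 M M.2
    exact hf' (h hf)
  have hirr : ∀ M : I, Irr G (Ch k F (F ⊓ (M : Subgroup G))) := fun M =>
    ch_irr hc (hI1 M M.2) (hFM M) (h2 M)
  have hinj := ch_prod_inj (k := k) (F := F) (fun M : I => (M : Subgroup G))
    (fun M => hI1 M M.2) hN (fun M => by
      obtain ⟨f, hf, hf', hf''⟩ := hI3 M M.2
      exact ⟨f, hf, hf', fun M' h => hf'' M' M'.2 fun e => h (Subtype.ext e)⟩)
  have hsm : ∀ (g : G) (x : ∀ M : I, Ch k F (F ⊓ (M : Subgroup G))),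
      ∏ i, ((g • x) i).val = cjc g (∏ i, (x i).val) := by
    intro g x
    rw [cjc_prod]
    rfl
  refine ⟨I, inferInstance, fun M => Ch k F (F ⊓ (M : Subgroup G)), inferInstance,
    fun M => ch_finite _ _, inferInstance, hirr, ?_, ?_, fun C hC M => ch_card_resid (hirr M) hC⟩
  · intro s T hs hT
    have hU : ∀ x : ∀ M : I, Ch k F (F ⊓ (M : Subgroup G)), ∀ g : G,
        g ∈ stabilizer G x ↔ cjc g (∏ i, (x i).val) = ∏ i, (x i).val := by
      intro x g
      rw [mem_stabilizer_iff, ← hsm]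
      exact ⟨fun h => by rw [h], fun h => hinj h⟩
    refine rep_orb hB T (fun x => ∏ i, (x i).val) (fun x => stabilizer G x) s
      (fun x _ => hU x) hs (fun x _ => ch_extend _ H₀ hH1 ?_ _ (hU x)) ?_
    · intro f hf
      rw [MonoidHom.finsetProd_apply]
      exact Finset.prod_eq_one fun M _ => (x M).prop f
        ⟨f.2, frattini_le_coatom (hI1 M M.2) (hH2 ⟨f.2, hf⟩)⟩
    · intro x hx y hy g hg
      exact hT x hx y hy g (hinj (by simpa only [hsm] using hg))
  · intro g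
    constructor
    · intro h
      refine hF.mem_of_comm ?_ (g := g) fun f hf => ?_
      · intro a ha
        exact hI2 a (Subgroup.commutator_le_left _ _ ha) fun M hM => h2 ⟨M, hM⟩ ha
      · have hm : g * f * g⁻¹ * f⁻¹ ∈ F := F.mul_mem (hn.conj_mem f hf g) (F.inv_mem hf)
        refine hI2 _ hm fun M hM => ?_
        by_contra hne
        have hcM : ((F ⊓ M).relIndex F).Coprime p :=
          hc.coprime_dvd_left (Subgroup.index_dvd_card _)
        obtain ⟨x, hx⟩ := ch_sep (k := k) F (F ⊓ M) (h2' ⟨M, hM⟩) hcM (f := ⟨_, hm⟩)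
          fun h' => hne h'.2
        apply hx
        have e1 : x.val ⟨g * f * g⁻¹, hn.conj_mem f hf g⟩ = x.val ⟨f, hf⟩ := by
          have e2 := congrArg (fun z => Ch.val z ⟨g * f * g⁻¹, hn.conj_mem f hf g⟩) (h ⟨M, hM⟩ x)
          simp only [Ch.val_smul, cjc_apply] at e2
          rw [← e2]
          congr 1
          ext
          simp [mul_assoc]
        have e3 : (⟨_, hm⟩ : F) = ⟨g * f * g⁻¹, hn.conj_mem f hf g⟩ * (⟨f, hf⟩ : F)⁻¹ := rfl
        rw [e3, map_mul, map_inv, e1, mul_inv_cancel]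
    · intro hg M x
      refine Ch.ext fun f => ?_
      rw [Ch.val_smul, cjc_apply]
      have e : (MulAut.conjNormal g⁻¹ f : F) = (⟨g, hg⟩ : F)⁻¹ * f * ⟨g, hg⟩ := by
        ext
        simp
      rw [e, map_mul, map_mul, map_inv, mul_comm, ← mul_assoc, mul_inv_cancel, one_mul]

end Pool.Agent.Lib.MP_98dfd6_al
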