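import Pool.Agent.Lib.MP_98dfd6_al.Grp
import Pool.Agent.Lib.MP_98dfd6_al.Num2

/-! Orders of solvable permutation groups. -/

namespace Pool.Agent.Lib.MP_98dfd6_al

open MulAction

open Pointwise

variable {G : Type} [Group G] [Finite G]

theorem exists_abelian_perm1 (Q : Type) [Group Q] [Group.IsSolvable Q] [Nontrivial Q] :
    ∃ A : Subgroup Q, A.Normal ∧ A ≠ ⊥ ∧ A ≤ Subgroup.centralizer (A : Set Q) := by
  classical
  have hex : ∃ n, derivedSeries Q n = ⊥ := Group.IsSolvable.solvable
  have h0 : Nat.find hex ≠ 0 := by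
    intro h
    have h1 := Nat.find_spec hex
    rw [h, derivedSeries_zero] at h1
    exact top_ne_bot h1
  obtain ⟨k, hk⟩ := Nat.exists_eq_succ_of_ne_zero h0
  refine ⟨derivedSeries Q k, derivedSeries_normal Q k, Nat.find_min hex (by omega), ?_⟩
  have h1 := Nat.find_spec hex
  rw [hk, derivedSeries_succ] at h1
  exact Subgroup.commutator_eq_bot_iff_le_centralizer.1 h1

theorem card_le_perm1 {Q : Type} [Group Q] [Finite Q] [Group.IsSolvable Q] {U : Subgroup Q}
    (hU : IsCoatom U) (hc : U.normalCore = ⊥) :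
    Nat.card Q ≤ U.index ^ (Nat.log 2 U.index + 1) := by
  have hnt : Nontrivial Q := by
    by_contra h
    rw [not_nontrivial_iff_subsingleton] at h
    exact hU.1 (Subsingleton.elim _ _)
  obtain ⟨A, hA, hA0, hAC⟩ := exists_abelian_perm1 Q
  have hnle : ¬ A ≤ U := fun h => hA0 (by
    have := (Subgroup.normal_le_normalCore (H := U) (N := A)).2 h
    rw [hc] at this
    exact le_bot_iff.1 this)
  have hsup : A ⊔ U = ⊤ := hU.2 _ (right_lt_sup.2 hnle)
  set C := Subgroup.centralizer (A : Set Q) with hC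
  have hCn : C.Normal := inferInstance
  have hN : (C ⊓ U).Normal := by
    refine ⟨fun x hx g => ?_⟩
    have hg : g ∈ ((A ⊔ U : Subgroup Q) : Set Q) := by rw [hsup]; trivial
    rw [Subgroup.normal_mul] at hg
    obtain ⟨a, ha, u, hu, rfl⟩ := hg
    have h1 : u * x * u⁻¹ ∈ C := hCn.conj_mem x hx.1 u
    have h2 : u * x * u⁻¹ ∈ U := U.mul_mem (U.mul_mem hu hx.2) (U.inv_mem hu)
    have h3 : a * (u * x * u⁻¹) = (u * x * u⁻¹) * a := Subgroup.mem_centralizer_iff.1 h1 a ha
    have h4 : a * u * x * (a * u)⁻¹ = u * x * u⁻¹ := by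
      calc a * u * x * (a * u)⁻¹ = (a * (u * x * u⁻¹)) * a⁻¹ := by group
        _ = u * x * u⁻¹ := by rw [h3]; group
    change a * u * x * (a * u)⁻¹ ∈ C ⊓ U
    rw [h4]
    exact ⟨h1, h2⟩
  have hbot : U ⊓ C = ⊥ := by
    have := (Subgroup.normal_le_normalCore (H := U) (N := C ⊓ U)).2 inf_le_right
    rw [hc, inf_comm] at this
    exact le_bot_iff.1 this
  have hb0 : U.index ≠ 0 := Subgroup.index_ne_zero_of_finite
  have hCb : Nat.card C ≤ U.index := by
    have h1 : U.relIndex C ≤ U.relIndex ⊤ :=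
      Subgroup.relIndex_le_of_le_right le_top (by rwa [Subgroup.relIndex_top_right])
    rwa [Subgroup.relIndex_top_right, ← Subgroup.inf_relIndex_right, hbot,
      Subgroup.relIndex_bot_left] at h1
  have hAb : Nat.card A ≤ U.index := (Subgroup.card_le_of_le hAC).trans hCb
  have h1 := index_centralizer_le A
  have h2 : Nat.card A ^ Nat.log 2 (Nat.card A) ≤ U.index ^ Nat.log 2 U.index :=
    (Nat.pow_le_pow_left hAb _).trans
      (Nat.pow_le_pow_right (Nat.pos_of_ne_zero hb0) (Nat.log_mono_right hAb))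
  rw [← C.index_mul_card, pow_succ]
  exact Nat.mul_le_mul (h1.trans h2) hCb

theorem core_index_prim [Group.IsSolvable G] {U : Subgroup G} (hU : IsCoatom U) :
    U.normalCore.index ≤ U.index ^ (Nat.log 2 U.index + 1) := by
  let f := QuotientGroup.mk' U.normalCore
  have hf : Function.Surjective f := QuotientGroup.mk'_surjective _
  have hker : f.ker = U.normalCore := QuotientGroup.ker_mk' _
  have hcm : (U.map f).comap f = U := by
    rw [Subgroup.comap_map_eq, hker]
    exact sup_eq_left.2 U.normalCore_le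
  have hco : IsCoatom (U.map f) := by
    refine ⟨fun h => hU.1 ?_, fun W hW => ?_⟩
    · rw [← hcm, h, Subgroup.comap_top]
    · have h1 : U < W.comap f :=
        lt_of_eq_of_lt hcm.symm ((Subgroup.comap_lt_comap_of_surjective hf).2 hW)
      rw [← Subgroup.map_comap_eq_self_of_surjective hf W, hU.2 _ h1,
        Subgroup.map_top_of_surjective f hf]
  have hcore : (U.map f).normalCore = ⊥ := by
    have h1 : ((U.map f).normalCore.comap f) ≤ U := by
      conv_rhs => rw [← hcm]
      exact Subgroup.comap_mono (Subgroup.normalCore_le _)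
    have h2 := (Subgroup.normal_le_normalCore (H := U)
      (N := (U.map f).normalCore.comap f)).2 h1
    rw [← Subgroup.map_comap_eq_self_of_surjective hf (U.map f).normalCore,
      Subgroup.map_eq_bot_iff, hker]
    exact h2
  have hi : (U.map f).index = U.index := by
    conv_rhs => rw [← hcm]
    exact (Subgroup.index_comap_of_surjective _ hf).symm
  have h := card_le_perm1 hco hcore
  rw [hi] at h
  exact h

/-- The relative form of `core_index_prim`. -/
theorem exists_rel_core [Group.IsSolvable G] {U V : Subgroup G} (h : U ⋖ V) :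
    ∃ c : Subgroup G, c ≤ U ∧ (∀ v ∈ V, ∀ x ∈ c, v * x * v⁻¹ ∈ c) ∧
      c.relIndex V ≤ U.relIndex V ^ (Nat.log 2 (U.relIndex V) + 1) := by
  have hinj : Function.Injective V.subtype := V.subtype_injective
  have hmap : (U.subgroupOf V).map V.subtype = U := by
    rw [Subgroup.subgroupOf_map_subtype]
    exact inf_eq_left.2 h.le
  have hco : IsCoatom (U.subgroupOf V) := by
    refine ⟨fun h1 => h.lt.not_ge (Subgroup.subgroupOf_eq_top.1 h1), fun W hW => ?_⟩
    have h1 : U < W.map V.subtype := by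
      conv_lhs => rw [← hmap]
      exact (Subgroup.map_lt_map_iff_of_injective hinj).2 hW
    have h2 : W.map V.subtype = V := by
      rcases (Subgroup.map_subtype_le W).lt_or_eq with h3 | h3
      · exact absurd h3 (h.2 h1)
      · exact h3
    apply Subgroup.map_injective hinj
    rw [h2, ← MonoidHom.range_eq_map, Subgroup.range_subtype]
  refine ⟨(U.subgroupOf V).normalCore.map V.subtype, ?_, ?_, ?_⟩
  · conv_rhs => rw [← hmap]
    exact Subgroup.map_mono (Subgroup.normalCore_le _)
  · rintro v hv x ⟨y, hy, rfl⟩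
    exact ⟨⟨v, hv⟩ * y * ⟨v, hv⟩⁻¹, (Subgroup.normalCore_normal _).conj_mem y hy _, rfl⟩
  · have h1 : (((U.subgroupOf V).normalCore.map V.subtype).subgroupOf V) =
        (U.subgroupOf V).normalCore := Subgroup.comap_map_eq_self_of_injective hinj _
    unfold Subgroup.relIndex
    rw [h1]
    exact core_index_prim hco

theorem core_step_perm1 [Group.IsSolvable G] {U V : Subgroup G} (h : U ⋖ V) :
    U.normalCore.index ≤ V.normalCore.index * (16 ^ (U.relIndex V - 1)) ^ V.index := by
  classical
  obtain ⟨c, hcU, hcV, hci⟩ := exists_rel_core h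
  have hb : 1 ≤ U.relIndex V := Nat.pos_of_ne_zero Subgroup.index_ne_zero_of_finite
  have hci' : c.relIndex V ≤ 16 ^ (U.relIndex V - 1) := hci.trans (num_prim hb)
  let d : G ⧸ V → Subgroup G := fun q => c.comap (MulAut.conj (q.out)⁻¹).toMonoidHom
  have hle : (⨅ q, d q) ≤ U.normalCore := by
    intro x hx g
    obtain ⟨v, hv⟩ := QuotientGroup.mk_out_eq_mul V g⁻¹
    have h1 : x ∈ d (QuotientGroup.mk g⁻¹) := Subgroup.mem_iInf.1 hx _
    have h2 : ((QuotientGroup.mk g⁻¹ : G ⧸ V).out)⁻¹ * x *
        ((QuotientGroup.mk g⁻¹ : G ⧸ V).out)⁻¹⁻¹ ∈ c := h1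
    rw [hv] at h2
    have h3 := hcV v v.2 _ h2
    have h4 : (v : G) * ((g⁻¹ * v)⁻¹ * x * (g⁻¹ * v)⁻¹⁻¹) * (v : G)⁻¹ = g * x * g⁻¹ := by group
    rw [h4] at h3
    exact hcU h3
  have hd : ∀ q, (d q).relIndex V.normalCore ≤ 16 ^ (U.relIndex V - 1) := by
    intro q
    have h1 : V.normalCore.map (MulAut.conj (q.out)⁻¹).toMonoidHom ≤ V := by
      rintro _ ⟨y, hy, rfl⟩
      exact V.normalCore_le ((Subgroup.normalCore_normal V).conj_mem y hy _)
    have h2 : (d q).relIndex V.normalCore =
        c.relIndex (V.normalCore.map (MulAut.conj (q.out)⁻¹).toMonoidHom) :=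
      Subgroup.relIndex_comap _ _ _
    rw [h2]
    exact (Subgroup.relIndex_le_of_le_right h1 Subgroup.index_ne_zero_of_finite).trans hci'
  have : Fintype (G ⧸ V) := Fintype.ofFinite _
  have h1 : (⨅ q, d q).relIndex V.normalCore ≤ (16 ^ (U.relIndex V - 1)) ^ V.index := by
    refine (Subgroup.relIndex_iInf_le d).trans ?_
    refine (Finset.prod_le_pow_card _ _ _ (fun q _ => hd q)).trans ?_
    rw [Finset.card_univ, Subgroup.index, Nat.card_eq_fintype_card]
  have h2 : U.normalCore.relIndex V.normalCore ≤ (⨅ q, d q).relIndex V.normalCore :=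
    Subgroup.relIndex_le_of_le_left hle Subgroup.index_ne_zero_of_finite
  rw [← Subgroup.relIndex_mul_index (Subgroup.normalCore_mono h.le), mul_comm]
  exact Nat.mul_le_mul_left _ (h2.trans h1)

theorem core_index_le [Group.IsSolvable G] (U : Subgroup G) :
    U.normalCore.index ≤ 16 ^ (U.index - 1) := by
  induction hn : U.index using Nat.strong_induction_on generalizing U with
  | _ n ih =>
    by_cases hU : U = ⊤
    · subst hU
      have h1 : (⊤ : Subgroup G).normalCore = ⊤ := Subgroup.normalCore_eq_self ⊤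
      rw [h1, Subgroup.index_top]
      exact Nat.one_le_pow _ _ (by norm_num)
    · obtain ⟨V, hV, -⟩ := (lt_top_iff_ne_top.2 hU).exists_covby_le
      have hm : U.relIndex V * V.index = n := by rw [Subgroup.relIndex_mul_index hV.le, hn]
      have hb0 : U.relIndex V ≠ 0 := Subgroup.index_ne_zero_of_finite
      have hb1 : U.relIndex V ≠ 1 := fun h1 => hV.lt.not_ge (Subgroup.relIndex_eq_one.1 h1)
      have hn0 : V.index ≠ 0 := Subgroup.index_ne_zero_of_finite
      obtain ⟨b, hb⟩ : ∃ b, U.relIndex V = b + 2 := ⟨U.relIndex V - 2, by omega⟩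
      obtain ⟨k, hk⟩ : ∃ k, V.index = k + 1 := ⟨V.index - 1, by omega⟩
      have hlt : V.index < n := by rw [← hm, hb, hk]; nlinarith
      have h1 := ih _ hlt V rfl
      refine (core_step_perm1 hV).trans ((Nat.mul_le_mul_right _ h1).trans (le_of_eq ?_))
      rw [← pow_mul, ← pow_add, ← hm, hb, hk]
      congr 1
      have : (b + 2) * (k + 1) = (k + (b + 1) * (k + 1)) + 1 := by ring
      rw [this]
      simp

end Pool.Agent.Lib.MP_98dfd6_al
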