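import Pool.Agent.Lib.MP_98dfd6_al.Blk1

/-! The field generated by an abelian normal subgroup of a primitive group. -/

namespace Pool.Agent.Lib.MP_98dfd6_al

open MulAction

/-- The field generated by an abelian normal subgroup. -/
structure FS (K W F : Type) [Group K] [AddCommGroup W] [DistribMulAction K W] [Field F]
    [Module F W] (Z : Subgroup K) (ζ : Z →* Fˣ) (σ : K →* RingAut F) : Prop where
  act : ∀ (z : Z) (w : W), (z : K) • w = (ζ z : F) • w
  semi : ∀ (g : K) (a : F) (w : W), g • a • w = σ g a • g • w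
  cent : ∀ g ∈ Subgroup.centralizer (Z : Set K), σ g = 1

section Aux

variable (K W : Type) [Group K] [AddCommGroup W] [DistribMulAction K W]

/-- The action as a homomorphism to the endomorphism ring. -/
abbrev rho_pr1 : K →* AddMonoid.End W := DistribMulAction.toAddMonoidEnd K W

/-- The ring generated by the images of `Z`. -/
def ring_pr1 (Z : Subgroup K) : Subring (AddMonoid.End W) :=
  Subring.closure (rho_pr1 K W '' (Z : Set K))

variable {K W}

theorem rho_apply_pr1 (g : K) (w : W) : rho_pr1 K W g w = g • w := rfl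

theorem mem_ring_pr1 {Z : Subgroup K} {z : K} (hz : z ∈ Z) : rho_pr1 K W z ∈ ring_pr1 K W Z :=
  Subring.subset_closure ⟨z, hz, rfl⟩

theorem comm_pr1 {Z : Subgroup K} (hZ : ∀ a ∈ Z, ∀ b ∈ Z, a * b = b * a)
    (a b : ring_pr1 K W Z) : a * b = b * a := by
  have : IsMulCommutative (Subring.closure (rho_pr1 K W '' (Z : Set K))) := by
    apply Subring.isMulCommutative_closure
    rintro _ ⟨x, hx, rfl⟩ _ ⟨y, hy, rfl⟩
    rw [← map_mul, ← map_mul, hZ x hx y hy]
  exact this.is_comm.comm a b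

theorem conj_mem_pr1 {Z : Subgroup K} [hN : Z.Normal] (g : K) {a : AddMonoid.End W}
    (ha : a ∈ ring_pr1 K W Z) :
    rho_pr1 K W g * a * rho_pr1 K W g⁻¹ ∈ ring_pr1 K W Z := by
  have h1 : rho_pr1 K W g * rho_pr1 K W g⁻¹ = 1 := by rw [← map_mul, mul_inv_cancel, map_one]
  have h2 : rho_pr1 K W g⁻¹ * rho_pr1 K W g = 1 := by rw [← map_mul, inv_mul_cancel, map_one]
  induction ha using Subring.closure_induction with
  | mem x hx =>
    obtain ⟨z, hz, rfl⟩ := hx
    rw [← map_mul, ← map_mul]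
    exact mem_ring_pr1 (hN.conj_mem z hz g)
  | zero => rw [mul_zero, zero_mul]; exact zero_mem _
  | one => rw [mul_one, h1]; exact one_mem _
  | add x y _ _ hx hy => rw [mul_add, add_mul]; exact add_mem hx hy
  | neg x _ hx => rw [mul_neg, neg_mul]; exact neg_mem hx
  | mul x y _ _ hx hy =>
    have : rho_pr1 K W g * (x * y) * rho_pr1 K W g⁻¹ =
        (rho_pr1 K W g * x * rho_pr1 K W g⁻¹) * (rho_pr1 K W g * y * rho_pr1 K W g⁻¹) := by
      calc _ = rho_pr1 K W g * x * (rho_pr1 K W g⁻¹ * rho_pr1 K W g) * y * rho_pr1 K W g⁻¹ := by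
            rw [h2, mul_one, mul_assoc (rho_pr1 K W g) x y]
        _ = _ := by simp only [mul_assoc]
    rw [this]
    exact mul_mem hx hy

/-- Conjugation on the ring. -/
def cj_pr1 (Z : Subgroup K) [Z.Normal] (g : K) (a : ring_pr1 K W Z) : ring_pr1 K W Z :=
  ⟨rho_pr1 K W g * a * rho_pr1 K W g⁻¹, conj_mem_pr1 g a.2⟩

theorem cj_apply_pr1 (Z : Subgroup K) [Z.Normal] (g : K) (a : ring_pr1 K W Z) (w : W) :
    (cj_pr1 Z g a : AddMonoid.End W) w = g • (a : AddMonoid.End W) (g⁻¹ • w) := rfl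

theorem ext_pr1 {Z : Subgroup K} {a b : ring_pr1 K W Z}
    (h : ∀ w, (a : AddMonoid.End W) w = (b : AddMonoid.End W) w) : a = b :=
  Subtype.ext (AddMonoidHom.ext h)

theorem mul_apply_pr1 {Z : Subgroup K} (a b : ring_pr1 K W Z) (w : W) :
    ((a * b : ring_pr1 K W Z) : AddMonoid.End W) w =
      (a : AddMonoid.End W) ((b : AddMonoid.End W) w) := rfl

/-- Conjugation as a ring automorphism. -/
def cjE_pr1 (Z : Subgroup K) [Z.Normal] (g : K) : ring_pr1 K W Z ≃+* ring_pr1 K W Z where
  toFun := cj_pr1 Z g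
  invFun := cj_pr1 Z g⁻¹
  left_inv a := ext_pr1 fun w => by
    rw [cj_apply_pr1, cj_apply_pr1, inv_smul_smul, inv_inv, inv_smul_smul]
  right_inv a := ext_pr1 fun w => by
    rw [cj_apply_pr1, cj_apply_pr1, smul_inv_smul, inv_inv, smul_inv_smul]
  map_mul' a b := ext_pr1 fun w => by
    rw [mul_apply_pr1, cj_apply_pr1, cj_apply_pr1, cj_apply_pr1, inv_smul_smul, mul_apply_pr1]
  map_add' a b := ext_pr1 fun w => by
    change g • ((a : AddMonoid.End W) (g⁻¹ • w) + (b : AddMonoid.End W) (g⁻¹ • w)) =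
      g • (a : AddMonoid.End W) (g⁻¹ • w) + g • (b : AddMonoid.End W) (g⁻¹ • w)
    rw [smul_add]

theorem cjE_apply_pr1 (Z : Subgroup K) [Z.Normal] (g : K) (a : ring_pr1 K W Z) (w : W) :
    (cjE_pr1 Z g a : AddMonoid.End W) w = g • (a : AddMonoid.End W) (g⁻¹ • w) := rfl

/-- Conjugation as a homomorphism. -/
def cjH_pr1 (Z : Subgroup K) [Z.Normal] : K →* RingAut (ring_pr1 K W Z) where
  toFun := cjE_pr1 Z
  map_one' := RingEquiv.ext fun a => ext_pr1 fun w => by
    rw [cjE_apply_pr1, inv_one, one_smul, one_smul]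
    rfl
  map_mul' g h := RingEquiv.ext fun a => ext_pr1 fun w => by
    change _ = (cjE_pr1 Z g (cjE_pr1 Z h a) : AddMonoid.End W) w
    rw [cjE_apply_pr1, cjE_apply_pr1, cjE_apply_pr1, mul_inv_rev, mul_smul, mul_smul]

instance finEnd_pr1 [Finite W] : Finite (AddMonoid.End W) :=
  Finite.of_injective (fun a : AddMonoid.End W => (a : W → W)) DFunLike.coe_injective

theorem nil_pr1 [Finite W] (hI : Irr K W) (Z : Subgroup K) [Z.Normal]
    (hZ : ∀ a ∈ Z, ∀ b ∈ Z, a * b = b * a) (a : ring_pr1 K W Z) (ha : IsNilpotent a) : a = 0 := by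
  classical
  have := hI.1
  let Y : AddSubgroup W :=
    { carrier := {w | ∀ b : ring_pr1 K W Z, IsNilpotent b → (b : AddMonoid.End W) w = 0}
      zero_mem' := fun b _ => map_zero _
      add_mem' := fun {x y} hx hy b hb => by rw [map_add, hx b hb, hy b hb, add_zero]
      neg_mem' := fun {x} hx b hb => by rw [map_neg, hx b hb, neg_zero] }
  have hinv : ∀ g : K, ∀ x ∈ Y, g • x ∈ Y := by
    intro g x hx b hb
    have h := hx (cjE_pr1 Z g⁻¹ b) (hb.map (cjE_pr1 Z g⁻¹))
    rw [cjE_apply_pr1, inv_inv, smul_eq_zero_iff_eq] at h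
    exact h
  let S : W → Set (ring_pr1 K W Z) := fun w => {b | (b : AddMonoid.End W) w = 0}
  obtain ⟨w₀, hw₀⟩ := exists_ne (0 : W)
  obtain ⟨w, hw, hmax⟩ := Set.exists_max_image {w : W | w ≠ 0} (fun w => (S w).ncard)
    (Set.toFinite _) ⟨w₀, hw₀⟩
  have hwY : w ∈ Y := by
    intro b hb
    by_contra hne
    have hex : ∃ k : ℕ, ((b ^ k : ring_pr1 K W Z) : AddMonoid.End W) w = 0 := by
      obtain ⟨k, hk⟩ := hb
      exact ⟨k, by rw [hk]; rfl⟩
    have hk := Nat.find_spec hex
    have hk0 : Nat.find hex ≠ 0 := by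
      intro h0
      rw [h0, pow_zero] at hk
      exact hw hk
    obtain ⟨j, hj⟩ := Nat.exists_eq_succ_of_ne_zero hk0
    have hj' : ((b ^ j : ring_pr1 K W Z) : AddMonoid.End W) w ≠ 0 :=
      Nat.find_min hex (by omega)
    have hle := hmax _ hj'
    have hss : S w ⊂ S (((b ^ j : ring_pr1 K W Z) : AddMonoid.End W) w) := by
      refine ⟨fun c hc => ?_, fun hsub => hne (hsub ?_)⟩
      · change (c : AddMonoid.End W) _ = 0
        have hc' : (c : AddMonoid.End W) w = 0 := hc
        rw [← mul_apply_pr1, comm_pr1 hZ, mul_apply_pr1, hc', map_zero]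
      · change (b : AddMonoid.End W) _ = 0
        rw [← mul_apply_pr1, ← pow_succ']
        rw [hj] at hk
        exact hk
    have := Set.ncard_lt_ncard hss (Set.toFinite _)
    omega
  rcases hI.2 Y hinv with h | h
  · rw [h] at hwY
    exact absurd (AddSubgroup.mem_bot.1 hwY) hw
  · refine ext_pr1 fun x => ?_
    have hx : x ∈ Y := by rw [h]; exact AddSubgroup.mem_top x
    exact hx a ha

theorem idem_pr1 [Finite W] (hP : Prim K W) (Z : Subgroup K) [Z.Normal]
    (hZ : ∀ a ∈ Z, ∀ b ∈ Z, a * b = b * a) (e : ring_pr1 K W Z) (he0 : e ≠ 0)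
    (he : e * e = e) : e = 1 := by
  classical
  let S : ring_pr1 K W Z → Set (ring_pr1 K W Z) := fun a => {b | b * a = b}
  obtain ⟨η, ⟨hη0, hη⟩, hmin⟩ := Set.exists_min_image
    {a : ring_pr1 K W Z | a ≠ 0 ∧ a * a = a} (fun a => (S a).ncard) (Set.toFinite _) ⟨e, he0, he⟩
  have hprim : ∀ c : ring_pr1 K W Z, c ≠ 0 → c * c = c → c * η = c → c = η := by
    intro c hc0 hc hcη
    have hsub : S c ⊆ S η := by
      intro b hb
      have hb' : b * c = b := hb
      change b * η = b
      rw [← hb', mul_assoc, hcη]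
    have heq : S c = S η := Set.eq_of_subset_of_ncard_le hsub (hmin c ⟨hc0, hc⟩) (Set.toFinite _)
    have h1 : η ∈ S c := by rw [heq]; exact hη
    have h2 : η * c = η := h1
    rw [← h2, comm_pr1 hZ, hcη]
  have hgood : Good K (η : AddMonoid.End W) := by
    refine ⟨fun h => hη0 (Subtype.ext h), fun x => ?_, fun g => ?_⟩
    · exact (mul_apply_pr1 η η x).symm.trans (by rw [hη]; rfl)
    · by_cases h0 : η * cjE_pr1 Z g η = 0
      · right
        intro x
        have : ((η * cjE_pr1 Z g η : ring_pr1 K W Z) : AddMonoid.End W) (g • x) = 0 := by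
          rw [h0]; rfl
        rw [mul_apply_pr1, cjE_apply_pr1, inv_smul_smul] at this
        exact this
      · left
        set η' := cjE_pr1 Z g η with hη'
        have hη'2 : η' * η' = η' := by rw [hη', ← map_mul, hη]
        have hidem : η * η' * (η * η') = η * η' := by
          calc η * η' * (η * η') = η * (η' * η) * η' := by simp only [mul_assoc]
            _ = η * η * (η' * η') := by rw [comm_pr1 hZ η' η]; simp only [mul_assoc]
            _ = η * η' := by rw [hη, hη'2]
        have h1 : η * η' = η := by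
          refine hprim _ h0 hidem ?_
          rw [mul_assoc, comm_pr1 hZ η' η, ← mul_assoc, hη]
        have hback : (cjE_pr1 Z g).symm η' = η := by rw [hη', RingEquiv.symm_apply_apply]
        have h2 : (cjE_pr1 Z g).symm η = η := by
          refine hprim _ ?_ ?_ ?_
          · intro h
            exact hη0 ((map_eq_zero_iff _ (cjE_pr1 Z g).symm.injective).1 h)
          · rw [← map_mul, hη]
          · calc (cjE_pr1 Z g).symm η * η = (cjE_pr1 Z g).symm η * (cjE_pr1 Z g).symm η' := by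
                  rw [hback]
              _ = (cjE_pr1 Z g).symm η := by rw [← map_mul, h1]
        have h3 : η' = η := (cjE_pr1 Z g).symm.injective (hback.trans h2.symm)
        intro x
        have : (η' : AddMonoid.End W) (g • x) = g • (η : AddMonoid.End W) x := by
          rw [hη', cjE_apply_pr1, inv_smul_smul]
        rw [h3] at this
        exact this
  have hη1 : η = 1 := ext_pr1 fun x => hP _ hgood x
  rw [← hη1]
  exact hprim e he0 he (by rw [hη1, mul_one])

theorem isField_pr1 [Finite W] (hI : Irr K W) (hP : Prim K W) (Z : Subgroup K) [Z.Normal]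
    (hZ : ∀ a ∈ Z, ∀ b ∈ Z, a * b = b * a) : IsField (ring_pr1 K W Z) where
  exists_pair_ne := by
    have := hI.1
    obtain ⟨w, hw⟩ := exists_ne (0 : W)
    refine ⟨1, 0, fun h => hw ?_⟩
    have : ((1 : ring_pr1 K W Z) : AddMonoid.End W) w = ((0 : ring_pr1 K W Z) : AddMonoid.End W) w := by
      rw [h]
    exact this
  mul_comm := comm_pr1 hZ
  mul_inv_cancel := by
    intro a ha
    obtain ⟨n, hn, hid⟩ := exists_idem_pow a
    have h0 : a ^ n ≠ 0 := fun h => ha (nil_pr1 hI Z hZ a ⟨n, h⟩)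
    have h1 := idem_pr1 hP Z hZ _ h0 hid
    obtain ⟨j, rfl⟩ := Nat.exists_eq_succ_of_ne_zero hn.ne'
    exact ⟨a ^ j, by rw [← pow_succ', h1]⟩

/-- The image of `Z` in the ring. -/
def zeta_pr1 (Z : Subgroup K) : Z →* ring_pr1 K W Z where
  toFun z := ⟨rho_pr1 K W z, mem_ring_pr1 z.2⟩
  map_one' := Subtype.ext (map_one (rho_pr1 K W))
  map_mul' a b := Subtype.ext (map_mul (rho_pr1 K W) (a : K) (b : K))

theorem cent_pr1 (Z : Subgroup K) {g : K} (hg : g ∈ Subgroup.centralizer (Z : Set K))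
    {a : AddMonoid.End W} (ha : a ∈ ring_pr1 K W Z) : rho_pr1 K W g * a = a * rho_pr1 K W g := by
  induction ha using Subring.closure_induction with
  | mem x hx =>
    obtain ⟨z, hz, rfl⟩ := hx
    rw [← map_mul, ← map_mul, Subgroup.mem_centralizer_iff.1 hg z hz]
  | zero => rw [mul_zero, zero_mul]
  | one => rw [mul_one, one_mul]
  | add x y _ _ hx hy => rw [mul_add, add_mul, hx, hy]
  | neg x _ hx => rw [mul_neg, neg_mul, hx]
  | mul x y _ _ hx hy => rw [← mul_assoc, hx, mul_assoc, hy, mul_assoc]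

end Aux

theorem exists_field {K W : Type} [Group K] [AddCommGroup W] [DistribMulAction K W] [Finite W]
    (hI : Irr K W) (hP : Prim K W) (Z : Subgroup K) [Z.Normal]
    (hZ : ∀ a ∈ Z, ∀ b ∈ Z, a * b = b * a) :
    ∃ (F : Type) (_ : Field F) (_ : Finite F) (_ : Module F W) (ζ : Z →* Fˣ)
      (σ : K →* RingAut F), FS K W F Z ζ σ := by
  let _ : Field (ring_pr1 K W Z) := (isField_pr1 hI hP Z hZ).toField
  refine ⟨ring_pr1 K W Z, inferInstance, inferInstance,
    inferInstanceAs (Module (ring_pr1 K W Z) W), (zeta_pr1 Z).toHomUnits, cjH_pr1 Z, ?_, ?_, ?_⟩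
  · intro z w
    rfl
  · intro g a w
    change g • (a : AddMonoid.End W) w = (cjE_pr1 Z g a : AddMonoid.End W) (g • w)
    rw [cjE_apply_pr1, inv_smul_smul]
  · intro g hg
    refine RingEquiv.ext fun a => ext_pr1 fun w => ?_
    change (cjE_pr1 Z g a : AddMonoid.End W) w = (a : AddMonoid.End W) w
    have h : (rho_pr1 K W g * (a : AddMonoid.End W)) (g⁻¹ • w) =
        ((a : AddMonoid.End W) * rho_pr1 K W g) (g⁻¹ • w) := by rw [cent_pr1 Z hg a.2]
    rw [cjE_apply_pr1]
    refine h.trans ?_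
    change (a : AddMonoid.End W) (g • g⁻¹ • w) = _
    rw [smul_inv_smul]

end Pool.Agent.Lib.MP_98dfd6_al
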