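import Pool.Agent.Lib.MP_98dfd6_al.Pr1
import Pool.Agent.Lib.MP_98dfd6_al.Chr
import Pool.Agent.Lib.MP_98dfd6_al.Grp

/-! Index bounds in a primitive group. -/

namespace Pool.Agent.Lib.MP_98dfd6_al

open MulAction

variable {K W F : Type} [Group K] [Finite K] [AddCommGroup W] [Finite W] [Nontrivial W]
  [DistribMulAction K W] [FaithfulSMul K W] [Field F] [Finite F] [Module F W] {Z : Subgroup K}
  {ζ : Z →* Fˣ} {σ : K →* RingAut F}

theorem FS.inj (h : FS K W F Z ζ σ) : Function.Injective ζ := by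
  intro a b hab
  apply Subtype.ext
  refine eq_of_smul_eq_smul (α := W) fun w => ?_
  rw [h.act a w, h.act b w, hab]

theorem FS.free (h : FS K W F Z ζ σ) : ∀ z ∈ Z, ∀ w : W, w ≠ 0 → z • w = w → z = 1 := by
  intro z hz w hw hzw
  have h1 := h.act ⟨z, hz⟩ w
  have h2 : ((ζ ⟨z, hz⟩ : F) - 1) • w = 0 := by
    rw [sub_smul, one_smul, ← h1]
    exact sub_eq_zero.2 hzw
  have h3 : (ζ ⟨z, hz⟩ : F) = 1 := sub_eq_zero.1 ((smul_eq_zero.1 h2).resolve_right hw)
  have h4 : ζ ⟨z, hz⟩ = ζ 1 := by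
    rw [map_one]
    exact Units.ext h3
  exact congrArg Subtype.val (h.inj h4)

theorem FS.card_dvd (h : FS K W F Z ζ σ) : Nat.card Z ∣ Nat.card F - 1 := by
  rw [← Nat.card_units F]
  exact Subgroup.card_dvd_of_injective ζ h.inj

theorem FS.ker_pr2 (h : FS K W F Z ζ σ) : σ.ker = Subgroup.centralizer (Z : Set K) := by
  ext g
  constructor
  · intro hg
    have hg1 : σ g = 1 := hg
    rw [Subgroup.mem_centralizer_iff]
    intro z hz
    refine eq_of_smul_eq_smul (α := W) fun w => ?_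
    have h1 := h.act ⟨z, hz⟩ w
    have h2 := h.act ⟨z, hz⟩ (g • w)
    have h3 := h.semi g (ζ ⟨z, hz⟩ : F) w
    rw [hg1] at h3
    rw [mul_smul, mul_smul]
    exact h2.trans (h3.symm.trans (congrArg (fun x => g • x) h1.symm))
  · intro hg
    exact h.cent g hg

theorem FS.gal (h : FS K W F Z ζ σ) :
    ∃ y, 2 ≤ y ∧ Nat.card F = y ^ (Subgroup.centralizer (Z : Set K)).index := by
  classical
  have hfin : Finite σ.range := Finite.of_surjective _ σ.rangeRestrict_surjective
  have := Fintype.ofFinite σ.range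
  refine ⟨Nat.card (FixedPoints.subfield σ.range F), ?_, ?_⟩
  · exact Finite.one_lt_card
  · rw [← h.ker_pr2, Subgroup.index_ker, Nat.card_eq_fintype_card (α := σ.range),
      ← FixedPoints.finrank_eq_card σ.range F]
    exact Module.natCard_eq_pow_finrank

end Pool.Agent.Lib.MP_98dfd6_al
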