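import Pool.Agent.Lib.MP_98dfd6_al.Pr2

/-! The class two subgroup of a primitive group. -/

namespace Pool.Agent.Lib.MP_98dfd6_al

open MulAction

open scoped commutatorElement

variable {K W F : Type} [Group K] [Finite K] [AddCommGroup W] [Finite W] [Nontrivial W]
  [DistribMulAction K W] [FaithfulSMul K W] [Field F] [Finite F] [Module F W] {Z : Subgroup K}
  {ζ : Z →* Fˣ} {σ : K →* RingAut F}

/-- The linear map given by an element that centralises `Z`. -/
def lin_Pr2b (h : FS K W F Z ζ σ) (g : K) (hg : g ∈ Subgroup.centralizer (Z : Set K)) :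
    W →ₗ[F] W where
  toFun w := g • w
  map_add' v w := smul_add g v w
  map_smul' a w := by
    rw [h.semi, h.cent g hg]
    rfl

theorem comm_eq_Pr2b {G : Type} [Group G] {L : Subgroup G} {a b : G}
    (hab : ∀ l ∈ L, ⁅a, l⁆ = ⁅b, l⁆) : a⁻¹ * b ∈ Subgroup.centralizer (L : Set G) := by
  rw [Subgroup.mem_centralizer_iff]
  intro l hl
  have h1 := hab l hl
  rw [commutatorElement_def, commutatorElement_def] at h1
  have h2 : a * l * a⁻¹ = b * l * b⁻¹ := mul_right_cancel h1
  calc l * (a⁻¹ * b) = a⁻¹ * (a * l * a⁻¹) * b := by group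
    _ = a⁻¹ * (b * l * b⁻¹) * b := by rw [h2]
    _ = a⁻¹ * b * l := by group

theorem FS.relIndex_le (h : FS K W F Z ζ σ) {L : Subgroup K}
    (hZ : Subgroup.centralizer (L : Set K) = Z) (h2 : ⁅L, L⁆ ≤ Z) :
    Z.relIndex L ≤ Module.finrank F W ^ 2 := by
  classical
  have hLZ : ∀ l : L, (l : K) ∈ Subgroup.centralizer (Z : Set K) := by
    intro l
    rw [Subgroup.mem_centralizer_iff]
    intro z hz
    rw [← hZ] at hz
    exact (Subgroup.mem_centralizer_iff.1 hz l l.2).symm
  have hc : ∀ l m : L, ⁅(l : K), (m : K)⁆ ∈ Z := fun l m =>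
    h2 (Subgroup.commutator_mem_commutator l.2 m.2)
  let T : L → (W →ₗ[F] W) := fun l => lin_Pr2b h l (hLZ l)
  have hT : ∀ (l : L) (w : W), T l w = (l : K) • w := fun _ _ => rfl
  let ρ : L → (W →ₗ[F] W) →ₗ[F] (W →ₗ[F] W) := fun l =>
    (LinearMap.llcomp F W W W (T l)).comp (LinearMap.lcomp F W (T l⁻¹))
  have hρ : ∀ (l : L) (φ : W →ₗ[F] W) (w : W), ρ l φ w = T l (φ (T l⁻¹ w)) := fun _ _ _ => rfl
  let v : L ⧸ Z.subgroupOf L → (W →ₗ[F] W) := fun q => T q.out
  let χ : L ⧸ Z.subgroupOf L → L → F := fun q l => (ζ ⟨_, hc l q.out⟩ : F)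
  have hli : LinearIndependent F v := by
    refine indepV ρ v χ ?_ ?_ ?_
    · intro q hq
      obtain ⟨w, hw⟩ := exists_ne (0 : W)
      have h1 : T q.out w = 0 := by
        have := LinearMap.congr_fun hq w
        simpa [v] using this
      rw [hT, smul_eq_zero_iff_eq] at h1
      exact hw h1
    · intro q q' hq
      have h1 : ∀ l ∈ L, ⁅((q.out : L) : K), l⁆ = ⁅((q'.out : L) : K), l⁆ := by
        intro l hl
        have h3 := congrFun hq ⟨l, hl⟩
        have h4 : ζ ⟨_, hc ⟨l, hl⟩ q.out⟩ = ζ ⟨_, hc ⟨l, hl⟩ q'.out⟩ := Units.ext h3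
        have h5 := congrArg Subtype.val (h.inj h4)
        rw [← commutatorElement_inv, ← commutatorElement_inv l]
        exact congrArg Inv.inv h5
      have h6 := comm_eq_Pr2b h1
      rw [hZ] at h6
      rw [← q.out_eq', ← q'.out_eq']
      exact QuotientGroup.eq.2 (Subgroup.mem_subgroupOf.2 h6)
    · intro q l
      ext w
      rw [hρ, LinearMap.smul_apply]
      change (l : K) • ((q.out : L) : K) • ((l⁻¹ : L) : K) • w =
        (ζ ⟨_, hc l q.out⟩ : F) • ((q.out : L) : K) • w
      rw [← h.act, smul_smul, smul_smul, smul_smul]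
      congr 1
      change (l : K) * ((q.out : L) : K) * (l : K)⁻¹ = ⁅(l : K), ((q.out : L) : K)⁆ * _
      rw [commutatorElement_def]
      group
  have : Module.Finite F W := Module.Finite.of_finite
  have : Fintype (L ⧸ Z.subgroupOf L) := Fintype.ofFinite _
  have h3 := hli.fintype_card_le_finrank
  rw [Module.finrank_linearMap, ← Nat.card_eq_fintype_card] at h3
  rw [sq]
  exact h3

theorem FS.relIndex_cent (h : FS K W F Z ζ σ) {L : Subgroup K} [L.Normal]
    (hZ : Subgroup.centralizer (L : Set K) = Z) (hL : Z ≤ L) :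
    Z.relIndex (Subgroup.centralizer (Z : Set K)) ≤
      Z.relIndex L * Z.relIndex L ^ Nat.log 2 (Z.relIndex L) := by
  classical
  have hN : Z.Normal := by
    rw [← hZ]
    infer_instance
  have hZL : ∀ z ∈ Z, ∀ l ∈ L, l * z = z * l := by
    intro z hz l hl
    rw [← hZ] at hz
    exact Subgroup.mem_centralizer_iff.1 hz l hl
  let π : K →* K ⧸ Z := QuotientGroup.mk' Z
  have hπ : Function.Surjective π := QuotientGroup.mk'_surjective Z
  let A : Subgroup (K ⧸ Z) := L.map π
  have : A.Normal := Subgroup.Normal.map inferInstance π hπ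
  let D : Subgroup K := (Subgroup.centralizer (A : Set (K ⧸ Z))).comap π
  let C : Subgroup K := Subgroup.centralizer (Z : Set K)
  have hA : Nat.card A = Z.relIndex L := by
    have h1 := Subgroup.relIndex_ker (K := L) π
    rw [QuotientGroup.ker_mk'] at h1
    exact h1.symm
  have hD : D.index ≤ Z.relIndex L ^ Nat.log 2 (Z.relIndex L) := by
    rw [Subgroup.index_comap_of_surjective _ hπ, ← hA]
    exact index_centralizer_le A
  have hZC : Z ≤ C := by
    intro z hz
    rw [Subgroup.mem_centralizer_iff]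
    intro y hy
    exact hZL z hz y (hL hy)
  have hZD : Z ≤ D := by
    intro z hz
    rw [Subgroup.mem_comap]
    have : π z = 1 := (QuotientGroup.eq_one_iff z).2 hz
    rw [this]
    exact one_mem _
  have hc : ∀ c ∈ D, ∀ l ∈ L, ⁅c, l⁆ ∈ Z := by
    intro c hcD l hl
    rw [Subgroup.mem_comap, Subgroup.mem_centralizer_iff] at hcD
    have h1 := hcD (π l) (Subgroup.mem_map_of_mem π hl)
    rw [← QuotientGroup.eq_one_iff]
    change π ⁅c, l⁆ = 1
    rw [map_commutatorElement, commutatorElement_eq_one_iff_mul_comm]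
    exact h1.symm
  have h1 : (D ⊓ C).relIndex C ≤ D.index := by
    rw [Subgroup.inf_relIndex_right, ← Subgroup.relIndex_top_right]
    refine Subgroup.relIndex_le_of_le_right le_top ?_
    rw [Subgroup.relIndex_top_right]
    exact Subgroup.FiniteIndex.index_ne_zero
  have h2 : Z.relIndex (D ⊓ C) ≤ Z.relIndex L := by
    let x : (D ⊓ C : Subgroup K) → (L →* Fˣ) := fun c =>
      MonoidHom.mk' (fun l => ζ ⟨⁅(c : K), (l : K)⁆, hc c c.2.1 l l.2⟩) (by
        intro a b
        rw [← map_mul]
        congr 1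
        apply Subtype.ext
        change ⁅(c : K), (a : K) * (b : K)⁆ = ⁅(c : K), (a : K)⁆ * ⁅(c : K), (b : K)⁆
        have h3 := hZL _ (hc c c.2.1 b b.2) a a.2
        calc ⁅(c : K), (a : K) * (b : K)⁆
            = ⁅(c : K), (a : K)⁆ * ((a : K) * ⁅(c : K), (b : K)⁆) * (a : K)⁻¹ := by
              simp only [commutatorElement_def]
              group
          _ = _ := by
              rw [h3]
              group)
    have hx : ∀ c : (D ⊓ C : Subgroup K), ∀ l : L, (l : K) ∈ Z → x c l = 1 := by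
      intro c l hl
      have h3 : ⁅(c : K), (l : K)⁆ = 1 := by
        rw [commutatorElement_eq_one_iff_mul_comm]
        exact (Subgroup.mem_centralizer_iff.1 c.2.2 l hl).symm
      change ζ ⟨⁅(c : K), (l : K)⁆, _⟩ = 1
      rw [← map_one ζ]
      congr 1
      exact Subtype.ext h3
    let f : (D ⊓ C : Subgroup K) ⧸ Z.subgroupOf (D ⊓ C) → Ch F L Z := fun q =>
      Ch.mk (x q.out) (hx q.out)
    have hf : Function.Injective f := by
      intro q q' hq
      have h3 : x q.out = x q'.out := congrArg Ch.val hq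
      have h4 : ∀ l ∈ L, ⁅((q.out : (D ⊓ C : Subgroup K)) : K), l⁆ =
          ⁅((q'.out : (D ⊓ C : Subgroup K)) : K), l⁆ := by
        intro l hl
        have h5 := DFunLike.congr_fun h3 ⟨l, hl⟩
        exact congrArg Subtype.val (h.inj h5)
      have h6 := comm_eq_Pr2b h4
      rw [hZ] at h6
      rw [← q.out_eq', ← q'.out_eq']
      exact QuotientGroup.eq.2 (Subgroup.mem_subgroupOf.2 h6)
    have := ch_finite (k := F) L Z
    exact (Nat.card_le_card_of_injective f hf).trans (ch_card_le L Z)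
  rw [← Subgroup.relIndex_mul_relIndex Z (D ⊓ C) C (le_inf hZD hZC) inf_le_right]
  exact Nat.mul_le_mul h2 (h1.trans hD)

end Pool.Agent.Lib.MP_98dfd6_al
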