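import Pool.Agent.Lib.MP_98dfd6_al.Pr2b
import Pool.Agent.Lib.MP_98dfd6_al.Num2
import Pool.Agent.Lib.MP_98dfd6_al.Ops
import Pool.Agent.Lib.MP_98dfd6_al.Win

/-! Primitive solvable groups with few orbits of each size. -/

namespace Pool.Agent.Lib.MP_98dfd6_al

open MulAction

theorem prim_struct (m : ℕ) {p : ℕ} (hp : p.Prime) : ∃ C,
    ∀ (K W : Type) [Group K] [Finite K] [Group.IsSolvable K] [AddCommGroup W] [Finite W]
      [DistribMulAction K W] [FaithfulSMul K W] (m' : ℕ), Irr K W → Prim K W → Mult K W m →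
      Lin p K m' →
      (Nat.card W ≤ C * m' ^ (2 * p) ∧ Nat.card K ≤ C * m' ^ (4 * p)) ∨
        ∀ a b : K, a * b = b * a := by
  obtain ⟨C₁, h₁⟩ := num_sympl m
  obtain ⟨C₂, h₂⟩ := num_galois m hp
  refine ⟨C₁ + C₁.factorial + C₂ + C₂ ^ 2, fun K W _ _ _ _ _ _ _ m' hI hP hM hL => ?_⟩
  have := hI.1
  have hm' : 1 ≤ m' := hL.pos
  obtain ⟨L, hLn, hL1, hL2⟩ := exists_two K
  set Z := Subgroup.centralizer (L : Set K) with hZ
  have : Z.Normal := Subgroup.normal_centralizer
  have hZc : ∀ a ∈ Z, ∀ b ∈ Z, a * b = b * a := fun a ha b hb =>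
    (Subgroup.mem_centralizer_iff.mp hb a (hL1 ha))
  obtain ⟨F, _, _, _, ζ, σ, h⟩ := exists_field hI hP Z hZc
  have : Module.Finite F W := Module.Finite.of_finite
  obtain ⟨y, hy, hyF⟩ := h.gal
  have hr := h.relIndex_le hZ.symm hL2
  have hc := h.relIndex_cent hZ.symm hL1
  have hcount := free_count hM Z h.free
  have hW : Nat.card W = Nat.card F ^ Module.finrank F W := Module.natCard_eq_pow_finrank
  have hZle : Z ≤ Subgroup.centralizer (Z : Set K) := fun a ha =>
    Subgroup.mem_centralizer_iff.mpr fun b hb => hZc b hb a ha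
  have hidx : Z.index = (Subgroup.centralizer (Z : Set K)).index *
      Z.relIndex (Subgroup.centralizer (Z : Set K)) := by
    rw [mul_comm, Subgroup.relIndex_mul_index hZle]
  have hF2 : 2 ≤ Nat.card F := Finite.one_lt_card
  have hzd := h.card_dvd
  have hz : Nat.card Z ≤ Nat.card F - 1 := Nat.le_of_dvd (by omega) hzd
  have h1 : 1 ≤ m' ^ (2 * p) := Nat.one_le_pow _ _ hm'
  have h1' : 1 ≤ m' ^ (4 * p) := Nat.one_le_pow _ _ hm'
  have he0 : Module.finrank F W ≠ 0 := Module.finrank_pos.ne'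
  by_cases he : 2 ≤ Module.finrank F W
  · left
    have hb : Nat.card W ≤ C₁ := by
      rw [hW]
      refine h₁ _ _ (Subgroup.centralizer (Z : Set K)).index (Z.relIndex L) (Nat.card Z) Z.index
        he hF2 ?_ hz hr ?_ (hW ▸ hcount)
      · rw [hyF]
        exact Nat.pow_le_pow_left hy _
      · rw [hidx]
        exact Nat.mul_le_mul_left _ hc
    have hk : Nat.card K ≤ C₁.factorial := card_le_of_faithful hb
    constructor
    · calc Nat.card W ≤ (C₁ + C₁.factorial + C₂ + C₂ ^ 2) * 1 := by omega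
        _ ≤ _ := Nat.mul_le_mul_left _ h1
    · calc Nat.card K ≤ (C₁ + C₁.factorial + C₂ + C₂ ^ 2) * 1 := by omega
        _ ≤ _ := Nat.mul_le_mul_left _ h1'
  · have he1 : Module.finrank F W = 1 := by omega
    rw [he1] at hr hW
    have hr0 : Z.relIndex L ≠ 0 := Subgroup.index_ne_zero_of_finite
    have hLZ : L ≤ Z := Subgroup.relIndex_eq_one.mp (by omega)
    have hLe : L = Z := le_antisymm hLZ hL1
    have hcz : Subgroup.centralizer (Z : Set K) = Z := by
      conv_lhs => rw [← hLe]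
    rw [hcz] at hyF
    rw [pow_one] at hW
    by_cases hf : 2 ≤ Z.index
    · left
      obtain ⟨a, c, -, hac, hcm⟩ := hL.abelian hp Z hZc
      rw [hW, hyF, hac] at hcount
      rw [hyF, hac] at hzd
      have hb : Nat.card W ≤ C₂ * m' ^ (2 * p) := by
        rw [hW, hyF]
        exact h₂ m' y Z.index a c hy hf hzd hcm hcount
      have hf2 : Z.index ≤ Nat.card W := by
        rw [hW, hyF]
        exact (Nat.lt_pow_self (by omega)).le
      have hk : Nat.card K ≤ Nat.card W * Nat.card W := by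
        rw [← Z.card_mul_index]
        exact Nat.mul_le_mul (by omega) hf2
      constructor
      · exact hb.trans (Nat.mul_le_mul_right _ (by omega))
      · calc Nat.card K ≤ C₂ * m' ^ (2 * p) * (C₂ * m' ^ (2 * p)) :=
              hk.trans (Nat.mul_le_mul hb hb)
          _ = C₂ ^ 2 * m' ^ (4 * p) := by ring
          _ ≤ _ := Nat.mul_le_mul_right _ (by omega)
    · right
      have h0 : Z.index ≠ 0 := Subgroup.index_ne_zero_of_finite
      have ht : Z = ⊤ := Subgroup.index_eq_one.mp (by omega)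
      intro a b
      exact hZc a (ht ▸ Subgroup.mem_top a) b (ht ▸ Subgroup.mem_top b)

end Pool.Agent.Lib.MP_98dfd6_al
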