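import Pool.Agent.Lib.MP_98dfd6_al.Chr

/-! Simple modules inside coinduced modules. -/

namespace Pool.Agent.Lib.MP_98dfd6_al

open MulAction

variable {k G : Type} [Field k] [Group G] [Finite G]

omit [Finite G] in
theorem exists_irr_rep1 {W : Type} [AddCommGroup W] [Module k W] [Module.Finite k W]
    [Nontrivial W] (σ : Representation k G W) :
    ∃ (d : ℕ) (ρ : Representation k G (Fin d → k)) (ψ : (Fin d → k) →ₗ[k] W), ρ.IsIrreducible ∧
      d ≤ Module.finrank k W ∧ Function.Injective ψ ∧ 0 < d ∧ ∀ g v, ψ (ρ g v) = σ g (ψ v) := by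
  classical
  have hex : ∃ n : ℕ, ∃ S : Submodule k W, S ≠ ⊥ ∧ (∀ g, ∀ v ∈ S, σ g v ∈ S) ∧
      Module.finrank k S = n := ⟨_, ⊤, top_ne_bot, fun _ _ _ => Submodule.mem_top, rfl⟩
  obtain ⟨S, hS0, hSinv, hSd⟩ := Nat.find_spec hex
  set d := Nat.find hex with hd
  have hmin : ∀ T : Submodule k W, T ≠ ⊥ → (∀ g, ∀ v ∈ T, σ g v ∈ T) → d ≤ Module.finrank k T :=
    fun T h0 h1 => Nat.find_min' hex ⟨T, h0, h1, rfl⟩
  let e : (Fin d → k) ≃ₗ[k] S :=
    LinearEquiv.ofFinrankEq _ _ (by rw [hSd]; simp)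
  let τ : Representation k G S := (⟨S, fun g v hv => hSinv g v hv⟩ :
    Subrepresentation σ).toRepresentation
  let ρ : Representation k G (Fin d → k) :=
    { toFun := fun g => e.symm.toLinearMap ∘ₗ τ g ∘ₗ e.toLinearMap
      map_one' := by ext1; simp [LinearMap.ext_iff]
      map_mul' := fun x y => by
        refine LinearMap.ext fun v => ?_
        simp }
  let ψ : (Fin d → k) →ₗ[k] W := S.subtype ∘ₗ e.toLinearMap
  have hψ : Function.Injective ψ := S.injective_subtype.comp e.injective
  have hint : ∀ g v, ψ (ρ g v) = σ g (ψ v) := by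
    intro g v
    change ((e (e.symm (τ g (e v))) : S) : W) = σ g (e v)
    rw [e.apply_symm_apply]
    rfl
  have hdpos : 0 < d := by
    rw [← hSd]
    exact Module.finrank_pos_iff.mpr (Submodule.nontrivial_iff_ne_bot.mpr hS0)
  refine ⟨d, ρ, ψ, ?_, ?_, hψ, hdpos, hint⟩
  · have : Nonempty (Fin d) := ⟨⟨0, hdpos⟩⟩
    have : Nontrivial (Subrepresentation ρ) := ⟨⊥, ⊤, fun h => by
      have h2 : (⊥ : Submodule k (Fin d → k)) = ⊤ := congrArg Subrepresentation.toSubmodule h
      exact bot_ne_top h2⟩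
    refine ⟨fun T => ?_⟩
    by_cases hT : T.toSubmodule = ⊥
    · exact Or.inl (Subrepresentation.toSubmodule_injective hT)
    · right
      apply Subrepresentation.toSubmodule_injective
      have h1 : T.toSubmodule.map ψ ≠ ⊥ := by
        intro h
        apply hT
        rw [eq_bot_iff]
        intro v hv
        have : ψ v ∈ T.toSubmodule.map ψ := Submodule.mem_map_of_mem hv
        rw [h, Submodule.mem_bot] at this
        rw [Submodule.mem_bot]
        exact hψ (by rw [this, map_zero])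
      have h2 : ∀ g, ∀ v ∈ T.toSubmodule.map ψ, σ g v ∈ T.toSubmodule.map ψ := by
        rintro g _ ⟨v, hv, rfl⟩
        rw [← hint]
        exact Submodule.mem_map_of_mem (T.apply_mem_toSubmodule g hv)
      have h3 := hmin _ h1 h2
      have h4 : Module.finrank k (T.toSubmodule.map ψ) ≤ Module.finrank k T.toSubmodule :=
        Submodule.finrank_map_le _ _
      have h5 : Module.finrank k T.toSubmodule ≤ d := by
        simpa using Submodule.finrank_le T.toSubmodule
      change T.toSubmodule = ⊤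
      apply Submodule.eq_top_of_finrank_eq
      simp only [Module.finrank_fintype_fun_eq_card, Fintype.card_fin]
      omega
  · rw [← hSd]
    exact Submodule.finrank_le S

theorem exists_simple (U : Subgroup G) {V : Type} [AddCommGroup V] [Module k V]
    [Module.Finite k V] [Nontrivial V] (θ : Representation k U V) :
    ∃ (d : ℕ) (ρ : Representation k G (Fin d → k)) (φ : (Fin d → k) →ₗ[k] V), ρ.IsIrreducible ∧
      d ≤ U.index * Module.finrank k V ∧ φ ≠ 0 ∧ ∀ (u : U) (v), φ (ρ u v) = θ u (φ v) := by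
  classical
  have : Fintype (G ⧸ U) := Fintype.ofFinite _
  let r : Representation.coindV U.subtype θ →ₗ[k] (G ⧸ U → V) :=
    { toFun := fun f q => f.1 (q.out)⁻¹
      map_add' := fun _ _ => rfl
      map_smul' := fun _ _ => rfl }
  have hr : Function.Injective r := by
    rw [← LinearMap.ker_eq_bot, eq_bot_iff]
    intro f hf
    rw [LinearMap.mem_ker] at hf
    rw [Submodule.mem_bot]
    apply Subtype.ext
    funext g
    obtain ⟨u, hu⟩ := QuotientGroup.mk_out_eq_mul U g⁻¹
    have h1 : f.1 ((QuotientGroup.mk g⁻¹ : G ⧸ U).out)⁻¹ = 0 := congrFun hf _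
    have h2 := f.2 u ((QuotientGroup.mk g⁻¹ : G ⧸ U).out)⁻¹
    rw [h1, map_zero, hu] at h2
    simpa using h2
  have hfin : Module.finrank k (Representation.coindV U.subtype θ) ≤
      U.index * Module.finrank k V := by
    have := LinearMap.finrank_le_finrank_of_injective hr
    rw [Module.finrank_pi_fintype] at this
    simpa [Subgroup.index, Nat.card_eq_fintype_card] using this
  obtain ⟨v0, hv0⟩ := exists_ne (0 : V)
  let f0 : Representation.coindV U.subtype θ :=
    ⟨fun g => if h : g ∈ U then θ ⟨g, h⟩ v0 else 0, by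
      intro u g
      beta_reduce
      by_cases hg : g ∈ U
      · have h2 : U.subtype u * g ∈ U := U.mul_mem u.2 hg
        rw [dif_pos h2, dif_pos hg, ← Module.End.mul_apply, ← map_mul]
        rfl
      · have h2 : U.subtype u * g ∉ U := fun h => hg ((U.mul_mem_cancel_left u.2).mp h)
        rw [dif_neg h2, dif_neg hg, map_zero]⟩
  have : Nontrivial (Representation.coindV U.subtype θ) := ⟨f0, 0, fun h => by
    have h1 : f0.1 1 = 0 := by rw [h]; rfl
    have h2 : f0.1 1 = v0 := by
      change (if h : (1 : G) ∈ U then θ ⟨1, h⟩ v0 else 0) = v0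
      rw [dif_pos U.one_mem]
      change θ 1 v0 = v0
      simp
    exact hv0 (h2.symm.trans h1)⟩
  obtain ⟨d, ρ, ψ, hirr, hd, hψ, hd0, hint⟩ :=
    exists_irr_rep1 (Representation.coind U.subtype θ)
  let ev : Representation.coindV U.subtype θ →ₗ[k] V :=
    { toFun := fun f => f.1 1
      map_add' := fun _ _ => rfl
      map_smul' := fun _ _ => rfl }
  refine ⟨d, ρ, ev ∘ₗ ψ, hirr, hd.trans hfin, ?_, ?_⟩
  · intro h
    have : Nonempty (Fin d) := ⟨⟨0, hd0⟩⟩
    obtain ⟨w, hw⟩ := exists_ne (0 : Fin d → k)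
    apply hw
    apply hψ
    rw [map_zero]
    apply Subtype.ext
    funext g
    have h1 : ev (ψ (ρ g w)) = 0 := LinearMap.congr_fun h (ρ g w)
    rw [hint] at h1
    have h2 : (ψ w).1 (1 * g) = 0 := h1
    rw [one_mul] at h2
    exact h2
  · intro u v
    change ev (ψ (ρ u v)) = θ u (ev (ψ v))
    rw [hint]
    change (ψ v).1 (1 * (u : G)) = θ u ((ψ v).1 1)
    rw [← (ψ v).2 u 1, one_mul, mul_one]
    rfl

theorem exists_simple_char (U : Subgroup G) (lam : U →* kˣ) :
    ∃ (d : ℕ) (ρ : Representation k G (Fin d → k)) (φ : (Fin d → k) →ₗ[k] k), ρ.IsIrreducible ∧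
      d ≤ U.index ∧ φ ≠ 0 ∧ ∀ (u : U) (v), φ (ρ u v) = lam u * φ v := by
  let θ : Representation k U k :=
    { toFun := fun u => LinearMap.lsmul k k (lam u : k)
      map_one' := by ext; simp
      map_mul' := fun x y => by ext; simp }
  obtain ⟨d, ρ, φ, h1, h2, h3, h4⟩ := exists_simple U θ
  refine ⟨d, ρ, φ, h1, by simpa using h2, h3, fun u v => ?_⟩
  rw [h4]
  rfl

end Pool.Agent.Lib.MP_98dfd6_al
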