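import Pool.Agent.Lib.MP_98dfd6_al.Rep1

/-! Counting isomorphism classes. -/

namespace Pool.Agent.Lib.MP_98dfd6_al

open MulAction

variable {k G : Type} [Field k] [Group G] [Finite G]

theorem class_count {m : ℕ} (hB : BrLe k G m) {ι : Type} [Fintype ι] {d c : ℕ}
    (ρ : ι → Representation k G (Fin d → k)) (hi : ∀ i, (ρ i).IsIrreducible)
    (hc : ∀ (i : ι) (T : Finset ι), (∀ j ∈ T, Nonempty ((ρ j).Equiv (ρ i))) → T.card ≤ c) :
    Fintype.card ι ≤ m * c := by
  classical
  let S : Setoid ι := ⟨fun i j => Nonempty ((ρ i).Equiv (ρ j)), fun i => ⟨.refl _⟩,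
    fun ⟨e⟩ => ⟨e.symm⟩, fun ⟨e⟩ ⟨e'⟩ => ⟨e.trans e'⟩⟩
  have hq : Fintype.card (Quotient S) ≤ m := by
    let e := Fintype.equivFin (Quotient S)
    refine hB d _ (fun a => ρ (e.symm a).out) (fun a => hi _) fun a b hab => ?_
    apply e.symm.injective
    rw [← (e.symm a).out_eq, ← (e.symm b).out_eq]
    exact Quotient.sound hab
  have h1 := Finset.card_le_mul_card_image_of_maps_to (s := (Finset.univ : Finset ι))
    (t := (Finset.univ : Finset (Quotient S))) (f := Quotient.mk S)
    (fun _ _ => Finset.mem_univ _) c fun q _ => hc q.out _ fun j hj => by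
      have h2 := (Finset.mem_filter.mp hj).2
      rw [← q.out_eq] at h2
      exact Quotient.exact h2
  rw [Finset.card_univ, Finset.card_univ] at h1
  exact h1.trans (by rw [mul_comm]; exact Nat.mul_le_mul_right _ hq)

theorem card_le_of_eigen {U ι : Type} [Fintype ι] {d : ℕ} (ρ : U → (Fin d → k) →ₗ[k] (Fin d → k))
    (φ : ι → (Fin d → k) →ₗ[k] k) (χ : ι → U → k) (hφ : ∀ i, φ i ≠ 0)
    (hχ : Function.Injective χ) (h : ∀ i u v, φ i (ρ u v) = χ i u * φ i v) :
    Fintype.card ι ≤ d := by
  have h1 := indepV (k := k) (V := Module.Dual k (Fin d → k)) (fun u => (ρ u).dualMap) φ χ hφ hχ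
    fun i u => LinearMap.ext fun v => h i u v
  have h2 := h1.fintype_card_le_finrank
  rwa [Subspace.dual_finrank_eq, Module.finrank_fin_fun] at h2

theorem BrLe.of_surj {G' : Type} [Group G'] {m : ℕ} (hB : BrLe k G m) (f : G →* G')
    (hf : Function.Surjective f) : BrLe k G' m := by
  intro d n ρ hi hne
  refine hB d n (fun i => (ρ i).comp f) (fun i => ?_) fun i j ⟨e⟩ => hne i j ⟨?_⟩
  · have := hi i
    let o : Subrepresentation ((ρ i).comp f) ≃o Subrepresentation (ρ i) :=
      { toFun := fun S => ⟨S.toSubmodule, fun g v hv => by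
          obtain ⟨x, rfl⟩ := hf g
          exact S.apply_mem_toSubmodule x hv⟩
        invFun := fun S => ⟨S.toSubmodule, fun g v hv => S.apply_mem_toSubmodule (f g) hv⟩
        left_inv := fun _ => rfl
        right_inv := fun _ => rfl
        map_rel_iff' := Iff.rfl }
    exact o.isSimpleOrder
  · refine Representation.Equiv.mk e.toLinearEquiv fun g => ?_
    obtain ⟨x, rfl⟩ := hf g
    exact e.isIntertwining' x

end Pool.Agent.Lib.MP_98dfd6_al
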