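import Mathlib

/-! Multiplicities of Brauer degrees: the definition used in the statement. -/

namespace Pool.Agent.Lib.MP_98dfd6_al

/-- Every degree `d` occurs at most `m` times among the isomorphism classes of irreducible
representations of `G` over `k`. -/
def BrLe (k G : Type) [Field k] [Group G] (m : ℕ) : Prop :=
  ∀ (d n : ℕ) (ρ : Fin n → Representation k G (Fin d → k)),
    (∀ i, (ρ i).IsIrreducible) → (∀ i j, Nonempty ((ρ i).Equiv (ρ j)) → i = j) → n ≤ m

end Pool.Agent.Lib.MP_98dfd6_al
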